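import Pool.Agent.JC3.Basic

/-!
A1: duplicate free blocks give block words.  A2: row symmetric functions are multiples of z.
A3: z is row symmetric.
-/

set_option autoImplicit false

namespace Pool.Agent.JC3.AuxA

/-- number of letters less than j -/
def cntLt (j : ℕ) (l : List ℕ) : ℕ := l.countP (fun x => decide (x < j))

lemma cntLt_append (j : ℕ) (l m : List ℕ) : cntLt j (l ++ m) = cntLt j l + cntLt j m := by
  simp [cntLt]

lemma rowWord_cons (b : ℕ) (κ : List ℕ) : rowWord (b :: κ) = List.range b ++ rowWord κ := by
  simp [rowWord]

/-- a duplicate free list has at most min(length, j) letters less than j -/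
lemma cntLt_nodup {l : List ℕ} (h : l.Nodup) (j : ℕ) : cntLt j l ≤ min l.length j := by
  refine le_min List.countP_le_length ?_
  unfold cntLt
  rw [List.countP_eq_length_filter]
  have h1 : (l.filter (fun x => decide (x < j))).Nodup := h.filter _
  have h2 : l.filter (fun x => decide (x < j)) ⊆ List.range j := by
    intro x hx
    rw [List.mem_filter] at hx
    exact List.mem_range.2 (by simpa using hx.2)
  have h3 := (List.subperm_of_subset h1 h2).length_le
  simpa using h3

lemma cntLt_range (b j : ℕ) : cntLt j (List.range b) = min b j := by
  induction b with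
  | zero => simp [cntLt]
  | succ b ih =>
    rw [List.range_succ, cntLt_append, ih]
    by_cases h : b < j
    · simp [cntLt, h]; omega
    · simp [cntLt, h]; omega

lemma cntLt_rowWord (κ : List ℕ) (j : ℕ) : cntLt j (rowWord κ) = (κ.map (fun b => min b j)).sum := by
  induction κ with
  | nil => simp [rowWord, cntLt]
  | cons b κ ih => rw [rowWord_cons, cntLt_append, ih, cntLt_range]; simp

lemma cntLt_le_of_blocks : ∀ (κ w : List ℕ), w.length = κ.sum → BlocksNodup κ w → ∀ j,
    cntLt j w ≤ (κ.map (fun b => min b j)).sum
  | [], w, hw, _, j => by
    have : w = [] := List.length_eq_zero_iff.1 (by simpa using hw)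
    subst this
    simp [cntLt]
  | b :: κ, w, hw, h, j => by
    rw [List.sum_cons] at hw
    have h1 := cntLt_nodup h.1 j
    have h2 := cntLt_le_of_blocks κ (w.drop b) (by rw [List.length_drop]; omega) h.2 j
    rw [List.length_take] at h1
    have h3 : cntLt j w = cntLt j (w.take b) + cntLt j (w.drop b) := by
      rw [← cntLt_append, List.take_append_drop]
    rw [List.map_cons, List.sum_cons, h3]
    have h4 : min b w.length = b := by omega
    rw [h4] at h1
    omega

lemma isBlockWord_of_cnt : ∀ (κ w : List ℕ), w.length = κ.sum → BlocksNodup κ w →
    (∀ j, (κ.map (fun b => min b j)).sum ≤ cntLt j w) → IsBlockWord κ w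
  | [], w, hw, _, _ => by
    have : w = [] := List.length_eq_zero_iff.1 (by simpa using hw)
    subst this
    rfl
  | b :: κ, w, hw, h, hc => by
    rw [List.sum_cons] at hw
    have hlen : (w.take b).length = b := by rw [List.length_take]; omega
    have hd : (w.drop b).length = κ.sum := by rw [List.length_drop]; omega
    have h3 : ∀ j, cntLt j w = cntLt j (w.take b) + cntLt j (w.drop b) := by
      intro j; rw [← cntLt_append, List.take_append_drop]
    have hA : ∀ j, cntLt j (w.take b) ≤ min b j := by
      intro j
      have := cntLt_nodup h.1 j
      rwa [hlen] at this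
    have hB : ∀ j, cntLt j (w.drop b) ≤ (κ.map (fun b => min b j)).sum :=
      cntLt_le_of_blocks κ _ hd h.2
    have hC : ∀ j, min b j + (κ.map (fun b => min b j)).sum ≤
        cntLt j (w.take b) + cntLt j (w.drop b) := by
      intro j
      have := hc j
      rw [List.map_cons, List.sum_cons, h3 j] at this
      exact this
    refine ⟨?_, isBlockWord_of_cnt κ _ hd h.2 (fun j => ?_)⟩
    · have h1 : cntLt b (w.take b) = (w.take b).length := by
        have := hC b
        have := hB b
        have := hA b
        rw [hlen]
        omega
      unfold cntLt at h1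
      rw [List.countP_eq_length] at h1
      have h2 : w.take b ⊆ List.range b := by
        intro x hx
        exact List.mem_range.2 (by simpa using h1 x hx)
      have h4 := List.subperm_of_subset h.1 h2
      exact h4.perm_of_length_le (by rw [hlen]; simp)
    · have := hC j
      have := hA j
      omega

end Pool.Agent.JC3.AuxA

namespace Pool.Agent.JC3

open AuxA

theorem A1_proof : StmtA1 := by
  intro κ w hw h
  refine isBlockWord_of_cnt κ w (length_of_perm hw) h (fun j => ?_)
  rw [← cntLt_rowWord]
  unfold cntLt
  rw [hw.countP_eq]

end Pool.Agent.JC3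

namespace Pool.Agent.JC3.AuxA

/-! ### functions invariant under exchanges in a block -/

section
variable {A : Type}

/-- invariance under a permutation of the letters of a block -/
lemma inv_of_perm (f : List ℕ → A) {l l' : List ℕ} (hl : l.Perm l') :
    ∀ (u v : List ℕ),
      (∀ k, u.length ≤ k → k + 1 < u.length + l.length → ∀ w, f (swapAt k w) = f w) →
      f (u ++ l ++ v) = f (u ++ l' ++ v) := by
  induction hl with
  | nil => intro u v _; rfl
  | cons x h ih =>
    intro u v hk
    have := ih (u ++ [x]) v (fun k h1 h2 w => hk k (by simp at h1; omega) (by simp at h2 ⊢; omega) w)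
    simpa using this
  | swap x y l =>
    intro u v hk
    have := hk u.length le_rfl (by simp) (u ++ x :: y :: (l ++ v))
    rw [swapAt_append] at this
    simpa using this
  | trans h1 h2 ih1 ih2 =>
    intro u v hk
    rw [ih1 u v hk]
    exact ih2 u v (by rw [← h1.length_eq]; exact hk)

/-- a function which is invariant under row exchanges is constant on block words -/
lemma const_of_block (f : List ℕ → A) : ∀ (κ : List ℕ) (u w : List ℕ),
    (∀ k, RowIdx κ k → ∀ w, f (swapAt (u.length + k) w) = f w) → IsBlockWord κ w →
    f (u ++ w) = f (u ++ rowWord κ)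
  | [], u, w, _, h => by
    have : w = [] := h
    subst this
    rfl
  | b :: κ, u, w, hk, h => by
    have h1 : (w.take b).length = b := by rw [h.1.length_eq]; simp
    have e1 : f (u ++ w) = f (u ++ w.take b ++ w.drop b) := by
      rw [List.append_assoc, List.take_append_drop]
    have e2 : f (u ++ w.take b ++ w.drop b) = f (u ++ List.range b ++ w.drop b) := by
      apply inv_of_perm f h.1
      intro k h2 h3 w'
      have := hk (k - u.length) (Or.inl (by omega)) w'
      rwa [show u.length + (k - u.length) = k by omega] at this
    have e3 := const_of_block f κ (u ++ List.range b) (w.drop b) (by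
      intro k hk' w'
      have := hk (b + k) (Or.inr ⟨by omega, by rwa [show b + k - b = k by omega]⟩) w'
      rw [← this]
      simp [Nat.add_assoc]) h.2
    rw [e1, e2, e3, rowWord_cons, List.append_assoc]

end

section
variable {A : Type} [CommRing A]

/-- a function which is invariant under row exchanges and vanishes at words with equal adjacent
letters in a block vanishes unless the blocks are duplicate free -/
lemma nodup_of_ne (f : List ℕ → A) : ∀ (κ : List ℕ) (u w : List ℕ),
    (∀ k, RowIdx κ k → ∀ w, f (swapAt (u.length + k) w) = f w) →
    (∀ k, RowIdx κ k → ∀ w, w.getD (u.length + k) 0 = w.getD (u.length + k + 1) 0 → f w = 0) →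
    w.length = κ.sum → f (u ++ w) ≠ 0 → BlocksNodup κ w
  | [], u, w, _, _, _, _ => trivial
  | b :: κ, u, w, hk, h0, hw, hf => by
    rw [List.sum_cons] at hw
    have h1 : (w.take b).length = b := by rw [List.length_take]; omega
    refine ⟨?_, ?_⟩
    · by_contra hd
      rw [← List.exists_duplicate_iff_not_nodup] at hd
      obtain ⟨x, hx⟩ := hd
      rw [List.duplicate_iff_sublist] at hx
      obtain ⟨l, hl⟩ := hx.exists_perm_append
      have hlen := hl.length_eq
      rw [h1] at hlen
      simp only [List.length_append, List.length_cons, List.length_nil] at hlen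
      apply hf
      have e1 : f (u ++ w) = f (u ++ w.take b ++ w.drop b) := by
        rw [List.append_assoc, List.take_append_drop]
      have e2 : f (u ++ w.take b ++ w.drop b) = f (u ++ ([x, x] ++ l) ++ w.drop b) := by
        apply inv_of_perm f hl
        intro k h2 h3 w'
        rw [h1] at h3
        have := hk (k - u.length) (Or.inl (by omega)) w'
        rwa [show u.length + (k - u.length) = k by omega] at this
      rw [e1, e2]
      apply h0 0 (Or.inl (by omega))
      have e3 : u ++ ([x, x] ++ l) ++ w.drop b = u ++ x :: x :: (l ++ w.drop b) := by simp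
      rw [e3, Nat.add_zero, getD_split0, getD_split1]
    · apply nodup_of_ne f κ (u ++ w.take b) (w.drop b)
      · intro k hk' w'
        have := hk (b + k) (Or.inr ⟨by omega, by rwa [show b + k - b = k by omega]⟩) w'
        rw [← this, List.length_append, h1, Nat.add_assoc]
      · intro k hk' w' hw'
        refine h0 (b + k) (Or.inr ⟨by omega, by rwa [show b + k - b = k by omega]⟩) w' ?_
        rw [List.length_append, h1] at hw'
        rw [show u.length + (b + k) = u.length + b + k by omega]
        exact hw'
      · rw [List.length_drop]; omega
      · rw [List.append_assoc, List.take_append_drop]; exact hf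

end

/-! ### block words and exchanges -/

lemma take_swapAt_lt (w : List ℕ) (k b : ℕ) (h : k + 1 < b) :
    (swapAt k w).take b = swapAt k (w.take b) := by
  by_cases hw : k + 1 < w.length
  · obtain ⟨pre, x, y, post, rfl, rfl⟩ := exists_split w k hw
    obtain ⟨m, rfl⟩ : ∃ m, b = pre.length + (m + 2) := ⟨b - pre.length - 2, by omega⟩
    rw [swapAt_append, List.take_length_add_append, List.take_length_add_append]
    simp only [List.take_succ_cons]
    rw [swapAt_append]
  · rw [swapAt_short w k (by omega), swapAt_short]
    rw [List.length_take]; omega

lemma drop_swapAt_lt (w : List ℕ) (k b : ℕ) (h : k + 1 < b) :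
    (swapAt k w).drop b = w.drop b := by
  by_cases hw : k + 1 < w.length
  · obtain ⟨pre, x, y, post, rfl, rfl⟩ := exists_split w k hw
    obtain ⟨m, rfl⟩ : ∃ m, b = pre.length + (m + 2) := ⟨b - pre.length - 2, by omega⟩
    rw [swapAt_append, List.drop_length_add_append, List.drop_length_add_append]
    simp only [List.drop_succ_cons]
  · rw [swapAt_short w k (by omega)]

lemma take_swapAt_ge (w : List ℕ) (k b : ℕ) (h : b ≤ k) (hw : b ≤ w.length) :
    (swapAt k w).take b = w.take b := by
  have e : w = w.take b ++ w.drop b := (List.take_append_drop b w).symm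
  have hl : (w.take b).length = b := by rw [List.length_take]; omega
  have e2 : swapAt k w = w.take b ++ swapAt (k - b) (w.drop b) := by
    conv_lhs => rw [e]
    have := swapAt_append_left (w.take b) (w.drop b) (k - b)
    rw [hl, show b + (k - b) = k by omega] at this
    exact this
  rw [e2, List.take_left' hl]

lemma drop_swapAt_ge (w : List ℕ) (k b : ℕ) (h : b ≤ k) (hw : b ≤ w.length) :
    (swapAt k w).drop b = swapAt (k - b) (w.drop b) := by
  have e : w = w.take b ++ w.drop b := (List.take_append_drop b w).symm
  have hl : (w.take b).length = b := by rw [List.length_take]; omega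
  have e2 : swapAt k w = w.take b ++ swapAt (k - b) (w.drop b) := by
    conv_lhs => rw [e]
    have := swapAt_append_left (w.take b) (w.drop b) (k - b)
    rw [hl, show b + (k - b) = k by omega] at this
    exact this
  rw [e2, List.drop_left' hl]

lemma isBlockWord_swapAt : ∀ (κ w : List ℕ) (k : ℕ), RowIdx κ k → IsBlockWord κ w →
    IsBlockWord κ (swapAt k w)
  | [], _, _, hk, _ => hk.elim
  | b :: κ, w, k, hk, h => by
    have h1 : b ≤ w.length := by
      have := h.1.length_eq
      rw [List.length_take, List.length_range] at this
      omega
    rcases hk with hk | ⟨hk, hk'⟩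
    · refine ⟨?_, ?_⟩
      · rw [take_swapAt_lt w k b hk]
        exact (swapAt_perm _ _).trans h.1
      · rw [drop_swapAt_lt w k b hk]; exact h.2
    · refine ⟨?_, ?_⟩
      · rw [take_swapAt_ge w k b hk h1]; exact h.1
      · rw [drop_swapAt_ge w k b hk h1]
        exact isBlockWord_swapAt κ _ _ hk' h.2

lemma isBlockWord_ne : ∀ (κ w : List ℕ) (k : ℕ), RowIdx κ k → IsBlockWord κ w →
    w.getD k 0 ≠ w.getD (k + 1) 0
  | [], _, _, hk, _ => hk.elim
  | b :: κ, w, k, hk, h => by
    have h1 : b ≤ w.length := by
      have := h.1.length_eq
      rw [List.length_take, List.length_range] at this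
      omega
    rcases hk with hk | ⟨hk, hk'⟩
    · have hn : (w.take b).Nodup := h.1.nodup_iff.2 List.nodup_range
      obtain ⟨pre, x, y, post, rfl, rfl⟩ := exists_split w k (by omega)
      rw [getD_split0, getD_split1]
      obtain ⟨m, rfl⟩ : ∃ m, b = pre.length + (m + 2) := ⟨b - pre.length - 2, by omega⟩
      rw [List.take_length_add_append] at hn
      simp only [List.take_succ_cons] at hn
      rw [List.nodup_append] at hn
      have := hn.2.1
      rw [List.nodup_cons] at this
      intro e
      apply this.1
      rw [e]
      simp
    · have e : w = w.take b ++ w.drop b := (List.take_append_drop b w).symm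
      have hl : (w.take b).length = b := by rw [List.length_take]; omega
      have := isBlockWord_ne κ (w.drop b) (k - b) hk' h.2
      simp only [List.getD_eq_getElem?_getD, List.getElem?_drop] at this ⊢
      rwa [show b + (k - b) = k by omega, show b + (k - b + 1) = k + 1 by omega] at this

end Pool.Agent.JC3.AuxA

namespace Pool.Agent.JC3

open AuxA

theorem A2_proof : StmtA2 := by
  intro A _ _ q κ _ hq1 f hf hrow
  have key0 : ∀ k, RowIdx κ k → ∀ w : List ℕ, w.getD k 0 = w.getD (k + 1) 0 → f w = 0 := by
    intro k hk w hw
    have := congrFun (hrow k hk) w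
    rw [TL_apply, if_pos hw] at this
    simp only [Pi.smul_apply, smul_eq_mul] at this
    have h2 : (1 + q) * f w = 0 := by linear_combination -this
    rcases mul_eq_zero.1 h2 with h | h
    · exact absurd h hq1
    · exact h
  have key1 : ∀ k, RowIdx κ k → ∀ w : List ℕ, f (swapAt k w) = f w := by
    intro k hk w
    by_cases hl : k + 1 < w.length
    · have main : ∀ w : List ℕ, k + 1 < w.length → w.getD (k + 1) 0 < w.getD k 0 →
          f (swapAt k w) = f w := by
        intro w _ h
        have := congrFun (hrow k hk) w
        rw [TL_apply, if_neg (by omega), if_neg (by omega)] at this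
        simp only [Pi.smul_apply, smul_eq_mul] at this
        linear_combination this
      rcases lt_trichotomy (w.getD k 0) (w.getD (k + 1) 0) with h | h | h
      · have := main (swapAt k w) (by rw [swapAt_length]; exact hl)
          (by rw [getD_swapAt0 w k hl, getD_swapAt1 w k hl]; exact h)
        rw [swapAt_swapAt] at this
        exact this.symm
      · rw [(swapAt_eq_self_iff w k hl).2 h]
      · exact main w hl h
    · rw [swapAt_short w k (by omega)]
  funext w
  show f w = f (rowWord κ) * zf A κ w
  unfold zf
  by_cases hb : IsBlockWord κ w
  · rw [if_pos hb, mul_one]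
    have := const_of_block f κ [] w (by simpa using key1) hb
    simpa using this
  · rw [if_neg hb, mul_zero]
    by_contra hne
    apply hb
    have hp := hf w hne
    refine A1_proof κ w hp ?_
    apply nodup_of_ne f κ [] w
    · simpa using key1
    · simpa using key0
    · exact length_of_perm hp
    · simpa using hne

theorem A3_proof : StmtA3 := by
  intro A _ q κ
  refine ⟨?_, ?_, ?_⟩
  · intro w hw
    unfold zf at hw
    by_cases hb : IsBlockWord κ w
    · exact hb.perm
    · simp [hb] at hw
  · unfold zf
    rw [if_pos (isBlockWord_rowWord κ)]
  · intro k hk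
    have hz : ∀ w, zf A κ (swapAt k w) = zf A κ w := by
      intro w
      unfold zf
      by_cases hb : IsBlockWord κ w
      · rw [if_pos hb, if_pos (isBlockWord_swapAt κ w k hk hb)]
      · rw [if_neg hb, if_neg]
        intro h
        apply hb
        have := isBlockWord_swapAt κ _ k hk h
        rwa [swapAt_swapAt] at this
    funext w
    rw [TL_apply, hz]
    simp only [Pi.smul_apply, smul_eq_mul]
    split_ifs with h1 h2
    · have : zf A κ w = 0 := by
        unfold zf
        rw [if_neg]
        intro hb
        exact isBlockWord_ne κ w k hk hb h1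
      rw [this]; ring
    · rfl
    · ring

end Pool.Agent.JC3
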