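import Pool.Agent.JC3.C5

/-!
A4: a Yamanouchi word other than rowWord κ can be moved up by an exchange.
A5: content sequences determine Yamanouchi words.
-/

set_option autoImplicit false

namespace Pool.Agent.JC3.AuxA45

open AuxB1 AuxC5

/-- nodes (row, column) of a word written backwards, last node first -/
def nodes : List ℕ → List (ℕ ×ₗ ℕ)
  | [] => []
  | x :: l => toLex (l.count x, x) :: nodes l

theorem nodes_perm {l m : List ℕ} (h : l.Perm m) : (nodes l).Perm (nodes m) := by
  induction h with
  | nil => exact List.Perm.refl _
  | cons x h ih =>
    rw [nodes, nodes, h.count_eq]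
    exact ih.cons _
  | swap x y l =>
    rcases eq_or_ne x y with h | h
    · subst h; exact List.Perm.refl _
    · have h1 : (x :: l).count y = l.count y := List.count_cons_of_ne h
      have h2 : (y :: l).count x = l.count x := List.count_cons_of_ne h.symm
      rw [nodes, nodes, nodes, nodes, h1, h2]
      exact List.Perm.swap _ _ _
  | trans _ _ ih1 ih2 => exact ih1.trans ih2

theorem nodes_snd (l : List ℕ) : (nodes l).map (fun a => (ofLex a).2) = l := by
  induction l with
  | nil => rfl
  | cons x l ih => rw [nodes, List.map_cons, ih]; rfl

/-- the rows are weakly increasing -/
def NoDrop (t : List ℕ) : Prop := ∀ (pre : List ℕ) (x y : ℕ) (post : List ℕ),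
  t = pre ++ x :: y :: post → pre.count x ≤ (pre ++ [x]).count y

theorem chain_of_noDrop {t : List ℕ} (ht : Yam t) (hd : NoDrop t) :
    (nodes t.reverse).IsChain (· > ·) := by
  induction t using List.reverseRecOn with
  | nil => simp [nodes]
  | append_singleton l y ih =>
    have hyl : Yam l := fun pre x post h => ht pre x (post ++ [y]) (by rw [h]; simp)
    have hdl : NoDrop l := fun pre a b post h => hd pre a b (post ++ [y]) (by rw [h]; simp)
    have ih' := ih hyl hdl
    rcases List.eq_nil_or_concat l with hl | ⟨m, x, hl⟩
    · subst hl; simp [nodes]
    · rw [List.concat_eq_append] at hl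
      subst hl
      have e1 : (m ++ [x] ++ [y]).reverse = y :: x :: m.reverse := by simp
      have e2 : (m ++ [x]).reverse = x :: m.reverse := by simp
      rw [e2] at ih'
      rw [e1, nodes]
      rw [nodes] at ih' ⊢
      rw [List.isChain_cons_cons]
      refine ⟨?_, ih'⟩
      rw [gt_iff_lt, Prod.Lex.toLex_lt_toLex]
      have h1 := hd m x y [] (by simp)
      have c1 : (x :: m.reverse).count y = (m ++ [x]).count y := by
        rw [← e2, List.count_reverse]
      have c2 : m.reverse.count x = m.count x := List.count_reverse
      show m.reverse.count x < (x :: m.reverse).count y ∨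
        m.reverse.count x = (x :: m.reverse).count y ∧ x < y
      rw [c1, c2]
      rcases lt_or_eq_of_le h1 with h2 | h2
      · exact Or.inl h2
      · right
        refine ⟨h2, ?_⟩
        by_contra hxy
        rw [not_lt] at hxy
        rcases lt_or_eq_of_le hxy with h3 | h3
        · have h4 := yam_anti hyl (pre := m ++ [x]) (post := []) (by simp) (le_of_lt h3)
          rw [← h2, List.count_append] at h4
          simp at h4
        · subst h3
          rw [List.count_append] at h2
          simp at h2

theorem count_rowWord {κ : List ℕ} {x : ℕ} (h : ∀ b ∈ κ, x < b) :
    (rowWord κ).count x = κ.length := by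
  induction κ with
  | nil => simp [rowWord]
  | cons b κ ih =>
    have h1 : rowWord (b :: κ) = List.range b ++ rowWord κ := rfl
    rw [h1, List.count_append, ih (fun c hc => h c (by simp [hc])), List.length_cons]
    have h2 : (List.range b).count x = 1 := by
      rw [List.count_eq_one_of_mem List.nodup_range (List.mem_range.2 (h b (by simp)))]
    omega

theorem count_rowWord_le (κ : List ℕ) (x : ℕ) : (rowWord κ).count x ≤ κ.length := by
  induction κ with
  | nil => simp [rowWord]
  | cons b κ ih =>
    have h1 : rowWord (b :: κ) = List.range b ++ rowWord κ := rfl
    rw [h1, List.count_append, List.length_cons]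
    have h2 : (List.range b).count x ≤ 1 := List.nodup_iff_count_le_one.1 List.nodup_range x
    omega

/-- Yam and NoDrop of the row word, by adding one letter at a time -/
theorem good_rowWord {κ : List ℕ} (hκ : κ.Pairwise (· ≥ ·)) :
    Yam (rowWord κ) ∧ NoDrop (rowWord κ) := by
  induction κ using List.reverseRecOn with
  | nil =>
    constructor
    · intro pre x post h
      simp [rowWord] at h
    · intro pre x y post h
      simp [rowWord] at h
  | append_singleton κ b ih =>
    rw [List.pairwise_append] at hκ
    have ih' := ih hκ.1
    have hb : ∀ c ∈ κ, b ≤ c := fun c hc => hκ.2.2 c hc b (by simp)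
    have e1 : rowWord (κ ++ [b]) = rowWord κ ++ List.range b := by
      simp [rowWord, List.flatMap_append]
    rw [e1]
    -- prefixes by adding the first j letters of the last row
    have key : ∀ j ≤ b, Yam (rowWord κ ++ List.range j) ∧ NoDrop (rowWord κ ++ List.range j) := by
      intro j
      induction j with
      | zero => intro _; simpa using ih'
      | succ j ihj =>
        intro hj
        obtain ⟨h1, h2⟩ := ihj (by omega)
        have hc : (rowWord κ ++ List.range j).count j = κ.length := by
          rw [List.count_append, count_rowWord (fun c hc => lt_of_lt_of_le hj (hb c hc)),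
            List.count_eq_zero_of_not_mem (by simp)]
          rfl
        rw [List.range_succ, ← List.append_assoc]
        constructor
        · intro pre x post h
          rcases List.eq_nil_or_concat post with hp | ⟨m, z, hp⟩
          · subst hp
            have h3 := List.append_inj' h rfl
            obtain ⟨h4, h5⟩ := h3
            simp only [List.cons.injEq, and_true] at h5
            subst h5
            rw [← h4, hc, List.count_append, count_rowWord
              (fun c hc => lt_of_lt_of_le (by omega : x < b) (hb c hc)),
              List.count_eq_one_of_mem List.nodup_range (by simp)]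
            omega
          · rw [List.concat_eq_append] at hp
            subst hp
            have h3 : rowWord κ ++ List.range j ++ [j] = (pre ++ (x + 1) :: m) ++ [z] := by
              rw [h]; simp
            have h4 := (List.append_inj' h3 rfl).1
            exact h1 pre x m h4
        · intro pre x y post h
          rcases List.eq_nil_or_concat post with hp | ⟨m, z, hp⟩
          · subst hp
            have h3 : rowWord κ ++ List.range j ++ [j] = (pre ++ [x]) ++ [y] := by
              rw [h]; simp
            obtain ⟨h4, h5⟩ := List.append_inj' h3 rfl
            simp only [List.cons.injEq, and_true] at h5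
            subst h5
            rw [← h4, hc]
            -- pre.count x ≤ κ.length
            have h6 : (rowWord κ ++ List.range j).count x ≤ κ.length + 1 := by
              rw [List.count_append]
              have h7 : (rowWord κ).count x ≤ κ.length := count_rowWord_le κ x
              have h8 : (List.range j).count x ≤ 1 :=
                List.nodup_iff_count_le_one.1 List.nodup_range x
              omega
            rw [h4, List.count_append] at h6
            simp at h6
            exact h6
          · rw [List.concat_eq_append] at hp
            subst hp
            have h3 : rowWord κ ++ List.range j ++ [j] = (pre ++ x :: y :: m) ++ [z] := by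
              rw [h]; simp
            have h4 := (List.append_inj' h3 rfl).1
            exact h2 pre x y m h4
    exact key b le_rfl

theorem eq_of_noDrop {κ t : List ℕ} (hκ : κ.Pairwise (· ≥ ·)) (ht : Yam t) (hd : NoDrop t)
    (hp : t.Perm (rowWord κ)) : t = rowWord κ := by
  obtain ⟨h1, h2⟩ := good_rowWord hκ
  have c1 := List.isChain_iff_pairwise.1 (chain_of_noDrop ht hd)
  have c2 := List.isChain_iff_pairwise.1 (chain_of_noDrop h1 h2)
  have hperm : (nodes t.reverse).Perm (nodes (rowWord κ).reverse) :=
    nodes_perm ((List.reverse_perm t).trans (hp.trans (List.reverse_perm _).symm))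
  have he := List.Perm.eq_of_pairwise (le := (· > ·))
    (fun a b _ _ hab hba => absurd hab (not_lt_of_gt hba)) c1 c2 hperm
  have h3 := congrArg (List.map (fun a => (ofLex a).2)) he
  rw [nodes_snd, nodes_snd] at h3
  exact List.reverse_injective h3

end Pool.Agent.JC3.AuxA45

namespace Pool.Agent.JC3

open AuxB1 AuxC5 AuxA45

theorem A4_proof : StmtA4 := by
  intro κ t hκ ht hp hne
  by_contra hcon
  push Not at hcon
  apply hne
  apply eq_of_noDrop hκ.1 ht _ hp
  intro pre x y post he
  by_contra hlt
  rw [not_le] at hlt
  subst he
  rcases lt_trichotomy x y with h | h | h
  · have hxy : x ≠ y := ne_of_lt h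
    have hb : (x == y) = false := by simpa using hxy
    rw [List.count_append, List.count_singleton, hb] at hlt
    simp only [Bool.false_eq_true, if_false, add_zero] at hlt
    have hY : Yam (pre ++ y :: x :: post) := by
      apply yam_exch ht hxy
      omega
    have hlen : pre.length + 1 < κ.sum := by
      rw [← length_rowWord, ← hp.length_eq]
      simp
    refine hcon pre.length hlen ?_ ?_
    · rw [getD_lo, getD_hi]; exact h
    · rw [swapAt_mid]; exact hY
  · subst h
    rw [List.count_append] at hlt
    simp at hlt
  · have h1 := yam_anti ht rfl (le_of_lt h)
    rw [List.count_append] at hlt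
    omega

theorem A5_proof : StmtA5 := by
  intro t r ht hr hlen hc
  induction t using List.reverseRecOn generalizing r with
  | nil =>
    simp at hlen
    exact (List.eq_nil_of_length_eq_zero hlen.symm).symm
  | append_singleton l x ih =>
    rcases List.eq_nil_or_concat r with h | ⟨m, y, h⟩
    · subst h; simp at hlen
    · rw [List.concat_eq_append] at h
      subst h
      have hlm : l.length = m.length := by simpa using hlen
      have hyl : Yam l := fun pre z post h => ht pre z (post ++ [x]) (by rw [h]; simp)
      have hym : Yam m := fun pre z post h => hr pre z (post ++ [y]) (by rw [h]; simp)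
      have hcl : ∀ (l : List ℕ) (x : ℕ) (p : ℕ), p < l.length → cont (l ++ [x]) p = cont l p := by
        intro l x p hp
        unfold cont
        have h1 : (l ++ [x]).getD p 0 = l.getD p 0 := by
          rw [List.getD_append _ _ _ _ hp]
        rw [h1, List.take_append_of_le_length (le_of_lt hp)]
      have hlast : ∀ (l : List ℕ) (x : ℕ), cont (l ++ [x]) l.length = (x : ℤ) - (l.count x : ℤ) := by
        intro l x
        unfold cont
        have h1 : (l ++ [x]).getD l.length 0 = x := by simp
        rw [h1, List.take_left]
      have hlm' : l = m := by
        apply ih m hyl hym hlm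
        intro p hp
        have h1 := hc p (by simp; omega)
        rw [hcl l x p hp, hcl m y p (by omega)] at h1
        exact h1
      subst hlm'
      have h2 := hc l.length (by simp)
      rw [hlast, hlast] at h2
      have h3 : x = y := by
        rcases lt_trichotomy x y with h | h | h
        · have := yam_anti hyl (pre := l) (post := []) (by simp) (le_of_lt h)
          omega
        · exact h
        · have := yam_anti hyl (pre := l) (post := []) (by simp) (le_of_lt h)
          omega
      rw [h3]

end Pool.Agent.JC3
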