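import Pool.Agent.JC3.Basic

/-! A6: the 15 words are all the Yamanouchi words with residue sequence iR. -/

set_option autoImplicit false

namespace Pool.Agent.JC3

namespace AuxA6

/-- column lengths of kap -/
def nu : List ℕ := [19, 5, 2, 2, 1, 1]

def okx (c : List ℕ) (r x : ℕ) : Bool :=
  (Nat.beq x 0 || Nat.blt (c.getD x 0) (c.getD (x - 1) 0)) &&
    (Nat.blt (c.getD x 0) (nu.getD x 0) && Nat.beq ((x + 60 - c.getD x 0) % 3) r)

def enumR : List ℕ → List ℕ → List ℕ → List (List ℕ)
  | [], _, acc => [acc.reverse]
  | r :: rs, c, acc =>
    ([0, 1, 2, 3, 4, 5] : List ℕ).flatMap (fun x =>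
      bif okx c r x then enumR rs (c.set x (c.getD x 0 + 1)) (x :: acc) else [])

lemma mem_rowWord_lt {x : ℕ} (h : x ∈ rowWord kap) : x < 6 := by
  have h2 : ∀ y ∈ rowWord kap, y < 6 := by decide
  exact h2 x h

lemma count_le {w : List ℕ} (hp : w.Perm (rowWord kap)) (x : ℕ) (hx : x < 6) :
    w.count x = nu.getD x 0 := by
  rw [hp.count_eq]
  interval_cases x <;> decide

lemma enumR_complete (w : List ℕ) (hY : Yam w) (hp : w.Perm (rowWord kap)) :
    ∀ (rs l acc c : List ℕ), w = acc.reverse ++ l → rs.length = l.length →
      (∀ j < rs.length, resAt w (acc.length + j) = rs.getD j 0) → c.length = 6 →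
      (∀ x < 6, c.getD x 0 = acc.count x) → w ∈ enumR rs c acc := by
  intro rs
  induction rs with
  | nil =>
    intro l acc c h1 h2 _ _ _
    have : l = [] := by
      cases l with
      | nil => rfl
      | cons a l => simp at h2
    subst this
    simp only [enumR, List.mem_singleton]
    simpa using h1
  | cons r rs ih =>
    intro l acc c h1 h2 h3 h4 h5
    match l, h2 with
    | x :: l, h2 =>
      have hxw : x ∈ w := by rw [h1]; simp
      have hx6 : x < 6 := mem_rowWord_lt (hp.mem_iff.1 hxw)
      have hcount : (acc.reverse).count x + 1 ≤ w.count x := by
        rw [h1, List.count_append, List.count_cons]; simp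
      rw [count_le hp x hx6] at hcount
      rw [List.count_reverse] at hcount
      have hyam : x = 0 ∨ acc.count x < acc.count (x - 1) := by
        rcases x with _ | x
        · left; rfl
        · right
          have := hY acc.reverse x l h1
          rw [List.count_reverse, List.count_reverse] at this
          simpa using this
      have hres : resAt w acc.length = r := by
        have := h3 0 (by simp)
        simpa using this
      have hcont : cont w acc.length = (x : ℤ) - (acc.count x : ℤ) := by
        have := cont_split0 acc.reverse x l
        rw [← h1, List.length_reverse, List.count_reverse] at this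
        exact this
      have hacc : acc.count x ≤ 19 := by
        have : nu.getD x 0 ≤ 19 := by interval_cases x <;> decide
        omega
      have hok : okx c r x = true := by
        unfold okx
        rw [h5 x hx6]
        have e1 : (Nat.beq x 0 || Nat.blt (acc.count x) (c.getD (x - 1) 0)) = true := by
          rcases hyam with h | h
          · subst h; rfl
          · rw [h5 (x - 1) (by omega)]
            have : Nat.blt (acc.count x) (acc.count (x - 1)) = true := by
              rw [Nat.blt_eq]; exact h
            rw [this, Bool.or_true]
        have e2 : Nat.blt (acc.count x) (nu.getD x 0) = true := by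
          rw [Nat.blt_eq]; omega
        have e3 : Nat.beq ((x + 60 - acc.count x) % 3) r = true := by
          rw [Nat.beq_eq]
          rw [← hres]
          unfold resAt
          rw [hcont]
          omega
        rw [e1, e2, e3]; rfl
      have hmem : w ∈ enumR rs (c.set x (c.getD x 0 + 1)) (x :: acc) := by
        apply ih l (x :: acc)
        · rw [h1]; simp
        · simpa using h2
        · intro j hj
          have := h3 (j + 1) (by simpa using hj)
          simp only [List.getD_cons_succ] at this
          rw [← this]
          congr 1
          simp; ring
        · simpa using h4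
        · intro y hy
          rw [List.getD_eq_getElem?_getD, List.getElem?_set, List.count_cons]
          by_cases hxy : x = y
          · subst hxy
            rw [h5 x hx6]
            simp [h4, hx6]
          · simp [hxy]
            rw [← List.getD_eq_getElem?_getD]
            exact h5 y hy
      simp only [enumR, List.mem_flatMap]
      refine ⟨x, ?_, ?_⟩
      · interval_cases x <;> decide
      · rw [hok]; exact hmem

lemma enum_check : (enumR iR [0, 0, 0, 0, 0, 0] []).all (fun w => decide (w ∈ TW)) = true := by
  decide +kernel

end AuxA6

theorem A6_proof : StmtA6 := by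
  intro w hY hp hr
  have hlen : w.length = 30 := by rw [length_of_perm hp]; decide
  have h : w ∈ AuxA6.enumR iR [0, 0, 0, 0, 0, 0] [] := by
    apply AuxA6.enumR_complete w hY hp iR w [] [0, 0, 0, 0, 0, 0]
    · simp
    · rw [hlen]; rfl
    · intro j hj
      have hj' : j < 30 := hj
      rw [← hr]
      simp only [List.length_nil, zero_add]
      unfold resid
      rw [List.getD_eq_getElem?_getD, List.getElem?_map, List.getElem?_range (by omega)]
      rfl
    · rfl
    · intro x hx
      interval_cases x <;> rfl
  have h2 := List.all_eq_true.1 AuxA6.enum_check w h
  simpa using h2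

end Pool.Agent.JC3
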