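import Pool.Agent.JC3.Stmts

/-!
B1: the operators T_k are self adjoint for the bilinear form.
-/

set_option autoImplicit false

namespace Pool.Agent.JC3.AuxB1

/-- a word with k+1 < length splits around the positions k and k+1 -/
theorem split {w : List ℕ} {k : ℕ} (h : k + 1 < w.length) :
    ∃ (pre : List ℕ) (x y : ℕ) (post : List ℕ), w = pre ++ x :: y :: post ∧ pre.length = k := by
  refine ⟨w.take k, w[k], w[k + 1], w.drop (k + 2), ?_, ?_⟩
  · rw [← List.drop_eq_getElem_cons, ← List.drop_eq_getElem_cons, List.take_append_drop]
  · rw [List.length_take]; omega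

theorem swapAt_mid (pre : List ℕ) (x y : ℕ) (post : List ℕ) :
    swapAt pre.length (pre ++ x :: y :: post) = pre ++ y :: x :: post := by
  induction pre with
  | nil => rfl
  | cons a l ih => simp only [List.length_cons, List.cons_append, swapAt, ih]

theorem swapAt_swapAt (k : ℕ) (w : List ℕ) : swapAt k (swapAt k w) = w := by
  induction k generalizing w with
  | zero =>
    match w with
    | [] => rfl
    | [x] => rfl
    | x :: y :: l => rfl
  | succ k ih =>
    match w with
    | [] => rfl
    | x :: l => simp only [swapAt, ih]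

theorem swapAt_perm (k : ℕ) (w : List ℕ) : (swapAt k w).Perm w := by
  induction k generalizing w with
  | zero =>
    match w with
    | [] => exact List.Perm.refl _
    | [x] => exact List.Perm.refl _
    | x :: y :: l => exact List.Perm.swap x y l
  | succ k ih =>
    match w with
    | [] => exact List.Perm.refl _
    | x :: l => exact (ih l).cons x

theorem getD_lo (pre : List ℕ) (x y : ℕ) (post : List ℕ) :
    (pre ++ x :: y :: post).getD pre.length 0 = x := by
  simp

theorem getD_hi (pre : List ℕ) (x y : ℕ) (post : List ℕ) :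
    (pre ++ x :: y :: post).getD (pre.length + 1) 0 = y := by
  simp [List.getD_append_right]

theorem inv_append (l m : List ℕ) :
    inv (l ++ m) = inv l + (l.map (fun x => m.countP (fun y => decide (y < x)))).sum + inv m := by
  induction l with
  | nil => simp [inv]
  | cons a l ih =>
    simp only [List.cons_append, inv, List.countP_append, List.map_cons, List.sum_cons, ih]
    omega

theorem inv_exch (pre : List ℕ) {x y : ℕ} (h : x < y) (post : List ℕ) :
    inv (pre ++ y :: x :: post) = inv (pre ++ x :: y :: post) + 1 := by
  rw [inv_append, inv_append]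
  have hp : ∀ a : ℕ, (y :: x :: post).countP (fun z => decide (z < a)) =
      (x :: y :: post).countP (fun z => decide (z < a)) := fun a =>
    List.Perm.countP_eq _ (List.Perm.swap x y post)
  have h1 : (pre.map (fun a => (y :: x :: post).countP (fun z => decide (z < a)))) =
      (pre.map (fun a => (x :: y :: post).countP (fun z => decide (z < a)))) :=
    List.map_congr_left (fun a _ => hp a)
  rw [h1]
  have h2 : inv (y :: x :: post) = inv (x :: y :: post) + 1 := by
    simp only [inv, List.countP_cons]
    have hxy : decide (x < y) = true := by simpa using h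
    have hyx : decide (y < x) = false := by simp; omega
    simp only [hxy, hyx]
    simp
    omega
  omega

/-- inversions under an exchange of an ascent, in terms of `swapAt` -/
theorem inv_swapAt {w : List ℕ} {k : ℕ} (h : k + 1 < w.length)
    (hlt : w.getD k 0 < w.getD (k + 1) 0) : inv (swapAt k w) = inv w + 1 := by
  obtain ⟨pre, x, y, post, rfl, rfl⟩ := split h
  rw [getD_lo, getD_hi] at hlt
  rw [swapAt_mid]
  exact inv_exch pre hlt post

theorem getD_swapAt_lo {w : List ℕ} {k : ℕ} (h : k + 1 < w.length) :
    (swapAt k w).getD k 0 = w.getD (k + 1) 0 := by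
  obtain ⟨pre, x, y, post, rfl, rfl⟩ := split h
  rw [swapAt_mid, getD_lo, getD_hi]

theorem getD_swapAt_hi {w : List ℕ} {k : ℕ} (h : k + 1 < w.length) :
    (swapAt k w).getD (k + 1) 0 = w.getD k 0 := by
  obtain ⟨pre, x, y, post, rfl, rfl⟩ := split h
  rw [swapAt_mid, getD_hi, getD_lo]

theorem swapAt_eq_self {w : List ℕ} {k : ℕ} (h : k + 1 < w.length)
    (he : w.getD k 0 = w.getD (k + 1) 0) : swapAt k w = w := by
  obtain ⟨pre, x, y, post, rfl, rfl⟩ := split h
  rw [getD_lo, getD_hi] at he
  subst he
  rw [swapAt_mid]

theorem length_rowWord (κ : List ℕ) : (rowWord κ).length = κ.sum := by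
  simp [rowWord, List.length_flatMap]

theorem length_of_mem {κ w : List ℕ} (h : w ∈ permSet κ) : w.length = κ.sum := by
  rw [(mem_permSet.1 h).length_eq, length_rowWord]

theorem TL_apply {A : Type} [CommRing A] (q : A) (k : ℕ) (f : List ℕ → A) (w : List ℕ) :
    TL q k f w = if w.getD k 0 = w.getD (k + 1) 0 then - f w
      else if w.getD k 0 < w.getD (k + 1) 0 then q * f (swapAt k w)
      else f (swapAt k w) + (q - 1) * f w := rfl

end Pool.Agent.JC3.AuxB1

namespace Pool.Agent.JC3

open AuxB1

theorem B1_proof : StmtB1 := by
  intro A _ q κ k hk f g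
  rw [BB_apply, BB_apply, ← sub_eq_zero, ← Finset.sum_sub_distrib]
  refine Finset.sum_involution (fun w _ => swapAt k w) ?_ ?_ ?_ ?_
  · intro w hw
    have hl : k + 1 < w.length := by rw [length_of_mem hw]; exact hk
    have hl' : k + 1 < (swapAt k w).length := by rw [(swapAt_perm k w).length_eq]; exact hl
    simp only [TL_apply, getD_swapAt_lo hl, getD_swapAt_hi hl, swapAt_swapAt]
    rcases lt_trichotomy (w.getD k 0) (w.getD (k + 1) 0) with h | h | h
    · have hi := inv_swapAt hl h
      rw [if_neg (ne_of_lt h), if_pos h, if_neg (ne_of_gt h), if_neg (not_lt.2 (le_of_lt h)),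
        if_neg (ne_of_lt h), if_pos h, if_neg (ne_of_gt h), if_neg (not_lt.2 (le_of_lt h)), hi,
        pow_succ]
      ring
    · have hs : swapAt k w = w := swapAt_eq_self hl h
      rw [hs, if_pos h, if_pos h.symm, if_pos h, if_pos h.symm]
      ring
    · have hi := inv_swapAt hl' (by rw [getD_swapAt_lo hl, getD_swapAt_hi hl]; exact h)
      rw [swapAt_swapAt] at hi
      rw [if_neg (ne_of_gt h), if_neg (not_lt.2 (le_of_lt h)), if_neg (ne_of_lt h), if_pos h,
        if_neg (ne_of_gt h), if_neg (not_lt.2 (le_of_lt h)), if_neg (ne_of_lt h), if_pos h, hi,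
        pow_succ]
      ring
  · intro w hw hne hs
    apply hne
    have hl : k + 1 < w.length := by rw [length_of_mem hw]; exact hk
    have he : w.getD k 0 = w.getD (k + 1) 0 := by
      have h1 := getD_swapAt_lo hl
      rw [hs] at h1
      exact h1
    simp only [TL_apply, if_pos he]
    ring
  · intro w hw
    rw [mem_permSet] at hw ⊢
    exact (swapAt_perm k w).trans hw
  · intro w hw
    exact swapAt_swapAt k w

end Pool.Agent.JC3
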