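import Pool.Agent.JC3.A123
import Pool.Agent.JC3.B1

/-!
B2: the symmetrizer of the row subgroup.
-/

set_option autoImplicit false
set_option linter.unusedSimpArgs false

namespace Pool.Agent.JC3.AuxB2

/-! ### the Hecke relations on functions on words -/

section rel
variable {A : Type} [CommRing A]

lemma TL0 (q : A) (pre : List ℕ) (x y : ℕ) (post : List ℕ) (f : List ℕ → A) :
    TL q pre.length f (pre ++ x :: y :: post) =
      if x = y then - f (pre ++ x :: y :: post) else if x < y then q * f (pre ++ y :: x :: post)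
      else f (pre ++ y :: x :: post) + (q - 1) * f (pre ++ x :: y :: post) := by
  rw [TL_apply, getD_split0, getD_split1, swapAt_append]

lemma TL1 (q : A) (pre : List ℕ) (a x y : ℕ) (post : List ℕ) (f : List ℕ → A) :
    TL q (pre.length + 1) f (pre ++ a :: x :: y :: post) =
      if x = y then - f (pre ++ a :: x :: y :: post)
      else if x < y then q * f (pre ++ a :: y :: x :: post)
      else f (pre ++ a :: y :: x :: post) + (q - 1) * f (pre ++ a :: x :: y :: post) := by
  have h := TL0 q (pre ++ [a]) x y post f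
  simpa using h

lemma eq_of_MM {κ : List ℕ} {f g : List ℕ → A} (hf : f ∈ MM A κ) (hg : g ∈ MM A κ)
    (h : ∀ w : List ℕ, w.length = κ.sum → f w = g w) : f = g := by
  funext w
  by_cases hw : w.Perm (rowWord κ)
  · exact h w (length_of_perm hw)
  · have h1 : f w = 0 := by by_contra h'; exact hw (hf w h')
    have h2 : g w = 0 := by by_contra h'; exact hw (hg w h')
    rw [h1, h2]

lemma TL_quad (q : A) (κ : List ℕ) (k : ℕ) (hk : k + 1 < κ.sum) (f : List ℕ → A)
    (hf : f ∈ MM A κ) : TL q k (TL q k f) = (q - 1) • TL q k f + q • f := by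
  have h1 := TL_memMM q κ k hf
  refine eq_of_MM (TL_memMM q κ k h1) (add_mem (Submodule.smul_mem _ _ h1)
    (Submodule.smul_mem _ _ hf)) (fun w hw => ?_)
  obtain ⟨pre, x, y, post, rfl, rfl⟩ := exists_split w k (by omega)
  simp only [Pi.add_apply, Pi.smul_apply, smul_eq_mul, TL0]
  rcases lt_trichotomy x y with h | h | h
  · rw [if_neg (by omega), if_pos h, if_neg (by omega), if_neg (by omega)]
    rw [if_neg (by omega), if_pos h]
    ring
  · subst h
    simp only [if_true]
    ring
  · rw [if_neg (by omega), if_neg (by omega), if_neg (by omega), if_pos h]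
    rw [if_neg (by omega), if_neg (by omega)]
    ring

lemma TL_braid (q : A) (κ : List ℕ) (k : ℕ) (hk : k + 2 < κ.sum) (f : List ℕ → A)
    (hf : f ∈ MM A κ) :
    TL q k (TL q (k + 1) (TL q k f)) = TL q (k + 1) (TL q k (TL q (k + 1) f)) := by
  refine eq_of_MM (TL_memMM q κ _ (TL_memMM q κ _ (TL_memMM q κ _ hf)))
    (TL_memMM q κ _ (TL_memMM q κ _ (TL_memMM q κ _ hf))) (fun w hw => ?_)
  obtain ⟨pre, x, l, rfl, rfl⟩ := exists_split1 w k (by omega)
  match l, hw with
  | [], hw => simp at hw; omega
  | [y], hw => simp at hw; omega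
  | y :: z :: post, hw =>
    rcases lt_trichotomy x y with h1 | h1 | h1
    · rcases lt_trichotomy y z with h2 | h2 | h2
      · simp only [TL0, TL1, h1, h2, h1.trans h2, h1.ne, h2.ne, (h1.trans h2).ne, h1.ne', h2.ne',
          (h1.trans h2).ne', h1.not_gt, h2.not_gt, (h1.trans h2).not_gt, if_true, if_false]
      · subst h2
        simp only [TL0, TL1, h1, h1.ne, h1.ne', h1.not_gt, if_true, if_false]
        ring
      · rcases lt_trichotomy x z with h3 | h3 | h3
        · simp only [TL0, TL1, h1, h2, h3, h1.ne, h2.ne, h3.ne, h1.ne', h2.ne',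
            h3.ne', h1.not_gt, h2.not_gt, h3.not_gt, if_true, if_false]
          ring
        · subst h3
          simp only [TL0, TL1, h1, h1.ne, h1.ne', h1.not_gt, if_true, if_false]
          ring
        · simp only [TL0, TL1, h1, h2, h3, h1.ne, h2.ne, h3.ne, h1.ne', h2.ne',
            h3.ne', h1.not_gt, h2.not_gt, h3.not_gt, if_true, if_false]
          ring
    · subst h1
      rcases lt_trichotomy x z with h2 | h2 | h2
      · simp only [TL0, TL1, h2, h2.ne, h2.ne', h2.not_gt, if_true, if_false]
        ring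
      · subst h2
        simp only [TL0, TL1, if_true]
      · simp only [TL0, TL1, h2, h2.ne, h2.ne', h2.not_gt, if_true, if_false]
        ring
    · rcases lt_trichotomy y z with h2 | h2 | h2
      · rcases lt_trichotomy x z with h3 | h3 | h3
        · simp only [TL0, TL1, h1, h2, h3, h1.ne, h2.ne, h3.ne, h1.ne', h2.ne',
            h3.ne', h1.not_gt, h2.not_gt, h3.not_gt, if_true, if_false]
          ring
        · subst h3
          simp only [TL0, TL1, h1, h1.ne, h1.ne', h1.not_gt, if_true, if_false]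
          ring
        · simp only [TL0, TL1, h1, h2, h3, h1.ne, h2.ne, h3.ne, h1.ne', h2.ne',
            h3.ne', h1.not_gt, h2.not_gt, h3.not_gt, if_true, if_false]
          ring
      · subst h2
        simp only [TL0, TL1, h1, h1.ne, h1.ne', h1.not_gt, if_true, if_false]
        ring
      · simp only [TL0, TL1, h1, h2, h2.trans h1, h1.ne, h2.ne, (h2.trans h1).ne, h1.ne', h2.ne',
          (h2.trans h1).ne', h1.not_gt, h2.not_gt, (h2.trans h1).not_gt, if_true, if_false]
        ring

lemma TL_comm (q : A) (κ : List ℕ) (k l : ℕ) (hkl : k + 1 < l) (hl : l + 1 < κ.sum)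
    (f : List ℕ → A) (hf : f ∈ MM A κ) : TL q k (TL q l f) = TL q l (TL q k f) := by
  refine eq_of_MM (TL_memMM q κ _ (TL_memMM q κ _ hf)) (TL_memMM q κ _ (TL_memMM q κ _ hf))
    (fun w hw => ?_)
  have e1 := getD_swapAt_of_ne w k l (by omega) (by omega) (by omega)
  have e2 := getD_swapAt_of_ne w k (l + 1) (by omega) (by omega) (by omega)
  have e3 := getD_swapAt_of_ne w l k (by omega) (by omega) (by omega)
  have e4 := getD_swapAt_of_ne w l (k + 1) (by omega) (by omega) (by omega)
  simp only [TL_apply, e1, e2, e3, e4, swapAt_comm w k l hkl]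
  split_ifs <;> ring

end rel

/-! ### the symmetrizer from the relations -/

section alg
variable {A : Type} [CommRing A] {M : Type} [AddCommGroup M] [Module A M]

/-- 1 + T_{p+j-1} + T_{p+j-2} T_{p+j-1} + ... + T_p ... T_{p+j-1} -/
noncomputable def Cop (T : ℕ → Module.End A M) (p : ℕ) : ℕ → Module.End A M
  | 0 => 1
  | j + 1 => 1 + Cop T p j * T (p + j)

/-- symmetrizer of the positions p, ..., p+j -/
noncomputable def Xop (T : ℕ → Module.End A M) (p : ℕ) : ℕ → Module.End A M
  | 0 => 1
  | j + 1 => Cop T p (j + 1) * Xop T p j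

/-- product over the blocks -/
noncomputable def Yop (T : ℕ → Module.End A M) : ℕ → List ℕ → Module.End A M
  | _, [] => 1
  | p, b :: κ => Xop T p (b - 1) * Yop T (p + b) κ

/-- adjoint of Cop -/
noncomputable def CopS (T : ℕ → Module.End A M) (p : ℕ) : ℕ → Module.End A M
  | 0 => 1
  | j + 1 => 1 + T (p + j) * CopS T p j

/-- adjoint of Xop -/
noncomputable def XopS (T : ℕ → Module.End A M) (p : ℕ) : ℕ → Module.End A M
  | 0 => 1
  | j + 1 => XopS T p j * CopS T p (j + 1)

/-- adjoint of Yop -/
noncomputable def YopS (T : ℕ → Module.End A M) : ℕ → List ℕ → Module.End A M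
  | _, [] => 1
  | p, b :: κ => YopS T (p + b) κ * XopS T p (b - 1)

lemma rowIdx_lt : ∀ (κ : List ℕ) (k : ℕ), RowIdx κ k → k + 1 < κ.sum
  | [], _, h => h.elim
  | b :: κ, k, h => by
    rw [List.sum_cons]
    rcases h with h | ⟨h, h'⟩
    · omega
    · have := rowIdx_lt κ _ h'
      omega

variable (T : ℕ → Module.End A M)

lemma Cop_mem (U : Submodule A M) (p : ℕ) : ∀ j, (∀ i, p ≤ i → i < p + j → ∀ x ∈ U, T i x ∈ U) →
    ∀ x ∈ U, Cop T p j x ∈ U
  | 0, _, x, hx => hx
  | j + 1, h, x, hx => by
    show x + Cop T p j (T (p + j) x) ∈ U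
    exact add_mem hx (Cop_mem U p j (fun i h1 h2 => h i h1 (by omega)) _
      (h (p + j) (by omega) (by omega) x hx))

lemma Xop_mem (U : Submodule A M) (p : ℕ) : ∀ j, (∀ i, p ≤ i → i < p + j → ∀ x ∈ U, T i x ∈ U) →
    ∀ x ∈ U, Xop T p j x ∈ U
  | 0, _, x, hx => hx
  | j + 1, h, x, hx => by
    show Cop T p (j + 1) (Xop T p j x) ∈ U
    exact Cop_mem T U p (j + 1) h _ (Xop_mem U p j (fun i h1 h2 => h i h1 (by omega)) x hx)

lemma Yop_mem (U : Submodule A M) : ∀ (κ : List ℕ) (p : ℕ), (∀ b ∈ κ, 0 < b) →
    (∀ i, p ≤ i → i + 1 < p + κ.sum → ∀ x ∈ U, T i x ∈ U) → ∀ x ∈ U, Yop T p κ x ∈ U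
  | [], _, _, _, x, hx => hx
  | b :: κ, p, hb, h, x, hx => by
    show Xop T p (b - 1) (Yop T (p + b) κ x) ∈ U
    have hb0 : 0 < b := hb b (List.mem_cons_self ..)
    rw [List.sum_cons] at h
    refine Xop_mem T U p (b - 1) (fun i h1 h2 => h i h1 (by omega)) _
      (Yop_mem U κ (p + b) (fun c hc => hb c (List.mem_cons_of_mem _ hc))
        (fun i h1 h2 => h i (by omega) (by omega)) x hx)

variable (q : A) (S : Submodule A M) (hS : ∀ i, ∀ x ∈ S, T i x ∈ S) (n : ℕ)
  (hq : ∀ i, i + 1 < n → ∀ x ∈ S, T i (T i x) = (q - 1) • T i x + q • x)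
  (hb : ∀ i, i + 2 < n → ∀ x ∈ S, T i (T (i + 1) (T i x)) = T (i + 1) (T i (T (i + 1) x)))
  (hc : ∀ i j, i + 1 < j → j + 1 < n → ∀ x ∈ S, T i (T j x) = T j (T i x))

include hS in
lemma Cop_comm (p k : ℕ) : ∀ j, (∀ i, p ≤ i → i < p + j → ∀ x ∈ S, T k (T i x) = T i (T k x)) →
    ∀ x ∈ S, T k (Cop T p j x) = Cop T p j (T k x)
  | 0, _, x, _ => rfl
  | j + 1, h, x, hx => by
    show T k (x + Cop T p j (T (p + j) x)) = T k x + Cop T p j (T (p + j) (T k x))
    rw [map_add, Cop_comm p k j (fun i h1 h2 => h i h1 (by omega)) _ (hS _ x hx),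
      h (p + j) (by omega) (by omega) x hx]

include hS in
lemma Xop_comm (p k : ℕ) : ∀ j, (∀ i, p ≤ i → i < p + j → ∀ x ∈ S, T k (T i x) = T i (T k x)) →
    ∀ x ∈ S, T k (Xop T p j x) = Xop T p j (T k x)
  | 0, _, x, _ => rfl
  | j + 1, h, x, hx => by
    show T k (Cop T p (j + 1) (Xop T p j x)) = Cop T p (j + 1) (Xop T p j (T k x))
    rw [Cop_comm T S hS p k (j + 1) h _ (Xop_mem T S p j (fun i _ _ => hS i) x hx),
      Xop_comm p k j (fun i h1 h2 => h i h1 (by omega)) x hx]

include hS hq hb hc in
lemma Cop_sym (p : ℕ) : ∀ j, p + j + 1 < n → ∀ x ∈ S,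
    (∀ i, p ≤ i → i < p + j → T i x = q • x) →
    ∀ i, p ≤ i → i < p + j + 1 → T i (Cop T p (j + 1) x) = q • Cop T p (j + 1) x
  | 0, hj, x, hx, _, i, h1, h2 => by
    obtain rfl : i = p := by omega
    show T i (x + T (i + 0) x) = q • (x + T (i + 0) x)
    rw [Nat.add_zero, map_add, hq i (by omega) x hx, sub_smul, one_smul, smul_add]
    abel
  | j + 1, hj, x, hx, h, i, h1, h2 => by
    have hy : ∀ i, p ≤ i → i < p + j → T i (T (p + (j + 1)) x) = q • T (p + (j + 1)) x := by
      intro i h1 h2
      rw [hc i _ (by omega) (by omega) x hx, h i h1 (by omega), map_smul]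
    have hyS : T (p + (j + 1)) x ∈ S := hS _ x hx
    have ih := Cop_sym p j (by omega) _ hyS hy
    show T i (x + Cop T p (j + 1) (T (p + (j + 1)) x)) =
      q • (x + Cop T p (j + 1) (T (p + (j + 1)) x))
    rcases Nat.lt_or_ge i (p + (j + 1)) with h3 | h3
    · rw [map_add, h i h1 h3, ih i h1 (by omega), smul_add]
    · obtain rfl : i = p + (j + 1) := by omega
      have e1 : ∀ y, Cop T p (j + 1) y = y + Cop T p j (T (p + j) y) := fun y => rfl
      rw [e1, map_add, map_add, hq _ (by omega) x hx,
        Cop_comm T S hS p (p + (j + 1)) j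
          (fun i h1 h2 x hx => (hc i _ (by omega) (by omega) x hx).symm) _ (hS _ _ (hS _ x hx))]
      have e2 := hb (p + j) (by omega) x hx
      have e3 : p + (j + 1) = p + j + 1 := by omega
      rw [e3, ← e2, h (p + j) (by omega) (by omega), map_smul, map_smul, map_smul, sub_smul,
        one_smul, smul_add, smul_add]
      abel

include hS hq hb hc in
lemma Xop_sym (p : ℕ) : ∀ j, p + j < n → ∀ x ∈ S, ∀ i, p ≤ i → i < p + j →
    T i (Xop T p j x) = q • Xop T p j x
  | 0, _, _, _, i, h1, h2 => by omega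
  | j + 1, hj, x, hx, i, h1, h2 => by
    show T i (Cop T p (j + 1) (Xop T p j x)) = q • Cop T p (j + 1) (Xop T p j x)
    exact Cop_sym T q S hS n hq hb hc p j (by omega) _ (Xop_mem T S p j (fun i _ _ => hS i) x hx)
      (Xop_sym p j (by omega) x hx) i h1 (by omega)

include hS hq hb hc in
lemma Yop_sym : ∀ (κ : List ℕ) (p : ℕ), p + κ.sum ≤ n → (∀ b ∈ κ, 0 < b) → ∀ x ∈ S, ∀ k,
    RowIdx κ k → T (p + k) (Yop T p κ x) = q • Yop T p κ x
  | [], _, _, _, _, _, _, h => h.elim
  | b :: κ, p, hp, hpos, x, hx, k, h => by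
    rw [List.sum_cons] at hp
    have hb0 : 0 < b := hpos b (List.mem_cons_self ..)
    have hpos' : ∀ b ∈ κ, 0 < b := fun c hc => hpos c (List.mem_cons_of_mem _ hc)
    have hy : Yop T (p + b) κ x ∈ S := Yop_mem T S κ (p + b) hpos' (fun i _ _ => hS i) x hx
    show T (p + k) (Xop T p (b - 1) (Yop T (p + b) κ x)) =
      q • Xop T p (b - 1) (Yop T (p + b) κ x)
    rcases h with h | ⟨h, h'⟩
    · exact Xop_sym T q S hS n hq hb hc p (b - 1) (by omega) _ hy (p + k) (by omega) (by omega)
    · have hlt := rowIdx_lt κ _ h'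
      have ih := Yop_sym κ (p + b) (by omega) hpos' x hx (k - b) h'
      rw [show p + b + (k - b) = p + k by omega] at ih
      rw [Xop_comm T S hS p (p + k) (b - 1)
        (fun i h1 h2 x hx => (hc i _ (by omega) (by omega) x hx).symm) _ hy, ih, map_smul]

/-- value of Cop on a symmetric element -/
lemma Cop_val (p : ℕ) : ∀ (j : ℕ) (x : M), (∀ i, p ≤ i → i < p + j → T i x = q • x) →
    Cop T p j x = (∑ i ∈ Finset.range (j + 1), q ^ i) • x
  | 0, x, _ => by simp [Cop]
  | j + 1, x, h => by
    show x + Cop T p j (T (p + j) x) = _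
    rw [h (p + j) (by omega) (by omega), map_smul,
      Cop_val p j x (fun i h1 h2 => h i h1 (by omega)), smul_smul, Finset.sum_range_succ' _ (j + 1),
      add_smul, pow_zero, one_smul, Finset.mul_sum, add_comm]
    congr 2
    exact Finset.sum_congr rfl (fun i _ => by ring)

lemma Xop_val (p : ℕ) : ∀ (j : ℕ) (x : M), (∀ i, p ≤ i → i < p + j → T i x = q • x) →
    Xop T p j x = qfac q (j + 1) • x
  | 0, x, _ => by simp [Xop, qfac]
  | j + 1, x, h => by
    show Cop T p (j + 1) (Xop T p j x) = _
    rw [Xop_val p j x (fun i h1 h2 => h i h1 (by omega)), map_smul, Cop_val T q p (j + 1) x h,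
      smul_smul]
    congr 1
    unfold qfac
    rw [Finset.prod_range_succ _ (j + 1)]

lemma Yop_val : ∀ (κ : List ℕ) (p : ℕ) (x : M), (∀ b ∈ κ, 0 < b) →
    (∀ k, RowIdx κ k → T (p + k) x = q • x) → Yop T p κ x = (κ.map (qfac q)).prod • x
  | [], p, x, _, _ => by simp [Yop]
  | b :: κ, p, x, hpos, h => by
    have hb0 : 0 < b := hpos b (List.mem_cons_self ..)
    show Xop T p (b - 1) (Yop T (p + b) κ x) = _
    rw [Yop_val κ (p + b) x (fun c hc => hpos c (List.mem_cons_of_mem _ hc))
      (fun k hk => by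
        have := h (b + k) (Or.inr ⟨by omega, by rwa [show b + k - b = k by omega]⟩)
        rwa [← Nat.add_assoc] at this), map_smul,
      Xop_val T q p (b - 1) x (fun i h1 h2 => by
        have := h (i - p) (Or.inl (by omega))
        rwa [show p + (i - p) = i by omega] at this), smul_smul, List.map_cons, List.prod_cons,
      show b - 1 + 1 = b by omega, mul_comm]

/-! ### adjoints -/

variable (B : M →ₗ[A] M →ₗ[A] A)

lemma Cop_adj (p : ℕ) : ∀ j, (∀ i, p ≤ i → i < p + j → ∀ f g, B (T i f) g = B f (T i g)) →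
    ∀ f g, B (Cop T p j f) g = B f (CopS T p j g)
  | 0, _, f, g => rfl
  | j + 1, h, f, g => by
    show B (f + Cop T p j (T (p + j) f)) g = B f (g + T (p + j) (CopS T p j g))
    rw [map_add, LinearMap.add_apply, map_add, Cop_adj p j (fun i h1 h2 => h i h1 (by omega)),
      h (p + j) (by omega) (by omega)]

lemma Xop_adj (p : ℕ) : ∀ j, (∀ i, p ≤ i → i < p + j → ∀ f g, B (T i f) g = B f (T i g)) →
    ∀ f g, B (Xop T p j f) g = B f (XopS T p j g)
  | 0, _, f, g => rfl
  | j + 1, h, f, g => by
    show B (Cop T p (j + 1) (Xop T p j f)) g = B f (XopS T p j (CopS T p (j + 1) g))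
    rw [Cop_adj T B p (j + 1) h, Xop_adj p j (fun i h1 h2 => h i h1 (by omega))]

lemma Yop_adj : ∀ (κ : List ℕ) (p : ℕ), (∀ b ∈ κ, 0 < b) →
    (∀ i, p ≤ i → i + 1 < p + κ.sum → ∀ f g, B (T i f) g = B f (T i g)) →
    ∀ f g, B (Yop T p κ f) g = B f (YopS T p κ g)
  | [], _, _, _, f, g => rfl
  | b :: κ, p, hpos, h, f, g => by
    show B (Xop T p (b - 1) (Yop T (p + b) κ f)) g = B f (YopS T (p + b) κ (XopS T p (b - 1) g))
    rw [List.sum_cons] at h
    have hb0 : 0 < b := hpos b (List.mem_cons_self ..)
    rw [Xop_adj T B p (b - 1) (fun i h1 h2 => h i h1 (by omega)),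
      Yop_adj κ (p + b) (fun c hc => hpos c (List.mem_cons_of_mem _ hc))
        (fun i h1 h2 => h i (by omega) (by omega))]

end alg

/-! ### the adjoint of the symmetrizer on the indicator of the row word -/

section ind
variable {A : Type} [CommRing A] (q : A)

lemma TL_ind (pre : List ℕ) (x y : ℕ) (post : List ℕ) (h : x < y) :
    TL q pre.length (ind A (pre ++ x :: y :: post)) = ind A (pre ++ y :: x :: post) := by
  funext w
  by_cases hw : pre.length + 1 < w.length
  · obtain ⟨pre', x', y', post', hp, rfl⟩ := exists_split w pre.length hw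
    rw [← hp, TL0]
    have key : ∀ a b : ℕ, ind A (pre ++ a :: b :: post) (pre' ++ x' :: y' :: post') =
        if (pre' = pre ∧ x' = a ∧ y' = b ∧ post' = post) then 1 else 0 := by
      intro a b
      unfold ind
      congr 1
      apply propext
      constructor
      · intro e
        have h1 := List.append_inj_left e hp
        have h2 := List.append_inj_right e hp
        simp only [List.cons.injEq] at h2
        exact ⟨h1, h2⟩
      · rintro ⟨rfl, rfl, rfl, rfl⟩; rfl
    have key' : ∀ a b : ℕ, ind A (pre ++ a :: b :: post) (pre' ++ y' :: x' :: post') =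
        if (pre' = pre ∧ y' = a ∧ x' = b ∧ post' = post) then 1 else 0 := by
      intro a b
      unfold ind
      congr 1
      apply propext
      constructor
      · intro e
        have h1 := List.append_inj_left e hp
        have h2 := List.append_inj_right e hp
        simp only [List.cons.injEq] at h2
        exact ⟨h1, h2⟩
      · rintro ⟨rfl, rfl, rfl, rfl⟩; rfl
    rw [key, key, key']
    by_cases e1 : x' = y'
    · rw [if_pos e1, if_neg (by omega), if_neg (by omega), neg_zero]
    · rw [if_neg e1]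
      by_cases e2 : x' < y'
      · rw [if_pos e2, if_neg (by omega), if_neg (by omega), mul_zero]
      · rw [if_neg e2, if_neg (c := pre' = pre ∧ x' = x ∧ y' = y ∧ post' = post) (by omega),
          mul_zero, add_zero]
        congr 1
        apply propext
        tauto
  · have h1 : ∀ a b : ℕ, ind A (pre ++ a :: b :: post) w = 0 := by
      intro a b
      apply ind_ne
      rintro rfl
      apply hw
      simp
    rw [TL_apply, swapAt_short w _ (by omega), h1, h1]
    simp

lemma sum_map_end {M : Type} [AddCommGroup M] [Module A M] (g : Module.End A M) (l : List ℕ)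
    (F : ℕ → M) : g ((l.map F).sum) = (l.map (fun x => g (F x))).sum := by
  rw [map_list_sum, List.map_map]; rfl

lemma CopS_ind : ∀ (j : ℕ) (l : List ℕ), l.length = j + 1 → l.Pairwise (· < ·) →
    ∀ pre post : List ℕ, CopS (TL q) pre.length j (ind A (pre ++ l ++ post)) =
      (l.map (fun x => ind A (pre ++ l.erase x ++ x :: post))).sum
  | 0, l, hl, _, pre, post => by
    obtain ⟨x, rfl⟩ := List.length_eq_one_iff.1 hl
    simp [CopS]
  | j + 1, l, hl, hs, pre, post => by
    rcases List.eq_nil_or_concat l with rfl | ⟨l0, z, rfl⟩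
    · simp at hl
    rw [List.concat_eq_append] at hl hs ⊢
    rw [List.length_append, List.length_singleton] at hl
    rw [List.pairwise_append] at hs
    have ih := CopS_ind j l0 (by omega) hs.1 pre (z :: post)
    show ind A (pre ++ (l0 ++ [z]) ++ post) +
      TL q (pre.length + j) (CopS (TL q) pre.length j (ind A (pre ++ (l0 ++ [z]) ++ post))) = _
    have e0 : pre ++ (l0 ++ [z]) ++ post = pre ++ l0 ++ z :: post := by simp
    rw [e0, ih, sum_map_end, List.map_append, List.sum_append, add_comm]
    have hz : z ∉ l0 := fun h => absurd (hs.2.2 z h z (by simp)) (lt_irrefl _)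
    congr 1
    · congr 1
      apply List.map_congr_left
      intro x hx
      have hlt := hs.2.2 x hx z (by simp)
      have hlen : (pre ++ l0.erase x).length = pre.length + j := by
        rw [List.length_append, List.length_erase_of_mem hx]; omega
      rw [← hlen, TL_ind q _ x z post hlt, List.erase_append_left _ hx]
      simp
    · simp [List.erase_append_right _ hz]

/-- sum of the indicators of all words pre ++ l' ++ post, l' a permutation of l -/
noncomputable def PS (A : Type) [CommRing A] (pre l post : List ℕ) : List ℕ → A :=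
  ∑ l' ∈ l.permutations.toFinset, ind A (pre ++ l' ++ post)

lemma mem_perms {l l' : List ℕ} : l' ∈ l.permutations.toFinset ↔ l'.Perm l := by
  rw [List.mem_toFinset, List.mem_permutations]

lemma PS_sum (pre l post : List ℕ) (hn : l.Nodup) (hne : l ≠ []) :
    (l.map (fun x => PS A pre (l.erase x) (x :: post))).sum = PS A pre l post := by
  rw [← List.sum_toFinset _ hn]
  unfold PS
  rw [Finset.sum_sigma']
  refine Finset.sum_bij (fun p _ => p.2 ++ [p.1]) ?_ ?_ ?_ ?_
  · rintro ⟨x, l'⟩ h
    rw [Finset.mem_sigma, mem_perms, List.mem_toFinset] at h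
    rw [mem_perms]
    exact (List.Perm.append_right _ h.2).trans
      ((List.perm_append_singleton _ _).trans (List.perm_cons_erase h.1).symm)
  · rintro ⟨x, l'⟩ _ ⟨y, m'⟩ _ e
    have h1 := List.append_inj_left' e rfl
    have h2 := List.append_inj_right' e rfl
    simp only [List.cons.injEq, and_true] at h1 h2
    subst h1 h2
    rfl
  · intro m hm
    rw [mem_perms] at hm
    rcases List.eq_nil_or_concat m with rfl | ⟨m0, z, rfl⟩
    · exact absurd hm.symm.eq_nil hne
    rw [List.concat_eq_append] at hm ⊢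
    have hz : z ∈ l := hm.subset (by simp)
    refine ⟨⟨z, m0⟩, ?_, rfl⟩
    rw [Finset.mem_sigma, mem_perms, List.mem_toFinset]
    refine ⟨hz, ?_⟩
    have h1 : (z :: m0).Perm (z :: l.erase z) :=
      ((List.perm_append_singleton _ _).symm.trans hm).trans (List.perm_cons_erase hz)
    exact h1.cons_inv
  · rintro ⟨x, l'⟩ _
    simp

lemma XopS_ind : ∀ (j : ℕ) (l : List ℕ), l.length = j + 1 → l.Pairwise (· < ·) →
    ∀ pre post : List ℕ, XopS (TL q) pre.length j (ind A (pre ++ l ++ post)) = PS A pre l post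
  | 0, l, hl, _, pre, post => by
    obtain ⟨x, rfl⟩ := List.length_eq_one_iff.1 hl
    show ind A (pre ++ [x] ++ post) = _
    unfold PS
    have : ([x] : List ℕ).permutations.toFinset = {[x]} := by
      ext l'
      rw [mem_perms, Finset.mem_singleton, List.perm_singleton]
    rw [this, Finset.sum_singleton]
  | j + 1, l, hl, hs, pre, post => by
    show XopS (TL q) pre.length j (CopS (TL q) pre.length (j + 1) (ind A (pre ++ l ++ post))) = _
    have hn : l.Nodup := hs.imp (fun h => h.ne)
    rw [CopS_ind q (j + 1) l hl hs, sum_map_end, ← PS_sum pre l post hn (by rintro rfl; simp at hl)]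
    congr 1
    apply List.map_congr_left
    intro x hx
    exact XopS_ind j (l.erase x) (by rw [List.length_erase_of_mem hx]; omega)
      (hs.sublist (List.erase_sublist ..)) pre (x :: post)

open Classical in
/-- indicator of the words pre ++ (block word) -/
noncomputable def ZP (A : Type) [CommRing A] (κ pre : List ℕ) : List ℕ → A :=
  fun w => if ∃ w', IsBlockWord κ w' ∧ w = pre ++ w' then 1 else 0

lemma YopS_ind : ∀ (κ pre : List ℕ), (∀ b ∈ κ, 0 < b) →
    YopS (TL q) pre.length κ (ind A (pre ++ rowWord κ)) = ZP A κ pre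
  | [], pre, _ => by
    show ind A (pre ++ rowWord []) = _
    funext w
    unfold ind ZP
    congr 1
    apply propext
    simp [IsBlockWord, rowWord]
  | b :: κ, pre, hpos => by
    have hb0 : 0 < b := hpos b (List.mem_cons_self ..)
    show YopS (TL q) (pre.length + b) κ (XopS (TL q) pre.length (b - 1)
      (ind A (pre ++ rowWord (b :: κ)))) = _
    rw [AuxA.rowWord_cons, ← List.append_assoc,
      XopS_ind q (b - 1) (List.range b) (by rw [List.length_range]; omega) List.pairwise_lt_range]
    unfold PS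
    rw [map_sum]
    have e1 : ∀ l' ∈ (List.range b).permutations.toFinset,
        YopS (TL q) (pre.length + b) κ (ind A (pre ++ l' ++ rowWord κ)) = ZP A κ (pre ++ l') := by
      intro l' hl'
      rw [mem_perms] at hl'
      have hlen : (pre ++ l').length = pre.length + b := by
        rw [List.length_append, hl'.length_eq, List.length_range]
      rw [← hlen]
      exact YopS_ind κ (pre ++ l') (fun c hc => hpos c (List.mem_cons_of_mem _ hc))
    rw [Finset.sum_congr rfl e1]
    funext w
    rw [Finset.sum_apply]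
    by_cases hw : ∃ w', IsBlockWord (b :: κ) w' ∧ w = pre ++ w'
    · have hR : ZP A (b :: κ) pre w = 1 := by unfold ZP; rw [if_pos hw]
      rw [hR]
      obtain ⟨w', hw', rfl⟩ := hw
      rw [Finset.sum_eq_single (w'.take b)]
      · unfold ZP
        rw [if_pos ⟨w'.drop b, hw'.2, by rw [List.append_assoc, List.take_append_drop]⟩]
      · intro l' hl' hne
        rw [mem_perms] at hl'
        unfold ZP
        rw [if_neg]
        rintro ⟨u, hu, e⟩
        apply hne
        rw [List.append_assoc] at e
        have e2 := List.append_cancel_left e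
        rw [e2, List.take_left' (by rw [hl'.length_eq, List.length_range])]
      · intro h
        exact absurd (mem_perms.2 hw'.1) h
    · have hR : ZP A (b :: κ) pre w = 0 := by unfold ZP; rw [if_neg hw]
      rw [hR]
      apply Finset.sum_eq_zero
      intro l' hl'
      rw [mem_perms] at hl'
      unfold ZP
      rw [if_neg]
      rintro ⟨u, hu, e⟩
      apply hw
      refine ⟨l' ++ u, ⟨?_, ?_⟩, by rw [e, List.append_assoc]⟩
      · rw [List.take_left' (by rw [hl'.length_eq, List.length_range])]; exact hl'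
      · rw [List.drop_left' (by rw [hl'.length_eq, List.length_range])]; exact hu

lemma ZP_nil (κ : List ℕ) : ZP A κ [] = zf A κ := by
  funext w
  unfold ZP zf
  congr 1
  apply propext
  simp

end ind

end Pool.Agent.JC3.AuxB2

namespace Pool.Agent.JC3

open AuxB2

theorem B2_proof : StmtB2 := by
  intro A _ _ q κ hκ hq0 hq1
  have hpos : ∀ b ∈ κ, 0 < b := hκ.2
  refine ⟨Yop (TL q) 0 κ, ?_, ?_, ?_⟩
  · intro U hU f hf
    exact Yop_mem (TL q) U κ 0 hpos (fun i _ h x hx => hU i (by omega) x hx) f hf
  · intro f hf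
    have hYM : Yop (TL q) 0 κ f ∈ MM A κ :=
      Yop_mem (TL q) (MM A κ) κ 0 hpos (fun i _ _ x hx => TL_memMM q κ i hx) f hf
    have hsym : ∀ k, RowIdx κ k → TL q k (Yop (TL q) 0 κ f) = q • Yop (TL q) 0 κ f := by
      intro k hk
      have := Yop_sym (TL q) q (MM A κ) (fun i x hx => TL_memMM q κ i hx) κ.sum
        (fun i hi x hx => TL_quad q κ i hi x hx) (fun i hi x hx => TL_braid q κ i hi x hx)
        (fun i j hij hj x hx => TL_comm q κ i j hij hj x hx) κ 0 (by omega) hpos f hf k hk
      rwa [Nat.zero_add] at this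
    have h1 := A2_proof A q κ hq0 hq1 _ hYM hsym
    have h2 : BB q κ (Yop (TL q) 0 κ f) (ind A (rowWord κ)) =
        q ^ inv (rowWord κ) * Yop (TL q) 0 κ f (rowWord κ) := by
      rw [BB_apply, Finset.sum_eq_single (rowWord κ)]
      · rw [ind_self, mul_one]
      · intro w _ hw
        rw [ind_ne A hw, mul_zero]
      · intro h
        exact absurd (mem_permSet.2 (List.Perm.refl _)) h
    have h3 : BB q κ (Yop (TL q) 0 κ f) (ind A (rowWord κ)) = BB q κ f (zf A κ) := by
      rw [Yop_adj (TL q) (BB q κ) κ 0 hpos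
        (fun i _ hi f g => B1_proof A q κ i (by omega) f g)]
      have := YopS_ind (A := A) q κ [] hpos
      rw [List.nil_append] at this
      rw [show YopS (TL q) 0 κ (ind A (rowWord κ)) = ZP A κ [] from this, ZP_nil]
    rw [← h3, h2, mul_smul, ← h1]
  · exact Yop_val (TL q) q κ 0 (zf A κ) hpos (fun k hk => by
      rw [Nat.zero_add]; exact (A3_proof A q κ).2.2 k hk)

end Pool.Agent.JC3
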