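import Pool.Agent.JC3.B1

/-!
B3: submodule theorem.  B4: the value B(z,z).  Both from B1, B2 and A3.
-/

set_option autoImplicit false

namespace Pool.Agent.JC3.AuxB34

open AuxB1

/-- T_k preserves the functions supported on permutations of rowWord κ -/
theorem TL_mem_MM {A : Type} [CommRing A] (q : A) {κ : List ℕ} {k : ℕ} {f : List ℕ → A}
    (hf : f ∈ MM A κ) : TL q k f ∈ MM A κ := by
  intro w hw
  by_cases h1 : f w = 0
  · have h2 : f (swapAt k w) ≠ 0 := by
      intro h2
      apply hw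
      rw [TL_apply, h1, h2]
      split_ifs <;> ring
    exact (swapAt_perm k w).symm.trans (hf _ h2)
  · exact hf w h1

theorem applyT_mem_MM {A : Type} [CommRing A] (q : A) {κ : List ℕ} (ks : List ℕ)
    {f : List ℕ → A} (hf : f ∈ MM A κ) : applyT q ks f ∈ MM A κ := by
  induction ks with
  | nil => exact hf
  | cons k ks ih => exact TL_mem_MM q ih

theorem applyT_append {A : Type} [CommRing A] (q : A) (ks ls : List ℕ) (f : List ℕ → A) :
    applyT q (ks ++ ls) f = applyT q ks (applyT q ls f) := by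
  simp [applyT, List.foldr_append]

theorem applyT_mem {A : Type} [CommRing A] {q : A} {n : ℕ} {U : Submodule A (List ℕ → A)}
    (hU : Stable q n U) {ks : List ℕ} (hks : ∀ k ∈ ks, k + 1 < n) {f : List ℕ → A} (hf : f ∈ U) :
    applyT q ks f ∈ U := by
  induction ks with
  | nil => exact hf
  | cons k ks ih =>
    exact hU k (hks k (by simp)) _ (ih (fun l hl => hks l (by simp [hl])))

/-- adjoint of a product of T's -/
theorem BB_applyT {A : Type} [CommRing A] {q : A} {κ ks : List ℕ}
    (hks : ∀ k ∈ ks, k + 1 < κ.sum) (f g : List ℕ → A) :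
    BB q κ f (applyT q ks g) = BB q κ (applyT q ks.reverse f) g := by
  induction ks generalizing f with
  | nil => rfl
  | cons k ks ih =>
    have h1 : applyT q (k :: ks) g = TL q k (applyT q ks g) := rfl
    rw [h1, ← B1_proof A q κ k (hks k (by simp)) f (applyT q ks g),
      ih (fun l hl => hks l (by simp [hl])), List.reverse_cons, applyT_append]
    rfl

end Pool.Agent.JC3.AuxB34

namespace Pool.Agent.JC3

open AuxB1 AuxB34

theorem B3_proof (hB2 : StmtB2) (hA3 : StmtA3) : StmtB3 := by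
  intro k _ q κ hκ hq0 hq1 U hU hle
  by_cases hr : U ≤ radL q κ
  · exact Or.inr hr
  left
  apply le_antisymm hle
  -- an element of U outside the radical
  obtain ⟨u, huU, hur⟩ := SetLike.not_le_iff_exists.1 hr
  have huS : u ∈ SpL q κ := hle huU
  have hex : ∃ g ∈ SpL q κ, BB q κ u g ≠ 0 := by
    by_contra hcon
    push Not at hcon
    exact hur ⟨huS, hcon⟩
  obtain ⟨g, hg, hug⟩ := hex
  have hex2 : ∃ ks : List ℕ, (∀ l ∈ ks, l + 1 < κ.sum) ∧
      BB q κ u (applyT q ks (zf k κ)) ≠ 0 := by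
    by_contra hcon
    push Not at hcon
    apply hug
    have hsub : SpL q κ ≤ LinearMap.ker (BB q κ u) := by
      refine Submodule.span_le.2 ?_
      rintro f ⟨ks, hks, rfl⟩
      exact hcon ks hks
    exact hsub hg
  obtain ⟨ks, hks, hne⟩ := hex2
  rw [BB_applyT hks] at hne
  have hks' : ∀ l ∈ ks.reverse, l + 1 < κ.sum := fun l hl => hks l (List.mem_reverse.1 hl)
  set u' := applyT q ks.reverse u with hu'
  have hu'U : u' ∈ U := applyT_mem hU hks' huU
  have hzM : zf k κ ∈ MM k κ := (hA3 k q κ).1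
  have huM : u ∈ MM k κ := by
    have hsub : SpL q κ ≤ MM k κ := by
      refine Submodule.span_le.2 ?_
      rintro f ⟨ks, _, rfl⟩
      exact applyT_mem_MM q ks hzM
    exact hsub huS
  have hu'M : u' ∈ MM k κ := applyT_mem_MM q _ huM
  obtain ⟨Y, hY1, hY2, -⟩ := hB2 k q κ hκ hq0 hq1
  have hYU : Y u' ∈ U := hY1 U hU u' hu'U
  have hzU : zf k κ ∈ U := by
    have h1 : BB q κ u' (zf k κ) • zf k κ ∈ U := by
      rw [← hY2 u' hu'M]
      exact U.smul_mem _ hYU
    have h2 : (BB q κ u' (zf k κ))⁻¹ • (BB q κ u' (zf k κ) • zf k κ) = zf k κ := by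
      rw [smul_smul, inv_mul_cancel₀ hne, one_smul]
    rw [← h2]
    exact U.smul_mem _ h1
  refine Submodule.span_le.2 ?_
  rintro f ⟨ls, hls, rfl⟩
  exact applyT_mem hU hls hzU

theorem B4_proof (hB2 : StmtB2) (hA3 : StmtA3) : StmtB4 := by
  intro A _ _ q κ hκ hq0 hq1
  obtain ⟨Y, -, hY2, hY3⟩ := hB2 A q κ hκ hq0 hq1
  have hz := hA3 A q κ
  have h1 := hY2 (zf A κ) hz.1
  rw [hY3] at h1
  have h2 := congrFun h1 (rowWord κ)
  simp only [Pi.smul_apply, smul_eq_mul, hz.2.1, mul_one] at h2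
  exact h2.symm

end Pool.Agent.JC3
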