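import Pool.Agent.JC3.Stmts

/-!
Shared basic lemmas on words, exchanges, contents, inversions, Yamanouchi words.
-/

set_option autoImplicit false

namespace Pool.Agent.JC3

/-! ### splitting a word at a position -/

lemma exists_split (w : List ℕ) (k : ℕ) (h : k + 1 < w.length) :
    ∃ (pre : List ℕ) (x y : ℕ) (post : List ℕ), pre.length = k ∧ w = pre ++ x :: y :: post := by
  refine ⟨w.take k, w[k], w[k + 1], w.drop (k + 2), ?_, ?_⟩
  · rw [List.length_take]; omega
  · conv_lhs => rw [← List.take_append_drop k w]
    congr 1
    rw [List.drop_eq_getElem_cons (by omega), List.drop_eq_getElem_cons (by omega)]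

lemma exists_split1 (w : List ℕ) (k : ℕ) (h : k < w.length) :
    ∃ (pre : List ℕ) (x : ℕ) (post : List ℕ), pre.length = k ∧ w = pre ++ x :: post := by
  refine ⟨w.take k, w[k], w.drop (k + 1), ?_, ?_⟩
  · rw [List.length_take]; omega
  · conv_lhs => rw [← List.take_append_drop k w]
    congr 1
    rw [List.drop_eq_getElem_cons (by omega)]

lemma swapAt_append (pre : List ℕ) (x y : ℕ) (post : List ℕ) :
    swapAt pre.length (pre ++ x :: y :: post) = pre ++ y :: x :: post := by
  induction pre with
  | nil => rfl
  | cons a l ih => simp [swapAt, ih]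

lemma getD_split0 (pre : List ℕ) (x : ℕ) (post : List ℕ) :
    (pre ++ x :: post).getD pre.length 0 = x := by
  simp [List.getD]

lemma getD_split1 (pre : List ℕ) (x y : ℕ) (post : List ℕ) :
    (pre ++ x :: y :: post).getD (pre.length + 1) 0 = y := by
  simp [List.getD]

lemma take_split0 (pre : List ℕ) (post : List ℕ) : (pre ++ post).take pre.length = pre := by
  simp

lemma take_split1 (pre : List ℕ) (x : ℕ) (post : List ℕ) :
    (pre ++ x :: post).take (pre.length + 1) = pre ++ [x] := by
  have : pre ++ x :: post = (pre ++ [x]) ++ post := by simp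
  rw [this]
  have h2 : pre.length + 1 = (pre ++ [x]).length := by simp
  rw [h2, List.take_left]

/-- exchange is the identity on words which are too short -/
lemma swapAt_short (w : List ℕ) (k : ℕ) (h : w.length ≤ k + 1) : swapAt k w = w := by
  induction k generalizing w with
  | zero =>
    match w, h with
    | [], _ => rfl
    | [x], _ => rfl
  | succ k ih =>
    match w, h with
    | [], _ => rfl
    | x :: l, h => simp only [swapAt]; rw [ih l (by simpa using h)]

lemma swapAt_length (w : List ℕ) (k : ℕ) : (swapAt k w).length = w.length := by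
  by_cases h : k + 1 < w.length
  · obtain ⟨pre, x, y, post, rfl, rfl⟩ := exists_split w k h
    rw [swapAt_append]; simp
  · rw [swapAt_short w k (by omega)]

lemma swapAt_perm (w : List ℕ) (k : ℕ) : (swapAt k w).Perm w := by
  by_cases h : k + 1 < w.length
  · obtain ⟨pre, x, y, post, rfl, rfl⟩ := exists_split w k h
    rw [swapAt_append]
    exact List.Perm.append_left pre (List.Perm.swap x y post)
  · rw [swapAt_short w k (by omega)]

lemma swapAt_swapAt (w : List ℕ) (k : ℕ) : swapAt k (swapAt k w) = w := by
  by_cases h : k + 1 < w.length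
  · obtain ⟨pre, x, y, post, rfl, rfl⟩ := exists_split w k h
    rw [swapAt_append, swapAt_append]
  · rw [swapAt_short w k (by omega), swapAt_short w k (by omega)]

lemma swapAt_inj {w u : List ℕ} {k : ℕ} (h : swapAt k w = swapAt k u) : w = u := by
  rw [← swapAt_swapAt w k, h, swapAt_swapAt]

lemma getD_swapAt0 (w : List ℕ) (k : ℕ) (h : k + 1 < w.length) :
    (swapAt k w).getD k 0 = w.getD (k + 1) 0 := by
  obtain ⟨pre, x, y, post, rfl, rfl⟩ := exists_split w k h
  rw [swapAt_append, getD_split0, getD_split1]

lemma getD_swapAt1 (w : List ℕ) (k : ℕ) (h : k + 1 < w.length) :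
    (swapAt k w).getD (k + 1) 0 = w.getD k 0 := by
  obtain ⟨pre, x, y, post, rfl, rfl⟩ := exists_split w k h
  rw [swapAt_append, getD_split0, getD_split1]

lemma swapAt_cons (a : ℕ) (l : List ℕ) (k : ℕ) : swapAt (k + 1) (a :: l) = a :: swapAt k l := rfl

lemma swapAt_append_left (pre l : List ℕ) (k : ℕ) :
    swapAt (pre.length + k) (pre ++ l) = pre ++ swapAt k l := by
  induction pre with
  | nil => simp
  | cons a m ih =>
    have : (a :: m).length + k = (m.length + k) + 1 := by simp; omega
    rw [this, List.cons_append, swapAt_cons, ih, List.cons_append]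

lemma swapAt_eq_self_iff (w : List ℕ) (k : ℕ) (h : k + 1 < w.length) :
    swapAt k w = w ↔ w.getD k 0 = w.getD (k + 1) 0 := by
  obtain ⟨pre, x, y, post, rfl, rfl⟩ := exists_split w k h
  rw [swapAt_append, getD_split0, getD_split1]
  constructor
  · intro h; have := List.append_cancel_left h; simp at this; exact this.1.symm
  · rintro rfl; rfl

/-- entries away from the exchanged positions are unchanged -/
lemma getD_swapAt_of_ne (w : List ℕ) (k p : ℕ) (h : k + 1 < w.length) (h1 : p ≠ k) (h2 : p ≠ k + 1) :
    (swapAt k w).getD p 0 = w.getD p 0 := by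
  obtain ⟨pre, x, y, post, rfl, rfl⟩ := exists_split w k h
  rw [swapAt_append]
  rcases Nat.lt_or_ge p pre.length with h3 | h3
  · simp [List.getD, List.getElem?_append_left h3]
  · obtain ⟨j, rfl⟩ : ∃ j, p = pre.length + (j + 2) := ⟨p - pre.length - 2, by omega⟩
    simp only [List.getD]
    rw [List.getElem?_append_right (by omega), List.getElem?_append_right (by omega)]
    have : pre.length + (j + 2) - pre.length = j + 2 := by omega
    rw [this]; rfl

lemma swapAt_comm (w : List ℕ) (k l : ℕ) (h : k + 1 < l) :
    swapAt k (swapAt l w) = swapAt l (swapAt k w) := by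
  by_cases hl : l + 1 < w.length
  · obtain ⟨pre, x, y, post, hp, rfl⟩ := exists_split w k (by omega)
    subst hp
    obtain ⟨m, rfl⟩ : ∃ m, l = pre.length + (m + 2) := ⟨l - pre.length - 2, by omega⟩
    rw [swapAt_append, swapAt_append_left, swapAt_append_left, swapAt_cons, swapAt_cons,
      swapAt_cons, swapAt_cons, swapAt_append]
  · rw [swapAt_short w l (by omega), swapAt_short (swapAt k w) l (by rw [swapAt_length]; omega)]

lemma swapAt_braid (w : List ℕ) (k : ℕ) (h : k + 2 < w.length) :
    swapAt k (swapAt (k + 1) (swapAt k w)) = swapAt (k + 1) (swapAt k (swapAt (k + 1) w)) := by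
  obtain ⟨pre, x, l, rfl, rfl⟩ := exists_split1 w k (by omega)
  match l, h with
  | y :: z :: l, _ =>
    have e1 : ∀ a b c : ℕ, swapAt pre.length (pre ++ a :: b :: c :: l) = pre ++ b :: a :: c :: l :=
      fun a b c => swapAt_append pre a b (c :: l)
    have e2 : ∀ a b c : ℕ, swapAt (pre.length + 1) (pre ++ a :: b :: c :: l)
        = pre ++ a :: c :: b :: l := fun a b c => by
      rw [swapAt_append_left, swapAt_cons]; rfl
    rw [e1, e2, e1, e2, e1, e2]
  | [], h => simp at h
  | [y], h => simp at h

/-! ### TL and SL on split words -/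

section
variable {A : Type} [CommRing A]

lemma TL_eq (q : A) (pre : List ℕ) (x : ℕ) (post : List ℕ) (f : List ℕ → A) :
    TL q pre.length f (pre ++ x :: x :: post) = - f (pre ++ x :: x :: post) := by
  show (if _ then _ else _) = _
  rw [getD_split0, getD_split1, if_pos rfl]

lemma TL_lt (q : A) (pre : List ℕ) (x y : ℕ) (post : List ℕ) (h : x < y) (f : List ℕ → A) :
    TL q pre.length f (pre ++ x :: y :: post) = q * f (pre ++ y :: x :: post) := by
  show (if _ then _ else _) = _
  rw [getD_split0, getD_split1, if_neg (by omega), if_pos h, swapAt_append]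

lemma TL_gt (q : A) (pre : List ℕ) (x y : ℕ) (post : List ℕ) (h : y < x) (f : List ℕ → A) :
    TL q pre.length f (pre ++ x :: y :: post) =
      f (pre ++ y :: x :: post) + (q - 1) * f (pre ++ x :: y :: post) := by
  show (if _ then _ else _) = _
  rw [getD_split0, getD_split1, if_neg (by omega), if_neg (by omega), swapAt_append]

lemma TL_apply (q : A) (k : ℕ) (f : List ℕ → A) (w : List ℕ) :
    TL q k f w = if w.getD k 0 = w.getD (k + 1) 0 then - f w
      else if w.getD k 0 < w.getD (k + 1) 0 then q * f (swapAt k w)
      else f (swapAt k w) + (q - 1) * f w := rfl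

end

section
variable {K : Type} [Field K]

lemma SL_apply (q : K) (k : ℕ) (f : List ℕ → K) (w : List ℕ) :
    SL q k f w = if w.getD k 0 = w.getD (k + 1) 0 then - f w
      else alpha q (cont w (k + 1) - cont w k) * f w +
        (if w.getD k 0 < w.getD (k + 1) 0 then 1 else beta q (cont w (k + 1) - cont w k)) *
          f (swapAt k w) := rfl

lemma cont_split0 (pre : List ℕ) (x : ℕ) (post : List ℕ) :
    cont (pre ++ x :: post) pre.length = (x : ℤ) - (pre.count x : ℤ) := by
  unfold cont
  rw [getD_split0, take_split0]

lemma cont_split1 (pre : List ℕ) (x y : ℕ) (post : List ℕ) (h : x ≠ y) :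
    cont (pre ++ x :: y :: post) (pre.length + 1) = (y : ℤ) - (pre.count y : ℤ) := by
  unfold cont
  rw [getD_split1, take_split1]
  simp [List.count_append, List.count_cons, h]

lemma cont_split1_eq (pre : List ℕ) (x : ℕ) (post : List ℕ) :
    cont (pre ++ x :: x :: post) (pre.length + 1) = (x : ℤ) - (pre.count x : ℤ) - 1 := by
  unfold cont
  rw [getD_split1, take_split1]
  simp [List.count_append]; ring

/-- content difference of the two letters x ≠ y after the word pre -/
lemma cdiff_split (pre : List ℕ) (x y : ℕ) (post : List ℕ) (h : x ≠ y) :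
    cont (pre ++ x :: y :: post) (pre.length + 1) - cont (pre ++ x :: y :: post) pre.length =
      ((y : ℤ) - (pre.count y : ℤ)) - ((x : ℤ) - (pre.count x : ℤ)) := by
  rw [cont_split1 pre x y post h]
  have := cont_split0 pre x (y :: post)
  rw [this]

lemma SL_eq (q : K) (pre : List ℕ) (x : ℕ) (post : List ℕ) (f : List ℕ → K) :
    SL q pre.length f (pre ++ x :: x :: post) = - f (pre ++ x :: x :: post) := by
  rw [SL_apply, getD_split0, getD_split1, if_pos rfl]

lemma SL_lt (q : K) (pre : List ℕ) (x y : ℕ) (post : List ℕ) (h : x < y) (f : List ℕ → K) :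
    SL q pre.length f (pre ++ x :: y :: post) =
      alpha q (((y : ℤ) - (pre.count y : ℤ)) - ((x : ℤ) - (pre.count x : ℤ))) *
        f (pre ++ x :: y :: post) + f (pre ++ y :: x :: post) := by
  rw [SL_apply, getD_split0, getD_split1, if_neg (by omega), if_pos h, swapAt_append,
    cdiff_split pre x y post (by omega), one_mul]

lemma SL_gt (q : K) (pre : List ℕ) (x y : ℕ) (post : List ℕ) (h : y < x) (f : List ℕ → K) :
    SL q pre.length f (pre ++ x :: y :: post) =
      alpha q (((y : ℤ) - (pre.count y : ℤ)) - ((x : ℤ) - (pre.count x : ℤ))) *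
        f (pre ++ x :: y :: post) +
      beta q (((y : ℤ) - (pre.count y : ℤ)) - ((x : ℤ) - (pre.count x : ℤ))) *
        f (pre ++ y :: x :: post) := by
  rw [SL_apply, getD_split0, getD_split1, if_neg (by omega), if_neg (by omega), swapAt_append,
    cdiff_split pre x y post (by omega)]

end

/-- contents after an exchange of different letters -/
lemma cont_swapAt0 (w : List ℕ) (k : ℕ) (h : k + 1 < w.length)
    (hne : w.getD k 0 ≠ w.getD (k + 1) 0) : cont (swapAt k w) k = cont w (k + 1) := by
  obtain ⟨pre, x, y, post, rfl, rfl⟩ := exists_split w k h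
  rw [getD_split0, getD_split1] at hne
  rw [swapAt_append, cont_split1 _ _ _ _ hne, cont_split0]

lemma cont_swapAt1 (w : List ℕ) (k : ℕ) (h : k + 1 < w.length)
    (hne : w.getD k 0 ≠ w.getD (k + 1) 0) : cont (swapAt k w) (k + 1) = cont w k := by
  obtain ⟨pre, x, y, post, rfl, rfl⟩ := exists_split w k h
  rw [getD_split0, getD_split1] at hne
  rw [swapAt_append, cont_split1 _ _ _ _ hne.symm, cont_split0]

lemma cont_swapAt_of_ne (w : List ℕ) (k p : ℕ) (h : k + 1 < w.length) (h1 : p ≠ k)
    (h2 : p ≠ k + 1) : cont (swapAt k w) p = cont w p := by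
  unfold cont
  rw [getD_swapAt_of_ne w k p h h1 h2]
  congr 2
  obtain ⟨pre, x, y, post, rfl, rfl⟩ := exists_split w k h
  rw [swapAt_append]
  rcases Nat.lt_or_ge p pre.length with h3 | h3
  · rw [List.take_append_of_le_length (by omega), List.take_append_of_le_length (by omega)]
  · obtain ⟨j, rfl⟩ : ∃ j, p = pre.length + (j + 2) := ⟨p - pre.length - 2, by omega⟩
    apply List.Perm.count_eq
    rw [List.take_length_add_append, List.take_length_add_append]
    simp only [List.take_succ_cons]
    exact List.Perm.append_left pre (List.Perm.swap x y _)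

/-! ### inversions -/

lemma inv_append_cons (pre : List ℕ) : ∀ (x y : ℕ) (post : List ℕ), x < y →
    inv (pre ++ y :: x :: post) = inv (pre ++ x :: y :: post) + 1 := by
  induction pre with
  | nil =>
    intro x y post h
    simp only [List.nil_append, inv, List.countP_cons]
    have h1 : decide (x < y) = true := by simpa using h
    have h2 : decide (y < x) = false := by simp; omega
    simp only [h1, h2]; simp; omega
  | cons a l ih =>
    intro x y post h
    simp only [List.cons_append, inv]
    rw [ih x y post h]
    have : (l ++ y :: x :: post).countP (fun z => decide (z < a)) =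
        (l ++ x :: y :: post).countP (fun z => decide (z < a)) :=
      List.Perm.countP_eq _ (List.Perm.append_left l (List.Perm.swap x y post))
    omega

lemma inv_swapAt_of_lt (w : List ℕ) (k : ℕ) (h : k + 1 < w.length)
    (hlt : w.getD k 0 < w.getD (k + 1) 0) : inv (swapAt k w) = inv w + 1 := by
  obtain ⟨pre, x, y, post, rfl, rfl⟩ := exists_split w k h
  rw [getD_split0, getD_split1] at hlt
  rw [swapAt_append, inv_append_cons pre x y post hlt]

lemma inv_swapAt_of_gt (w : List ℕ) (k : ℕ) (h : k + 1 < w.length)
    (hgt : w.getD (k + 1) 0 < w.getD k 0) : inv (swapAt k w) + 1 = inv w := by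
  obtain ⟨pre, x, y, post, rfl, rfl⟩ := exists_split w k h
  rw [getD_split0, getD_split1] at hgt
  rw [swapAt_append, inv_append_cons pre y x post hgt]

/-! ### lengths and permutations -/

lemma rowWord_length (κ : List ℕ) : (rowWord κ).length = κ.sum := by
  induction κ with
  | nil => rfl
  | cons b κ ih =>
    simp only [rowWord, List.flatMap_cons, List.length_append, List.length_range, List.sum_cons] at *
    omega

lemma length_of_perm {κ w : List ℕ} (h : w.Perm (rowWord κ)) : w.length = κ.sum := by
  rw [h.length_eq, rowWord_length]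

/-! ### Yamanouchi words -/

lemma Yam.of_append {w l : List ℕ} (h : Yam (w ++ l)) : Yam w := by
  intro pre x post e
  exact h pre x (post ++ l) (by rw [e]; simp)

lemma yam_nil : Yam [] := by
  intro pre x post e; simp at e

/-- Yam of a word with a letter appended -/
lemma yam_snoc {w : List ℕ} {x : ℕ} : Yam (w ++ [x]) ↔ Yam w ∧ (x = 0 ∨ w.count x < w.count (x - 1)) := by
  constructor
  · intro h
    refine ⟨h.of_append, ?_⟩
    rcases x with _ | x
    · left; rfl
    · right; simpa using h w x [] rfl
  · rintro ⟨h, hx⟩ pre y post e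
    rcases List.eq_nil_or_concat post with rfl | ⟨post', z, rfl⟩
    · have e' := e
      have h1 := List.append_inj_left' e' (by simp)
      have h2 := List.append_inj_right' e' (by simp)
      simp at h2; subst h1; subst h2
      rcases hx with hx | hx
      · simp at hx
      · simpa using hx
    · rw [List.concat_eq_append] at e
      have e' : w ++ [x] = (pre ++ (y + 1) :: post') ++ [z] := by rw [e]; simp
      have h1 := List.append_inj_left' e' (by simp)
      exact h pre y post' h1

/-- after a Yamanouchi word the counts are weakly decreasing -/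
lemma Yam.count_succ_le {w : List ℕ} (h : Yam w) (x : ℕ) : w.count (x + 1) ≤ w.count x := by
  induction w using List.reverseRecOn with
  | nil => simp
  | append_singleton w y ih =>
    rw [yam_snoc] at h
    have h1 := ih h.1
    rw [List.count_append, List.count_append]
    by_cases e : y = x + 1
    · subst e
      rcases h.2 with h2 | h2
      · simp at h2
      · simp at h2 ⊢; omega
    · have : List.count (x + 1) [y] = 0 := by simp [List.count_cons, e]
      omega

lemma Yam.count_antitone {w : List ℕ} (h : Yam w) {x y : ℕ} (hxy : x ≤ y) :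
    w.count y ≤ w.count x := by
  induction y, hxy using Nat.le_induction with
  | base => exact le_rfl
  | succ y _ ih => exact (h.count_succ_le y).trans ih

/-- contents of different letters after a Yamanouchi word are strictly increasing -/
lemma Yam.cont_lt {w : List ℕ} (h : Yam w) {x y : ℕ} (hxy : x < y) :
    (x : ℤ) - (w.count x : ℤ) < (y : ℤ) - (w.count y : ℤ) := by
  have := h.count_antitone hxy.le
  omega

lemma yam_append_iff (pre l : List ℕ) : Yam (pre ++ l) ↔
    Yam pre ∧ ∀ (l1 : List ℕ) (x : ℕ) (l2 : List ℕ), l = l1 ++ (x + 1) :: l2 →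
      (pre ++ l1).count (x + 1) < (pre ++ l1).count x := by
  constructor
  · intro h
    exact ⟨h.of_append, fun l1 x l2 e => h (pre ++ l1) x l2 (by rw [e]; simp)⟩
  · rintro ⟨h, h'⟩ p x post e
    rcases Nat.lt_or_ge p.length pre.length with hlt | hge
    · -- the letter lies in pre
      have e1 : p = pre.take p.length := by
        have := congrArg (List.take p.length) e
        rw [List.take_append_of_le_length (by omega)] at this
        simpa using this.symm
      have e2 : pre = p ++ (x + 1) :: (pre.drop (p.length + 1)) := by
        have h1 := congrArg (List.drop p.length) e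
        rw [List.drop_append_of_le_length (by omega), List.drop_left] at h1
        have h2 : pre.drop p.length = (x + 1) :: pre.drop (p.length + 1) := by
          rw [List.drop_eq_getElem_cons hlt] at h1 ⊢
          simp only [List.cons_append, List.cons.injEq] at h1
          rw [h1.1]
        calc pre = pre.take p.length ++ pre.drop p.length := (List.take_append_drop _ _).symm
          _ = _ := by rw [← e1, h2]
      exact h p x _ e2
    · obtain ⟨l1, rfl⟩ : ∃ l1, p = pre ++ l1 := by
        have := congrArg (List.take p.length) e
        rw [List.take_left' rfl, List.take_append] at this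
        refine ⟨l.take (p.length - pre.length), ?_⟩
        rw [List.take_of_length_le hge] at this
        exact this.symm
      rw [List.append_assoc] at e
      exact h' l1 x post (List.append_cancel_left e)

/-- Yamanouchi words and an exchange: the two words in terms of the prefix -/
lemma yam_split2 (pre : List ℕ) (x y : ℕ) (post : List ℕ) :
    Yam (pre ++ x :: y :: post) ↔
      Yam (pre ++ [x] ++ [y]) ∧ ∀ (l1 : List ℕ) (z : ℕ) (l2 : List ℕ), post = l1 ++ (z + 1) :: l2 →
        (pre ++ [x] ++ [y] ++ l1).count (z + 1) < (pre ++ [x] ++ [y] ++ l1).count z := by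
  have : pre ++ x :: y :: post = (pre ++ [x] ++ [y]) ++ post := by simp
  rw [this, yam_append_iff]

/-- if t is Yamanouchi with t_k ≠ t_{k+1} then the exchanged word is Yamanouchi unless the letters
are x, x+1 with equal counts -/
lemma yam_swap_iff (pre : List ℕ) (x y : ℕ) (post : List ℕ) (hxy : x ≠ y)
    (h : Yam (pre ++ x :: y :: post)) :
    Yam (pre ++ y :: x :: post) ↔ ¬ (y = x + 1 ∧ pre.count y = pre.count x) := by
  rw [yam_split2] at h ⊢
  have hc : ∀ l1 : List ℕ, ∀ z, (pre ++ [y] ++ [x] ++ l1).count z = (pre ++ [x] ++ [y] ++ l1).count z := by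
    intro l1 z; simp only [List.count_append]; omega
  have hsecond : ∀ (l1 : List ℕ) (z : ℕ) (l2 : List ℕ), post = l1 ++ (z + 1) :: l2 →
        (pre ++ [y] ++ [x] ++ l1).count (z + 1) < (pre ++ [y] ++ [x] ++ l1).count z := by
    intro l1 z l2 e; rw [hc, hc]; exact h.2 l1 z l2 e
  have h1 := h.1
  rw [yam_snoc, yam_snoc] at h1
  obtain ⟨⟨hp, hx⟩, hy⟩ := h1
  rw [List.count_append, List.count_append] at hy
  have c1 : List.count y [x] = 0 := by simp [List.count_cons, hxy]
  have c2 : List.count x [y] = 0 := by simp [List.count_cons, Ne.symm hxy]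
  constructor
  · rintro h2 ⟨rfl, he⟩
    have h3 := h2.1
    rw [yam_snoc, yam_snoc] at h3
    rcases h3.1.2 with h4 | h4
    · omega
    · simp at h4; omega
  · intro hn
    refine ⟨?_, hsecond⟩
    rw [yam_snoc, yam_snoc]
    refine ⟨⟨hp, ?_⟩, ?_⟩
    · rcases hy with hy | hy
      · left; exact hy
      · right
        by_cases e : y = x + 1
        · have h5 := hp.count_succ_le x
          subst e
          simp at hy ⊢
          have : ¬ (pre.count (x + 1) = pre.count x) := fun e' => hn ⟨rfl, e'⟩
          omega
        · have : List.count (y - 1) [x] = 0 ∨ y = 0 := by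
            rcases Nat.eq_zero_or_pos y with h0 | h0
            · right; exact h0
            · left; rw [List.count_singleton]; simp; omega
          rcases this with h6 | h6
          · omega
          · subst h6; simp at hy
    · rcases hx with hx | hx
      · left; exact hx
      · right
        rw [List.count_append, List.count_append]
        have : (List.count (x - 1) pre) ≤ List.count (x - 1) pre + List.count (x - 1) [y] := by omega
        omega

/-! ### spaces of functions -/

lemma TL_memMM {A : Type} [CommRing A] (q : A) (κ : List ℕ) (k : ℕ) {f : List ℕ → A}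
    (hf : f ∈ MM A κ) : TL q k f ∈ MM A κ := by
  intro w hw
  by_contra hn
  apply hw
  have h1 : f w = 0 := by by_contra h; exact hn (hf w h)
  have h2 : f (swapAt k w) = 0 := by
    by_contra h; exact hn ((swapAt_perm w k).symm.trans (hf _ h))
  rw [TL_apply, h1, h2]; simp

lemma VV_le_MM {K : Type} [Field K] (κ : List ℕ) : VV K κ ≤ MM K κ := fun _ hf w hw => (hf w hw).2

lemma ind_mem_VV {K : Type} [Field K] {κ t : List ℕ} (h1 : Yam t) (h2 : t.Perm (rowWord κ)) :
    ind K t ∈ VV K κ := by
  intro w hw
  unfold ind at hw
  by_cases h : w = t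
  · subst h; exact ⟨h1, h2⟩
  · simp [h] at hw

lemma ind_self (A : Type) [CommRing A] (t : List ℕ) : ind A t t = 1 := by simp [ind]

lemma ind_ne (A : Type) [CommRing A] {t w : List ℕ} (h : w ≠ t) : ind A t w = 0 := by simp [ind, h]

lemma VV_zero {K : Type} [Field K] {κ : List ℕ} {f : List ℕ → K} (hf : f ∈ VV K κ) {w : List ℕ}
    (h : ¬ (Yam w ∧ w.Perm (rowWord κ))) : f w = 0 := by
  by_contra h'; exact h (hf w h')

lemma SL_memMM {K : Type} [Field K] (q : K) (κ : List ℕ) (k : ℕ) {f : List ℕ → K}
    (hf : f ∈ MM K κ) : SL q k f ∈ MM K κ := by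
  intro w hw
  by_contra hn
  apply hw
  have h1 : f w = 0 := by by_contra h; exact hn (hf w h)
  have h2 : f (swapAt k w) = 0 := by
    by_contra h; exact hn ((swapAt_perm w k).symm.trans (hf _ h))
  rw [SL_apply, h1, h2]; simp

lemma applyT_nil {A : Type} [CommRing A] (q : A) (f : List ℕ → A) : applyT q [] f = f := rfl

lemma applyT_cons {A : Type} [CommRing A] (q : A) (k : ℕ) (ks : List ℕ) (f : List ℕ → A) :
    applyT q (k :: ks) f = TL q k (applyT q ks f) := rfl

lemma applyS_nil {K : Type} [Field K] (q : K) (f : List ℕ → K) : applyS q [] f = f := rfl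

lemma applyS_cons {K : Type} [Field K] (q : K) (k : ℕ) (ks : List ℕ) (f : List ℕ → K) :
    applyS q (k :: ks) f = SL q k (applyS q ks f) := rfl

lemma zf_mem_SpL {A : Type} [CommRing A] (q : A) (κ : List ℕ) : zf A κ ∈ SpL q κ :=
  Submodule.subset_span ⟨[], by simp, rfl⟩

/-- the Specht module is stable -/
lemma SpL_stable {A : Type} [CommRing A] (q : A) (κ : List ℕ) : Stable q κ.sum (SpL q κ) := by
  intro k hk f hf
  induction hf using Submodule.span_induction with
  | mem f hf =>
    obtain ⟨ks, h1, rfl⟩ := hf
    refine Submodule.subset_span ⟨k :: ks, ?_, rfl⟩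
    intro j hj
    rcases List.mem_cons.1 hj with rfl | hj
    · exact hk
    · exact h1 j hj
  | zero => rw [map_zero]; exact zero_mem _
  | add f g _ _ h1 h2 => rw [map_add]; exact add_mem h1 h2
  | smul c f _ h => rw [map_smul]; exact Submodule.smul_mem _ c h

/-- a stable subspace containing z contains the Specht module -/
lemma SpL_le {A : Type} [CommRing A] (q : A) (κ : List ℕ) {U : Submodule A (List ℕ → A)}
    (hU : Stable q κ.sum U) (hz : zf A κ ∈ U) : SpL q κ ≤ U := by
  apply Submodule.span_le.2
  rintro f ⟨ks, h, rfl⟩
  induction ks with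
  | nil => exact hz
  | cons k ks ih =>
    exact hU k (h k (List.mem_cons_self ..)) _ (ih (fun j hj => h j (List.mem_cons_of_mem _ hj)))

/-- block words are permutations of the row word -/
lemma IsBlockWord.perm : ∀ {κ w : List ℕ}, IsBlockWord κ w → w.Perm (rowWord κ)
  | [], w, h => by simp only [IsBlockWord] at h; subst h; exact List.Perm.refl _
  | b :: κ, w, h => by
    have h1 : (w.take b).Perm (List.range b) := h.1
    have h2 := IsBlockWord.perm (κ := κ) (w := w.drop b) h.2
    have h3 := List.Perm.append h1 h2
    rw [List.take_append_drop] at h3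
    simpa [rowWord] using h3

lemma isBlockWord_rowWord : ∀ κ : List ℕ, IsBlockWord κ (rowWord κ)
  | [] => rfl
  | b :: κ => by
    have e : rowWord (b :: κ) = List.range b ++ rowWord κ := by simp [rowWord]
    refine ⟨?_, ?_⟩
    · rw [e, List.take_left' (by simp)]
    · rw [e, List.drop_left' (by simp)]; exact isBlockWord_rowWord κ

/-- counts in the row word -/
lemma count_rowWord (κ : List ℕ) (x : ℕ) : (rowWord κ).count x = κ.countP (fun b => decide (x < b)) := by
  induction κ with
  | nil => rfl
  | cons b κ ih =>
    have e : rowWord (b :: κ) = List.range b ++ rowWord κ := by simp [rowWord]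
    rw [e, List.count_append, ih, List.countP_cons]
    have : List.count x (List.range b) = if x < b then 1 else 0 := by
      split_ifs with h
      · exact List.count_eq_one_of_mem List.nodup_range (List.mem_range.2 h)
      · exact List.count_eq_zero_of_not_mem (fun h' => h (List.mem_range.1 h'))
    rw [this]
    by_cases h : x < b
    · simp [h]; omega
    · simp [h]

lemma yam_append_range {w : List ℕ} (hw : Yam w) (b : ℕ) (hb : ∀ x y, x < b → y < b → w.count x = w.count y) :
    Yam (w ++ List.range b) := by
  induction b with
  | zero => simpa using hw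
  | succ b ih =>
    rw [List.range_succ, ← List.append_assoc, yam_snoc]
    refine ⟨ih (fun x y hx hy => hb x y (by omega) (by omega)), ?_⟩
    rcases Nat.eq_zero_or_pos b with h0 | h0
    · left; exact h0
    · right
      rw [List.count_append, List.count_append, hb b (b - 1) (by omega) (by omega)]
      have h1 : List.count b (List.range b) = 0 := List.count_eq_zero_of_not_mem (by simp)
      have h2 : List.count (b - 1) (List.range b) = 1 :=
        List.count_eq_one_of_mem List.nodup_range (List.mem_range.2 (by omega))
      omega

/-- the row word of a partition is Yamanouchi -/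
lemma yam_rowWord {κ : List ℕ} (h : IsPart κ) : Yam (rowWord κ) := by
  have key : ∀ l : List ℕ, l.Pairwise (· ≥ ·) → Yam (rowWord l) := by
    intro l
    induction l using List.reverseRecOn with
    | nil => intro _; exact yam_nil
    | append_singleton l b ih =>
      intro hp
      rw [List.pairwise_append] at hp
      have e : rowWord (l ++ [b]) = rowWord l ++ List.range b := by simp [rowWord]
      rw [e]
      apply yam_append_range (ih hp.1)
      intro x y hx hy
      rw [count_rowWord, count_rowWord]
      have : ∀ z < b, l.countP (fun b => decide (z < b)) = l.length := by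
        intro z hz
        rw [List.countP_eq_length]
        intro c hc
        have := hp.2.2 c hc b (by simp)
        simp; omega
      rw [this x hx, this y hy]
  exact key κ h.1

end Pool.Agent.JC3
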