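import Pool.Agent.JC3.C3

set_option autoImplicit false

namespace Pool.Agent.JC3

namespace AuxC124

open AuxC3

lemma swapAt_perm (k : ℕ) (w : List ℕ) : (swapAt k w).Perm w := by
  induction k generalizing w with
  | zero =>
    match w with
    | [] => exact List.Perm.refl _
    | [x] => exact List.Perm.refl _
    | x :: y :: l => exact List.Perm.swap x y l
  | succ k ih =>
    match w with
    | [] => exact List.Perm.refl _
    | x :: l => exact (ih l).cons x

lemma exists2 (w : List ℕ) (k : ℕ) (h : k + 1 < w.length) :
    ∃ (pre : List ℕ) (x y : ℕ) (post : List ℕ), pre.length = k ∧ w = pre ++ x :: y :: post := by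
  induction k generalizing w with
  | zero =>
    match w, h with
    | x :: y :: post, _ => exact ⟨[], x, y, post, rfl, rfl⟩
  | succ k ih =>
    match w, h with
    | a :: w, h =>
      obtain ⟨pre, x, y, post, h1, h2⟩ := ih w (by simp at h; omega)
      exact ⟨a :: pre, x, y, post, by simp [h1], by simp [h2]⟩

lemma yam_snoc {w : List ℕ} (h : Yam w) (a : ℕ)
    (ha : ∀ b, a = b + 1 → w.count (b + 1) < w.count b) : Yam (w ++ [a]) := by
  intro pre x post hw
  rcases List.eq_nil_or_concat post with hp | ⟨post', c, hp⟩
  · subst hp
    have h1 := List.append_inj' hw (by simp)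
    obtain ⟨rfl, h2⟩ := h1
    exact ha x (by simpa using h2)
  · subst hp
    have h1 : w ++ [a] = (pre ++ (x + 1) :: post') ++ [c] := by rw [hw]; simp
    have h2 := List.append_inj' h1 (by simp)
    exact h pre x post' h2.1

lemma yam_last {w : List ℕ} {a : ℕ} (h : Yam (w ++ [a])) (b : ℕ) (hb : a = b + 1) :
    w.count (b + 1) < w.count b := h w b [] (by rw [hb])

lemma yam_congr {u u' : List ℕ} (hu : Yam u) (hp : u.Perm u') (post : List ℕ)
    (h : Yam (u' ++ post)) : Yam (u ++ post) := by
  induction post using List.reverseRecOn with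
  | nil => simpa using hu
  | append_singleton l a ih =>
    have h' : Yam ((u' ++ l) ++ [a]) := by simpa using h
    have h1 := ih (yam_left h')
    have h2 : Yam ((u ++ l) ++ [a]) := by
      apply yam_snoc h1
      intro b hb
      have h3 := yam_last h' b hb
      have h4 : (u ++ l).Perm (u' ++ l) := hp.append_right l
      rw [h4.count_eq, h4.count_eq]
      exact h3
    simpa using h2

section
variable {K : Type} [Field K]

lemma beta_neg_one (q : K) : beta q (-1) = 0 := by
  unfold beta
  have : qint q (-1 + 1) = 0 := by
    unfold qint; simp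
  rw [this]
  simp

/-- if the coefficient is not zero then an exchange of a Yamanouchi word is one -/
lemma yam_exch (q : K) (pre : List ℕ) {x y : ℕ} (hxy : x ≠ y) (post : List ℕ)
    (h : Yam (pre ++ y :: x :: post)) (he : ee q pre x y ≠ 0) : Yam (pre ++ x :: y :: post) := by
  have e1 : pre ++ y :: x :: post = ((pre ++ [y]) ++ [x]) ++ post := by simp
  have e2 : pre ++ x :: y :: post = ((pre ++ [x]) ++ [y]) ++ post := by simp
  rw [e1] at h
  rw [e2]
  have h1 : Yam ((pre ++ [y]) ++ [x]) := yam_left h
  have h2 : Yam (pre ++ [y]) := yam_left h1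
  have h3 : Yam pre := yam_left h2
  refine yam_congr ?_ ?_ post h
  · refine yam_snoc (yam_snoc h3 x ?_) y ?_
    · intro b hb
      have h4 := yam_last h1 b hb
      rw [List.count_append, List.count_append, List.count_singleton, List.count_singleton] at h4
      have h5 : (y == b + 1) = false := by
        simp; omega
      rw [h5] at h4
      by_cases hby : y = b
      · subst hby
        have h6 := yam_count h3 y
        rcases Nat.lt_or_ge (pre.count (y + 1)) (pre.count y) with h7 | h7
        · exact h7
        · exfalso
          apply he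
          unfold ee
          rw [if_neg (by omega)]
          have h8 : ct pre y - ct pre x = -1 := by
            unfold ct
            rw [hb]
            have : pre.count (y + 1) = pre.count y := le_antisymm h6 h7
            rw [this]
            push_cast
            ring
          rw [h8, beta_neg_one]
      · have h6 : (y == b) = false := by simpa using hby
        rw [h6] at h4
        simpa using h4
    · intro b hb
      have h4 := yam_last h2 b hb
      rw [List.count_append, List.count_append, List.count_singleton, List.count_singleton]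
      have h5 : (x == b + 1) = false := by
        simp; omega
      rw [h5]
      simp
      omega
  · have : [x, y].Perm [y, x] := List.Perm.swap y x []
    have h4 := this.append_left pre
    simpa using h4

lemma al_add {q : K} (hq : Gen q) {a b : ℤ} (h : a ≠ b) :
    alpha q (b - a) + alpha q (a - b) = q - 1 := by
  rw [alpha_eq hq h, alpha_eq hq h.symm]
  have h1 := gen_sub hq h
  have h2 := gen_sub hq h.symm
  generalize q ^ a = A at *
  generalize q ^ b = B at *
  have h5 : A - B = -(B - A) := by ring
  rw [h5]
  field_simp
  ring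

lemma al_sq {q : K} (hq : Gen q) {a b : ℤ} (h : a ≠ b) :
    alpha q (b - a) ^ 2 + beta q (b - a) = (q - 1) * alpha q (b - a) + q := by
  rw [alpha_eq hq h, beta_eq hq h]
  have h1 := gen_sub hq h
  generalize q ^ a = A at *
  generalize q ^ b = B at *
  field_simp
  ring

/-- diagonal coefficient, general case -/
noncomputable def aa (q : K) (pre : List ℕ) (x y : ℕ) : K :=
  if x = y then -1 else alpha q (ct pre y - ct pre x)

/-- off diagonal coefficient, general case -/
noncomputable def bb (q : K) (pre : List ℕ) (x y : ℕ) : K :=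
  if x = y then 0 else ee q pre x y

lemma SL_gen (q : K) (g : List ℕ → K) (pre : List ℕ) (x y : ℕ) (post : List ℕ) :
    SL q pre.length g (pre ++ x :: y :: post) =
      aa q pre x y * g (pre ++ x :: y :: post) + bb q pre x y * g (pre ++ y :: x :: post) := by
  unfold aa bb
  by_cases h : x = y
  · subst h
    rw [if_pos rfl, if_pos rfl, SL_eq]
    ring
  · rw [if_neg h, if_neg h, SL_ne q g pre h]

lemma ct_perm {u u' : List ℕ} (h : u.Perm u') (x : ℕ) : ct u x = ct u' x := by
  unfold ct
  rw [h.count_eq]

lemma aa_perm (q : K) {u u' : List ℕ} (h : u.Perm u') (x y : ℕ) : aa q u x y = aa q u' x y := by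
  unfold aa
  rw [ct_perm h, ct_perm h]

lemma bb_perm (q : K) {u u' : List ℕ} (h : u.Perm u') (x y : ℕ) : bb q u x y = bb q u' x y := by
  unfold bb ee
  rw [ct_perm h, ct_perm h]

end

end AuxC124

open AuxC3 AuxC124

theorem C1_proof : StmtC1 := by
  intro K _ q κ hq k hk f hf w hw
  by_cases hfw : f w = 0
  · have hfs : f (swapAt k w) ≠ 0 := by
      intro h0
      apply hw
      show (if w.getD k 0 = w.getD (k + 1) 0 then - f w
        else alpha q (cont w (k + 1) - cont w k) * f w +
        (if w.getD k 0 < w.getD (k + 1) 0 then 1 else beta q (cont w (k + 1) - cont w k)) *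
          f (swapAt k w)) = 0
      rw [hfw, h0]
      simp
    obtain ⟨hY, hP⟩ := hf _ hfs
    have hPw : w.Perm (rowWord κ) := (swapAt_perm k w).symm.trans hP
    have hlen : k + 1 < w.length := by rw [hPw.length_eq, length_rowWord]; exact hk
    obtain ⟨pre, x, y, post, rfl, rfl⟩ := exists2 w k hlen
    refine ⟨?_, hPw⟩
    rw [swapAt_append] at hY hfs
    by_cases hxy : x = y
    · subst hxy
      exact hY
    · rw [SL_ne q f pre hxy, hfw, mul_zero, zero_add] at hw
      exact yam_exch q pre hxy post hY (left_ne_zero_of_mul hw)
  · exact hf w hfw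

theorem C2_proof : StmtC2 := by
  intro K _ q κ hq k hk f hf
  have g1 : SL q k f ∈ VV K κ := C1_proof K q κ hq k hk f hf
  have g2 : SL q k (SL q k f) ∈ VV K κ := C1_proof K q κ hq k hk _ g1
  have g3 : (q - 1) • SL q k f + q • f ∈ VV K κ :=
    (VV K κ).add_mem ((VV K κ).smul_mem _ g1) ((VV K κ).smul_mem _ hf)
  funext w
  by_cases hw : Yam w ∧ w.Perm (rowWord κ)
  · obtain ⟨hY, hP⟩ := hw
    have hlen : k + 1 < w.length := by rw [hP.length_eq, length_rowWord]; exact hk
    obtain ⟨pre, x, y, post, rfl, rfl⟩ := exists2 w k hlen
    have hYp : Yam pre := yam_left hY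
    show SL q pre.length (SL q pre.length f) (pre ++ x :: y :: post) =
      (q - 1) * SL q pre.length f (pre ++ x :: y :: post) + q * f (pre ++ x :: y :: post)
    by_cases hxy : x = y
    · subst hxy
      rw [SL_eq, SL_eq]
      ring
    · have hc := yam_ct_ne hYp hxy
      have i1 := al_add hq hc
      have i2 := al_sq hq hc
      have i3 := ee_mul hq pre hxy hc
      rw [SL_ne q _ pre hxy, SL_ne q f pre hxy, SL_ne q f pre (Ne.symm hxy)]
      linear_combination f (pre ++ x :: y :: post) * i2 + f (pre ++ x :: y :: post) * i3 +
        ee q pre x y * f (pre ++ y :: x :: post) * i1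
  · have z1 : SL q k (SL q k f) w = 0 := by
      by_contra hc
      exact hw (g2 w hc)
    have z2 : ((q - 1) • SL q k f + q • f) w = 0 := by
      by_contra hc
      exact hw (g3 w hc)
    rw [z1, z2]

theorem C4_proof : StmtC4 := by
  intro K _ q κ hq k l hkl hl f hf
  have g1 : SL q k f ∈ VV K κ := C1_proof K q κ hq k (by omega) f hf
  have g2 : SL q l (SL q k f) ∈ VV K κ := C1_proof K q κ hq l hl _ g1
  have g1' : SL q l f ∈ VV K κ := C1_proof K q κ hq l hl f hf
  have g2' : SL q k (SL q l f) ∈ VV K κ := C1_proof K q κ hq k (by omega) _ g1'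
  funext w
  by_cases hw : Yam w ∧ w.Perm (rowWord κ)
  · obtain ⟨hY, hP⟩ := hw
    have hlen : l + 1 < w.length := by rw [hP.length_eq, length_rowWord]; exact hl
    obtain ⟨P, u, v, post, rfl, rfl⟩ := exists2 w l hlen
    obtain ⟨pre, x, y, mid, rfl, rfl⟩ := exists2 P k hkl
    have hp : (pre ++ y :: x :: mid).Perm (pre ++ x :: y :: mid) :=
      (List.Perm.swap x y mid).append_left pre
    have hlen2 : (pre ++ x :: y :: mid).length = (pre ++ y :: x :: mid).length := by simp
    have L1 : ∀ g, SL q pre.length g ((pre ++ x :: y :: mid) ++ u :: v :: post) =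
        aa q pre x y * g ((pre ++ x :: y :: mid) ++ u :: v :: post) +
        bb q pre x y * g ((pre ++ y :: x :: mid) ++ u :: v :: post) := fun g => by
      simpa using SL_gen q g pre x y (mid ++ u :: v :: post)
    have L2 : ∀ g, SL q pre.length g ((pre ++ x :: y :: mid) ++ v :: u :: post) =
        aa q pre x y * g ((pre ++ x :: y :: mid) ++ v :: u :: post) +
        bb q pre x y * g ((pre ++ y :: x :: mid) ++ v :: u :: post) := fun g => by
      simpa using SL_gen q g pre x y (mid ++ v :: u :: post)
    have M1 : ∀ g, SL q (pre ++ x :: y :: mid).length g ((pre ++ x :: y :: mid) ++ u :: v :: post) =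
        aa q (pre ++ x :: y :: mid) u v * g ((pre ++ x :: y :: mid) ++ u :: v :: post) +
        bb q (pre ++ x :: y :: mid) u v * g ((pre ++ x :: y :: mid) ++ v :: u :: post) := fun g =>
      SL_gen q g _ u v post
    have M2 : ∀ g, SL q (pre ++ x :: y :: mid).length g ((pre ++ y :: x :: mid) ++ u :: v :: post) =
        aa q (pre ++ x :: y :: mid) u v * g ((pre ++ y :: x :: mid) ++ u :: v :: post) +
        bb q (pre ++ x :: y :: mid) u v * g ((pre ++ y :: x :: mid) ++ v :: u :: post) := fun g => by
      rw [hlen2, SL_gen q g _ u v post, aa_perm q hp, bb_perm q hp]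
    rw [L1, M1, M2, M1 (SL q pre.length f), L1, L2]
    ring
  · have z1 : SL q k (SL q l f) w = 0 := by
      by_contra hc
      exact hw (g2' w hc)
    have z2 : SL q l (SL q k f) w = 0 := by
      by_contra hc
      exact hw (g2 w hc)
    rw [z1, z2]

end Pool.Agent.JC3
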