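import Pool.Agent.JC3.Stmts

set_option autoImplicit false

namespace Pool.Agent.JC3

namespace AuxC3

/-- content of a letter placed after the word pre -/
def ct (pre : List ℕ) (x : ℕ) : ℤ := (x : ℤ) - (pre.count x : ℤ)

lemma ct_snoc (pre : List ℕ) (x z : ℕ) :
    ct (pre ++ [x]) z = ct pre z - (if z = x then 1 else 0) := by
  unfold ct
  rw [List.count_append, List.count_singleton]
  by_cases h : z = x
  · subst h; simp; ring
  · have h' : ¬ x = z := fun e => h e.symm
    simp [h, h']

lemma ct_snoc_ne (pre : List ℕ) {x z : ℕ} (h : z ≠ x) : ct (pre ++ [x]) z = ct pre z := by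
  rw [ct_snoc, if_neg h, sub_zero]

lemma ct_snoc_self (pre : List ℕ) (x : ℕ) : ct (pre ++ [x]) x = ct pre x - 1 := by
  rw [ct_snoc, if_pos rfl]

lemma swapAt_append (pre : List ℕ) (x y : ℕ) (post : List ℕ) :
    swapAt pre.length (pre ++ x :: y :: post) = pre ++ y :: x :: post := by
  induction pre with
  | nil => rfl
  | cons a pre ih =>
    show a :: swapAt pre.length (pre ++ x :: y :: post) = a :: (pre ++ y :: x :: post)
    rw [ih]

lemma getD_append0 (pre : List ℕ) (x : ℕ) (post : List ℕ) :
    (pre ++ x :: post).getD pre.length 0 = x := by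
  simp

lemma getD_append1 (pre : List ℕ) (x y : ℕ) (post : List ℕ) :
    (pre ++ x :: y :: post).getD (pre.length + 1) 0 = y := by
  simp [List.getD_eq_getElem?_getD]

lemma cont_append0 (pre : List ℕ) (x : ℕ) (post : List ℕ) :
    cont (pre ++ x :: post) pre.length = ct pre x := by
  unfold cont ct
  rw [getD_append0, List.take_left]

lemma cont_append1 (pre : List ℕ) (x y : ℕ) (post : List ℕ) :
    cont (pre ++ x :: y :: post) (pre.length + 1) = ct (pre ++ [x]) y := by
  have h : pre ++ x :: y :: post = (pre ++ [x]) ++ y :: post := by simp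
  have h2 : pre.length + 1 = (pre ++ [x]).length := by simp
  rw [h, h2, cont_append0]

section
variable {K : Type} [Field K]

/-- off diagonal coefficient -/
noncomputable def ee (q : K) (pre : List ℕ) (x y : ℕ) : K :=
  if x < y then 1 else beta q (ct pre y - ct pre x)

lemma SL_eq (q : K) (g : List ℕ → K) (pre : List ℕ) (x : ℕ) (post : List ℕ) :
    SL q pre.length g (pre ++ x :: x :: post) = - g (pre ++ x :: x :: post) := by
  show (if (pre ++ x :: x :: post).getD pre.length 0 = (pre ++ x :: x :: post).getD (pre.length + 1) 0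
    then _ else _) = _
  rw [getD_append0, getD_append1, if_pos rfl]

lemma SL_ne (q : K) (g : List ℕ → K) (pre : List ℕ) {x y : ℕ} (h : x ≠ y) (post : List ℕ) :
    SL q pre.length g (pre ++ x :: y :: post) =
      alpha q (ct pre y - ct pre x) * g (pre ++ x :: y :: post) +
        ee q pre x y * g (pre ++ y :: x :: post) := by
  show (if (pre ++ x :: y :: post).getD pre.length 0 = (pre ++ x :: y :: post).getD (pre.length + 1) 0
    then - g (pre ++ x :: y :: post) else
    alpha q (cont (pre ++ x :: y :: post) (pre.length + 1) - cont (pre ++ x :: y :: post) pre.length) *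
      g (pre ++ x :: y :: post) +
      (if (pre ++ x :: y :: post).getD pre.length 0 < (pre ++ x :: y :: post).getD (pre.length + 1) 0
        then 1 else beta q (cont (pre ++ x :: y :: post) (pre.length + 1) -
          cont (pre ++ x :: y :: post) pre.length)) *
        g (swapAt pre.length (pre ++ x :: y :: post))) = _
  rw [getD_append0, getD_append1, if_neg h, cont_append0, cont_append1, swapAt_append,
    ct_snoc_ne pre h.symm]
  rfl

lemma SL1_eq (q : K) (g : List ℕ → K) (pre : List ℕ) (x y : ℕ) (post : List ℕ) :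
    SL q (pre.length + 1) g (pre ++ x :: y :: y :: post) = - g (pre ++ x :: y :: y :: post) := by
  have h : ∀ l : List ℕ, pre ++ x :: l = (pre ++ [x]) ++ l := fun l => by simp
  have h2 : pre.length + 1 = (pre ++ [x]).length := by simp
  rw [h, h2, SL_eq]

lemma SL1_ne (q : K) (g : List ℕ → K) (pre : List ℕ) (x : ℕ) {y z : ℕ} (h : y ≠ z)
    (post : List ℕ) :
    SL q (pre.length + 1) g (pre ++ x :: y :: z :: post) =
      alpha q (ct (pre ++ [x]) z - ct (pre ++ [x]) y) * g (pre ++ x :: y :: z :: post) +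
        ee q (pre ++ [x]) y z * g (pre ++ x :: z :: y :: post) := by
  have h1 : ∀ l : List ℕ, pre ++ x :: l = (pre ++ [x]) ++ l := fun l => by simp
  have h2 : pre.length + 1 = (pre ++ [x]).length := by simp
  rw [h1 (y :: z :: post), h1 (z :: y :: post), h2, SL_ne q g (pre ++ [x]) h]

lemma SL1_ne' (q : K) (g : List ℕ → K) (pre : List ℕ) {x y z : ℕ} (h : y ≠ z) (hy : y ≠ x)
    (hz : z ≠ x) (post : List ℕ) :
    SL q (pre.length + 1) g (pre ++ x :: y :: z :: post) =
      alpha q (ct pre z - ct pre y) * g (pre ++ x :: y :: z :: post) +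
        ee q pre y z * g (pre ++ x :: z :: y :: post) := by
  rw [SL1_ne q g pre x h, ct_snoc_ne pre hy, ct_snoc_ne pre hz]
  unfold ee
  rw [ct_snoc_ne pre hy, ct_snoc_ne pre hz]

/-! scalars -/

lemma qint_eq (q : K) (hq : q ≠ 0) (a b : ℤ) :
    qint q (b - a) = (q ^ b - q ^ a) / (q ^ a * (q - 1)) := by
  have ha : q ^ a ≠ 0 := zpow_ne_zero _ hq
  unfold qint
  rw [zpow_sub₀ hq]
  by_cases h1 : q - 1 = 0
  · rw [h1]; simp
  · field_simp

lemma gen_ne {q : K} (hq : Gen q) {m : ℤ} (hm : m ≠ 0) : q ^ m ≠ 1 := by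
  intro h
  rcases lt_or_gt_of_ne hm with h1 | h1
  · have h2 : q ^ (-m) = 1 := by rw [zpow_neg, h, inv_one]
    obtain ⟨n, hn⟩ := Int.eq_ofNat_of_zero_le (show 0 ≤ -m by omega)
    rw [hn, zpow_natCast] at h2
    exact hq.2 n (by omega) h2
  · obtain ⟨n, hn⟩ := Int.eq_ofNat_of_zero_le (show 0 ≤ m by omega)
    rw [hn, zpow_natCast] at h
    exact hq.2 n (by omega) h

lemma gen_sub_one {q : K} (hq : Gen q) : q - 1 ≠ 0 := by
  have := hq.2 1 one_pos
  rw [pow_one] at this
  exact sub_ne_zero.2 this

lemma gen_sub {q : K} (hq : Gen q) {a b : ℤ} (h : a ≠ b) : q ^ b - q ^ a ≠ 0 := by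
  intro h1
  have h2 : q ^ (b - a) = 1 := by
    rw [zpow_sub₀ hq.1, sub_eq_zero.1 h1, div_self (zpow_ne_zero _ hq.1)]
  exact gen_ne hq (sub_ne_zero.2 h.symm) h2

lemma alpha_eq {q : K} (hq : Gen q) {a b : ℤ} (h : a ≠ b) :
    alpha q (b - a) = q ^ b * (q - 1) / (q ^ b - q ^ a) := by
  have h1 := gen_sub_one hq
  have h2 := gen_sub hq h
  have ha : q ^ a ≠ 0 := zpow_ne_zero _ hq.1
  unfold alpha
  rw [qint_eq q hq.1, zpow_sub₀ hq.1]
  field_simp

lemma beta_eq {q : K} (hq : Gen q) {a b : ℤ} (h : a ≠ b) :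
    beta q (b - a) = (q * q ^ b - q ^ a) * (q ^ b - q * q ^ a) / (q ^ b - q ^ a) ^ 2 := by
  have h1 := gen_sub_one hq
  have h2 := gen_sub hq h
  have ha : q ^ a ≠ 0 := zpow_ne_zero _ hq.1
  have hq0 := hq.1
  have e1 : b - a + 1 = (b + 1) - a := by ring
  have e2 : b - a - 1 = b - (a + 1) := by ring
  unfold beta
  rw [e1, e2, qint_eq q hq.1, qint_eq q hq.1, qint_eq q hq.1, zpow_add_one₀ hq.1, zpow_add_one₀ hq.1]
  field_simp

lemma beta_symm {q : K} (hq : Gen q) {a b : ℤ} (h : a ≠ b) :
    beta q (b - a) = beta q (a - b) := by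
  rw [beta_eq hq h, beta_eq hq h.symm]
  have h2 := gen_sub hq h
  have h3 := gen_sub hq h.symm
  field_simp
  ring

lemma ee_mul {q : K} (hq : Gen q) (pre : List ℕ) {x y : ℕ} (hxy : x ≠ y)
    (h : ct pre x ≠ ct pre y) :
    ee q pre x y * ee q pre y x = beta q (ct pre y - ct pre x) := by
  unfold ee
  rcases lt_or_gt_of_ne hxy with h1 | h1
  · rw [if_pos h1, if_neg (by omega), one_mul, beta_symm hq h.symm]
  · rw [if_neg (by omega), if_pos h1, mul_one]

lemma id1 {q : K} (hq : Gen q) {a b c : ℤ} (hab : a ≠ b) (hac : a ≠ c) (hbc : b ≠ c) :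
    alpha q (b - a) ^ 2 * alpha q (c - b) + alpha q (c - a) * beta q (b - a) =
      alpha q (c - b) ^ 2 * alpha q (b - a) + alpha q (c - a) * beta q (c - b) := by
  rw [alpha_eq hq hab, alpha_eq hq hac, alpha_eq hq hbc, beta_eq hq hab, beta_eq hq hbc]
  have h1 := gen_sub hq hab
  have h2 := gen_sub hq hac
  have h3 := gen_sub hq hbc
  generalize q ^ a = A at *
  generalize q ^ b = B at *
  generalize q ^ c = C at *
  field_simp
  ring

lemma id2 {q : K} (hq : Gen q) {a b c : ℤ} (hab : a ≠ b) (hac : a ≠ c) (hbc : b ≠ c) :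
    alpha q (b - a) * alpha q (c - b) + alpha q (c - a) * alpha q (a - b) =
      alpha q (c - b) * alpha q (c - a) := by
  rw [alpha_eq hq hab, alpha_eq hq hac, alpha_eq hq hbc, alpha_eq hq hab.symm]
  have h1 := gen_sub hq hab
  have h2 := gen_sub hq hac
  have h3 := gen_sub hq hbc
  have h4 := gen_sub hq hab.symm
  generalize q ^ a = A at *
  generalize q ^ b = B at *
  generalize q ^ c = C at *
  have h5 : B - A = -(A - B) := by ring
  rw [h5]
  field_simp
  ring

lemma id3 {q : K} (hq : Gen q) {a b c : ℤ} (hab : a ≠ b) (hac : a ≠ c) (hbc : b ≠ c) :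
    alpha q (b - a) * alpha q (c - a) =
      alpha q (c - b) * alpha q (b - a) + alpha q (c - a) * alpha q (b - c) := by
  rw [alpha_eq hq hab, alpha_eq hq hac, alpha_eq hq hbc, alpha_eq hq hbc.symm]
  have h1 := gen_sub hq hab
  have h2 := gen_sub hq hac
  have h3 := gen_sub hq hbc
  have h4 := gen_sub hq hbc.symm
  generalize q ^ a = A at *
  generalize q ^ b = B at *
  generalize q ^ c = C at *
  have h5 : B - C = -(C - B) := by ring
  rw [h5]
  field_simp
  ring

lemma k1 {q : K} (hq : Gen q) {a c : ℤ} (h0 : a ≠ c) (h1 : a - 1 ≠ c) :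
    alpha q (c - (a - 1)) = - alpha q (c - (a - 1)) ^ 2 +
      alpha q (c - a) * beta q (c - (a - 1)) := by
  rw [alpha_eq hq h0, alpha_eq hq h1, beta_eq hq h1]
  have h2 := gen_sub hq h0
  have h3 := gen_sub hq h1
  have hq0 := hq.1
  have e : q ^ a = q * q ^ (a - 1) := by
    rw [← zpow_one_add₀ hq.1]; congr 1; ring
  rw [e] at h2 ⊢
  generalize q ^ (a - 1) = A at *
  generalize q ^ c = C at *
  field_simp
  ring

lemma k2 {q : K} (hq : Gen q) {a c : ℤ} (h0 : a ≠ c) (h1 : a - 1 ≠ c) :
    alpha q (c - a) = alpha q (c - (a - 1)) - alpha q (c - a) * alpha q (a - 1 - c) := by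
  rw [alpha_eq hq h0, alpha_eq hq h1, alpha_eq hq h1.symm]
  have h2 := gen_sub hq h0
  have h3 := gen_sub hq h1
  have h4 := gen_sub hq h1.symm
  have hq0 := hq.1
  have e : q ^ a = q * q ^ (a - 1) := by
    rw [← zpow_one_add₀ hq.1]; congr 1; ring
  rw [e] at h2 ⊢
  generalize q ^ (a - 1) = A at *
  generalize q ^ c = C at *
  have h5 : A - C = -(C - A) := by ring
  rw [h5]
  field_simp
  ring

lemma k3 {q : K} (hq : Gen q) {a c : ℤ} (h0 : a ≠ c) (h1 : a - 1 ≠ c) :
    alpha q (c - a) ^ 2 * alpha q (a - 1 - c) - beta q (c - a) =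
      alpha q (c - a) * alpha q (a - 1 - c) ^ 2 - beta q (c - (a - 1)) := by
  rw [alpha_eq hq h0, beta_eq hq h0, beta_eq hq h1, alpha_eq hq h1.symm]
  have h2 := gen_sub hq h0
  have h3 := gen_sub hq h1
  have h4 := gen_sub hq h1.symm
  have hq0 := hq.1
  have e : q ^ a = q * q ^ (a - 1) := by
    rw [← zpow_one_add₀ hq.1]; congr 1; ring
  rw [e] at h2 ⊢
  generalize q ^ (a - 1) = A at *
  generalize q ^ c = C at *
  have h5 : A - C = -(C - A) := by ring
  rw [h5]
  field_simp
  ring

lemma k4 {q : K} (hq : Gen q) {a c : ℤ} (h0 : a ≠ c) (h1 : a - 1 ≠ c) :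
    alpha q (c - a) * alpha q (a - 1 - c) - alpha q (a - c) = - alpha q (a - 1 - c) := by
  rw [alpha_eq hq h0, alpha_eq hq h0.symm, alpha_eq hq h1.symm]
  have h2 := gen_sub hq h0
  have h3 := gen_sub hq h0.symm
  have h4 := gen_sub hq h1.symm
  have hq0 := hq.1
  have e : q ^ a = q * q ^ (a - 1) := by
    rw [← zpow_one_add₀ hq.1]; congr 1; ring
  rw [e] at h2 h3 ⊢
  generalize q ^ (a - 1) = A at *
  generalize q ^ c = C at *
  have h5 : C - q * A = -(q * A - C) := by ring
  rw [h5]
  field_simp
  ring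

lemma k5 {q : K} (hq : Gen q) {a c : ℤ} (h0 : a ≠ c) (h1 : a - 1 ≠ c) :
    - alpha q (a - c) ^ 2 + beta q (c - a) * alpha q (a - 1 - c) = alpha q (a - c) := by
  rw [alpha_eq hq h0.symm, alpha_eq hq h1.symm, beta_symm hq h0, beta_eq hq h0.symm]
  have h3 := gen_sub hq h0.symm
  have h4 := gen_sub hq h1.symm
  have hq0 := hq.1
  have e : q ^ a = q * q ^ (a - 1) := by
    rw [← zpow_one_add₀ hq.1]; congr 1; ring
  rw [e] at h3 ⊢
  generalize q ^ (a - 1) = A at *
  generalize q ^ c = C at *
  field_simp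
  ring

/-- braid relation at a word with three different letters -/
lemma braid_ne {q : K} (hq : Gen q) (f : List ℕ → K) (pre : List ℕ) {x y z : ℕ}
    (hxy : x ≠ y) (hxz : x ≠ z) (hyz : y ≠ z) (cxy : ct pre x ≠ ct pre y)
    (cxz : ct pre x ≠ ct pre z) (cyz : ct pre y ≠ ct pre z) (post : List ℕ) :
    SL q pre.length (SL q (pre.length + 1) (SL q pre.length f)) (pre ++ x :: y :: z :: post) =
      SL q (pre.length + 1) (SL q pre.length (SL q (pre.length + 1) f))
        (pre ++ x :: y :: z :: post) := by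
  have L1 : ∀ g, SL q pre.length g (pre ++ x :: y :: z :: post) =
      alpha q (ct pre y - ct pre x) * g (pre ++ x :: y :: z :: post) +
        ee q pre x y * g (pre ++ y :: x :: z :: post) := fun g => SL_ne q g pre hxy _
  have L2 : ∀ g, SL q pre.length g (pre ++ y :: x :: z :: post) =
      alpha q (ct pre x - ct pre y) * g (pre ++ y :: x :: z :: post) +
        ee q pre y x * g (pre ++ x :: y :: z :: post) := fun g => SL_ne q g pre hxy.symm _
  have L3 : ∀ g, SL q pre.length g (pre ++ x :: z :: y :: post) =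
      alpha q (ct pre z - ct pre x) * g (pre ++ x :: z :: y :: post) +
        ee q pre x z * g (pre ++ z :: x :: y :: post) := fun g => SL_ne q g pre hxz _
  have L5 : ∀ g, SL q pre.length g (pre ++ y :: z :: x :: post) =
      alpha q (ct pre z - ct pre y) * g (pre ++ y :: z :: x :: post) +
        ee q pre y z * g (pre ++ z :: y :: x :: post) := fun g => SL_ne q g pre hyz _
  have M1 : ∀ g, SL q (pre.length + 1) g (pre ++ x :: y :: z :: post) =
      alpha q (ct pre z - ct pre y) * g (pre ++ x :: y :: z :: post) +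
        ee q pre y z * g (pre ++ x :: z :: y :: post) :=
    fun g => SL1_ne' q g pre hyz hxy.symm hxz.symm _
  have M2 : ∀ g, SL q (pre.length + 1) g (pre ++ x :: z :: y :: post) =
      alpha q (ct pre y - ct pre z) * g (pre ++ x :: z :: y :: post) +
        ee q pre z y * g (pre ++ x :: y :: z :: post) :=
    fun g => SL1_ne' q g pre hyz.symm hxz.symm hxy.symm _
  have M3 : ∀ g, SL q (pre.length + 1) g (pre ++ y :: x :: z :: post) =
      alpha q (ct pre z - ct pre x) * g (pre ++ y :: x :: z :: post) +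
        ee q pre x z * g (pre ++ y :: z :: x :: post) :=
    fun g => SL1_ne' q g pre hxz hxy hyz.symm _
  have M4 : ∀ g, SL q (pre.length + 1) g (pre ++ z :: x :: y :: post) =
      alpha q (ct pre y - ct pre x) * g (pre ++ z :: x :: y :: post) +
        ee q pre x y * g (pre ++ z :: y :: x :: post) :=
    fun g => SL1_ne' q g pre hxy hxz hyz _
  have e1 := ee_mul hq pre hxy cxy
  have e2 := ee_mul hq pre hyz cyz
  have i1 := id1 hq cxy cxz cyz
  have i2 := id2 hq cxy cxz cyz
  have i3 := id3 hq cxy cxz cyz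
  rw [L1, M1, M3, L1, L3, L2, L5, M1 (SL q pre.length _), L1, L3, M1, M3, M2, M4]
  generalize f (pre ++ x :: y :: z :: post) = f1 at *
  generalize f (pre ++ y :: x :: z :: post) = f2 at *
  generalize f (pre ++ x :: z :: y :: post) = f3 at *
  generalize f (pre ++ z :: x :: y :: post) = f4 at *
  generalize f (pre ++ y :: z :: x :: post) = f5 at *
  generalize f (pre ++ z :: y :: x :: post) = f6 at *
  linear_combination f1 * i1 + f1 * alpha q (ct pre z - ct pre x) * e1 -
    f1 * alpha q (ct pre z - ct pre x) * e2 + f2 * ee q pre x y * i2 + f3 * ee q pre y z * i3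

/-- braid relation at the words with letters x, x, z -/
lemma braid_rep {q : K} (hq : Gen q) (f : List ℕ → K) (pre : List ℕ) {x z : ℕ}
    (hxz : x ≠ z) (h0 : ct pre x ≠ ct pre z) (h1 : ct pre x - 1 ≠ ct pre z) (post : List ℕ) :
    (SL q pre.length (SL q (pre.length + 1) (SL q pre.length f)) (pre ++ x :: x :: z :: post) =
      SL q (pre.length + 1) (SL q pre.length (SL q (pre.length + 1) f))
        (pre ++ x :: x :: z :: post)) ∧
    (SL q pre.length (SL q (pre.length + 1) (SL q pre.length f)) (pre ++ x :: z :: x :: post) =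
      SL q (pre.length + 1) (SL q pre.length (SL q (pre.length + 1) f))
        (pre ++ x :: z :: x :: post)) ∧
    (SL q pre.length (SL q (pre.length + 1) (SL q pre.length f)) (pre ++ z :: x :: x :: post) =
      SL q (pre.length + 1) (SL q pre.length (SL q (pre.length + 1) f))
        (pre ++ z :: x :: x :: post)) := by
  have L1 : ∀ g, SL q pre.length g (pre ++ x :: x :: z :: post) =
      - g (pre ++ x :: x :: z :: post) := fun g => SL_eq q g pre x _
  have L2 : ∀ g, SL q pre.length g (pre ++ x :: z :: x :: post) =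
      alpha q (ct pre z - ct pre x) * g (pre ++ x :: z :: x :: post) +
        ee q pre x z * g (pre ++ z :: x :: x :: post) := fun g => SL_ne q g pre hxz _
  have L3 : ∀ g, SL q pre.length g (pre ++ z :: x :: x :: post) =
      alpha q (ct pre x - ct pre z) * g (pre ++ z :: x :: x :: post) +
        ee q pre z x * g (pre ++ x :: z :: x :: post) := fun g => SL_ne q g pre hxz.symm _
  have c1 : ct (pre ++ [x]) x = ct pre x - 1 := ct_snoc_self pre x
  have c2 : ct (pre ++ [x]) z = ct pre z := ct_snoc_ne pre hxz.symm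
  have M1 : ∀ g, SL q (pre.length + 1) g (pre ++ x :: x :: z :: post) =
      alpha q (ct pre z - (ct pre x - 1)) * g (pre ++ x :: x :: z :: post) +
        ee q (pre ++ [x]) x z * g (pre ++ x :: z :: x :: post) := fun g => by
    rw [SL1_ne q g pre x hxz, c1, c2]
  have M2 : ∀ g, SL q (pre.length + 1) g (pre ++ x :: z :: x :: post) =
      alpha q (ct pre x - 1 - ct pre z) * g (pre ++ x :: z :: x :: post) +
        ee q (pre ++ [x]) z x * g (pre ++ x :: x :: z :: post) := fun g => by
    rw [SL1_ne q g pre x hxz.symm, c1, c2]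
  have M3 : ∀ g, SL q (pre.length + 1) g (pre ++ z :: x :: x :: post) =
      - g (pre ++ z :: x :: x :: post) := fun g => SL1_eq q g pre z x _
  have e0 := ee_mul hq pre hxz h0
  have e1 := ee_mul hq (pre ++ [x]) hxz (by rw [c1, c2]; exact h1)
  rw [c1, c2] at e1
  have i1 := k1 hq h0 h1
  have i2 := k2 hq h0 h1
  have i3 := k3 hq h0 h1
  have i4 := k4 hq h0 h1
  have i5 := k5 hq h0 h1
  refine ⟨?_, ?_, ?_⟩
  · rw [L1, M1, L1, L2, M1, L1, L2, M1, M2, M3]
    generalize f (pre ++ x :: x :: z :: post) = f1 at *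
    generalize f (pre ++ x :: z :: x :: post) = f2 at *
    generalize f (pre ++ z :: x :: x :: post) = f3 at *
    linear_combination f1 * i1 - f1 * alpha q (ct pre z - ct pre x) * e1 -
      f2 * ee q (pre ++ [x]) x z * i2
  · rw [L2, M2, M3, L2, L1, L3, M2, L2, L1, M2, M3, M1]
    generalize f (pre ++ x :: x :: z :: post) = f1 at *
    generalize f (pre ++ x :: z :: x :: post) = f2 at *
    generalize f (pre ++ z :: x :: x :: post) = f3 at *
    linear_combination (- f1 * ee q (pre ++ [x]) z x) * i2 + f2 * i3 - f2 * e0 + f2 * e1 +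
      f3 * ee q pre x z * i4
  · rw [L3, M3, M2, L3, L2, L1, M3, L3, M3, M2]
    generalize f (pre ++ x :: x :: z :: post) = f1 at *
    generalize f (pre ++ x :: z :: x :: post) = f2 at *
    generalize f (pre ++ z :: x :: x :: post) = f3 at *
    linear_combination f3 * i5 + f3 * alpha q (ct pre x - 1 - ct pre z) * e0 +
      f2 * ee q pre z x * i4

lemma braid_same (q : K) (f : List ℕ → K) (pre : List ℕ) (x : ℕ) (post : List ℕ) :
    SL q pre.length (SL q (pre.length + 1) (SL q pre.length f)) (pre ++ x :: x :: x :: post) =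
      SL q (pre.length + 1) (SL q pre.length (SL q (pre.length + 1) f))
        (pre ++ x :: x :: x :: post) := by
  have L1 : ∀ g, SL q pre.length g (pre ++ x :: x :: x :: post) =
      - g (pre ++ x :: x :: x :: post) := fun g => SL_eq q g pre x _
  have M1 : ∀ g, SL q (pre.length + 1) g (pre ++ x :: x :: x :: post) =
      - g (pre ++ x :: x :: x :: post) := fun g => SL1_eq q g pre x x _
  rw [L1, M1, L1, M1, L1, M1]

end

/-! Yamanouchi words -/

lemma yam_left {w v : List ℕ} (h : Yam (w ++ v)) : Yam w := by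
  intro pre x post hw
  exact h pre x (post ++ v) (by rw [hw]; simp)

lemma yam_count {w : List ℕ} (h : Yam w) (x : ℕ) : w.count (x + 1) ≤ w.count x := by
  induction w using List.reverseRecOn with
  | nil => simp
  | append_singleton l a ih =>
    have h1 := ih (yam_left h)
    rw [List.count_append, List.count_append, List.count_singleton, List.count_singleton]
    by_cases ha : a = x + 1
    · subst ha
      have h2 := h l x [] rfl
      simp
      omega
    · have : (a == x + 1) = false := by simpa using ha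
      rw [this]
      simp
      omega

lemma yam_mono {w : List ℕ} (h : Yam w) {x y : ℕ} (hxy : x ≤ y) : w.count y ≤ w.count x := by
  induction y, hxy using Nat.le_induction with
  | base => exact le_rfl
  | succ n _ ih => exact (yam_count h n).trans ih

lemma yam_ct {w : List ℕ} (h : Yam w) {x y : ℕ} (hxy : x < y) : ct w x < ct w y := by
  have := yam_mono h hxy.le
  unfold ct
  omega

lemma yam_ct_ne {w : List ℕ} (h : Yam w) {x y : ℕ} (hxy : x ≠ y) : ct w x ≠ ct w y := by
  rcases lt_or_gt_of_ne hxy with h1 | h1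
  · exact (yam_ct h h1).ne
  · exact (yam_ct h h1).ne'

lemma length_rowWord (κ : List ℕ) : (rowWord κ).length = κ.sum := by
  unfold rowWord
  rw [List.length_flatMap]
  congr 1
  simp

lemma exists3 (w : List ℕ) (k : ℕ) (h : k + 2 < w.length) :
    ∃ (pre : List ℕ) (x y z : ℕ) (post : List ℕ), pre.length = k ∧ w = pre ++ x :: y :: z :: post := by
  induction k generalizing w with
  | zero =>
    match w, h with
    | x :: y :: z :: post, _ => exact ⟨[], x, y, z, post, rfl, rfl⟩
  | succ k ih =>
    match w, h with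
    | a :: w, h =>
      obtain ⟨pre, x, y, z, post, h1, h2⟩ := ih w (by simp at h; omega)
      exact ⟨a :: pre, x, y, z, post, by simp [h1], by simp [h2]⟩

/-- two equal letters and a third one at the end of a Yamanouchi word -/
lemma yam_rep {pre l : List ℕ} {x z : ℕ} (hxz : x ≠ z) (h : Yam (pre ++ l))
    (hx : l.count x = 2) (hz : l.count z = 1) : ct pre x ≠ ct pre z ∧ ct pre x - 1 ≠ ct pre z := by
  have h1 := yam_left h
  rcases lt_or_gt_of_ne hxz with h2 | h2
  · have := yam_ct h1 h2
    constructor <;> omega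
  · have h3 := yam_ct h h2
    unfold ct at h3 ⊢
    rw [List.count_append, List.count_append, hx, hz] at h3
    push_cast at h3
    constructor <;> omega

end AuxC3

open AuxC3 in
theorem C3_proof (hC1 : StmtC1) : StmtC3 := by
  intro K _ q κ hq k hk f hf
  have g1 : SL q k f ∈ VV K κ := hC1 K q κ hq k (by omega) f hf
  have g2 : SL q (k + 1) (SL q k f) ∈ VV K κ := hC1 K q κ hq (k + 1) (by omega) _ g1
  have g3 : SL q k (SL q (k + 1) (SL q k f)) ∈ VV K κ := hC1 K q κ hq k (by omega) _ g2
  have g1' : SL q (k + 1) f ∈ VV K κ := hC1 K q κ hq (k + 1) (by omega) f hf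
  have g2' : SL q k (SL q (k + 1) f) ∈ VV K κ := hC1 K q κ hq k (by omega) _ g1'
  have g3' : SL q (k + 1) (SL q k (SL q (k + 1) f)) ∈ VV K κ := hC1 K q κ hq (k + 1) (by omega) _ g2'
  funext w
  by_cases hw : Yam w ∧ w.Perm (rowWord κ)
  · obtain ⟨hY, hP⟩ := hw
    have hlen : k + 2 < w.length := by rw [hP.length_eq, length_rowWord]; exact hk
    obtain ⟨pre, x, y, z, post, rfl, rfl⟩ := exists3 w k hlen
    have hYp : Yam pre := yam_left hY
    have hY3 : Yam (pre ++ [x, y, z]) := by
      have : pre ++ x :: y :: z :: post = (pre ++ [x, y, z]) ++ post := by simp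
      rw [this] at hY
      exact yam_left hY
    by_cases hxy : x = y
    · subst hxy
      by_cases hxz : x = z
      · subst hxz
        exact braid_same q f pre x post
      · obtain ⟨h0, h1⟩ := yam_rep hxz hY3 (by simp [hxz]) (by simp [hxz])
        exact (braid_rep hq f pre hxz h0 h1 post).1
    · by_cases hyz : y = z
      · subst hyz
        have hyx : y ≠ x := Ne.symm hxy
        obtain ⟨h0, h1⟩ := yam_rep hyx hY3 (by simp [hxy]) (by simp [hyx])
        exact (braid_rep hq f pre hyx h0 h1 post).2.2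
      · by_cases hxz : x = z
        · subst hxz
          obtain ⟨h0, h1⟩ := yam_rep hxy hY3 (by simp [Ne.symm hxy]) (by simp [hxy])
          exact (braid_rep hq f pre hxy h0 h1 post).2.1
        · exact braid_ne hq f pre hxy hxz hyz (yam_ct_ne hYp hxy) (yam_ct_ne hYp hxz)
            (yam_ct_ne hYp hyz) post
  · have z1 : SL q k (SL q (k + 1) (SL q k f)) w = 0 := by
      by_contra hc
      exact hw (g3 w hc)
    have z2 : SL q (k + 1) (SL q k (SL q (k + 1) f)) w = 0 := by
      by_contra hc
      exact hw (g3' w hc)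
    rw [z1, z2]

end Pool.Agent.JC3
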