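import Pool.Agent.JC3.B1

/-!
C5: the Murphy operators are diagonal on the seminormal module.
-/

set_option autoImplicit false

namespace Pool.Agent.JC3.AuxC5

open AuxB1

/-- counts of the letters are weakly decreasing after every prefix of a Yamanouchi word -/
theorem yam_step {w pre post : List ℕ} (hw : Yam w) (h : w = pre ++ post) (x : ℕ) :
    pre.count (x + 1) ≤ pre.count x := by
  induction pre using List.reverseRecOn generalizing post with
  | nil => simp
  | append_singleton l a ih =>
    have h1 : w = l ++ (a :: post) := by rw [h]; simp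
    have h2 := ih h1
    rw [List.count_append, List.count_append, List.count_singleton, List.count_singleton]
    by_cases ha : a = x + 1
    · subst ha
      have h3 := hw l x post h1
      simp
      omega
    · have hb : (a == x + 1) = false := by simpa using ha
      rw [hb]
      simp only [Bool.false_eq_true, if_false, add_zero]
      split_ifs <;> omega

theorem yam_anti {w pre post : List ℕ} (hw : Yam w) (h : w = pre ++ post) {x y : ℕ}
    (hxy : x ≤ y) : pre.count y ≤ pre.count x := by
  obtain ⟨d, rfl⟩ := Nat.exists_eq_add_of_le hxy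
  clear hxy
  induction d with
  | zero => exact le_refl _
  | succ d ih => exact le_trans (yam_step hw h (x + d)) ih

/-- contents at the two positions -/
theorem cont_lo (pre : List ℕ) (x y : ℕ) (post : List ℕ) :
    cont (pre ++ x :: y :: post) pre.length = (x : ℤ) - (pre.count x : ℤ) := by
  unfold cont
  rw [getD_lo, List.take_left]

theorem cont_hi (pre : List ℕ) (x y : ℕ) (post : List ℕ) :
    cont (pre ++ x :: y :: post) (pre.length + 1) =
      (y : ℤ) - ((pre.count y : ℤ) + if x = y then 1 else 0) := by
  unfold cont
  have h1 : pre ++ x :: y :: post = (pre ++ [x]) ++ y :: post := by simp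
  have h2 : (pre ++ x :: y :: post).take (pre.length + 1) = pre ++ [x] := by
    rw [h1]
    have h3 : pre.length + 1 = (pre ++ [x]).length := by simp
    rw [h3, List.take_left]
  rw [getD_hi, h2, List.count_append, List.count_singleton]
  by_cases hxy : x = y
  · subst hxy; simp
  · simp [hxy]

/-- the exchange of a descent of a Yamanouchi word is a Yamanouchi word; the exchange of an
ascent is one unless the contents are consecutive -/
theorem yam_exch {pre post : List ℕ} {x y : ℕ} (hw : Yam (pre ++ x :: y :: post)) (hxy : x ≠ y)
    (hd : ((y : ℤ) - (pre.count y : ℤ)) - ((x : ℤ) - (pre.count x : ℤ)) ≠ 1) :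
    Yam (pre ++ y :: x :: post) := by
  intro p a r he
  -- position of the split
  have key : ∀ (p' : List ℕ), (∃ r', pre ++ x :: y :: post = p' ++ (a + 1) :: r') →
      p'.count (a + 1) < p'.count a := fun p' ⟨r', h⟩ => hw p' a r' h
  rcases List.append_eq_append_iff.1 he with ⟨m, hm1, hm2⟩ | ⟨m, hm1, hm2⟩
  · -- p = pre ++ m, y :: x :: post = m ++ (a+1) :: r
    match m, hm1, hm2 with
    | [], hm1, hm2 =>
      rw [List.append_nil] at hm1
      subst hm1
      simp only [List.nil_append, List.cons.injEq] at hm2
      obtain ⟨hy, hr⟩ := hm2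
      -- y = a+1
      subst hy
      have h1 := hw (p ++ [x]) a post (by simp)
      rw [List.count_append, List.count_append, List.count_singleton, List.count_singleton] at h1
      have hb : (x == a + 1) = false := by simpa using hxy
      rw [hb] at h1
      simp only [Bool.false_eq_true, if_false, add_zero] at h1
      by_cases hxa : x = a
      · subst hxa
        simp only [beq_self_eq_true, if_true] at h1
        have h2 : p.count (x + 1) ≠ p.count x := by
          intro h2
          apply hd
          rw [h2]
          push_cast
          ring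
        omega
      · have hb2 : (x == a) = false := by simpa using hxa
        rw [hb2] at h1
        simpa using h1
    | [b], hm1, hm2 =>
      simp only [List.cons_append, List.nil_append, List.cons.injEq] at hm2
      obtain ⟨hy, hx, hr⟩ := hm2
      subst hy
      subst hx
      subst hm1
      have h1 := hw pre a (y :: post) rfl
      rw [List.count_append, List.count_append, List.count_singleton, List.count_singleton]
      have hb : (y == a + 1) = false := by simpa using hxy.symm
      rw [hb]
      simp only [Bool.false_eq_true, if_false, add_zero]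
      omega
    | b :: c :: m', hm1, hm2 =>
      simp only [List.cons_append, List.cons.injEq] at hm2
      obtain ⟨hy, hx, hr⟩ := hm2
      subst hy
      subst hx
      subst hm1
      have h1 := hw (pre ++ x :: y :: m') a r (by rw [hr]; simp)
      have hperm : (pre ++ y :: x :: m').Perm (pre ++ x :: y :: m') :=
        List.Perm.append_left _ (List.Perm.swap x y m')
      rw [hperm.count_eq, hperm.count_eq]
      exact h1
  · -- pre = p ++ m, (a+1) :: r = m ++ y :: x :: post
    match m, hm1, hm2 with
    | [], hm1, hm2 =>
      rw [List.append_nil] at hm1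
      subst hm1
      simp only [List.nil_append, List.cons.injEq] at hm2
      obtain ⟨hy, hr⟩ := hm2
      have h1 := hw (pre ++ [x]) a post (by rw [hy]; simp)
      rw [List.count_append, List.count_append, List.count_singleton, List.count_singleton] at h1
      have hb : (x == a + 1) = false := by rw [hy]; simpa using hxy
      rw [hb] at h1
      simp only [Bool.false_eq_true, if_false, add_zero] at h1
      by_cases hxa : x = a
      · subst hxa
        simp only [beq_self_eq_true, if_true] at h1
        have h2 : pre.count (x + 1) ≠ pre.count x := by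
          intro h2
          apply hd
          rw [← hy, h2]
          push_cast
          ring
        omega
      · have hb2 : (x == a) = false := by simpa using hxa
        rw [hb2] at h1
        simpa using h1
    | b :: m', hm1, hm2 =>
      simp only [List.cons_append, List.cons.injEq] at hm2
      obtain ⟨hb, hr⟩ := hm2
      subst hb
      subst hm1
      exact hw p a (m' ++ x :: y :: post) (by simp)

section
variable {K : Type} [Field K]

theorem zpow_ne_one {q : K} (hq : Gen q) {d : ℤ} (hd : d ≠ 0) : q ^ d ≠ 1 := by
  intro h
  rcases lt_trichotomy d 0 with h0 | h0 | h0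
  · obtain ⟨m, hm⟩ := Int.eq_ofNat_of_zero_le (by omega : (0 : ℤ) ≤ -d)
    apply hq.2 m (by omega)
    have h1 : q ^ (-d) = 1 := by rw [zpow_neg, h, inv_one]
    rw [hm, zpow_natCast] at h1
    exact h1
  · exact hd h0
  · obtain ⟨m, hm⟩ := Int.eq_ofNat_of_zero_le (by omega : (0 : ℤ) ≤ d)
    apply hq.2 m (by omega)
    rw [hm, zpow_natCast] at h
    exact h

theorem q_ne_one {q : K} (hq : Gen q) : q - 1 ≠ 0 := by
  intro h
  apply hq.2 1 one_pos
  rw [pow_one]
  exact sub_eq_zero.1 h

theorem qint_ne_zero {q : K} (hq : Gen q) {d : ℤ} (hd : d ≠ 0) : qint q d ≠ 0 := by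
  unfold qint
  exact div_ne_zero (sub_ne_zero.2 (zpow_ne_one hq hd)) (q_ne_one hq)

theorem beta_neg {q : K} (hq : Gen q) (d : ℤ) (hd : d ≠ 0) : beta q (-d) = beta q d := by
  have h1 := sub_ne_zero.2 (zpow_ne_one hq hd)
  have h2 := q_ne_one hq
  have h3 := hq.1
  have h4 : q ^ d ≠ 0 := zpow_ne_zero _ h3
  have h5 : (1 : K) - q ^ d ≠ 0 := by intro h; apply h1; rw [← neg_eq_zero]; rw [← h]; ring
  unfold beta qint
  rw [zpow_add₀ h3, zpow_sub₀ h3, zpow_add₀ h3, zpow_sub₀ h3, zpow_neg, zpow_one]
  set Q := q ^ d
  field_simp
  ring

theorem alpha_one {q : K} (hq : Gen q) : alpha q 1 = q := by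
  have h2 := q_ne_one hq
  unfold alpha qint
  rw [zpow_one, div_self h2, div_one]

theorem beta_one (q : K) : beta q 1 = 0 := by
  unfold beta qint
  simp

theorem id1 {q : K} (hq : Gen q) {d : ℤ} (hd : d ≠ 0) :
    alpha q d ^ 2 + beta q d * q ^ d = q * q ^ d := by
  have h1 := sub_ne_zero.2 (zpow_ne_one hq hd)
  have h2 := q_ne_one hq
  have h3 := hq.1
  have h4 : q ^ d ≠ 0 := zpow_ne_zero _ h3
  unfold alpha beta qint
  rw [zpow_add₀ h3, zpow_sub₀ h3, zpow_one]
  set Q := q ^ d
  field_simp
  ring

theorem id2 {q : K} (hq : Gen q) {d : ℤ} (hd : d ≠ 0) :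
    alpha q d + alpha q (-d) * q ^ d = 0 := by
  have h1 := sub_ne_zero.2 (zpow_ne_one hq hd)
  have h2 := q_ne_one hq
  have h3 := hq.1
  have h4 : q ^ d ≠ 0 := zpow_ne_zero _ h3
  have h5 : (1 : K) - q ^ d ≠ 0 := by intro h; apply h1; rw [← neg_eq_zero]; rw [← h]; ring
  unfold alpha qint
  rw [zpow_neg]
  set Q := q ^ d
  field_simp
  ring

theorem SL_apply (q : K) (k : ℕ) (f : List ℕ → K) (w : List ℕ) :
    SL q k f w = if w.getD k 0 = w.getD (k + 1) 0 then - f w
    else alpha q (cont w (k + 1) - cont w k) * f w +
      (if w.getD k 0 < w.getD (k + 1) 0 then 1 else beta q (cont w (k + 1) - cont w k)) *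
        f (swapAt k w) := rfl

/-- action of SL on the indicator function of a word with equal letters -/
theorem SL_ind_eq (q : K) (pre : List ℕ) (x : ℕ) (post : List ℕ) :
    SL q pre.length (ind K (pre ++ x :: x :: post)) = - ind K (pre ++ x :: x :: post) := by
  funext w
  rw [SL_apply, Pi.neg_apply]
  by_cases hw : w = pre ++ x :: x :: post
  · subst hw
    rw [getD_lo, getD_hi, if_pos rfl]
  · have h0 : ind K (pre ++ x :: x :: post) w = 0 := if_neg hw
    have h1 : ind K (pre ++ x :: x :: post) (swapAt pre.length w) = 0 := by
      apply if_neg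
      intro h
      apply hw
      have h2 := congrArg (swapAt pre.length) h
      rw [swapAt_swapAt, swapAt_mid] at h2
      exact h2
    rw [h0, h1]
    split_ifs <;> ring

/-- action of SL on the indicator function of a word with different letters -/
theorem SL_ind_ne (q : K) (pre : List ℕ) {x y : ℕ} (hxy : x ≠ y) (post : List ℕ) :
    SL q pre.length (ind K (pre ++ x :: y :: post)) =
      alpha q (((y : ℤ) - (pre.count y : ℤ)) - ((x : ℤ) - (pre.count x : ℤ))) •
          ind K (pre ++ x :: y :: post) +
      (if y < x then 1 else
        beta q (-(((y : ℤ) - (pre.count y : ℤ)) - ((x : ℤ) - (pre.count x : ℤ))))) •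
          ind K (pre ++ y :: x :: post) := by
  have hne : pre ++ x :: y :: post ≠ pre ++ y :: x :: post := by
    intro h
    have h1 := List.append_cancel_left h
    simp only [List.cons.injEq] at h1
    exact hxy h1.1
  funext w
  rw [SL_apply, Pi.add_apply, Pi.smul_apply, Pi.smul_apply, smul_eq_mul, smul_eq_mul]
  by_cases hw : w = pre ++ x :: y :: post
  · subst hw
    have h1 : ind K (pre ++ x :: y :: post) (pre ++ x :: y :: post) = 1 := if_pos rfl
    have h2 : ind K (pre ++ y :: x :: post) (pre ++ x :: y :: post) = 0 := if_neg hne
    have h3 : ind K (pre ++ x :: y :: post) (pre ++ y :: x :: post) = 0 := if_neg hne.symm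
    rw [getD_lo, getD_hi, if_neg hxy, swapAt_mid, h1, h2, h3, cont_hi, cont_lo, if_neg hxy]
    simp
  · by_cases hw2 : w = pre ++ y :: x :: post
    · subst hw2
      have h1 : ind K (pre ++ x :: y :: post) (pre ++ x :: y :: post) = 1 := if_pos rfl
      have h2 : ind K (pre ++ x :: y :: post) (pre ++ y :: x :: post) = 0 := if_neg hne.symm
      have h3 : ind K (pre ++ y :: x :: post) (pre ++ y :: x :: post) = 1 := if_pos rfl
      rw [getD_lo, getD_hi, if_neg hxy.symm, swapAt_mid, h1, h2, h3, cont_hi, cont_lo,
        if_neg hxy.symm]
      have h4 : ((x : ℤ) - ((pre.count x : ℤ) + 0)) - ((y : ℤ) - (pre.count y : ℤ)) =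
        -(((y : ℤ) - (pre.count y : ℤ)) - ((x : ℤ) - (pre.count x : ℤ))) := by ring
      rw [h4]
      ring
    · have h0 : ind K (pre ++ x :: y :: post) w = 0 := if_neg hw
      have h0' : ind K (pre ++ y :: x :: post) w = 0 := if_neg hw2
      have h1 : ind K (pre ++ x :: y :: post) (swapAt pre.length w) = 0 := by
        apply if_neg
        intro h
        apply hw2
        have h2 := congrArg (swapAt pre.length) h
        rw [swapAt_swapAt, swapAt_mid] at h2
        exact h2
      rw [h0, h0', h1]
      split_ifs <;> ring

end

end Pool.Agent.JC3.AuxC5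

namespace Pool.Agent.JC3

open AuxB1 AuxC5

theorem C5_proof : StmtC5 := by
  intro K _ q κ hq t ht htp p hp
  have hlen : t.length = κ.sum := by rw [htp.length_eq, length_rowWord]
  rw [← hlen] at hp
  clear hlen htp
  induction p generalizing t with
  | zero =>
    -- the first letter of a Yamanouchi word is 0
    match t, ht, hp with
    | a :: l, ht, _ =>
      have ha : a = 0 := by
        by_contra hne
        obtain ⟨b, rfl⟩ := Nat.exists_eq_succ_of_ne_zero hne
        have := ht [] b l rfl
        simp at this
      subst ha
      have hc : cont (0 :: l) 0 = 0 := by simp [cont]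
      rw [hc]
      simp [YS]
  | succ p ih =>
    obtain ⟨pre, x, y, post, rfl, rfl⟩ := split hp
    have hp1 : pre.length < (pre ++ x :: y :: post).length := by simp
    have hY : ∀ f : List ℕ → K, YS q (pre.length + 1) f =
      SL q pre.length (YS q pre.length (SL q pre.length f)) := fun f => rfl
    have h3 := hq.1
    rw [hY, cont_hi]
    have ih1 := ih _ ht hp1
    rw [cont_lo] at ih1
    rcases eq_or_ne x y with hxy | hxy
    · subst hxy
      rw [SL_ind_eq, map_neg, map_neg, ih1, map_smul, SL_ind_eq, if_pos rfl, smul_neg, neg_neg]
      congr 2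
      push_cast
      ring
    · rw [if_neg hxy, SL_ind_ne q pre hxy post]
      set d : ℤ := ((y : ℤ) - (pre.count y : ℤ)) - ((x : ℤ) - (pre.count x : ℤ)) with hd
      set a : ℤ := (x : ℤ) - (pre.count x : ℤ) with ha
      -- d ≠ 0
      have hd0 : d ≠ 0 := by
        rcases lt_or_gt_of_ne hxy with h | h
        · have h1 := yam_anti ht rfl (le_of_lt h)
          rw [hd, ha]
          omega
        · have h1 := yam_anti ht rfl (le_of_lt h)
          rw [hd, ha]
          omega
      have hexp : ((pre.length : ℤ) + a + 1) + d = ((pre.length + 1 : ℕ) : ℤ) +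
          ((y : ℤ) - ((pre.count y : ℤ) + 0)) := by
        rw [hd, ha]; push_cast; ring
      by_cases hd1 : d = 1
      · -- contents consecutive
        have hlt : ¬ y < x := by
          intro h
          have h1 := yam_anti ht rfl (le_of_lt h)
          rw [hd, ha] at hd1
          omega
        have hb : beta q (-d) = 0 := by rw [beta_neg hq d hd0, hd1, beta_one]
        have hal : alpha q d = q := by rw [hd1, alpha_one hq]
        rw [if_neg hlt, hb, hal, zero_smul, add_zero, map_smul, ih1, map_smul, map_smul,
          SL_ind_ne q pre hxy post, ← ha, ← hd, if_neg hlt, hb, hal, zero_smul, add_zero,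
          smul_smul, smul_smul, ← hexp, hd1]
        congr 1
        rw [zpow_add_one₀ h3, zpow_add_one₀ h3]
        ring
      · have ht' : Yam (pre ++ y :: x :: post) := by
          apply yam_exch ht hxy
          rw [← ha, ← hd]
          exact hd1
        have hp2 : pre.length < (pre ++ y :: x :: post).length := by simp
        have ih2 := ih _ ht' hp2
        rw [cont_lo] at ih2
        have h4 : (y : ℤ) - (pre.count y : ℤ) = a + d := by rw [hd]; ring
        have hSy := SL_ind_ne q pre hxy.symm post
        have h5 : (((x : ℤ) - (pre.count x : ℤ)) - ((y : ℤ) - (pre.count y : ℤ))) = -d := by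
          rw [hd, ha]; ring
        rw [h5, neg_neg] at hSy
        rw [h4] at ih2
        have hSx := SL_ind_ne q pre hxy post
        rw [← ha, ← hd] at hSx
        simp only [map_add, map_smul, ih1, ih2, hSx, hSy]
        -- the product of the off diagonal coefficients
        have hbb : (if y < x then (1 : K) else beta q (-d)) * (if x < y then 1 else beta q d) =
            beta q d := by
          rcases lt_or_gt_of_ne hxy with h | h
          · rw [if_neg (not_lt.2 (le_of_lt h)), if_pos h, beta_neg hq d hd0, mul_one]
          · rw [if_pos h, if_neg (not_lt.2 (le_of_lt h)), one_mul]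
        set b1 : K := if y < x then (1 : K) else beta q (-d)
        set b2 : K := if x < y then (1 : K) else beta q d
        have e1 : alpha q d * (q ^ ((pre.length : ℤ) + a) * alpha q d) +
            b1 * (q ^ ((pre.length : ℤ) + (a + d)) * b2) =
            q ^ (((pre.length + 1 : ℕ) : ℤ) + ((y : ℤ) - ((pre.count y : ℤ) + 0))) := by
          rw [← hexp, zpow_add₀ h3, zpow_add₀ h3, zpow_add₀ h3, zpow_add₀ h3, zpow_add₀ h3,
            zpow_one]
          have i1 := id1 hq hd0
          rw [zpow_add₀ h3]
          linear_combination (q ^ (pre.length : ℤ) * q ^ a) * i1 +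
            (q ^ (pre.length : ℤ) * q ^ a * q ^ d) * hbb
        have e2 : alpha q d * (q ^ ((pre.length : ℤ) + a) * b1) +
            b1 * (q ^ ((pre.length : ℤ) + (a + d)) * alpha q (-d)) = 0 := by
          have i2 := id2 hq hd0
          rw [zpow_add₀ h3, zpow_add₀ h3, zpow_add₀ h3]
          linear_combination (q ^ (pre.length : ℤ) * q ^ a * b1) * i2
        funext w
        simp only [Pi.add_apply, Pi.smul_apply, smul_eq_mul]
        linear_combination (ind K (pre ++ x :: y :: post) w) * e1 +
          (ind K (pre ++ y :: x :: post) w) * e2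

end Pool.Agent.JC3
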