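import Pool.Agent.JC3.Defs

/-!
Computable leading term calculus for the seminormal operators.  A Yamanouchi word w is coded by
the natural number enc w whose base 64 digits are cont w p + 32.  A value (e,a,b) stands for an
element of K of the form theta^(e-100) * y with y in O and y = a/b mod theta.
-/

set_option autoImplicit false

namespace Pool.Agent.JC3

abbrev CV := ℕ × ℤ × ℕ
abbrev CS := List (ℕ × CV)

/-- code of a word: base 64 digits are the contents plus 32 -/
def enc (w : List ℕ) : ℕ :=
  ((List.range w.length).map (cont w)).foldr (fun c acc => (c + 32).toNat + 64 * acc) 0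

/-- p-th base 64 digit -/
def dig (c p : ℕ) : ℕ := (c >>> (6 * p)) % 64

/-- exchange the digits a (in position k) and b (in position k+1) -/
def swp (c k a b : ℕ) : ℕ := (c + b * 64 ^ k + a * 64 ^ (k + 1)) - (a * 64 ^ k + b * 64 ^ (k + 1))

/-- sum of two leading terms -/
def addV : CV → CV → CV
  | (e1, a1, b1), (e2, a2, b2) =>
    bif Nat.beq e1 e2 then (e1, a1 * b2 + a2 * b1, b1 * b2)
    else bif Nat.ble e1 e2 then (e1, a1 * b2, b1 * b2) else (e2, a2 * b1, b1 * b2)

/-- product of a leading term with beta d, d > 1 a natural number -/
def mulB (d : ℕ) : CV → CV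
  | (e, n, m) =>
    bif Nat.beq (d % 3) 0 then (e - 2, -n, m * (d / 3) ^ 2)
    else bif Nat.beq (d % 3) 1 then (e + 1, n * -(Int.ofNat (d / 3)), m)
    else (e + 1, n * (Int.ofNat ((d + 1) / 3)), m)

/-- add v to the value of the word with code c -/
def insC (c : ℕ) (v : CV) : CS → CS
  | [] => [(c, v)]
  | (c', v') :: s => bif Nat.beq c c' then (c', addV v v') :: s else (c', v') :: insC c v s

/-- add the image of (value v at code c) under the projected operator S_k -/
def push (k c : ℕ) (v : CV) (s : CS) : CS :=
  let a := dig c k
  let b := dig c (k + 1)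
  bif Nat.ble a b then
    let d := b - a
    bif Nat.beq (d % 3) 0 then
      insC c (v.1 - 1, v.2.1, v.2.2 * (d / 3)) (insC (swp c k a b) (mulB d v) s)
    else bif Nat.beq d 1 then s else insC (swp c k a b) (mulB d v) s
  else
    let d := a - b
    bif Nat.beq (d % 3) 0 then
      insC c (v.1 - 1, -v.2.1, v.2.2 * (d / 3)) (insC (swp c k a b) v s)
    else bif Nat.beq d 1 then s else insC (swp c k a b) v s

/-- projected S_k -/
def stepC (k : ℕ) (s : CS) : CS := s.foldr (fun e acc => push k e.1 e.2 acc) []

/-- run the path ks (first entry first) -/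
def runC : List ℕ → CS → CS
  | [], s => s
  | k :: ks, s => runC ks (stepC k s)

/-- code and gamma along a path; fails (returns code 0) unless each step removes an inversion -/
def runG : List ℕ → ℕ → CV → ℕ × CV
  | [], c, v => (c, v)
  | k :: ks, c, v =>
    let a := dig c k
    let b := dig c (k + 1)
    bif Nat.ble a (b + 1) then (0, (0, 0, 0)) else runG ks (swp c k a b) (mulB (a - b) v)

def lookC (c : ℕ) : CS → Option CV
  | [] => none
  | (c', v') :: s => bif Nat.beq c c' then some v' else lookC c s

/-- product of three values (exponent offset 100 each), offset 300 -/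
def mul3 : CV → CV → CV → CV
  | (e1, a1, b1), (e2, a2, b2), (e3, a3, b3) => (e1 + e2 + e3, a1 * a2 * a3, b1 * b2 * b3)

/-- sum over the table s1 of gamma * v1 * v2; gs = table of the gammas; offset 300; the starting
value 0/1 has exponent 301 -/
def gramC (gs s2 : CS) : CS → CV
  | [] => (301, 0, 1)
  | (c, v1) :: s1 =>
    match lookC c s2 with
    | none => gramC gs s2 s1
    | some v2 =>
      match lookC c gs with
      | none => (0, 0, 0)
      | some g => addV (mul3 g v1 v2) (gramC gs s2 s1)

/-- the value (offset 300) is in O with residue G, denominators prime to 11 -/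
def okV (G : ℤ) : CV → Bool
  | (e, a, b) => !(Nat.beq (b % 11) 0) &&
      (bif Nat.beq e 300 then decide (a = G * b) else (Nat.ble 301 e && decide (G = 0)))

end Pool.Agent.JC3
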