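import Pool.Agent.JC3.Stmts

/-!
D1: the universal property of the signed permutation module.
-/

set_option autoImplicit false

namespace Pool.Agent.JC3

namespace AuxD1

/-! ### exchanges -/

theorem length_swapAt : ∀ (k : ℕ) (w : List ℕ), (swapAt k w).length = w.length
  | 0, [] => rfl
  | 0, [_] => rfl
  | 0, _ :: _ :: _ => rfl
  | _ + 1, [] => rfl
  | k + 1, x :: l => by
    show (swapAt k l).length + 1 = l.length + 1
    rw [length_swapAt k l]

theorem perm_swapAt : ∀ (k : ℕ) (w : List ℕ), (swapAt k w).Perm w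
  | 0, [] => List.Perm.refl _
  | 0, [_] => List.Perm.refl _
  | 0, _ :: _ :: _ => List.Perm.swap _ _ _
  | _ + 1, [] => List.Perm.refl _
  | k + 1, _ :: l => (perm_swapAt k l).cons _

theorem getD_swapAt : ∀ (k : ℕ) (w : List ℕ), k + 1 < w.length → ∀ p,
    (swapAt k w).getD p 0 = w.getD (Equiv.swap k (k + 1) p) 0
  | 0, [], h => by simp at h
  | 0, [_], h => by simp at h
  | 0, x :: y :: l, _ => by
    intro p
    show (y :: x :: l).getD p 0 = (x :: y :: l).getD (Equiv.swap 0 (0 + 1) p) 0
    rcases p with _ | _ | p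
    · simp
    · simp
    · rw [Equiv.swap_apply_of_ne_of_ne (by omega) (by omega)]
      rfl
  | k + 1, [], h => by simp at h
  | k + 1, x :: l, h => by
    intro p
    show (x :: swapAt k l).getD p 0 = (x :: l).getD (Equiv.swap (k + 1) (k + 1 + 1) p) 0
    rcases p with _ | p
    · rw [Equiv.swap_apply_of_ne_of_ne (by omega) (by omega)]
      rfl
    · have h1 : Equiv.swap (k + 1) (k + 1 + 1) (p + 1) = Equiv.swap k (k + 1) p + 1 := by
        simp only [Equiv.swap_apply_def]
        split_ifs <;> omega
      rw [h1]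
      exact getD_swapAt k l (by simpa using h) p

theorem getD_swap_left {k : ℕ} {w : List ℕ} (h : k + 1 < w.length) :
    (swapAt k w).getD k 0 = w.getD (k + 1) 0 := by
  rw [getD_swapAt k w h, Equiv.swap_apply_left]

theorem getD_swap_right {k : ℕ} {w : List ℕ} (h : k + 1 < w.length) :
    (swapAt k w).getD (k + 1) 0 = w.getD k 0 := by
  rw [getD_swapAt k w h, Equiv.swap_apply_right]

theorem getD_swap_ne {k p : ℕ} {w : List ℕ} (h : k + 1 < w.length) (h1 : p ≠ k) (h2 : p ≠ k + 1) :
    (swapAt k w).getD p 0 = w.getD p 0 := by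
  rw [getD_swapAt k w h, Equiv.swap_apply_of_ne_of_ne h1 h2]

theorem ext_getD {v w : List ℕ} (h : v.length = w.length) (h' : ∀ p, v.getD p 0 = w.getD p 0) : v = w := by
  refine List.ext_getElem h fun p h1 h2 => ?_
  have := h' p
  rw [List.getD_eq_getElem _ _ h1, List.getD_eq_getElem _ _ h2] at this
  exact this

theorem swapAt_swapAt {k : ℕ} {w : List ℕ} (h : k + 1 < w.length) : swapAt k (swapAt k w) = w := by
  refine ext_getD (by rw [length_swapAt, length_swapAt]) fun p => ?_
  rw [getD_swapAt k _ (by rw [length_swapAt]; exact h), getD_swapAt k w h, Equiv.swap_apply_self]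

theorem swapAt_comm {i k : ℕ} {w : List ℕ} (hi : i + 1 < w.length) (hk : k + 1 < w.length)
    (h : i + 1 < k ∨ k + 1 < i) : swapAt i (swapAt k w) = swapAt k (swapAt i w) := by
  refine ext_getD (by simp only [length_swapAt]) fun p => ?_
  rw [getD_swapAt i _ (by rw [length_swapAt]; exact hi), getD_swapAt k w hk,
    getD_swapAt k _ (by rw [length_swapAt]; exact hk), getD_swapAt i w hi]
  congr 1
  simp only [Equiv.swap_apply_def]
  split_ifs <;> omega

theorem swapAt_braid {k : ℕ} {w : List ℕ} (hk : k + 2 < w.length) :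
    swapAt k (swapAt (k + 1) (swapAt k w)) = swapAt (k + 1) (swapAt k (swapAt (k + 1) w)) := by
  have h1 : k + 1 < w.length := by omega
  have h2 : k + 1 + 1 < w.length := hk
  refine ext_getD (by simp only [length_swapAt]) fun p => ?_
  rw [getD_swapAt k _ (by simp only [length_swapAt]; exact h1),
    getD_swapAt (k + 1) _ (by simp only [length_swapAt]; exact h2), getD_swapAt k w h1,
    getD_swapAt (k + 1) _ (by simp only [length_swapAt]; exact h2),
    getD_swapAt k _ (by simp only [length_swapAt]; exact h1), getD_swapAt (k + 1) w h2]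
  congr 1
  simp only [Equiv.swap_apply_def]
  split_ifs <;> omega

/-! ### inversions -/

theorem inv_swapAt : ∀ (k : ℕ) (w : List ℕ), k + 1 < w.length → w.getD (k + 1) 0 < w.getD k 0 →
    inv (swapAt k w) + 1 = inv w
  | 0, [], h => by simp at h
  | 0, [_], h => by simp at h
  | 0, x :: y :: l, _ => by
    intro h
    have hxy : y < x := h
    have hyx : ¬ x < y := by omega
    show List.countP (fun z => decide (z < y)) (x :: l) +
      (List.countP (fun z => decide (z < x)) l + inv l) + 1 =
      List.countP (fun z => decide (z < x)) (y :: l) +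
        (List.countP (fun z => decide (z < y)) l + inv l)
    rw [List.countP_cons_of_neg (by simpa using hyx), List.countP_cons_of_pos (by simpa using hxy)]
    omega
  | k + 1, [], h => by simp at h
  | k + 1, x :: l, h => by
    intro h'
    have ih := inv_swapAt k l (by simpa using h) h'
    show List.countP (fun z => decide (z < x)) (swapAt k l) + inv (swapAt k l) + 1 =
      List.countP (fun z => decide (z < x)) l + inv l
    rw [(perm_swapAt k l).countP_eq]
    omega

theorem inv_swapAt_lt {k : ℕ} {w : List ℕ} (h : k + 1 < w.length) (h' : w.getD k 0 < w.getD (k + 1) 0) :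
    inv (swapAt k w) = inv w + 1 := by
  have h1 := inv_swapAt k (swapAt k w) (by rw [length_swapAt]; exact h)
    (by rw [getD_swap_left h, getD_swap_right h]; exact h')
  rw [swapAt_swapAt h] at h1
  exact h1.symm

theorem swapAt_eq_self {k : ℕ} {w : List ℕ} (h : k + 1 < w.length) (h' : w.getD k 0 = w.getD (k + 1) 0) :
    swapAt k w = w := by
  refine ext_getD (length_swapAt _ _) fun p => ?_
  rw [getD_swapAt k w h]
  by_cases h1 : p = k
  · rw [h1, Equiv.swap_apply_left, h']
  by_cases h2 : p = k + 1
  · rw [h2, Equiv.swap_apply_right, h']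
  rw [Equiv.swap_apply_of_ne_of_ne h1 h2]

/-- a word without descents is sorted -/
theorem sorted_of_no_descent (w : List ℕ) (h : ∀ k, k + 1 < w.length → w.getD k 0 ≤ w.getD (k + 1) 0) :
    w.Pairwise (· ≤ ·) := by
  rw [← List.isChain_iff_pairwise, List.isChain_iff_getElem]
  intro i hi
  have h1 := h i hi
  rw [List.getD_eq_getElem _ _ (by omega), List.getD_eq_getElem _ _ hi] at h1
  exact h1

/-! ### the functionals -/

section

variable {K : Type} [Field K] {E : Type} [AddCommGroup E] [Module K E]

/-- w has a descent -/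
def HasDes (w : List ℕ) : Prop := ∃ k, k + 1 < w.length ∧ w.getD (k + 1) 0 < w.getD k 0

instance (w : List ℕ) : DecidablePred fun k => k + 1 < w.length ∧ w.getD (k + 1) 0 < w.getD k 0 :=
  fun _ => instDecidableAnd

open Classical in
/-- the functional of the word c -/
noncomputable def th (S : ℕ → Module.End K E) (φ : E →ₗ[K] K) (c : List ℕ) : E →ₗ[K] K :=
  if h : HasDes c then th S φ (swapAt (Nat.find h) c) ∘ₗ S (Nat.find h) else φ
termination_by inv c
decreasing_by
  have h1 := Nat.find_spec h
  have h2 := inv_swapAt _ c h1.1 h1.2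
  omega

theorem th_of_des (S : ℕ → Module.End K E) (φ : E →ₗ[K] K) {c : List ℕ} (h : HasDes c) :
    ∃ i, i + 1 < c.length ∧ c.getD (i + 1) 0 < c.getD i 0 ∧
      (∀ k, k + 1 < c.length → c.getD (k + 1) 0 < c.getD k 0 → i ≤ k) ∧
      th S φ c = th S φ (swapAt i c) ∘ₗ S i := by
  classical
  refine ⟨Nat.find h, (Nat.find_spec h).1, (Nat.find_spec h).2, fun k h1 h2 => Nat.find_min' h ⟨h1, h2⟩, ?_⟩
  rw [th, dif_pos h]

theorem th_of_not_des (S : ℕ → Module.End K E) (φ : E →ₗ[K] K) {c : List ℕ} (h : ¬ HasDes c) :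
    th S φ c = φ := by
  rw [th, dif_neg h]

theorem key {n : ℕ} {S : ℕ → Module.End K E}
    (hb : ∀ k, k + 2 < n → S k * S (k + 1) * S k = S (k + 1) * S k * S (k + 1))
    (hc : ∀ k l, k + 1 < l → l + 1 < n → S k * S l = S l * S k)
    {c0 : List ℕ} (hs : c0.Pairwise (· ≤ ·)) (hn : c0.length = n) {φ : E →ₗ[K] K}
    (hφ : ∀ k, k + 1 < n → c0.getD k 0 = c0.getD (k + 1) 0 → φ ∘ₗ S k = - φ) (m : ℕ) :
    ∀ c : List ℕ, inv c = m → c.Perm c0 → ∀ k, k + 1 < n →
      (c.getD (k + 1) 0 < c.getD k 0 → th S φ c = th S φ (swapAt k c) ∘ₗ S k) ∧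
      (c.getD k 0 = c.getD (k + 1) 0 → th S φ c ∘ₗ S k = - th S φ c) := by
  induction m using Nat.strong_induction_on with
  | _ m IH =>
  intro c hm hp k hk
  have hlen : c.length = n := by rw [hp.length_eq, hn]
  have hk' : k + 1 < c.length := by omega
  by_cases hd : HasDes c
  swap
  · -- no descent: `c = c0`
    have hcs : c.Pairwise (· ≤ ·) := by
      refine sorted_of_no_descent c fun i hi => ?_
      by_contra hcon
      exact hd ⟨i, hi, by omega⟩
    have hcc : c = c0 := hp.eq_of_pairwise (fun a b _ _ h1 h2 => le_antisymm h1 h2) hcs hs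
    refine ⟨fun h => absurd ⟨k, hk', h⟩ hd, fun h => ?_⟩
    rw [th_of_not_des S φ hd]
    rw [hcc] at h
    exact hφ k hk h
  obtain ⟨i, hi, hdi, hmin, hth⟩ := th_of_des S φ hd
  -- tools
  have P : ∀ j, (swapAt j c).Perm c0 := fun j => (perm_swapAt j c).trans hp
  have L : ∀ j (w : List ℕ), (swapAt j w).length = w.length := length_swapAt
  have I1 : inv (swapAt i c) + 1 = inv c := inv_swapAt i c hi hdi
  -- induction hypothesis at the word `w` of smaller length
  have D : ∀ w : List ℕ, inv w < inv c → w.Perm c0 → ∀ j, j + 1 < n → w.getD (j + 1) 0 < w.getD j 0 →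
      th S φ w = th S φ (swapAt j w) ∘ₗ S j := fun w h1 h2 j h3 h4 => (IH (inv w) (hm ▸ h1) w rfl h2 j h3).1 h4
  have Q : ∀ w : List ℕ, inv w < inv c → w.Perm c0 → ∀ j, j + 1 < n → w.getD j 0 = w.getD (j + 1) 0 →
      th S φ w ∘ₗ S j = - th S φ w := fun w h1 h2 j h3 h4 => (IH (inv w) (hm ▸ h1) w rfl h2 j h3).2 h4
  constructor
  · intro hdk
    rcases Nat.lt_or_ge k (i + 1) with h | h
    · -- `k = i`
      have hki : k = i := le_antisymm (by omega) (hmin k hk' hdk)
      rw [hki]
      exact hth
    rcases Nat.lt_or_ge (i + 1) k with h' | h'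
    · -- far apart
      have Ik : inv (swapAt k c) + 1 = inv c := inv_swapAt k c hk' hdk
      have e1 := D (swapAt i c) (by omega) (P i) k hk
        (by rw [getD_swap_ne hi (by omega) (by omega), getD_swap_ne hi (by omega) (by omega)]; exact hdk)
      have e2 := D (swapAt k c) (by omega) (P k) i (by omega)
        (by rw [getD_swap_ne hk' (by omega) (by omega), getD_swap_ne hk' (by omega) (by omega)]; exact hdi)
      rw [hth, e1, e2, swapAt_comm hi hk' (Or.inl h'), LinearMap.comp_assoc, LinearMap.comp_assoc]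
      have h2 : S k ∘ₗ S i = S i ∘ₗ S k := (hc i k h' (by omega)).symm
      rw [h2]
    · -- `k = i + 1`
      have hki : k = i + 1 := by omega
      subst hki
      have hik : i + 1 < c.length := hi
      have l2 : i + 2 < n := hk
      -- letters
      have g0 : c.getD (i + 1) 0 < c.getD i 0 := hdi
      have g1 : c.getD (i + 1 + 1) 0 < c.getD (i + 1) 0 := hdk
      -- first chain: i, i+1, i
      have a1 : (swapAt i c).getD (i + 1 + 1) 0 < (swapAt i c).getD (i + 1) 0 := by
        rw [getD_swap_right hi, getD_swap_ne hi (by omega) (by omega)]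
        omega
      have Ia : inv (swapAt (i + 1) (swapAt i c)) + 1 = inv (swapAt i c) :=
        inv_swapAt _ _ (by rw [L]; omega) a1
      have e1 := D (swapAt i c) (by omega) (P i) (i + 1) hk a1
      have a2 : (swapAt (i + 1) (swapAt i c)).getD (i + 1) 0 < (swapAt (i + 1) (swapAt i c)).getD i 0 := by
        rw [getD_swap_left (w := swapAt i c) (by rw [L]; omega),
          getD_swap_ne (w := swapAt i c) (by rw [L]; omega) (by omega) (by omega),
          getD_swap_left hi, getD_swap_ne hi (by omega) (by omega)]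
        exact g1
      have e2 := D (swapAt (i + 1) (swapAt i c)) (by omega) ((perm_swapAt _ _).trans (P i)) i (by omega) a2
      -- second chain: i+1, i, i+1
      have Ib : inv (swapAt (i + 1) c) + 1 = inv c := inv_swapAt _ _ hk' hdk
      have b1 : (swapAt (i + 1) c).getD (i + 1) 0 < (swapAt (i + 1) c).getD i 0 := by
        rw [getD_swap_left hk', getD_swap_ne hk' (by omega) (by omega)]
        omega
      have Ib2 : inv (swapAt i (swapAt (i + 1) c)) + 1 = inv (swapAt (i + 1) c) :=
        inv_swapAt _ _ (by rw [L]; omega) b1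
      have e3 := D (swapAt (i + 1) c) (by omega) (P (i + 1)) i (by omega) b1
      have b2 : (swapAt i (swapAt (i + 1) c)).getD (i + 1 + 1) 0 < (swapAt i (swapAt (i + 1) c)).getD (i + 1) 0 := by
        rw [getD_swap_right (w := swapAt (i + 1) c) (by rw [L]; omega),
          getD_swap_ne (w := swapAt (i + 1) c) (by rw [L]; omega) (by omega) (by omega),
          getD_swap_right hk', getD_swap_ne hk' (by omega) (by omega)]
        exact g0
      have e4 := D (swapAt i (swapAt (i + 1) c)) (by omega) ((perm_swapAt _ _).trans (P (i + 1))) (i + 1) hk b2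
      rw [hth, e1, e2, e3, e4, swapAt_braid (by omega)]
      simp only [LinearMap.comp_assoc]
      congr 1
      exact hb i l2
  · intro hek
    have hne : k ≠ i := by
      rintro rfl
      omega
    rcases Nat.lt_or_ge (i + 1) k with h | h
    · -- far, i + 1 < k
      have e1 := Q (swapAt i c) (by omega) (P i) k hk
        (by rw [getD_swap_ne hi (by omega) (by omega), getD_swap_ne hi (by omega) (by omega)]; exact hek)
      have h2 : S i ∘ₗ S k = S k ∘ₗ S i := hc i k h (by omega)
      rw [hth, LinearMap.comp_assoc, h2, ← LinearMap.comp_assoc, e1, LinearMap.neg_comp]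
    rcases Nat.lt_or_ge (k + 1) i with h' | h'
    · have e1 := Q (swapAt i c) (by omega) (P i) k hk
        (by rw [getD_swap_ne hi (by omega) (by omega), getD_swap_ne hi (by omega) (by omega)]; exact hek)
      have h2 : S i ∘ₗ S k = S k ∘ₗ S i := (hc k i h' (by omega)).symm
      rw [hth, LinearMap.comp_assoc, h2, ← LinearMap.comp_assoc, e1, LinearMap.neg_comp]
    rcases Nat.lt_or_ge k i with h'' | h''
    · -- `i = k + 1` : letters x, x, y
      have hik : i = k + 1 := by omega
      subst hik
      have a1 : (swapAt (k + 1) c).getD (k + 1) 0 < (swapAt (k + 1) c).getD k 0 := by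
        rw [getD_swap_left hi, getD_swap_ne hi (by omega) (by omega)]
        omega
      have Ia : inv (swapAt k (swapAt (k + 1) c)) + 1 = inv (swapAt (k + 1) c) :=
        inv_swapAt _ _ (by rw [L]; omega) a1
      have e1 := D (swapAt (k + 1) c) (by omega) (P (k + 1)) k hk a1
      have a2 : (swapAt k (swapAt (k + 1) c)).getD (k + 1) 0 = (swapAt k (swapAt (k + 1) c)).getD (k + 1 + 1) 0 := by
        rw [getD_swap_right (w := swapAt (k + 1) c) (by rw [L]; omega),
          getD_swap_ne (w := swapAt (k + 1) c) (by rw [L]; omega) (by omega) (by omega),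
          getD_swap_right hi, getD_swap_ne hi (by omega) (by omega)]
        exact hek
      have e2 := Q (swapAt k (swapAt (k + 1) c)) (by omega) ((perm_swapAt _ _).trans (P (k + 1))) (k + 1) (by omega) a2
      have hbr : S k ∘ₗ S (k + 1) ∘ₗ S k = S (k + 1) ∘ₗ S k ∘ₗ S (k + 1) := hb k (by omega)
      rw [hth, e1, LinearMap.comp_assoc, LinearMap.comp_assoc, hbr, ← LinearMap.comp_assoc, e2, LinearMap.neg_comp]
      rfl
    · -- `k = i + 1` : letters x, y, y
      have hki : k = i + 1 := by omega
      subst hki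
      have a1 : (swapAt i c).getD (i + 1 + 1) 0 < (swapAt i c).getD (i + 1) 0 := by
        rw [getD_swap_right hi, getD_swap_ne hi (by omega) (by omega)]
        omega
      have Ia : inv (swapAt (i + 1) (swapAt i c)) + 1 = inv (swapAt i c) :=
        inv_swapAt _ _ (by rw [L]; omega) a1
      have e1 := D (swapAt i c) (by omega) (P i) (i + 1) hk a1
      have a2 : (swapAt (i + 1) (swapAt i c)).getD i 0 = (swapAt (i + 1) (swapAt i c)).getD (i + 1) 0 := by
        rw [getD_swap_left (w := swapAt i c) (by rw [L]; omega),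
          getD_swap_ne (w := swapAt i c) (by rw [L]; omega) (by omega) (by omega),
          getD_swap_left hi, getD_swap_ne hi (by omega) (by omega)]
        exact hek
      have e2 := Q (swapAt (i + 1) (swapAt i c)) (by omega) ((perm_swapAt _ _).trans (P i)) i (by omega) a2
      have hbr : S (i + 1) ∘ₗ S i ∘ₗ S (i + 1) = S i ∘ₗ S (i + 1) ∘ₗ S i := (hb i (by omega)).symm
      rw [hth, e1, LinearMap.comp_assoc, LinearMap.comp_assoc, hbr, ← LinearMap.comp_assoc, e2, LinearMap.neg_comp]
      rfl

end

end AuxD1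

theorem D1_proof : StmtD1 := by
  intro K _ E _ _ n S hb hc c0 hs hn φ hφ
  refine ⟨AuxD1.th S φ, ?_, fun c hp k hk => AuxD1.key hb hc hs hn hφ (inv c) c rfl hp k hk⟩
  refine AuxD1.th_of_not_des S φ ?_
  rintro ⟨k, hk, hlt⟩
  have h1 := List.pairwise_iff_getElem.1 hs k (k + 1) (by omega) hk (by omega)
  rw [List.getD_eq_getElem _ _ hk, List.getD_eq_getElem _ _ (by omega : k < c0.length)] at hlt
  omega

end Pool.Agent.JC3
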