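import Pool.Agent.JC3.Basic
import Pool.Agent.JC3.D1

/-!
D2: the comparison map from the seminormal module to the signed permutation module.
-/

set_option autoImplicit false

namespace Pool.Agent.JC3

namespace AuxD2

/-! ### row positions -/

theorem rowIdx_split : ∀ (κ : List ℕ) (k : ℕ), RowIdx κ k →
    ∃ (κ1 : List ℕ) (b : ℕ) (κ2 : List ℕ) (x : ℕ), κ = κ1 ++ b :: κ2 ∧ x + 1 < b ∧ k = κ1.sum + x
  | [], _, h => h.elim
  | b :: κ, k, h => by
    rcases h with h | ⟨h1, h2⟩
    · exact ⟨[], b, κ, k, rfl, h, by simp⟩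
    · obtain ⟨κ1, b', κ2, x, e, hx, hk⟩ := rowIdx_split κ (k - b) h2
      refine ⟨b :: κ1, b', κ2, x, by rw [e]; rfl, hx, ?_⟩
      rw [List.sum_cons]
      omega

theorem range_split {x b : ℕ} (h : x + 1 < b) : ∃ l, List.range b = List.range x ++ x :: (x + 1) :: l := by
  obtain ⟨r, rfl⟩ : ∃ r, b = x + (r + 1 + 1) := ⟨b - x - 2, by omega⟩
  rw [List.range_add, List.range_succ_eq_map, List.range_succ_eq_map]
  exact ⟨List.map (fun a => x + a) (List.map Nat.succ (List.map Nat.succ (List.range r))), by simp⟩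

theorem rowIdx_word {κ : List ℕ} (hκ : IsPart κ) {k : ℕ} (h : RowIdx κ k) :
    ∃ (pre : List ℕ) (x : ℕ) (post : List ℕ), rowWord κ = pre ++ x :: (x + 1) :: post ∧ pre.length = k ∧
      pre.count x = pre.count (x + 1) := by
  obtain ⟨κ1, b, κ2, x, e, hx, hk⟩ := rowIdx_split κ k h
  obtain ⟨l, hl⟩ := range_split hx
  refine ⟨rowWord κ1 ++ List.range x, x, l ++ rowWord κ2, ?_, ?_, ?_⟩
  · rw [e]
    have e1 : rowWord (κ1 ++ b :: κ2) = rowWord κ1 ++ (List.range b ++ rowWord κ2) := by
      simp [rowWord]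
    rw [e1, hl]
    simp
  · rw [List.length_append, rowWord_length, List.length_range, hk]
  · have h0 : ∀ c ∈ κ1, b ≤ c := by
      intro c hc
      have h1 := hκ.1
      rw [e, List.pairwise_append] at h1
      exact h1.2.2 c hc b (by simp)
    have h1 : ∀ y, y < b → (rowWord κ1).count y = κ1.length := by
      intro y hy
      rw [count_rowWord, List.countP_eq_length]
      intro c hc
      have := h0 c hc
      simp
      omega
    have h2 : ∀ y, x ≤ y → (List.range x).count y = 0 := by
      intro y hy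
      refine List.count_eq_zero_of_not_mem ?_
      rw [List.mem_range]
      omega
    rw [List.count_append, List.count_append, h1 x (by omega), h1 (x + 1) hx, h2 x le_rfl, h2 (x + 1) (by omega)]

theorem rowIdx_lt {κ : List ℕ} (hκ : IsPart κ) {k : ℕ} (h : RowIdx κ k) : k + 1 < κ.sum := by
  obtain ⟨pre, x, post, e, hl, -⟩ := rowIdx_word hκ h
  have h1 := congrArg List.length e
  rw [rowWord_length, List.length_append, hl] at h1
  simp only [List.length_cons] at h1
  omega

section
variable {K : Type} [Field K] {q : K}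

theorem q_sub_ne (hq : Gen q) : q - 1 ≠ 0 := by
  intro h
  have h1 := hq.2 1 one_pos
  rw [pow_one] at h1
  exact h1 (sub_eq_zero.1 h)

theorem one_add_q_ne (hq : Gen q) : 1 + q ≠ 0 := by
  intro h
  have h1 := hq.2 2 two_pos
  have h2 : q = -1 := by linear_combination h
  rw [h2] at h1
  norm_num at h1

theorem alpha_one (hq : Gen q) : alpha q 1 = q := by
  unfold alpha qint
  rw [zpow_one, div_self (q_sub_ne hq), div_one]

theorem beta_neg_one (q : K) : beta q (-1) = 0 := by
  unfold beta qint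
  simp

/-- the canonical vector is row symmetric -/
theorem SL_row {κ : List ℕ} (hκ : IsPart κ) (hq : Gen q) {k : ℕ} (h : RowIdx κ k) :
    SL q k (ind K (rowWord κ)) = q • ind K (rowWord κ) := by
  obtain ⟨pre, x, post, e, hl, hcnt⟩ := rowIdx_word hκ h
  subst hl
  funext w
  rw [Pi.smul_apply, smul_eq_mul]
  have hne : pre ++ (x + 1) :: x :: post ≠ pre ++ x :: (x + 1) :: post := by
    intro h1
    have h2 := List.append_cancel_left h1
    simp at h2
  by_cases h1 : w = rowWord κ
  · rw [h1, ind_self, e, SL_lt q pre x (x + 1) post (by omega), ind_self, ind_ne K hne, hcnt]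
    have h2 : ((x + 1 : ℕ) : ℤ) - (pre.count (x + 1) : ℤ) - ((x : ℤ) - (pre.count (x + 1) : ℤ)) = 1 := by
      push_cast
      ring
    rw [h2, alpha_one hq]
    ring
  · rw [ind_ne K h1, mul_zero]
    by_cases h2 : w = pre ++ (x + 1) :: x :: post
    · rw [h2, e, SL_gt q pre (x + 1) x post (by omega), ind_self, ind_ne K hne, hcnt]
      have h3 : (x : ℤ) - (pre.count (x + 1) : ℤ) - (((x + 1 : ℕ) : ℤ) - (pre.count (x + 1) : ℤ)) = -1 := by
        push_cast
        ring
      rw [h3, beta_neg_one]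
      ring
    · have h3 : swapAt pre.length w ≠ rowWord κ := by
        intro h4
        apply h2
        rw [← swapAt_swapAt w pre.length, h4, e, swapAt_append]
      rw [SL_apply, ind_ne K h1, ind_ne K h3]
      simp

/-! ### the seminormal module as a module -/

variable (hC1 : StmtC1) (hq : Gen q) (κ : List ℕ)

/-- the operators on the seminormal module -/
noncomputable def SE (k : ℕ) : Module.End K (VV K κ) :=
  if h : k + 1 < κ.sum then (SL q k).restrict (fun f hf => hC1 K q κ hq k h f hf) else 0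

theorem SE_coe {k : ℕ} (h : k + 1 < κ.sum) (f : VV K κ) : (SE hC1 hq κ k f : List ℕ → K) = SL q k f := by
  unfold SE
  rw [dif_pos h]
  rfl

open Classical in
/-- projection to the seminormal module -/
noncomputable def Pr (K : Type) [Field K] (κ : List ℕ) : (List ℕ → K) →ₗ[K] VV K κ where
  toFun f := ⟨fun w => if Yam w ∧ w.Perm (rowWord κ) then f w else 0, by
    intro w hw
    by_contra hcon
    exact hw (if_neg hcon)⟩
  map_add' f g := by
    apply Subtype.ext
    funext w
    show (if _ then f w + g w else 0) = (if _ then f w else 0) + (if _ then g w else 0)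
    split_ifs
    · rfl
    · rw [add_zero]
  map_smul' c f := by
    apply Subtype.ext
    funext w
    show (if _ then c * f w else 0) = c * (if _ then f w else 0)
    split_ifs
    · rfl
    · rw [mul_zero]

theorem Pr_of_mem {κ : List ℕ} {f : List ℕ → K} (hf : f ∈ VV K κ) : Pr K κ f = ⟨f, hf⟩ := by
  classical
  apply Subtype.ext
  funext w
  simp only [Pr, LinearMap.coe_mk, AddHom.coe_mk]
  split_ifs with h
  · rfl
  · exact (VV_zero hf h).symm

theorem inv_swapAt_le (r : List ℕ) (k : ℕ) : inv (swapAt k r) ≤ inv r + 1 := by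
  rcases Nat.lt_or_ge (k + 1) r.length with h | h
  · rcases lt_trichotomy (r.getD k 0) (r.getD (k + 1) 0) with h1 | h1 | h1
    · exact (AuxD1.inv_swapAt_lt h h1).le
    · rw [AuxD1.swapAt_eq_self h h1]
      omega
    · have := AuxD1.inv_swapAt k r h h1
      omega
  · rw [swapAt_short r k h]
    omega

/-- triangularity of the functionals -/
theorem th_tri {κ : List ℕ} {c0 : List ℕ} (h0 : c0.Pairwise (· ≤ ·)) (hp0 : c0.Perm (rowWord κ))
    {th : List ℕ → (VV K κ →ₗ[K] K)} (hth0 : ∀ f : VV K κ, th c0 f = f.1 c0)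
    (hth : ∀ c : List ℕ, c.Perm c0 → ∀ k, k + 1 < κ.sum → c.getD (k + 1) 0 < c.getD k 0 →
      th c = th (swapAt k c) ∘ₗ SE hC1 hq κ k) (m : ℕ) :
    ∀ c : List ℕ, inv c = m → c.Perm c0 → ∀ f : VV K κ, (∀ r, inv r < inv c → f.1 r = 0) → th c f = f.1 c := by
  induction m with
  | zero =>
    intro c hm hp f _
    have hcs : c.Pairwise (· ≤ ·) := by
      refine AuxD1.sorted_of_no_descent c fun i hi => ?_
      by_contra hcon
      have := AuxD1.inv_swapAt i c hi (by omega)
      omega
    have hcc : c = c0 := hp.eq_of_pairwise (fun a b _ _ h1 h2 => le_antisymm h1 h2) hcs h0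
    rw [hcc]
    exact hth0 f
  | succ m IH =>
    intro c hm hp f hf
    by_cases hd : AuxD1.HasDes c
    · obtain ⟨k, hk, hlt⟩ := hd
      have hlen : c.length = κ.sum := length_of_perm (hp.trans hp0)
      have hk' : k + 1 < κ.sum := by omega
      have hI := AuxD1.inv_swapAt k c hk hlt
      rw [hth c hp k hk' hlt, LinearMap.comp_apply]
      rw [IH (swapAt k c) (by omega) ((swapAt_perm c k).trans hp) (SE hC1 hq κ k f) ?_]
      · rw [SE_coe hC1 hq κ hk', SL_apply, getD_swapAt0 c k hk, getD_swapAt1 c k hk, if_neg (by omega),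
          if_pos hlt, swapAt_swapAt, hf (swapAt k c) (by omega)]
        ring
      · intro r hr
        rw [SE_coe hC1 hq κ hk', SL_apply, hf r (by omega), hf (swapAt k r) (by have := inv_swapAt_le r k; omega)]
        simp
    · have hcs : c.Pairwise (· ≤ ·) := by
        refine AuxD1.sorted_of_no_descent c fun i hi => ?_
        by_contra hcon
        exact hd ⟨i, hi, by omega⟩
      have hcc : c = c0 := hp.eq_of_pairwise (fun a b _ _ h1 h2 => le_antisymm h1 h2) hcs h0
      rw [hcc]
      exact hth0 f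

open Classical in
/-- the comparison map -/
noncomputable def Psi (q : K) (κ : List ℕ) (th : List ℕ → (VV K κ →ₗ[K] K)) : (List ℕ → K) →ₗ[K] (List ℕ → K) where
  toFun f := fun c => if c.Perm (rowWord κ) then q ^ ((inv (rowWord κ) : ℤ) - (inv c : ℤ)) * th c (Pr K κ f) else 0
  map_add' f g := by
    funext c
    rw [Pi.add_apply, map_add, map_add]
    split_ifs
    · ring
    · rw [add_zero]
  map_smul' a f := by
    funext c
    rw [Pi.smul_apply, map_smul, map_smul, RingHom.id_apply, smul_eq_mul, smul_eq_mul]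
    split_ifs
    · ring
    · rw [mul_zero]

theorem Psi_pos {κ : List ℕ} {th : List ℕ → (VV K κ →ₗ[K] K)} {f : List ℕ → K} (hf : f ∈ VV K κ) {c : List ℕ}
    (h : c.Perm (rowWord κ)) :
    Psi q κ th f c = q ^ ((inv (rowWord κ) : ℤ) - (inv c : ℤ)) * th c ⟨f, hf⟩ := by
  classical
  simp only [Psi, LinearMap.coe_mk, AddHom.coe_mk]
  rw [if_pos h, Pr_of_mem hf]

theorem Psi_neg {κ : List ℕ} {th : List ℕ → (VV K κ →ₗ[K] K)} {f : List ℕ → K} {c : List ℕ}
    (h : ¬ c.Perm (rowWord κ)) : Psi q κ th f c = 0 := by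
  classical
  simp only [Psi, LinearMap.coe_mk, AddHom.coe_mk]
  rw [if_neg h]

end

end AuxD2

open AuxD2 in
theorem D2_proof (hC1 : StmtC1) (hC2 : StmtC2) (hC3 : StmtC3) (hC4 : StmtC4) (hA2 : StmtA2) : StmtD2 := by
  intro K _ q κ hκ hq
  obtain ⟨c0, h0, hp0⟩ : ∃ c0 : List ℕ, c0.Pairwise (· ≤ ·) ∧ c0.Perm (rowWord κ) :=
    ⟨(rowWord κ).insertionSort (· ≤ ·), List.pairwise_insertionSort _ _, List.perm_insertionSort _ _⟩
  have hlen0 : c0.length = κ.sum := length_of_perm hp0
  obtain ⟨th, hth0, hth⟩ := D1_proof K (VV K κ) κ.sum (SE hC1 hq κ)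
    (by
      intro k hk
      apply LinearMap.ext
      intro f
      apply Subtype.ext
      simp only [Module.End.mul_apply]
      rw [SE_coe hC1 hq κ (by omega), SE_coe hC1 hq κ (by omega), SE_coe hC1 hq κ (by omega),
        SE_coe hC1 hq κ (by omega), SE_coe hC1 hq κ (by omega), SE_coe hC1 hq κ (by omega)]
      exact hC3 K q κ hq k hk f.1 f.2)
    (by
      intro k l hkl hl
      apply LinearMap.ext
      intro f
      apply Subtype.ext
      simp only [Module.End.mul_apply]
      rw [SE_coe hC1 hq κ (by omega), SE_coe hC1 hq κ (by omega), SE_coe hC1 hq κ (by omega),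
        SE_coe hC1 hq κ (by omega)]
      exact hC4 K q κ hq k l hkl hl f.1 f.2)
    c0 h0 hlen0 ((LinearMap.proj c0).comp (VV K κ).subtype)
    (by
      intro k hk hek
      apply LinearMap.ext
      intro f
      show (SE hC1 hq κ k f).1 c0 = - f.1 c0
      rw [SE_coe hC1 hq κ hk, SL_apply, if_pos hek])
  have hth0' : ∀ f : VV K κ, th c0 f = f.1 c0 := by
    intro f
    rw [hth0]
    rfl
  have htri := th_tri hC1 hq h0 hp0 hth0' (fun c hc k hk h => (hth c hc k hk).1 h)
  have hmem : ∀ f ∈ VV K κ, Psi q κ th f ∈ MM K κ := by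
    intro f _ w hw
    by_contra hcon
    exact hw (Psi_neg hcon)
  have hcomm : ∀ f ∈ VV K κ, ∀ k, k + 1 < κ.sum → Psi q κ th (SL q k f) = TL q k (Psi q κ th f) := by
    intro f hf k hk
    have hSf := hC1 K q κ hq k hk f hf
    have hSE : (⟨SL q k f, hSf⟩ : VV K κ) = SE hC1 hq κ k ⟨f, hf⟩ :=
      Subtype.ext (SE_coe hC1 hq κ hk ⟨f, hf⟩).symm
    funext c
    by_cases hc : c.Perm (rowWord κ)
    swap
    · have hc' : ¬ (swapAt k c).Perm (rowWord κ) := fun h => hc ((swapAt_perm c k).symm.trans h)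
      rw [Psi_neg hc, TL_apply, Psi_neg hc, Psi_neg hc']
      simp
    have hc' : (swapAt k c).Perm (rowWord κ) := (swapAt_perm c k).trans hc
    have hlen : c.length = κ.sum := length_of_perm hc
    have hkc : k + 1 < c.length := by omega
    have q0 : q ≠ 0 := hq.1
    rw [TL_apply, Psi_pos hSf hc, Psi_pos hf hc, Psi_pos hf hc', hSE]
    rcases lt_trichotomy (c.getD k 0) (c.getD (k + 1) 0) with h1 | h1 | h1
    · rw [if_neg (by omega), if_pos h1]
      have hi := AuxD1.inv_swapAt_lt hkc h1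
      have h2 := (hth (swapAt k c) (hc'.trans hp0.symm) k hk).1
        (by rw [getD_swapAt0 c k hkc, getD_swapAt1 c k hkc]; exact h1)
      rw [swapAt_swapAt] at h2
      rw [h2, LinearMap.comp_apply, hi, ← mul_assoc, ← zpow_one_add₀ q0]
      congr 2
      push_cast
      ring
    · rw [if_pos h1]
      have h2 := (hth c (hc.trans hp0.symm) k hk).2 h1
      have h3 := LinearMap.congr_fun h2 ⟨f, hf⟩
      rw [LinearMap.comp_apply, LinearMap.neg_apply] at h3
      rw [h3]
      ring
    · rw [if_neg (by omega), if_neg (by omega)]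
      have hi := AuxD1.inv_swapAt k c hkc h1
      have h2 := (hth c (hc.trans hp0.symm) k hk).1 h1
      have h4 : SE hC1 hq κ k (SE hC1 hq κ k ⟨f, hf⟩) = (q - 1) • SE hC1 hq κ k ⟨f, hf⟩ + q • (⟨f, hf⟩ : VV K κ) := by
        apply Subtype.ext
        rw [SE_coe hC1 hq κ hk, SE_coe hC1 hq κ hk]
        show _ = (q - 1) • (SE hC1 hq κ k ⟨f, hf⟩ : List ℕ → K) + q • f
        rw [SE_coe hC1 hq κ hk]
        exact hC2 K q κ hq k hk f hf
      have h5 : th c (SE hC1 hq κ k ⟨f, hf⟩) = (q - 1) * th c ⟨f, hf⟩ + q * th (swapAt k c) ⟨f, hf⟩ := by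
        have h6 : ∀ g : VV K κ, th c g = th (swapAt k c) (SE hC1 hq κ k g) := fun g => LinearMap.congr_fun h2 g
        rw [h6 (SE hC1 hq κ k ⟨f, hf⟩), h4, map_add, map_smul, map_smul, ← h6, smul_eq_mul, smul_eq_mul]
      have h7 : (inv (rowWord κ) : ℤ) - (inv (swapAt k c) : ℤ) = ((inv (rowWord κ) : ℤ) - (inv c : ℤ)) + 1 := by
        rw [← hi]
        push_cast
        ring
      rw [h5, h7, zpow_add_one₀ q0]
      ring
  have hT : ∀ f ∈ VV K κ, ∀ t, Yam t → t.Perm (rowWord κ) →
      (∀ r, Yam r → r.Perm (rowWord κ) → inv r < inv t → f r = 0) →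
      Psi q κ th f t = q ^ ((inv (rowWord κ) : ℤ) - (inv t : ℤ)) * f t := by
    intro f hf t _ htp h
    rw [Psi_pos hf htp, htri (inv t) t rfl (htp.trans hp0.symm) ⟨f, hf⟩ ?_]
    intro r hr
    by_contra hcon
    have h1 := hf r hcon
    exact hcon (h r h1.1 h1.2 hr)
  refine ⟨Psi q κ th, hmem, hcomm, ?_, hT⟩
  have he : ind K (rowWord κ) ∈ VV K κ := ind_mem_VV (yam_rowWord hκ) (List.Perm.refl _)
  have h1 := hA2 K q κ hq.1 (one_add_q_ne hq) (Psi q κ th (ind K (rowWord κ))) (hmem _ he) (by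
    intro k hk
    rw [← hcomm _ he k (rowIdx_lt hκ hk), SL_row hκ hq hk, map_smul])
  have h2 := hT _ he (rowWord κ) (yam_rowWord hκ) (List.Perm.refl _) (by
    intro r _ _ hr
    refine ind_ne K ?_
    rintro rfl
    exact lt_irrefl _ hr)
  rw [ind_self, sub_self, zpow_zero, one_mul] at h2
  rw [h2, one_smul] at h1
  exact h1

end Pool.Agent.JC3
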