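import Pool.Agent.JC3.A45

/-!
D3: orthogonality of the images of the indicator functions and the recursion of the norms.
-/

set_option autoImplicit false

namespace Pool.Agent.JC3.AuxD3

open AuxB1 AuxC5

/-- the Murphy operators are self adjoint -/
theorem BB_YL {A : Type} [CommRing A] (q : A) (κ : List ℕ) {p : ℕ} (hp : p < κ.sum)
    (f g : List ℕ → A) : BB q κ (YL q p f) g = BB q κ f (YL q p g) := by
  induction p generalizing f g with
  | zero => rfl
  | succ p ih =>
    have h1 : ∀ h : List ℕ → A, YL q (p + 1) h = TL q p (YL q p (TL q p h)) := fun h => rfl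
    rw [h1, h1, B1_proof A q κ p hp, ih (by omega), B1_proof A q κ p hp]

section
variable {K : Type} [Field K]

theorem ind_mem_VV {κ t : List ℕ} (ht : Yam t) (hp : t.Perm (rowWord κ)) :
    ind K t ∈ VV K κ := by
  intro w hw
  have : w = t := by
    by_contra h
    exact hw (if_neg h)
  subst this
  exact ⟨ht, hp⟩

theorem YS_mem_VV (hC1 : StmtC1) {q : K} {κ : List ℕ} (hq : Gen q) {p : ℕ} (hp : p < κ.sum)
    {f : List ℕ → K} (hf : f ∈ VV K κ) : YS q p f ∈ VV K κ := by
  induction p generalizing f with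
  | zero => exact hf
  | succ p ih =>
    have h1 : YS q (p + 1) f = SL q p (YS q p (SL q p f)) := rfl
    rw [h1]
    exact hC1 K q κ hq p hp _ (ih (by omega) (hC1 K q κ hq p hp _ hf))

/-- the comparison map intertwines the Murphy operators -/
theorem Psi_YS (hC1 : StmtC1) {q : K} {κ : List ℕ} (hq : Gen q)
    {Ψ : (List ℕ → K) →ₗ[K] (List ℕ → K)} (hΨ : PsiSpec q κ Ψ) {p : ℕ} (hp : p < κ.sum)
    {f : List ℕ → K} (hf : f ∈ VV K κ) : Ψ (YS q p f) = YL q p (Ψ f) := by
  induction p generalizing f with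
  | zero => rfl
  | succ p ih =>
    have h1 : YS q (p + 1) f = SL q p (YS q p (SL q p f)) := rfl
    have h2 : YL q (p + 1) (Ψ f) = TL q p (YL q p (TL q p (Ψ f))) := rfl
    have hS : SL q p f ∈ VV K κ := hC1 K q κ hq p hp _ hf
    rw [h1, h2, hΨ.comm _ (YS_mem_VV hC1 hq (by omega) hS) p hp, ih (by omega) hS,
      hΨ.comm _ hf p hp]

/-- Murphy operators on the images of indicator functions -/
theorem YL_Psi_ind (hC1 : StmtC1) {q : K} {κ : List ℕ} (hq : Gen q)
    {Ψ : (List ℕ → K) →ₗ[K] (List ℕ → K)} (hΨ : PsiSpec q κ Ψ) {t : List ℕ} (ht : Yam t)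
    (htp : t.Perm (rowWord κ)) {p : ℕ} (hp : p < κ.sum) :
    YL q p (Ψ (ind K t)) = q ^ ((p : ℤ) + cont t p) • Ψ (ind K t) := by
  rw [← Psi_YS hC1 hq hΨ hp (ind_mem_VV ht htp), C5_proof K q κ hq t ht htp p hp, map_smul]

theorem zpow_inj {q : K} (hq : Gen q) {a b : ℤ} (h : q ^ a = q ^ b) : a = b := by
  by_contra hab
  have h1 : q ^ (a - b) = 1 := by
    rw [zpow_sub₀ hq.1, h, div_self (zpow_ne_zero _ hq.1)]
  exact zpow_ne_one hq (sub_ne_zero.2 hab) h1

theorem ortho (hC1 : StmtC1) {q : K} {κ : List ℕ} (hq : Gen q)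
    {Ψ : (List ℕ → K) →ₗ[K] (List ℕ → K)} (hΨ : PsiSpec q κ Ψ) {t r : List ℕ} (ht : Yam t)
    (hr : Yam r) (htp : t.Perm (rowWord κ)) (hrp : r.Perm (rowWord κ)) (hne : t ≠ r) :
    BB q κ (Ψ (ind K t)) (Ψ (ind K r)) = 0 := by
  have hlt : t.length = κ.sum := by rw [htp.length_eq, length_rowWord]
  have hlr : r.length = κ.sum := by rw [hrp.length_eq, length_rowWord]
  by_contra h0
  apply hne
  apply A5_proof t r ht hr (hlt.trans hlr.symm)
  intro p hp
  rw [hlt] at hp
  have h1 := BB_YL q κ hp (Ψ (ind K t)) (Ψ (ind K r))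
  rw [YL_Psi_ind hC1 hq hΨ ht htp hp, YL_Psi_ind hC1 hq hΨ hr hrp hp, map_smul, map_smul,
    LinearMap.smul_apply, smul_eq_mul, smul_eq_mul] at h1
  have h2 := mul_right_cancel₀ h0 h1
  have h3 := zpow_inj hq h2
  omega

end

end Pool.Agent.JC3.AuxD3

namespace Pool.Agent.JC3

open AuxB1 AuxC5 AuxD3

theorem D3_proof (hC1 : StmtC1) : StmtD3 := by
  intro K _ q κ hκ hq Ψ hΨ
  refine ⟨fun t r ht hr htp hrp hne => ortho hC1 hq hΨ ht hr htp hrp hne, ?_⟩
  intro t k ht hst htp hk hlt
  have hlen : k + 1 < t.length := by rw [htp.length_eq, length_rowWord]; exact hk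
  obtain ⟨pre, x, y, post, rfl, rfl⟩ := split hlen
  rw [getD_lo, getD_hi] at hlt
  rw [swapAt_mid] at hst ⊢
  rw [cont_hi, cont_lo, if_neg (ne_of_gt hlt), add_zero]
  have hstp : (pre ++ y :: x :: post).Perm (rowWord κ) :=
    (List.Perm.append_left pre (List.Perm.swap x y post)).trans htp
  have hne : pre ++ y :: x :: post ≠ pre ++ x :: y :: post := by
    intro h
    have h1 := List.append_cancel_left h
    simp only [List.cons.injEq] at h1
    exact (ne_of_lt hlt) h1.1
  have hSx := SL_ind_ne q pre (ne_of_gt hlt) post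
  have hSy := SL_ind_ne q pre (ne_of_lt hlt) post
  rw [if_pos hlt, one_smul] at hSx
  rw [if_neg (not_lt.2 (le_of_lt hlt))] at hSy
  set d : ℤ := ((y : ℤ) - (pre.count y : ℤ)) - ((x : ℤ) - (pre.count x : ℤ)) with hd
  have h5 : (((x : ℤ) - (pre.count x : ℤ)) - ((y : ℤ) - (pre.count y : ℤ))) = -d := by
    rw [hd]; ring
  rw [h5, neg_neg] at hSy
  have hVx : ind K (pre ++ x :: y :: post) ∈ VV K κ := ind_mem_VV ht htp
  have hVy : ind K (pre ++ y :: x :: post) ∈ VV K κ := ind_mem_VV hst hstp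
  have hTx := hΨ.comm _ hVx pre.length hk
  have hTy := hΨ.comm _ hVy pre.length hk
  rw [hSx, map_add, map_smul] at hTx
  rw [hSy, map_add, map_smul, map_smul] at hTy
  set F := Ψ (ind K (pre ++ x :: y :: post)) with hF
  set G := Ψ (ind K (pre ++ y :: x :: post)) with hG
  have hort : BB q κ G F = 0 := ortho hC1 hq hΨ hst ht hstp htp hne
  have hG2 : G = TL q pre.length F - alpha q d • F := by
    rw [← hTx]; abel
  calc BB q κ G G = BB q κ G (TL q pre.length F - alpha q d • F) := by rw [← hG2]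
    _ = BB q κ (TL q pre.length G) F := by
      rw [map_sub, map_smul, hort, smul_zero, sub_zero, ← B1_proof K q κ pre.length hk]
    _ = beta q d * BB q κ F F := by
      rw [← hTy, map_add, LinearMap.add_apply, map_smul, map_smul, LinearMap.smul_apply,
        LinearMap.smul_apply, hort, smul_zero, zero_add, smul_eq_mul]

end Pool.Agent.JC3
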