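import Pool.Agent.JC3.Public

/-!
List level definitions for the proof (words are lists of naturals).
-/

set_option autoImplicit false

namespace Pool.Agent.JC3

/-! ### words -/

/-- exchange the entries in positions k and k+1 -/
def swapAt : ℕ → List ℕ → List ℕ
  | 0, x :: y :: l => y :: x :: l
  | k + 1, x :: l => x :: swapAt k l
  | _, l => l

/-- number of inversions -/
def inv : List ℕ → ℕ
  | [] => 0
  | x :: l => l.countP (fun y => decide (y < x)) + inv l

/-- row reading word of the canonical tableau: 0..κ_1-1, 0..κ_2-1, ... -/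
def rowWord (κ : List ℕ) : List ℕ := κ.flatMap List.range

/-- Yamanouchi words (= standard tableaux written as column words) -/
def Yam (w : List ℕ) : Prop :=
  ∀ (pre : List ℕ) (x : ℕ) (post : List ℕ), w = pre ++ (x + 1) :: post →
    pre.count (x + 1) < pre.count x

/-- content of the entry in position p: letter minus number of earlier equal letters -/
def cont (w : List ℕ) (p : ℕ) : ℤ := (w.getD p 0 : ℤ) - ((w.take p).count (w.getD p 0) : ℤ)

/-- the entry in position p has residue r mod 3 -/
def resAt (w : List ℕ) (p : ℕ) : ℕ := (cont w p % 3).toNat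

/-- residue sequence -/
def resid (w : List ℕ) : List ℕ := (List.range w.length).map (resAt w)

/-- partitions: weakly decreasing with positive parts -/
def IsPart (κ : List ℕ) : Prop := κ.Pairwise (· ≥ ·) ∧ ∀ b ∈ κ, 0 < b

/-- the set of all words with the letters of rowWord κ -/
def permSet (κ : List ℕ) : Finset (List ℕ) := (rowWord κ).permutations.toFinset

lemma mem_permSet {κ w : List ℕ} : w ∈ permSet κ ↔ w.Perm (rowWord κ) := by
  simp [permSet, List.mem_permutations]

/-! ### functions on words -/

section ring
variable {A : Type} [CommRing A]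

/-- indicator function of the word t -/
noncomputable def ind (A : Type) [CommRing A] (t : List ℕ) : List ℕ → A :=
  fun w => if w = t then 1 else 0

open Classical in
/-- indicator function of the block words: the generator of the Specht module -/
noncomputable def zf (A : Type) [CommRing A] (κ : List ℕ) : List ℕ → A :=
  fun w => if IsBlockWord κ w then 1 else 0

/-- The operator T_k on functions on words -/
noncomputable def TL (q : A) (k : ℕ) : (List ℕ → A) →ₗ[A] (List ℕ → A) where
  toFun f := fun w =>
    if w.getD k 0 = w.getD (k + 1) 0 then - f w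
    else if w.getD k 0 < w.getD (k + 1) 0 then q * f (swapAt k w)
    else f (swapAt k w) + (q - 1) * f w
  map_add' := by intro f g; funext w; simp only [Pi.add_apply]; split_ifs <;> ring
  map_smul' := by
    intro c f; funext w; simp only [Pi.smul_apply, smul_eq_mul, RingHom.id_apply]
    split_ifs <;> ring

/-- T_{k_1} T_{k_2} ... T_{k_r} f for ks = [k_1,...,k_r] -/
noncomputable def applyT (q : A) (ks : List ℕ) (f : List ℕ → A) : List ℕ → A :=
  ks.foldr (fun k g => TL q k g) f

/-- functions supported on the words with the letters of rowWord κ -/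
def MM (A : Type) [CommRing A] (κ : List ℕ) : Submodule A (List ℕ → A) where
  carrier := {f | ∀ w, f w ≠ 0 → w.Perm (rowWord κ)}
  add_mem' := by
    intro f g hf hg w hw
    by_cases h : f w = 0
    · apply hg w; intro h2; apply hw; simp [h, h2]
    · exact hf w h
  zero_mem' := by intro w hw; simp at hw
  smul_mem' := by
    intro c f hf w hw; apply hf w; intro h; apply hw; simp [h]

/-- the Specht module: span of all T_{k_1} ... T_{k_r} z -/
noncomputable def SpL (q : A) (κ : List ℕ) : Submodule A (List ℕ → A) :=
  Submodule.span A {f | ∃ ks : List ℕ, (∀ k ∈ ks, k + 1 < κ.sum) ∧ f = applyT q ks (zf A κ)}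

/-- stable under T_0, ..., T_{n-2} -/
def Stable (q : A) (n : ℕ) (U : Submodule A (List ℕ → A)) : Prop :=
  ∀ k, k + 1 < n → ∀ f ∈ U, TL q k f ∈ U

/-- the bilinear form -/
noncomputable def BB (q : A) (κ : List ℕ) : (List ℕ → A) →ₗ[A] (List ℕ → A) →ₗ[A] A :=
  LinearMap.mk₂ A (fun f g => ∑ w ∈ permSet κ, q ^ inv w * f w * g w)
    (by intro f f' g; simp only [Pi.add_apply]; rw [← Finset.sum_add_distrib]
        exact Finset.sum_congr rfl (fun _ _ => by ring))
    (by intro c f g; simp only [Pi.smul_apply, smul_eq_mul]; rw [Finset.mul_sum]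
        exact Finset.sum_congr rfl (fun _ _ => by ring))
    (by intro f g g'; simp only [Pi.add_apply]; rw [← Finset.sum_add_distrib]
        exact Finset.sum_congr rfl (fun _ _ => by ring))
    (by intro c f g; simp only [Pi.smul_apply, smul_eq_mul]; rw [Finset.mul_sum]
        exact Finset.sum_congr rfl (fun _ _ => by ring))

lemma BB_apply (q : A) (κ : List ℕ) (f g : List ℕ → A) :
    BB q κ f g = ∑ w ∈ permSet κ, q ^ inv w * f w * g w := rfl

/-- radical of the form on the Specht module -/
noncomputable def radL (q : A) (κ : List ℕ) : Submodule A (List ℕ → A) where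
  carrier := {f | f ∈ SpL q κ ∧ ∀ g ∈ SpL q κ, BB q κ f g = 0}
  add_mem' := by
    rintro f g ⟨hf, hf'⟩ ⟨hg, hg'⟩
    exact ⟨add_mem hf hg, fun h hh => by rw [map_add, LinearMap.add_apply, hf' h hh, hg' h hh, add_zero]⟩
  zero_mem' := ⟨zero_mem _, fun h _ => by simp⟩
  smul_mem' := by
    rintro c f ⟨hf, hf'⟩
    exact ⟨Submodule.smul_mem _ c hf, fun h hh => by
      rw [map_smul, LinearMap.smul_apply, hf' h hh, smul_zero]⟩

/-- the Murphy operators Y_0 = 1, Y_{p+1} = T_p Y_p T_p -/
noncomputable def YL (q : A) : ℕ → Module.End A (List ℕ → A)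
  | 0 => 1
  | p + 1 => TL q p * YL q p * TL q p

/-- the list of pairs (p,j) for which Y_p - q^j is a factor of the weight operator of the residue
sequence r: all j ≤ 2p with j - p not congruent to r_p mod 3 -/
def facs (r : List ℕ) : List (ℕ × ℕ) :=
  (List.range r.length).flatMap (fun p =>
    ((List.range (2 * p + 1)).filter (fun j => (j + 2 * p) % 3 ≠ r.getD p 0)).map (fun j => (p, j)))

/-- the weight operator: product of all Y_p - q^j, (p,j) in facs r -/
noncomputable def NL (q : A) (r : List ℕ) : Module.End A (List ℕ → A) :=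
  ((facs r).map (fun pj => YL q pj.1 - algebraMap A _ (q ^ pj.2))).prod

end ring

/-! ### seminormal form -/

section field
variable {K : Type} [Field K]

/-- quantum integer of m (any sign) -/
noncomputable def qint (q : K) (m : ℤ) : K := (q ^ m - 1) / (q - 1)

noncomputable def alpha (q : K) (d : ℤ) : K := q ^ d / qint q d

noncomputable def beta (q : K) (d : ℤ) : K :=
  q * qint q (d + 1) * qint q (d - 1) / (qint q d) ^ 2

/-- seminormal operator -/
noncomputable def SL (q : K) (k : ℕ) : (List ℕ → K) →ₗ[K] (List ℕ → K) where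
  toFun f := fun w =>
    if w.getD k 0 = w.getD (k + 1) 0 then - f w
    else alpha q (cont w (k + 1) - cont w k) * f w +
      (if w.getD k 0 < w.getD (k + 1) 0 then 1 else beta q (cont w (k + 1) - cont w k)) *
        f (swapAt k w)
  map_add' := by intro f g; funext w; simp only [Pi.add_apply]; split_ifs <;> ring
  map_smul' := by
    intro c f; funext w; simp only [Pi.smul_apply, smul_eq_mul, RingHom.id_apply]
    split_ifs <;> ring

/-- S_{k_1} S_{k_2} ... S_{k_r} f -/
noncomputable def applyS (q : K) (ks : List ℕ) (f : List ℕ → K) : List ℕ → K :=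
  ks.foldr (fun k g => SL q k g) f

/-- functions supported on Yamanouchi words with the letters of rowWord κ -/
def VV (K : Type) [Field K] (κ : List ℕ) : Submodule K (List ℕ → K) where
  carrier := {f | ∀ w, f w ≠ 0 → Yam w ∧ w.Perm (rowWord κ)}
  add_mem' := by
    intro f g hf hg w hw
    by_cases h : f w = 0
    · apply hg w; intro h2; apply hw; simp [h, h2]
    · exact hf w h
  zero_mem' := by intro w hw; simp at hw
  smul_mem' := by
    intro c f hf w hw; apply hf w; intro h; apply hw; simp [h]

/-- seminormal Murphy operators -/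
noncomputable def YS (q : K) : ℕ → Module.End K (List ℕ → K)
  | 0 => 1
  | p + 1 => SL q p * YS q p * SL q p

/-- properties of the comparison map from the seminormal module to the tensor space -/
structure PsiSpec (q : K) (κ : List ℕ) (Ψ : (List ℕ → K) →ₗ[K] (List ℕ → K)) : Prop where
  memMM : ∀ f ∈ VV K κ, Ψ f ∈ MM K κ
  comm : ∀ f ∈ VV K κ, ∀ k, k + 1 < κ.sum → Ψ (SL q k f) = TL q k (Ψ f)
  base : Ψ (ind K (rowWord κ)) = zf K κ
  tri : ∀ f ∈ VV K κ, ∀ t, Yam t → t.Perm (rowWord κ) →
    (∀ r, Yam r → r.Perm (rowWord κ) → inv r < inv t → f r = 0) →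
    Ψ f t = q ^ ((inv (rowWord κ) : ℤ) - (inv t : ℤ)) * f t

end field

end Pool.Agent.JC3
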