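import Pool.Agent.JC3.Stmts

/-!
E1 and E2: triangular elements of the lattice and its characterisation.
-/

set_option autoImplicit false
set_option linter.unusedSectionVars false
set_option linter.unusedVariables false

namespace Pool.Agent.JC3
namespace AuxE12

/-! ### words -/

lemma swapAt_perm (k : ℕ) (w : List ℕ) : (swapAt k w).Perm w := by
  induction k generalizing w with
  | zero =>
    match w with
    | [] => exact List.Perm.refl _
    | [x] => exact List.Perm.refl _
    | x :: y :: l => exact List.Perm.swap x y l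
  | succ k ih =>
    match w with
    | [] => exact List.Perm.refl _
    | x :: l => exact (ih l).cons x

lemma swapAt_swapAt (k : ℕ) (w : List ℕ) : swapAt k (swapAt k w) = w := by
  induction k generalizing w with
  | zero =>
    match w with
    | [] => rfl
    | [x] => rfl
    | x :: y :: l => rfl
  | succ k ih =>
    match w with
    | [] => rfl
    | x :: l =>
      show x :: swapAt k (swapAt k l) = x :: l
      rw [ih l]

lemma swapAt_length (k : ℕ) (w : List ℕ) : (swapAt k w).length = w.length :=
  (swapAt_perm k w).length_eq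

lemma inv_swapAt_le (k : ℕ) (w : List ℕ) : inv w ≤ inv (swapAt k w) + 1 := by
  induction k generalizing w with
  | zero =>
    match w with
    | [] => simp [swapAt]
    | [x] => simp [swapAt]
    | x :: y :: l =>
      simp only [swapAt, inv, List.countP_cons]
      split_ifs <;> omega
  | succ k ih =>
    match w with
    | [] => simp [swapAt]
    | x :: l =>
      simp only [swapAt, inv]
      rw [(swapAt_perm k l).countP_eq]
      have := ih l
      omega

lemma inv_swapAt_lt (k : ℕ) (w : List ℕ) (hk : k + 1 < w.length)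
    (h : w.getD k 0 < w.getD (k + 1) 0) : inv (swapAt k w) = inv w + 1 := by
  induction k generalizing w with
  | zero =>
    match w with
    | [] => simp at hk
    | [x] => simp at hk
    | x :: y :: l =>
      simp only [List.getD_cons_zero, List.getD_cons_succ, zero_add] at h
      simp only [swapAt, inv, List.countP_cons]
      have h2 : ¬ y < x := by omega
      simp only [h, h2, decide_true, decide_false, if_true]
      simp
      omega
  | succ k ih =>
    match w with
    | [] => simp at hk
    | x :: l =>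
      simp only [List.getD_cons_succ] at h
      simp only [List.length_cons] at hk
      simp only [swapAt, inv]
      rw [(swapAt_perm k l).countP_eq, ih l (by omega) h]
      omega

lemma inv_le_sq (w : List ℕ) : inv w ≤ w.length ^ 2 := by
  induction w with
  | nil => simp [inv]
  | cons x l ih =>
    simp only [inv, List.length_cons]
    have h := List.countP_le_length (p := fun y => decide (y < x)) (l := l)
    nlinarith

lemma yam_count_le (w : List ℕ) (hw : Yam w) (x : ℕ) : w.count (x + 1) ≤ w.count x := by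
  induction w using List.reverseRecOn with
  | nil => simp
  | append_singleton l a ih =>
    have hl : Yam l := by
      intro pre y post h
      exact hw pre y (post ++ [a]) (by rw [h]; simp)
    have := ih hl
    by_cases ha : a = x + 1
    · subst ha
      have h2 := hw l x [] rfl
      rw [List.count_append, List.count_append]
      simp
      omega
    · rw [List.count_append, List.count_append]
      have h3 : List.count (x + 1) [a] = 0 := by
        simp [ha]
      omega

lemma yam_append {u v : List ℕ} (hu : Yam u) (hv : Yam v) : Yam (u ++ v) := by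
  intro pre x post h
  rcases List.append_eq_append_iff.1 h with ⟨a, h1, h2⟩ | ⟨a, h1, h2⟩
  · -- pre = u ++ a, v = a ++ (x+1) :: post
    rw [h1, List.count_append, List.count_append]
    have := hv a x post h2
    have := yam_count_le u hu x
    omega
  · -- u = pre ++ a, (x+1)::post = a ++ v
    cases a with
    | nil =>
      simp only [List.append_nil] at h1
      simp only [List.nil_append] at h2
      subst h1
      have h4 := hv [] x post (by simpa using h2.symm)
      have := yam_count_le u hu x
      simp at h4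
    | cons b a =>
      simp only [List.cons_append, List.cons.injEq] at h2
      obtain ⟨rfl, h2⟩ := h2
      exact hu pre x a h1

lemma yam_range (b : ℕ) : Yam (List.range b) := by
  intro pre x post h
  have hlen : pre.length < b := by
    have := congrArg List.length h
    simp at this
    omega
  have hpre : pre = List.range pre.length := by
    have h2 := congrArg (List.take pre.length) h
    rw [List.take_left, List.take_range] at h2
    rw [← h2, Nat.min_eq_left hlen.le]
    simp
  have hx : pre.length = x + 1 := by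
    have h2 : (List.range b)[pre.length]? = some (x + 1) := by
      rw [h]; simp
    rw [List.getElem?_range hlen] at h2
    simpa using h2
  rw [hpre, hx]
  have h5 : (List.range (x + 1)).count (x + 1) = 0 := by
    rw [List.count_eq_zero]; simp
  have h6 : 0 < (List.range (x + 1)).count x := by
    rw [List.count_pos_iff]; simp
  omega

lemma yam_rowWord (κ : List ℕ) : Yam (rowWord κ) := by
  induction κ with
  | nil =>
    intro pre x post h
    simp [rowWord] at h
  | cons b κ ih =>
    have : rowWord (b :: κ) = List.range b ++ rowWord κ := by simp [rowWord]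
    rw [this]
    exact yam_append (yam_range b) ih

lemma rowWord_length (κ : List ℕ) : (rowWord κ).length = κ.sum := by
  induction κ with
  | nil => rfl
  | cons b κ ih =>
    have : rowWord (b :: κ) = List.range b ++ rowWord κ := by simp [rowWord]
    rw [this, List.length_append, ih, List.length_range, List.sum_cons]

/-! ### change of rings -/

lemma TL_map {A B : Type} [CommRing A] [CommRing B] (φ : A →+* B) (q : A) (k : ℕ)
    (f : List ℕ → A) (w : List ℕ) :
    TL (φ q) k (fun w => φ (f w)) w = φ (TL q k f w) := by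
  show (if w.getD k 0 = w.getD (k + 1) 0 then - φ (f w)
    else if w.getD k 0 < w.getD (k + 1) 0 then φ q * φ (f (swapAt k w))
    else φ (f (swapAt k w)) + (φ q - 1) * φ (f w)) =
    φ (if w.getD k 0 = w.getD (k + 1) 0 then - f w
    else if w.getD k 0 < w.getD (k + 1) 0 then q * f (swapAt k w)
    else f (swapAt k w) + (q - 1) * f w)
  split_ifs <;> simp

lemma zf_map {A B : Type} [CommRing A] [CommRing B] (φ : A →+* B) (κ : List ℕ) (w : List ℕ) :
    φ (zf A κ w) = zf B κ w := by
  unfold zf
  split_ifs <;> simp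

lemma applyT_map {A B : Type} [CommRing A] [CommRing B] (φ : A →+* B) (q : A) (κ : List ℕ)
    (ks : List ℕ) (w : List ℕ) :
    applyT (φ q) ks (zf B κ) w = φ (applyT q ks (zf A κ) w) := by
  induction ks generalizing w with
  | nil => exact (zf_map φ κ w).symm
  | cons k ks ih =>
    have h : applyT (φ q) ks (zf B κ) = fun w => φ (applyT q ks (zf A κ) w) := funext ih
    show TL (φ q) k (applyT (φ q) ks (zf B κ)) w = φ (TL q k (applyT q ks (zf A κ)) w)
    rw [h, TL_map]

/-! ### contexts -/

section ctx
variable {O K k : Type} [CommRing O] [IsDomain O] [Field K] [Algebra O K]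
    [IsFractionRing O K] [Field k] (c : Ctx O K k)

lemma pi_theta : c.π (1 + c.q + c.q ^ 2) = 0 := (c.ker _).2 dvd_rfl

lemma unit_q : IsUnit c.q := by
  apply c.unit
  intro h
  have h2 := pi_theta c
  rw [map_add, map_add, map_pow, h, map_one] at h2
  simp at h2

include c in
lemma r_ne : c.r ≠ 0 := by
  intro h
  have h2 := pi_theta c
  have h3 : c.π c.q = 0 := h
  rw [map_add, map_add, map_pow, h3, map_one] at h2
  simp at h2

omit [IsDomain O] [Field k] in
lemma amap_inj : Function.Injective (algebraMap O K) := IsFractionRing.injective O K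

lemma Q_ne : c.Q ≠ 0 := by
  intro h
  have h2 : c.q = 0 := amap_inj (K := K) (by rw [map_zero]; exact h)
  have := unit_q c
  rw [h2] at this
  exact not_isUnit_zero this

lemma gen_Q : Gen c.Q := by
  refine ⟨Q_ne c, fun m hm h => c.nru m hm (amap_inj (K := K) ?_)⟩
  rw [map_pow, map_one]
  exact h

lemma Th_eq : c.Th = algebraMap O K (1 + c.q + c.q ^ 2) := by
  simp [Ctx.Th, Ctx.Q]

lemma Th_ne : c.Th ≠ 0 := by
  rw [Th_eq]
  intro h
  exact c.θ0 (amap_inj (K := K) (by rw [h, map_zero]))

lemma Q_zpow (z : ℤ) : ∃ u : Oˣ, c.Q ^ z = algebraMap O K (u : O) := by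
  obtain ⟨u, hu⟩ := unit_q c
  refine ⟨u ^ z, ?_⟩
  have h := map_zpow (Units.map ((algebraMap O K : O →+* K) : O →* K)) u z
  have h2 := congrArg (fun v : Kˣ => (v : K)) h
  simp only [Units.coe_map, MonoidHom.coe_coe, Units.val_zpow_eq_zpow_val] at h2
  rw [h2, hu]
  rfl

/-- the elements of V with O-valued image under Ψ -/
def Lval (κ : List ℕ) (Ψ : (List ℕ → K) →ₗ[K] (List ℕ → K)) : Submodule O (List ℕ → K) where
  carrier := {f | f ∈ VV K κ ∧ ∀ w, ∃ a : O, Ψ f w = algebraMap O K a}
  add_mem' := by
    rintro f g ⟨hf, hf'⟩ ⟨hg, hg'⟩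
    refine ⟨add_mem hf hg, fun w => ?_⟩
    obtain ⟨a, ha⟩ := hf' w
    obtain ⟨b, hb⟩ := hg' w
    exact ⟨a + b, by rw [map_add, Pi.add_apply, ha, hb, map_add]⟩
  zero_mem' := ⟨zero_mem _, fun w => ⟨0, by rw [map_zero, Pi.zero_apply, map_zero]⟩⟩
  smul_mem' := by
    rintro a f ⟨hf, hf'⟩
    refine ⟨Submodule.smul_of_tower_mem _ a hf, fun w => ?_⟩
    obtain ⟨b, hb⟩ := hf' w
    refine ⟨a * b, ?_⟩
    rw [LinearMap.map_smul_of_tower, Pi.smul_apply, hb, Algebra.smul_def, map_mul]

lemma mem_Lval {κ : List ℕ} {Ψ : (List ℕ → K) →ₗ[K] (List ℕ → K)} {f : List ℕ → K} :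
    f ∈ Lval (O := O) κ Ψ ↔ f ∈ VV K κ ∧ ∀ w, ∃ a : O, Ψ f w = algebraMap O K a := Iff.rfl

lemma LatV_stable {κ : List ℕ} {j : ℕ} (hj : j + 1 < κ.sum) {f : List ℕ → K}
    (hf : f ∈ LatV c κ) : SL c.Q j f ∈ LatV c κ := by
  induction hf using Submodule.span_induction with
  | mem x hx =>
    obtain ⟨ks, hks, rfl⟩ := hx
    refine Submodule.subset_span ⟨j :: ks, ?_, rfl⟩
    intro i hi
    rcases List.mem_cons.1 hi with rfl | hi
    · exact hj
    · exact hks i hi
  | zero => rw [map_zero]; exact zero_mem _
  | add x y _ _ hx hy => rw [map_add]; exact add_mem hx hy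
  | smul a x _ hx =>
    rw [LinearMap.map_smul_of_tower]
    exact Submodule.smul_mem _ a hx

lemma ind_mem_VV {κ t : List ℕ} (h1 : Yam t) (h2 : t.Perm (rowWord κ)) : ind K t ∈ VV K κ := by
  intro w hw
  have : w = t := by
    by_contra h
    exact hw (by simp [ind, h])
  rw [this]
  exact ⟨h1, h2⟩

lemma ind_row_mem (κ : List ℕ) : ind K (rowWord κ) ∈ LatV c κ :=
  Submodule.subset_span ⟨[], by simp, rfl⟩

lemma applyS_mem_VV (hC1 : StmtC1) {κ : List ℕ} (ks : List ℕ) (hks : ∀ j ∈ ks, j + 1 < κ.sum) :
    applyS c.Q ks (ind K (rowWord κ)) ∈ VV K κ := by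
  induction ks with
  | nil => exact ind_mem_VV (yam_rowWord κ) (List.Perm.refl _)
  | cons j ks ih =>
    exact hC1 K c.Q κ (gen_Q c) j (hks j (by simp)) _ (ih (fun i hi => hks i (by simp [hi])))

lemma LatV_le_VV (hC1 : StmtC1) {κ : List ℕ} {f : List ℕ → K} (hf : f ∈ LatV c κ) :
    f ∈ VV K κ := by
  induction hf using Submodule.span_induction with
  | mem x hx =>
    obtain ⟨ks, hks, rfl⟩ := hx
    exact applyS_mem_VV c hC1 ks hks
  | zero => exact zero_mem _
  | add x y _ _ hx hy => exact add_mem hx hy
  | smul a x _ hx => exact Submodule.smul_of_tower_mem _ a hx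

lemma Psi_applyS (hC1 : StmtC1) {κ : List ℕ} {Ψ : (List ℕ → K) →ₗ[K] (List ℕ → K)}
    (hΨ : PsiSpec c.Q κ Ψ) (ks : List ℕ) (hks : ∀ j ∈ ks, j + 1 < κ.sum) :
    Ψ (applyS c.Q ks (ind K (rowWord κ))) = applyT c.Q ks (zf K κ) := by
  induction ks with
  | nil => exact hΨ.base
  | cons j ks ih =>
    have hks' : ∀ i ∈ ks, i + 1 < κ.sum := fun i hi => hks i (by simp [hi])
    show Ψ (SL c.Q j (applyS c.Q ks (ind K (rowWord κ)))) = TL c.Q j (applyT c.Q ks (zf K κ))
    rw [hΨ.comm _ (applyS_mem_VV c hC1 ks hks') j (hks j (by simp)), ih hks']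

lemma LatV_le_Lval (hC1 : StmtC1) {κ : List ℕ} {Ψ : (List ℕ → K) →ₗ[K] (List ℕ → K)}
    (hΨ : PsiSpec c.Q κ Ψ) {f : List ℕ → K} (hf : f ∈ LatV c κ) : f ∈ Lval (O := O) κ Ψ := by
  have h : LatV c κ ≤ Lval (O := O) κ Ψ := by
    apply Submodule.span_le.2
    rintro x ⟨ks, hks, rfl⟩
    refine ⟨applyS_mem_VV c hC1 ks hks, fun w => ⟨applyT c.q ks (zf O κ) w, ?_⟩⟩
    rw [Psi_applyS c hC1 hΨ ks hks]
    exact applyT_map (algebraMap O K) c.q κ ks w
  exact h hf

lemma val_of_tri {κ : List ℕ} {Ψ : (List ℕ → K) →ₗ[K] (List ℕ → K)}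
    (hΨ : PsiSpec c.Q κ Ψ) {f : List ℕ → K} (hf : f ∈ Lval (O := O) κ Ψ) {t : List ℕ} (h1 : Yam t)
    (h2 : t.Perm (rowWord κ))
    (h3 : ∀ r, Yam r → r.Perm (rowWord κ) → inv r < inv t → f r = 0) :
    ∃ a : O, f t = algebraMap O K a := by
  have h := hΨ.tri f hf.1 t h1 h2 h3
  obtain ⟨b, hb⟩ := hf.2 t
  obtain ⟨u, hu⟩ := Q_zpow c ((inv (rowWord κ) : ℤ) - (inv t : ℤ))
  rw [hb, hu] at h
  refine ⟨((u⁻¹ : Oˣ) : O) * b, ?_⟩
  rw [map_mul, h, ← mul_assoc, ← map_mul, Units.inv_mul, map_one, one_mul]

/-- triangular families: every element of `Lval` is a combination -/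
lemma tri_comb {κ : List ℕ} {Ψ : (List ℕ → K) →ₗ[K] (List ℕ → K)}
    (hΨ : PsiSpec c.Q κ Ψ) (F : List ℕ → List ℕ → K) (S : Finset (List ℕ)) :
    (∀ t ∈ S, Yam t ∧ t.Perm (rowWord κ)) → (∀ t ∈ S, F t ∈ Lval (O := O) κ Ψ) →
    (∀ t ∈ S, F t t = 1) →
    (∀ t ∈ S, ∀ r, F t r ≠ 0 → r ∈ S ∧ (r = t ∨ inv t < inv r)) →
    ∀ f ∈ Lval (O := O) κ Ψ, (∀ w, f w ≠ 0 → w ∈ S) →
    ∃ a : List ℕ → O, f = ∑ t ∈ S, a t • F t := by
  classical
  induction S using Finset.induction_on_min_value inv with
  | empty =>
    intro _ _ _ _ f _ hf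
    refine ⟨0, ?_⟩
    rw [Finset.sum_empty]
    funext w
    by_contra h
    exact absurd (hf w h) (Finset.notMem_empty _)
  | insert b S hb hmin ih =>
    intro h1 h2 h3 h4 f hf hfS
    have hbS : b ∈ insert b S := Finset.mem_insert_self _ _
    have key : ∃ x : O, f b = algebraMap O K x := by
      apply val_of_tri c hΨ hf (h1 b hbS).1 (h1 b hbS).2
      intro r _ _ hr
      by_contra h
      rcases Finset.mem_insert.1 (hfS r h) with h' | h'
      · rw [h'] at hr; exact lt_irrefl _ hr
      · exact absurd (hmin r h') (by omega)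
    obtain ⟨x, hx⟩ := key
    obtain ⟨a, ha⟩ := ih (fun t ht => h1 t (Finset.mem_insert_of_mem ht))
      (fun t ht => h2 t (Finset.mem_insert_of_mem ht))
      (fun t ht => h3 t (Finset.mem_insert_of_mem ht))
      (by
        intro t ht r hr
        obtain ⟨h5, h6⟩ := h4 t (Finset.mem_insert_of_mem ht) r hr
        refine ⟨?_, h6⟩
        rcases Finset.mem_insert.1 h5 with h' | h'
        · subst h'
          rcases h6 with h6 | h6
          · subst h6; exact absurd ht hb
          · exact absurd (hmin t ht) (by omega)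
        · exact h')
      (f - x • F b) (sub_mem hf (Submodule.smul_mem _ x (h2 b hbS)))
      (by
        intro w hw
        have hwb : w ≠ b := by
          rintro rfl
          apply hw
          rw [Pi.sub_apply, Pi.smul_apply, h3 _ hbS, hx, Algebra.smul_def, mul_one, sub_self]
        have : w ∈ insert b S := by
          by_contra h
          apply hw
          have h7 : f w = 0 := by
            by_contra h'; exact h (hfS w h')
          have h8 : F b w = 0 := by
            by_contra h'; exact h (h4 b hbS w h').1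
          rw [Pi.sub_apply, Pi.smul_apply, h7, h8, smul_zero, sub_zero]
        rcases Finset.mem_insert.1 this with h' | h'
        · exact absurd h' hwb
        · exact h')
    refine ⟨Function.update a b x, ?_⟩
    rw [Finset.sum_insert hb, Function.update_self]
    have : ∑ t ∈ S, Function.update a b x t • F t = ∑ t ∈ S, a t • F t := by
      apply Finset.sum_congr rfl
      intro t ht
      rw [Function.update_of_ne]
      rintro rfl
      exact hb ht
    rw [this, ← ha]
    abel

lemma SL_apply_lt {κ : List ℕ} (q : K) (j : ℕ) (f : List ℕ → K) (w : List ℕ)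
    (h : w.getD j 0 < w.getD (j + 1) 0) :
    SL q j f w = alpha q (cont w (j + 1) - cont w j) * f w + f (swapAt j w) := by
  show (if w.getD j 0 = w.getD (j + 1) 0 then - f w
    else alpha q (cont w (j + 1) - cont w j) * f w +
      (if w.getD j 0 < w.getD (j + 1) 0 then 1 else beta q (cont w (j + 1) - cont w j)) *
        f (swapAt j w)) = _
  rw [if_neg (by omega), if_pos h, one_mul]

omit [IsDomain O] [Algebra O K] [IsFractionRing O K] [Field k] in
lemma SL_supp (q : K) (j : ℕ) (f : List ℕ → K) (w : List ℕ) (h : SL q j f w ≠ 0) :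
    f w ≠ 0 ∨ f (swapAt j w) ≠ 0 := by
  by_contra h'
  push Not at h'
  apply h
  show (if w.getD j 0 = w.getD (j + 1) 0 then - f w
    else alpha q (cont w (j + 1) - cont w j) * f w +
      (if w.getD j 0 < w.getD (j + 1) 0 then 1 else beta q (cont w (j + 1) - cont w j)) *
        f (swapAt j w)) = 0
  rw [h'.1, h'.2]
  simp

lemma E1_aux (hA4 : StmtA4) {κ : List ℕ} (hκ : IsPart κ) (n : ℕ) :
    ∀ t, Yam t → t.Perm (rowWord κ) → (rowWord κ).length ^ 2 - inv t ≤ n →
    ∃ f ∈ LatV c κ, f t = 1 ∧ ∀ r, f r ≠ 0 → r = t ∨ inv t < inv r := by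
  induction n with
  | zero =>
    intro t ht htp hn
    by_cases h : t = rowWord κ
    · refine ⟨ind K (rowWord κ), ind_row_mem c κ, by simp [ind, h], fun r hr => Or.inl ?_⟩
      by_contra h'
      exact hr (by rw [h] at h'; simp [ind, h'])
    · obtain ⟨j, hj, hlt, hy⟩ := hA4 κ t hκ ht htp h
      exfalso
      have h1 : j + 1 < t.length := by rw [htp.length_eq, rowWord_length]; exact hj
      have h2 := inv_swapAt_lt j t h1 hlt
      have h3 := inv_le_sq (swapAt j t)
      rw [swapAt_length, htp.length_eq] at h3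
      omega
  | succ n ih =>
    intro t ht htp hn
    by_cases h : t = rowWord κ
    · refine ⟨ind K (rowWord κ), ind_row_mem c κ, by simp [ind, h], fun r hr => Or.inl ?_⟩
      by_contra h'
      exact hr (by rw [h] at h'; simp [ind, h'])
    · obtain ⟨j, hj, hlt, hy⟩ := hA4 κ t hκ ht htp h
      have h1 : j + 1 < t.length := by rw [htp.length_eq, rowWord_length]; exact hj
      have h2 := inv_swapAt_lt j t h1 hlt
      obtain ⟨f, hf, hf1, hf2⟩ := ih (swapAt j t) hy ((swapAt_perm j t).trans htp) (by omega)
      refine ⟨SL c.Q j f, LatV_stable c hj hf, ?_, ?_⟩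
      · rw [SL_apply_lt (κ := κ) _ _ _ _ hlt, hf1]
        have : f t = 0 := by
          by_contra h'
          rcases hf2 t h' with h'' | h''
          · have := congrArg inv h''
            omega
          · omega
        rw [this, mul_zero, zero_add]
      · intro r hr
        rcases SL_supp _ _ _ _ hr with h' | h'
        · rcases hf2 r h' with h'' | h''
          · right; rw [h'']; omega
          · right; omega
        · rcases hf2 _ h' with h'' | h''
          · left
            rw [← swapAt_swapAt j r, h'', swapAt_swapAt]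
          · right
            have := inv_swapAt_le j (swapAt j r)
            rw [swapAt_swapAt] at this
            omega

lemma E2_aux (hC1 : StmtC1) (hE1 : StmtE1) {κ : List ℕ} (hκ : IsPart κ)
    {Ψ : (List ℕ → K) →ₗ[K] (List ℕ → K)} (hΨ : PsiSpec c.Q κ Ψ) {f : List ℕ → K}
    (hf : f ∈ Lval (O := O) κ Ψ) : f ∈ LatV c κ := by
  classical
  choose! F hF1 hF2 hF3 using hE1 O K k c κ hκ
  obtain ⟨a, ha⟩ := tri_comb c hΨ F ((permSet κ).filter Yam)
    (fun t ht => ⟨(Finset.mem_filter.1 ht).2, mem_permSet.1 (Finset.mem_filter.1 ht).1⟩)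
    (fun t ht => LatV_le_Lval c hC1 hΨ
      (hF1 t (Finset.mem_filter.1 ht).2 (mem_permSet.1 (Finset.mem_filter.1 ht).1)))
    (fun t ht => hF2 t (Finset.mem_filter.1 ht).2 (mem_permSet.1 (Finset.mem_filter.1 ht).1))
    (by
      intro t ht r hr
      have h1 := (Finset.mem_filter.1 ht).2
      have h2 := mem_permSet.1 (Finset.mem_filter.1 ht).1
      have h3 := LatV_le_VV c hC1 (hF1 t h1 h2) r hr
      exact ⟨Finset.mem_filter.2 ⟨mem_permSet.2 h3.2, h3.1⟩, hF3 t h1 h2 r hr⟩)
    f hf
    (by
      intro w hw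
      have h3 := hf.1 w hw
      exact Finset.mem_filter.2 ⟨mem_permSet.2 h3.2, h3.1⟩)
  rw [ha]
  apply Submodule.sum_mem
  intro t ht
  exact Submodule.smul_mem _ _
    (hF1 t (Finset.mem_filter.1 ht).2 (mem_permSet.1 (Finset.mem_filter.1 ht).1))

end ctx

end AuxE12

theorem E1_proof (hA4 : StmtA4) : StmtE1 := by
  intro O K k _ _ _ _ _ _ c κ hκ t ht htp
  exact AuxE12.E1_aux c hA4 hκ _ t ht htp le_rfl

theorem E2_proof (hC1 : StmtC1) (hE1 : StmtE1) : StmtE2 := by
  intro O K k _ _ _ _ _ _ c κ hκ Ψ hΨ f
  exact ⟨fun hf => AuxE12.LatV_le_Lval c hC1 hΨ hf, fun hf => AuxE12.E2_aux c hC1 hE1 hκ hΨ hf⟩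

end Pool.Agent.JC3
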