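import Pool.Agent.JC3.E12

/-!
E3 and E4: reduction of the lattice and the dimension of the Specht module.
-/

set_option autoImplicit false
set_option linter.unusedSectionVars false
set_option linter.unusedVariables false

namespace Pool.Agent.JC3
namespace AuxE34

open AuxE12

variable {O K k : Type} [CommRing O] [IsDomain O] [Field K] [Algebra O K]
    [IsFractionRing O K] [Field k] (c : Ctx O K k)

lemma Red_gen (hC1 : StmtC1) {κ : List ℕ} {Ψ : (List ℕ → K) →ₗ[K] (List ℕ → K)}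
    (hΨ : PsiSpec c.Q κ Ψ) (ks : List ℕ) (hks : ∀ j ∈ ks, j + 1 < κ.sum) :
    Red c Ψ (applyS c.Q ks (ind K (rowWord κ))) (applyT c.r ks (zf k κ)) := by
  refine ⟨applyT c.q ks (zf O κ), fun w => ?_, fun w => ?_⟩
  · rw [Psi_applyS c hC1 hΨ ks hks]
    exact applyT_map (algebraMap O K) c.q κ ks w
  · exact (applyT_map c.π c.q κ ks w).symm

lemma Red_add {Ψ : (List ℕ → K) →ₗ[K] (List ℕ → K)} {f f' : List ℕ → K} {g g' : List ℕ → k}
    (h : Red c Ψ f g) (h' : Red c Ψ f' g') : Red c Ψ (f + f') (g + g') := by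
  obtain ⟨F, h1, h2⟩ := h
  obtain ⟨F', h1', h2'⟩ := h'
  refine ⟨fun w => F w + F' w, fun w => ?_, fun w => ?_⟩
  · rw [map_add, Pi.add_apply, h1, h1', map_add]
  · rw [map_add, h2, h2', Pi.add_apply]

lemma Red_zero {Ψ : (List ℕ → K) →ₗ[K] (List ℕ → K)} : Red c Ψ 0 0 := by
  refine ⟨fun w => 0, fun w => ?_, fun w => ?_⟩
  · rw [map_zero, Pi.zero_apply, map_zero]
  · rw [map_zero, Pi.zero_apply]

lemma Red_smul {Ψ : (List ℕ → K) →ₗ[K] (List ℕ → K)} {f : List ℕ → K} {g : List ℕ → k}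
    (a : O) (h : Red c Ψ f g) : Red c Ψ (a • f) (c.π a • g) := by
  obtain ⟨F, h1, h2⟩ := h
  refine ⟨fun w => a * F w, fun w => ?_, fun w => ?_⟩
  · rw [LinearMap.map_smul_of_tower, Pi.smul_apply, h1, Algebra.smul_def, map_mul]
  · rw [map_mul, h2, Pi.smul_apply, smul_eq_mul]

lemma Red_sum {Ψ : (List ℕ → K) →ₗ[K] (List ℕ → K)} {ι : Type} (S : Finset ι)
    (f : ι → List ℕ → K) (g : ι → List ℕ → k) (h : ∀ i ∈ S, Red c Ψ (f i) (g i)) :
    Red c Ψ (∑ i ∈ S, f i) (∑ i ∈ S, g i) := by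
  classical
  induction S using Finset.induction_on with
  | empty => rw [Finset.sum_empty, Finset.sum_empty]; exact Red_zero c
  | insert a S ha ih =>
    rw [Finset.sum_insert ha, Finset.sum_insert ha]
    exact Red_add c (h a (Finset.mem_insert_self _ _))
      (ih fun i hi => h i (Finset.mem_insert_of_mem hi))

lemma Red_unique {Ψ : (List ℕ → K) →ₗ[K] (List ℕ → K)} {f : List ℕ → K} {g g' : List ℕ → k}
    (h : Red c Ψ f g) (h' : Red c Ψ f g') : g = g' := by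
  obtain ⟨F, h1, h2⟩ := h
  obtain ⟨F', h1', h2'⟩ := h'
  funext w
  rw [← h2, ← h2']
  congr 1
  exact amap_inj (K := K) (by rw [← h1, ← h1'])

lemma part1 (hC1 : StmtC1) {κ : List ℕ} {Ψ : (List ℕ → K) →ₗ[K] (List ℕ → K)}
    (hΨ : PsiSpec c.Q κ Ψ) {f : List ℕ → K} (hf : f ∈ LatV c κ) :
    ∃ g ∈ SpL c.r κ, Red c Ψ f g := by
  induction hf using Submodule.span_induction with
  | mem x hx =>
    obtain ⟨ks, hks, rfl⟩ := hx
    exact ⟨_, Submodule.subset_span ⟨ks, hks, rfl⟩, Red_gen c hC1 hΨ ks hks⟩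
  | zero => exact ⟨0, zero_mem _, Red_zero c⟩
  | add x y _ _ hx hy =>
    obtain ⟨g, hg, h⟩ := hx
    obtain ⟨g', hg', h'⟩ := hy
    exact ⟨g + g', add_mem hg hg', Red_add c h h'⟩
  | smul a x _ hx =>
    obtain ⟨g, hg, h⟩ := hx
    exact ⟨c.π a • g, Submodule.smul_mem _ _ hg, Red_smul c a h⟩

lemma part2 (hC1 : StmtC1) {κ : List ℕ} {Ψ : (List ℕ → K) →ₗ[K] (List ℕ → K)}
    (hΨ : PsiSpec c.Q κ Ψ) {g : List ℕ → k} (hg : g ∈ SpL c.r κ) :
    ∃ f ∈ LatV c κ, Red c Ψ f g := by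
  induction hg using Submodule.span_induction with
  | mem x hx =>
    obtain ⟨ks, hks, rfl⟩ := hx
    exact ⟨_, Submodule.subset_span ⟨ks, hks, rfl⟩, Red_gen c hC1 hΨ ks hks⟩
  | zero => exact ⟨0, zero_mem _, Red_zero c⟩
  | add x y _ _ hx hy =>
    obtain ⟨g, hg, h⟩ := hx
    obtain ⟨g', hg', h'⟩ := hy
    exact ⟨g + g', add_mem hg hg', Red_add c h h'⟩
  | smul a x _ hx =>
    obtain ⟨g, hg, h⟩ := hx
    obtain ⟨b, rfl⟩ := c.surj a
    exact ⟨b • g, Submodule.smul_mem _ _ hg, Red_smul c b h⟩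

lemma part3 (hE2 : StmtE2) {κ : List ℕ} (hκ : IsPart κ) {Ψ : (List ℕ → K) →ₗ[K] (List ℕ → K)}
    (hΨ : PsiSpec c.Q κ Ψ) {f : List ℕ → K} (hf : f ∈ LatV c κ) (h : Red c Ψ f 0) :
    ∃ f' ∈ LatV c κ, f = c.Th • f' := by
  obtain ⟨F, h1, h2⟩ := h
  have h3 : ∀ w, ∃ b : O, F w = (1 + c.q + c.q ^ 2) * b := fun w =>
    (c.ker (F w)).1 (by rw [h2]; rfl)
  choose G hG using h3
  have hV := ((hE2 O K k c κ hκ Ψ hΨ f).1 hf).1
  refine ⟨c.Th⁻¹ • f, (hE2 O K k c κ hκ Ψ hΨ _).2 ⟨Submodule.smul_mem _ _ hV, fun w => ⟨G w, ?_⟩⟩,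
    ?_⟩
  · rw [map_smul, Pi.smul_apply, h1, hG, map_mul, ← Th_eq, smul_eq_mul, ← mul_assoc,
      inv_mul_cancel₀ (Th_ne c), one_mul]
  · rw [smul_smul, mul_inv_cancel₀ (Th_ne c), one_smul]

lemma G_low {κ : List ℕ} {Ψ : (List ℕ → K) →ₗ[K] (List ℕ → K)}
    (hΨ : PsiSpec c.Q κ Ψ) {f : List ℕ → K} (hf : f ∈ VV K κ) {t r : List ℕ}
    (hr : Yam r) (hrp : r.Perm (rowWord κ)) (hsupp : ∀ r, f r ≠ 0 → r = t ∨ inv t < inv r)
    (hne : r ≠ t) (hle : inv r ≤ inv t) {g : List ℕ → k} (h : Red c Ψ f g) : g r = 0 := by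
  obtain ⟨F, h1, h2⟩ := h
  have h3 := hΨ.tri f hf r hr hrp (by
    intro s _ _ hs
    by_contra h'
    rcases hsupp s h' with h'' | h''
    · subst h''; omega
    · omega)
  have h4 : f r = 0 := by
    by_contra h'
    rcases hsupp r h' with h'' | h''
    · exact hne h''
    · omega
  rw [h4, mul_zero, h1] at h3
  have h5 : F r = 0 := amap_inj (K := K) (by rw [h3, map_zero])
  rw [← h2, h5, map_zero]

lemma G_diag {κ : List ℕ} {Ψ : (List ℕ → K) →ₗ[K] (List ℕ → K)}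
    (hΨ : PsiSpec c.Q κ Ψ) {f : List ℕ → K} (hf : f ∈ VV K κ) {t : List ℕ}
    (ht : Yam t) (htp : t.Perm (rowWord κ)) (hsupp : ∀ r, f r ≠ 0 → r = t ∨ inv t < inv r)
    (h1' : f t = 1) {g : List ℕ → k} (h : Red c Ψ f g) : g t ≠ 0 := by
  obtain ⟨F, h1, h2⟩ := h
  have h3 := hΨ.tri f hf t ht htp (by
    intro s _ _ hs
    by_contra h'
    rcases hsupp s h' with h'' | h''
    · subst h''; omega
    · omega)
  obtain ⟨u, hu⟩ := Q_zpow c ((inv (rowWord κ) : ℤ) - (inv t : ℤ))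
  rw [h1', mul_one, h1, hu] at h3
  have h5 : F t = u := amap_inj (K := K) h3
  rw [← h2, h5]
  exact (u.isUnit.map c.π).ne_zero

lemma finrank_eq (hC1 : StmtC1) (hE1 : StmtE1) (hD2 : StmtD2) {κ : List ℕ} (hκ : IsPart κ) :
    Module.finrank k (SpL c.r κ) = Nat.card {t : List ℕ // Yam t ∧ t.Perm (rowWord κ)} := by
  classical
  obtain ⟨Ψ, hΨ⟩ := hD2 K c.Q κ hκ (gen_Q c)
  choose! F hF1 hF2 hF3 using hE1 O K k c κ hκ
  have hG : ∀ t : {t : List ℕ // Yam t ∧ t.Perm (rowWord κ)},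
      ∃ g ∈ SpL c.r κ, Red c Ψ (F t) g := fun t => part1 c hC1 hΨ (hF1 t t.2.1 t.2.2)
  choose G hG1 hG2 using hG
  have hfin : Finite {t : List ℕ // Yam t ∧ t.Perm (rowWord κ)} := by
    apply Set.Finite.subset (permSet κ).finite_toSet
    intro t ht
    exact mem_permSet.2 ht.2
  have := Fintype.ofFinite {t : List ℕ // Yam t ∧ t.Perm (rowWord κ)}
  have hV : ∀ t : {t : List ℕ // Yam t ∧ t.Perm (rowWord κ)}, F t ∈ VV K κ := fun t =>
    LatV_le_VV c hC1 (hF1 t t.2.1 t.2.2)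
  have hlin : LinearIndependent k G := by
    rw [linearIndependent_iff']
    intro s a hs i hi
    by_contra hne
    obtain ⟨t, ht, hmin⟩ := Finset.exists_min_image (s.filter (fun i => a i ≠ 0))
      (fun i => inv i.1) ⟨i, Finset.mem_filter.2 ⟨hi, hne⟩⟩
    rw [Finset.mem_filter] at ht
    have h1 := congrFun hs t.1
    rw [Finset.sum_apply, Finset.sum_eq_single_of_mem t ht.1] at h1
    · simp only [Pi.smul_apply, smul_eq_mul, Pi.zero_apply, mul_eq_zero] at h1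
      rcases h1 with h1 | h1
      · exact ht.2 h1
      · exact G_diag c hΨ (hV t) t.2.1 t.2.2 (hF3 t t.2.1 t.2.2) (hF2 t t.2.1 t.2.2) (hG2 t) h1
    · intro r hr hrt
      by_cases h0 : a r = 0
      · rw [h0, zero_smul]; rfl
      · have h2 := hmin r (Finset.mem_filter.2 ⟨hr, h0⟩)
        have h3 : G r t.1 = 0 := G_low c hΨ (hV r) t.2.1 t.2.2 (hF3 r r.2.1 r.2.2)
          (fun h => hrt (Subtype.ext h.symm)) h2 (hG2 r)
        rw [Pi.smul_apply, h3, smul_zero]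
  have hspan : SpL c.r κ = Submodule.span k (Set.range G) := by
    apply le_antisymm
    · intro g hg
      obtain ⟨f, hf, hfg⟩ := part2 c hC1 hΨ hg
      obtain ⟨a, ha⟩ := tri_comb c hΨ F ((permSet κ).filter Yam)
        (fun t ht => ⟨(Finset.mem_filter.1 ht).2, mem_permSet.1 (Finset.mem_filter.1 ht).1⟩)
        (fun t ht => LatV_le_Lval c hC1 hΨ
          (hF1 t (Finset.mem_filter.1 ht).2 (mem_permSet.1 (Finset.mem_filter.1 ht).1)))
        (fun t ht => hF2 t (Finset.mem_filter.1 ht).2 (mem_permSet.1 (Finset.mem_filter.1 ht).1))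
        (by
          intro t ht r hr
          have h1 := (Finset.mem_filter.1 ht).2
          have h2 := mem_permSet.1 (Finset.mem_filter.1 ht).1
          have h3 := LatV_le_VV c hC1 (hF1 t h1 h2) r hr
          exact ⟨Finset.mem_filter.2 ⟨mem_permSet.2 h3.2, h3.1⟩, hF3 t h1 h2 r hr⟩)
        f (LatV_le_Lval c hC1 hΨ hf)
        (by
          intro w hw
          have h3 := LatV_le_VV c hC1 hf w hw
          exact Finset.mem_filter.2 ⟨mem_permSet.2 h3.2, h3.1⟩)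
      have h1 : Red c Ψ (∑ t ∈ (permSet κ).filter Yam, a t • F t)
          (∑ t ∈ (permSet κ).filter Yam, c.π (a t) •
            (if h : Yam t ∧ t.Perm (rowWord κ) then G ⟨t, h⟩ else 0)) := by
        apply Red_sum
        intro t ht
        have h1 := (Finset.mem_filter.1 ht).2
        have h2 := mem_permSet.1 (Finset.mem_filter.1 ht).1
        rw [dif_pos ⟨h1, h2⟩]
        exact Red_smul c (a t) (hG2 ⟨t, h1, h2⟩)
      rw [← ha] at h1
      rw [Red_unique c hfg h1]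
      apply Submodule.sum_mem
      intro t ht
      have h1 := (Finset.mem_filter.1 ht).2
      have h2 := mem_permSet.1 (Finset.mem_filter.1 ht).1
      rw [dif_pos ⟨h1, h2⟩]
      exact Submodule.smul_mem _ _ (Submodule.subset_span ⟨_, rfl⟩)
    · apply Submodule.span_le.2
      rintro _ ⟨t, rfl⟩
      exact hG1 t
  rw [hspan, finrank_span_eq_card hlin, Nat.card_eq_fintype_card]

end AuxE34

theorem E3_proof (hC1 : StmtC1) (hE2 : StmtE2) : StmtE3 := by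
  intro O K k _ _ _ _ _ _ c κ hκ Ψ hΨ
  exact ⟨fun f hf => AuxE34.part1 c hC1 hΨ hf, fun g hg => AuxE34.part2 c hC1 hΨ hg,
    fun f hf h => AuxE34.part3 c hE2 hκ hΨ hf h⟩

theorem E4_proof (hC1 : StmtC1) (hE1 : StmtE1) (hD2 : StmtD2) : StmtE4 := by
  intro O K k _ _ _ _ _ _ c κ hκ
  exact AuxE34.finrank_eq c hC1 hE1 hD2 hκ

end Pool.Agent.JC3
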