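import Pool.Agent.JC3.E12

/-!
E5: the projections to residue sequences preserve the lattice.
-/

set_option autoImplicit false
set_option linter.unusedSectionVars false
set_option linter.unusedVariables false

namespace Pool.Agent.JC3
namespace AuxE5

open AuxE12 Polynomial

variable {O K k : Type} [CommRing O] [IsDomain O] [Field K] [Algebra O K]
    [IsFractionRing O K] [Field k] (c : Ctx O K k)

lemma r_theta : 1 + c.r + c.r ^ 2 = 0 := by
  have h := pi_theta c
  rw [map_add, map_add, map_pow, map_one] at h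
  exact h

lemma r_cube : c.r ^ 3 = 1 := by
  have := r_theta c
  linear_combination (c.r - 1) * this

lemma r_ne_one : c.r ≠ 1 := by
  intro h
  have h2 := r_theta c
  rw [h] at h2
  apply c.good 3 (by norm_num)
  push_cast
  linear_combination h2

lemma r_zpow_ne (z : ℤ) (hz : z % 3 ≠ 0) : c.r ^ z ≠ 1 := by
  intro h
  have hr := r_ne c
  have h1 : z = 3 * (z / 3) + z % 3 := (Int.mul_ediv_add_emod z 3).symm
  rw [h1, zpow_add₀ hr, zpow_mul] at h
  have h0 : c.r ^ (3 : ℤ) = 1 := by
    have := r_cube c
    exact_mod_cast this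
  rw [h0, one_zpow, one_mul] at h
  have h2 : z % 3 = 1 ∨ z % 3 = 2 := by omega
  rcases h2 with h2 | h2
  · rw [h2, zpow_one] at h
    exact r_ne_one c h
  · rw [h2] at h
    have h3 : c.r ^ 2 = 1 := by exact_mod_cast h
    apply r_ne_one c
    have := r_cube c
    linear_combination this - c.r * h3

lemma unit_sub (u : Oˣ) (hu : (u : O) = c.q) (a b : ℤ) (h : (a - b) % 3 ≠ 0) :
    IsUnit (((u ^ a : Oˣ) : O) - ((u ^ b : Oˣ) : O)) := by
  apply c.unit
  rw [map_sub]
  have key : ∀ z : ℤ, c.π ((u ^ z : Oˣ) : O) = c.r ^ z := by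
    intro z
    have h := map_zpow (Units.map ((c.π : O →+* k) : O →* k)) u z
    have h2 := congrArg (fun v : kˣ => (v : k)) h
    simp only [Units.coe_map, MonoidHom.coe_coe, Units.val_zpow_eq_zpow_val] at h2
    rw [h2, hu]
    rfl
  rw [key, key]
  intro h0
  apply r_zpow_ne c (a - b) h
  rw [zpow_sub₀ (r_ne c), sub_eq_zero.1 h0, div_self (zpow_ne_zero _ (r_ne c))]

/-- diagonal operator -/
noncomputable def Dg (d : List ℕ → K) : (List ℕ → K) →ₗ[O] (List ℕ → K) where
  toFun f := fun w => d w * f w
  map_add' := by intro f g; funext w; simp only [Pi.add_apply]; ring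
  map_smul' := by
    intro a f; funext w
    simp only [Pi.smul_apply, RingHom.id_apply]
    rw [mul_smul_comm]

lemma Dg_apply (d f : List ℕ → K) (w : List ℕ) : Dg (O := O) d f w = d w * f w := rfl

lemma Dg_pow (d f : List ℕ → K) (n : ℕ) (w : List ℕ) :
    ((Dg (O := O) d : Module.End O (List ℕ → K)) ^ n) f w = d w ^ n * f w := by
  induction n generalizing f with
  | zero => simp
  | succ n ih =>
    rw [pow_succ, Module.End.mul_apply, ih, Dg_apply, pow_succ, mul_assoc]

lemma aeval_Dg (R : O[X]) (d f : List ℕ → K) (w : List ℕ) :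
    (aeval (Dg (O := O) d : Module.End O (List ℕ → K)) R) f w = aeval (d w) R * f w := by
  induction R using Polynomial.induction_on' with
  | add p q hp hq =>
    rw [map_add, map_add, LinearMap.add_apply, Pi.add_apply, hp, hq, add_mul]
  | monomial n a =>
    rw [aeval_monomial, aeval_monomial, Module.End.mul_apply, Module.algebraMap_end_apply,
      Pi.smul_apply, Dg_pow, Algebra.smul_def, mul_assoc]

lemma pow_mem (L : Submodule O (List ℕ → K)) (D : Module.End O (List ℕ → K))
    (h : ∀ f ∈ L, D f ∈ L) (n : ℕ) : ∀ f ∈ L, (D ^ n) f ∈ L := by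
  induction n with
  | zero => intro f hf; simpa using hf
  | succ n ih =>
    intro f hf
    rw [pow_succ, Module.End.mul_apply]
    exact ih _ (h f hf)

lemma aeval_mem (L : Submodule O (List ℕ → K)) (D : Module.End O (List ℕ → K))
    (h : ∀ f ∈ L, D f ∈ L) (R : O[X]) : ∀ f ∈ L, (aeval D R) f ∈ L := by
  induction R using Polynomial.induction_on' with
  | add p q hp hq =>
    intro f hf
    rw [map_add, LinearMap.add_apply]
    exact add_mem (hp f hf) (hq f hf)
  | monomial n a =>
    intro f hf
    rw [aeval_monomial, Module.End.mul_apply, Module.algebraMap_end_apply]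
    exact Submodule.smul_mem _ _ (pow_mem L D h n f hf)

/-- the exponents of the Murphy operator -/
noncomputable def dg (p : ℕ) (w : List ℕ) : K := c.Q ^ ((p : ℤ) + cont w p)

lemma VV_eq_sum {κ : List ℕ} {f : List ℕ → K} (hf : f ∈ VV K κ) [DecidablePred Yam] :
    f = ∑ t ∈ (permSet κ).filter Yam, f t • ind K t := by
  funext w
  rw [Finset.sum_apply]
  by_cases h : w ∈ (permSet κ).filter Yam
  · rw [Finset.sum_eq_single_of_mem w h]
    · simp [ind]
    · intro t _ ht
      simp [ind, ht.symm]
  · rw [Finset.sum_eq_zero]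
    · by_contra h'
      have h3 := hf w h'
      exact h (Finset.mem_filter.2 ⟨mem_permSet.2 h3.2, h3.1⟩)
    · intro t ht
      have : w ≠ t := by rintro rfl; exact h ht
      simp [ind, this]

lemma YS_eq (hC5 : StmtC5) {κ : List ℕ} {f : List ℕ → K} (hf : f ∈ VV K κ) (p : ℕ)
    (hp : p < κ.sum) : YS c.Q p f = Dg (O := O) (dg c p) f := by
  classical
  have h1 : ∀ t ∈ (permSet κ).filter Yam, YS c.Q p (f t • ind K t) =
      Dg (O := O) (dg c p) (f t • ind K t) := by
    intro t ht
    rw [map_smul, hC5 K c.Q κ (gen_Q c) t (Finset.mem_filter.1 ht).2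
      (mem_permSet.1 (Finset.mem_filter.1 ht).1) p hp]
    funext w
    rw [Dg_apply]
    by_cases h : w = t
    · subst h; simp [ind, dg]; ring
    · simp [ind, h]
  conv_lhs => rw [VV_eq_sum hf]
  conv_rhs => rw [VV_eq_sum hf]
  rw [map_sum, map_sum]
  exact Finset.sum_congr rfl h1

lemma YS_mem {κ : List ℕ} (p : ℕ) (hp : p < κ.sum) {f : List ℕ → K} (hf : f ∈ LatV c κ) :
    YS c.Q p f ∈ LatV c κ := by
  induction p generalizing f with
  | zero => exact hf
  | succ p ih =>
    show SL c.Q p (YS c.Q p (SL c.Q p f)) ∈ LatV c κ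
    exact LatV_stable c hp (ih (by omega) (LatV_stable c hp hf))

lemma proj_one (hC1 : StmtC1) (hC5 : StmtC5) {κ : List ℕ} (p : ℕ) (hp : p < κ.sum) (x : ℕ)
    {f : List ℕ → K} (hf : f ∈ LatV c κ) :
    (fun w => if resAt w p = x then f w else 0) ∈ LatV c κ := by
  classical
  obtain ⟨u, hu⟩ := unit_q c
  have hzp : ∀ z : ℤ, c.Q ^ z = algebraMap O K ((u ^ z : Oˣ) : O) := by
    intro z
    have h := map_zpow (Units.map ((algebraMap O K : O →+* K) : O →* K)) u z
    have h2 := congrArg (fun v : Kˣ => (v : K)) h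
    simp only [Units.coe_map, MonoidHom.coe_coe, Units.val_zpow_eq_zpow_val] at h2
    rw [h2, hu]
    rfl
  set E : Finset ℤ := (permSet κ).image (fun w => (p : ℤ) + cont w p) with hE
  set A : O[X] := ∏ a ∈ E.filter (fun a => ¬ (a - p) % 3 = (x : ℤ)),
    (X - C ((u ^ a : Oˣ) : O)) with hA
  set B : O[X] := ∏ a ∈ E.filter (fun a => (a - p) % 3 = (x : ℤ)),
    (X - C ((u ^ a : Oˣ) : O)) with hB
  have hcop : IsCoprime A B := by
    apply IsCoprime.prod_left
    intro a ha
    apply IsCoprime.prod_right
    intro b hb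
    apply isCoprime_X_sub_C_of_isUnit_sub
    apply unit_sub c u hu
    have h1 := (Finset.mem_filter.1 ha).2
    have h2 := (Finset.mem_filter.1 hb).2
    omega
  obtain ⟨s, t, hst⟩ := hcop
  have hmem : aeval (Dg (O := O) (dg c p) : Module.End O (List ℕ → K)) (s * A) f ∈ LatV c κ := by
    apply aeval_mem
    · intro g hg
      rw [← YS_eq c hC5 (LatV_le_VV c hC1 hg) p hp]
      exact YS_mem c p hp hg
    · exact hf
  convert hmem using 1
  funext w
  rw [aeval_Dg]
  by_cases hfw : f w = 0
  · rw [hfw, mul_zero, ite_self]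
  have hw := LatV_le_VV c hC1 hf w hfw
  have hwE : (p : ℤ) + cont w p ∈ E := Finset.mem_image.2 ⟨w, mem_permSet.2 hw.2, rfl⟩
  have hres : resAt w p = x ↔ ((p : ℤ) + cont w p - p) % 3 = (x : ℤ) := by
    unfold resAt
    have : 0 ≤ cont w p % 3 := Int.emod_nonneg _ (by norm_num)
    rw [add_sub_cancel_left]
    omega
  by_cases h : resAt w p = x
  · rw [if_pos h]
    have hB0 : aeval (dg c p w) B = 0 := by
      rw [hB, map_prod]
      apply Finset.prod_eq_zero (i := (p : ℤ) + cont w p)
      · exact Finset.mem_filter.2 ⟨hwE, hres.1 h⟩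
      · rw [map_sub, aeval_X, aeval_C, dg, hzp, sub_self]
    have h1 := congrArg (aeval (dg c p w)) hst
    rw [map_add, map_mul, map_mul, hB0, mul_zero, add_zero, map_one, ← map_mul] at h1
    rw [h1, one_mul]
  · rw [if_neg h]
    have hA0 : aeval (dg c p w) A = 0 := by
      rw [hA, map_prod]
      apply Finset.prod_eq_zero (i := (p : ℤ) + cont w p)
      · exact Finset.mem_filter.2 ⟨hwE, fun h' => h (hres.2 h')⟩
      · rw [map_sub, aeval_X, aeval_C, dg, hzp, sub_self]
    rw [map_mul, hA0, mul_zero, zero_mul]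

open Classical in
lemma proj_range (hC1 : StmtC1) (hC5 : StmtC5) {κ : List ℕ} (r : List ℕ) (m : ℕ)
    (hm : m ≤ κ.sum) {f : List ℕ → K} (hf : f ∈ LatV c κ) :
    (fun w => if ∀ p < m, resAt w p = r.getD p 0 then f w else 0) ∈ LatV c κ := by
  classical
  induction m with
  | zero =>
    convert hf using 1
    funext w
    rw [if_pos (by intro p hp; omega)]
  | succ m ih =>
    have h1 := ih (by omega)
    have h2 := proj_one c hC1 hC5 m (by omega) (r.getD m 0) h1
    convert h2 using 1
    funext w
    by_cases h3 : resAt w m = r.getD m 0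
    · rw [if_pos h3]
      by_cases h4 : ∀ p < m, resAt w p = r.getD p 0
      · rw [if_pos h4, if_pos]
        intro p hp
        rcases Nat.lt_succ_iff_lt_or_eq.1 hp with h | h
        · exact h4 p h
        · rw [h]; exact h3
      · rw [if_neg h4, if_neg]
        intro h5
        exact h4 fun p hp => h5 p (by omega)
    · rw [if_neg h3, if_neg]
      intro h5
      exact h3 (h5 m (by omega))

lemma resid_eq_iff {w r : List ℕ} (h : r.length = w.length) :
    resid w = r ↔ ∀ p < w.length, resAt w p = r.getD p 0 := by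
  constructor
  · rintro rfl p hp
    simp [resid, List.getD_eq_getElem?_getD, hp]
  · intro h1
    apply List.ext_getElem
    · simp [resid, h]
    · intro i hi1 hi2
      have h2 : i < w.length := by simpa [resid] using hi1
      have h3 := h1 i h2
      simp [resid]
      rw [h3, List.getD_eq_getElem?_getD, List.getElem?_eq_getElem hi2]
      rfl

end AuxE5

theorem E5_proof (hC1 : StmtC1) (hC5 : StmtC5) : StmtE5 := by
  classical
  intro O K k _ _ _ _ _ _ c κ hκ f hf r
  by_cases hr : r.length = κ.sum
  · have h := AuxE5.proj_range c hC1 hC5 r κ.sum le_rfl hf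
    convert h using 1
    funext w
    by_cases hfw : f w = 0
    · rw [hfw]; simp
    · have hw := AuxE12.LatV_le_VV c hC1 hf w hfw
      have hlen : w.length = κ.sum := by rw [hw.2.length_eq, AuxE12.rowWord_length]
      have := AuxE5.resid_eq_iff (w := w) (r := r) (by rw [hr, hlen])
      rw [hlen] at this
      simp only [this]
  · have h0 : (fun w => if resid w = r then f w else 0) = (0 : List ℕ → K) := by
      funext w
      by_cases hfw : f w = 0
      · rw [hfw]; simp
      · have hw := AuxE12.LatV_le_VV c hC1 hf w hfw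
        have hlen : w.length = κ.sum := by rw [hw.2.length_eq, AuxE12.rowWord_length]
        rw [if_neg]
        · rfl
        · rintro rfl
          apply hr
          simp [resid, hlen]
    rw [h0]
    exact zero_mem _

end Pool.Agent.JC3
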