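import Pool.Agent.JC3.E12

/-!
E6: unitriangular families of lattice elements.
-/

set_option autoImplicit false
set_option linter.unusedSectionVars false
set_option linter.unusedVariables false

namespace Pool.Agent.JC3
namespace AuxE6

open AuxE12

variable {O K k : Type} [CommRing O] [IsDomain O] [Field K] [Algebra O K]
    [IsFractionRing O K] [Field k] (c : Ctx O K k)

lemma main {κ : List ℕ} {Ψ : (List ℕ → K) →ₗ[K] (List ℕ → K)} (hΨ : PsiSpec c.Q κ Ψ)
    (m : ℕ) (T : ℕ → List ℕ) (F : ℕ → List ℕ → K) :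
    (∀ i < m, Yam (T i) ∧ (T i).Perm (rowWord κ)) →
    (∀ i j, i < j → j < m → inv (T j) ≤ inv (T i)) →
    (∀ i < m, ∀ j < m, T i = T j → i = j) →
    (∀ j < m, F j ∈ Lval (O := O) κ Ψ) →
    (∀ j < m, ∀ w, F j w ≠ 0 → ∃ i ≤ j, w = T i) →
    (∀ j < m, ∃ u : O, IsUnit u ∧ F j (T j) = algebraMap O K u) →
    ∀ f ∈ Lval (O := O) κ Ψ, (∀ w, f w ≠ 0 → ∃ i < m, w = T i) →
    ∃ a : ℕ → O, f = ∑ j ∈ Finset.range m, a j • F j := by
  induction m with
  | zero =>
    intro _ _ _ _ _ _ f _ hf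
    refine ⟨0, ?_⟩
    rw [Finset.range_zero, Finset.sum_empty]
    funext w
    by_contra h
    obtain ⟨i, hi, _⟩ := hf w h
    omega
  | succ m ih =>
    intro h1 h2 h3 h4 h5 h6 f hf hfS
    have hm : m < m + 1 := Nat.lt_succ_self m
    have key : ∃ x : O, f (T m) = algebraMap O K x := by
      apply val_of_tri c hΨ hf (h1 m hm).1 (h1 m hm).2
      intro r _ _ hr
      by_contra h
      obtain ⟨i, hi, rfl⟩ := hfS r h
      rcases Nat.lt_or_ge i m with h' | h'
      · have := h2 i m h' hm; omega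
      · have : i = m := by omega
        subst this; omega
    obtain ⟨x, hx⟩ := key
    obtain ⟨u, hu, hFu⟩ := h6 m hm
    obtain ⟨v, rfl⟩ := hu
    have hmF := h4 m hm
    obtain ⟨a, ha⟩ := ih (fun i hi => h1 i (by omega)) (fun i j hij hj => h2 i j hij (by omega))
      (fun i hi j hj => h3 i (by omega) j (by omega)) (fun j hj => h4 j (by omega))
      (fun j hj => h5 j (by omega)) (fun j hj => h6 j (by omega))
      (f - (x * ((v⁻¹ : Oˣ) : O)) • F m) (sub_mem hf (Submodule.smul_mem _ _ hmF))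
      (by
        intro w hw
        have hwm : w ≠ T m := by
          rintro rfl
          apply hw
          rw [Pi.sub_apply, Pi.smul_apply, hFu, hx, Algebra.smul_def, ← map_mul, mul_assoc,
            Units.inv_mul, mul_one, sub_self]
        by_cases h : f w = 0
        · have h8 : F m w ≠ 0 := by
            intro h8; apply hw; rw [Pi.sub_apply, Pi.smul_apply, h, h8, smul_zero, sub_zero]
          obtain ⟨i, hi, rfl⟩ := h5 m hm w h8
          refine ⟨i, lt_of_le_of_ne hi ?_, rfl⟩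
          rintro rfl
          exact hwm rfl
        · obtain ⟨i, hi, rfl⟩ := hfS w h
          refine ⟨i, lt_of_le_of_ne (by omega) ?_, rfl⟩
          rintro rfl
          exact hwm rfl)
    refine ⟨Function.update a m (x * ((v⁻¹ : Oˣ) : O)), ?_⟩
    rw [Finset.sum_range_succ, Function.update_self]
    have : ∑ j ∈ Finset.range m, Function.update a m (x * ((v⁻¹ : Oˣ) : O)) j • F j =
        ∑ j ∈ Finset.range m, a j • F j := by
      apply Finset.sum_congr rfl
      intro j hj
      rw [Function.update_of_ne]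
      rintro rfl
      exact absurd (Finset.mem_range.1 hj) (lt_irrefl _)
    rw [this, ← ha]
    abel

end AuxE6

theorem E6_proof (hE2 : StmtE2) (hD2 : StmtD2) : StmtE6 := by
  intro O K k _ _ _ _ _ _ c κ hκ m T F h1 h2 h3 h4 h5 h6 f hf hfS
  obtain ⟨Ψ, hΨ⟩ := hD2 K c.Q κ hκ (AuxE12.gen_Q c)
  have hmem : ∀ g ∈ LatV c κ, g ∈ AuxE12.Lval (O := O) κ Ψ := fun g hg =>
    (hE2 O K k c κ hκ Ψ hΨ g).1 hg
  exact AuxE6.main c hΨ m T F h1 h2 h3 (fun j hj => hmem _ (h4 j hj)) h5 h6 f (hmem f hf) hfS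

end Pool.Agent.JC3
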