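import Pool.Agent.JC3.Basic

/-!
Digits of the codes `enc w` and the exchange of digits.
-/

set_option autoImplicit false

namespace Pool.Agent.JC3.AuxF2

/-- number with base 64 digits l -/
def DD (l : List ℕ) : ℕ := l.foldr (fun d acc => d + 64 * acc) 0

lemma DD_cons (d : ℕ) (l : List ℕ) : DD (d :: l) = d + 64 * DD l := rfl

lemma DD_append (l m : List ℕ) : DD (l ++ m) = DD l + 64 ^ l.length * DD m := by
  induction l with
  | nil => simp [DD]
  | cons d l ih =>
    rw [List.cons_append, DD_cons, ih, DD_cons, List.length_cons, pow_succ]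
    ring

/-- the digits of the code of a word -/
def digs (w : List ℕ) : List ℕ := (List.range w.length).map (fun p => (cont w p + 32).toNat)

lemma enc_eq (w : List ℕ) : enc w = DD (digs w) := by
  unfold enc DD digs
  rw [List.foldr_map, List.foldr_map]

lemma dig_DD : ∀ (l : List ℕ) (p : ℕ), (∀ d ∈ l, d < 64) → dig (DD l) p = l.getD p 0
  | [], p, _ => by
    unfold dig DD
    simp
  | d :: l, 0, h => by
    have := h d (List.mem_cons_self ..)
    unfold dig
    rw [DD_cons, Nat.mul_zero, Nat.shiftRight_zero, List.getD_cons_zero]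
    omega
  | d :: l, p + 1, h => by
    have h0 := h d (List.mem_cons_self ..)
    have ih := dig_DD l p (fun x hx => h x (List.mem_cons_of_mem _ hx))
    rw [List.getD_cons_succ, ← ih, DD_cons]
    unfold dig
    congr 1
    rw [show 6 * (p + 1) = 6 + 6 * p by ring, Nat.shiftRight_add]
    congr 1
    rw [Nat.shiftRight_eq_div_pow]
    omega

lemma digs_length (w : List ℕ) : (digs w).length = w.length := by
  simp [digs]

lemma digs_getD {w : List ℕ} {p : ℕ} (h : p < w.length) :
    (digs w).getD p 0 = (cont w p + 32).toNat := by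
  unfold digs
  rw [List.getD_eq_getElem?_getD, List.getElem?_map, List.getElem?_range h]
  rfl

/-- contents of words of length 30 with letters less than 32 -/
lemma cont_bounds {w : List ℕ} (hl : w.length = 30) (hx : ∀ x ∈ w, x < 32) (p : ℕ) (hp : p < 30) :
    -32 ≤ cont w p ∧ cont w p < 32 := by
  unfold cont
  have h1 : (w.take p).count (w.getD p 0) ≤ p :=
    List.count_le_length.trans (by rw [List.length_take]; omega)
  have h2 : w.getD p 0 < 32 := by
    rw [List.getD_eq_getElem _ _ (by omega)]
    exact hx _ (List.getElem_mem _)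
  omega

lemma digs_lt {w : List ℕ} (hl : w.length = 30) (hx : ∀ x ∈ w, x < 32) : ∀ d ∈ digs w, d < 64 := by
  intro d hd
  unfold digs at hd
  rw [List.mem_map] at hd
  obtain ⟨p, hp, rfl⟩ := hd
  rw [List.mem_range, hl] at hp
  have := cont_bounds hl hx p hp
  omega

/-- the digits of the code of a word -/
lemma dig_enc {w : List ℕ} (hl : w.length = 30) (hx : ∀ x ∈ w, x < 32) {p : ℕ} (hp : p < 30) :
    dig (enc w) p = (cont w p + 32).toNat := by
  rw [enc_eq, dig_DD _ _ (digs_lt hl hx), digs_getD (by omega)]

lemma dig_enc_int {w : List ℕ} (hl : w.length = 30) (hx : ∀ x ∈ w, x < 32) {p : ℕ} (hp : p < 30) :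
    (dig (enc w) p : ℤ) = cont w p + 32 := by
  rw [dig_enc hl hx hp]
  have := cont_bounds hl hx p hp
  omega

lemma swp_DD (l m : List ℕ) (a b : ℕ) :
    swp (DD (l ++ a :: b :: m)) l.length a b = DD (l ++ b :: a :: m) := by
  unfold swp
  rw [DD_append, DD_append, DD_cons, DD_cons, DD_cons, DD_cons, pow_succ]
  generalize 64 ^ l.length = P
  generalize DD m = z
  generalize DD l = y
  apply Nat.sub_eq_of_eq_add
  ring

lemma ext_getD {l m : List ℕ} (h : l.length = m.length) (h2 : ∀ p < l.length, l.getD p 0 = m.getD p 0) :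
    l = m := by
  apply List.ext_getElem h
  intro p h3 h4
  have := h2 p h3
  rwa [List.getD_eq_getElem _ _ h3, List.getD_eq_getElem _ _ h4] at this

/-- exchange of different letters = exchange of digits -/
lemma enc_swapAt {w : List ℕ} {k : ℕ} (h : k + 1 < w.length)
    (hne : w.getD k 0 ≠ w.getD (k + 1) 0) :
    enc (swapAt k w) = swp (enc w) k (cont w k + 32).toNat (cont w (k + 1) + 32).toNat := by
  have h1 : k + 1 < (digs w).length := by rw [digs_length]; exact h
  obtain ⟨pre, x, y, post, hp, e⟩ := exists_split (digs w) k h1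
  have ex : (cont w k + 32).toNat = x := by
    rw [← digs_getD (by omega), e, ← hp, getD_split0]
  have ey : (cont w (k + 1) + 32).toNat = y := by
    rw [← digs_getD h, e, ← hp, getD_split1]
  have e2 : digs (swapAt k w) = swapAt k (digs w) := by
    apply ext_getD
    · rw [digs_length, swapAt_length, swapAt_length, digs_length]
    · intro p hp
      rw [digs_length, swapAt_length] at hp
      rw [digs_getD (by rw [swapAt_length]; exact hp)]
      by_cases e1 : p = k
      · subst e1
        rw [cont_swapAt0 w p h hne, getD_swapAt0 _ _ h1, digs_getD h]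
      · by_cases e2 : p = k + 1
        · subst e2
          rw [cont_swapAt1 w k h hne, getD_swapAt1 _ _ h1, digs_getD (by omega)]
        · rw [cont_swapAt_of_ne w k p h e1 e2, getD_swapAt_of_ne _ _ _ h1 e1 e2, digs_getD hp]
  rw [enc_eq, enc_eq, e2, ex, ey, e, ← hp, swapAt_append, swp_DD]

lemma enc_swapAt' {w : List ℕ} (hl : w.length = 30) (hx : ∀ x ∈ w, x < 32) {k : ℕ} (h : k + 1 < 30)
    (hne : w.getD k 0 ≠ w.getD (k + 1) 0) :
    enc (swapAt k w) = swp (enc w) k (dig (enc w) k) (dig (enc w) (k + 1)) := by
  rw [enc_swapAt (by omega) hne, dig_enc hl hx (by omega), dig_enc hl hx h]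

lemma lt_of_perm_kap {w : List ℕ} (h : w.Perm (rowWord kap)) : w.length = 30 ∧ ∀ x ∈ w, x < 32 := by
  refine ⟨?_, ?_⟩
  · rw [length_of_perm h]; decide
  · intro x hx
    have h2 : ∀ y ∈ rowWord kap, y < 32 := by decide
    exact h2 x (h.subset hx)

end Pool.Agent.JC3.AuxF2
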