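import Pool.Agent.JC3.Stmts

/-!
Words, contents, codes and leading terms: preparations for the parts F1 and F2.
-/

set_option autoImplicit false

namespace Pool.Agent.JC3.AuxF

/-! ### exchanging two letters -/

theorem swapAt_append (pre : List ℕ) (x y : ℕ) (post : List ℕ) :
    swapAt pre.length (pre ++ x :: y :: post) = pre ++ y :: x :: post := by
  induction pre with
  | nil => rfl
  | cons a pre ih => simp [swapAt, ih]

theorem split2 (w : List ℕ) (k : ℕ) (h : k + 1 < w.length) :
    ∃ (pre : List ℕ) (x y : ℕ) (post : List ℕ), w = pre ++ x :: y :: post ∧ pre.length = k := by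
  refine ⟨w.take k, w[k], w[k + 1], w.drop (k + 2), ?_, ?_⟩
  · conv_lhs => rw [← List.take_append_drop k w]
    congr 1
    rw [List.drop_eq_getElem_cons (by omega), List.drop_eq_getElem_cons (by omega)]
  · rw [List.length_take]
    omega

theorem swapAt_swapAt (k : ℕ) (w : List ℕ) : swapAt k (swapAt k w) = w := by
  induction k generalizing w with
  | zero =>
    rcases w with _ | ⟨x, _ | ⟨y, l⟩⟩ <;> rfl
  | succ k ih =>
    rcases w with _ | ⟨x, l⟩
    · rfl
    · simp [swapAt, ih]

theorem swapAt_perm (k : ℕ) (w : List ℕ) : (swapAt k w).Perm w := by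
  induction k generalizing w with
  | zero =>
    rcases w with _ | ⟨x, _ | ⟨y, l⟩⟩
    · exact List.Perm.refl _
    · exact List.Perm.refl _
    · exact List.Perm.swap _ _ _
  | succ k ih =>
    rcases w with _ | ⟨x, l⟩
    · exact List.Perm.refl _
    · exact (ih l).cons x

theorem getD0 (pre : List ℕ) (x : ℕ) (post : List ℕ) :
    (pre ++ x :: post).getD pre.length 0 = x := by
  induction pre with
  | nil => rfl
  | cons a pre ih => simp

theorem getD1 (pre : List ℕ) (x y : ℕ) (post : List ℕ) :
    (pre ++ x :: y :: post).getD (pre.length + 1) 0 = y := by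
  induction pre with
  | nil => rfl
  | cons a pre ih => simp

/-! ### Yamanouchi words -/

/-- recursive form of the condition -/
def YF : List ℕ → List ℕ → Prop
  | _, [] => True
  | pre, z :: l => (∀ x, z = x + 1 → pre.count (x + 1) < pre.count x) ∧ YF (pre ++ [z]) l

theorem YF_append (pre l m : List ℕ) : YF pre (l ++ m) ↔ YF pre l ∧ YF (pre ++ l) m := by
  induction l generalizing pre with
  | nil => simp [YF]
  | cons z l ih => simp [YF, ih, and_assoc]

theorem YF_perm (pre pre' l : List ℕ) (h : pre.Perm pre') : YF pre l → YF pre' l := by
  induction l generalizing pre pre' with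
  | nil => simp [YF]
  | cons z l ih =>
    rintro ⟨h1, h2⟩
    refine ⟨fun x hx => ?_, ih _ _ (h.append_right [z]) h2⟩
    rw [← h.count_eq, ← h.count_eq]
    exact h1 x hx

theorem yam_aux (pre l : List ℕ) : YF pre l ↔ ∀ (p : List ℕ) (x : ℕ) (post : List ℕ),
    l = p ++ (x + 1) :: post → (pre ++ p).count (x + 1) < (pre ++ p).count x := by
  induction l generalizing pre with
  | nil => simp [YF]
  | cons z l ih =>
    simp only [YF, ih]
    constructor
    · rintro ⟨h1, h2⟩ p x post h
      rcases p with _ | ⟨a, p⟩
      · simp only [List.nil_append, List.cons.injEq] at h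
        rw [List.append_nil]
        exact h1 x h.1
      · simp only [List.cons_append, List.cons.injEq] at h
        obtain ⟨rfl, rfl⟩ := h
        have := h2 p x post rfl
        simpa using this
    · intro h
      refine ⟨fun x hx => ?_, fun p x post hp => ?_⟩
      · subst hx
        have := h [] x l rfl
        simpa using this
      · subst hp
        have := h (z :: p) x post rfl
        simpa using this

theorem yam_iff (w : List ℕ) : Yam w ↔ YF [] w := by
  rw [yam_aux]
  simp only [List.nil_append]
  exact Iff.rfl

theorem YF_mono (l : List ℕ) (h : YF [] l) (x y : ℕ) (hxy : x ≤ y) : l.count y ≤ l.count x := by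
  have key : ∀ x, l.count (x + 1) ≤ l.count x := by
    induction l using List.reverseRecOn with
    | nil => simp
    | append_singleton l z ih =>
      intro x
      rw [YF_append] at h
      obtain ⟨h1, h2⟩ := h
      have h3 := ih h1 x
      simp only [List.nil_append] at h2
      rw [List.count_append, List.count_append]
      by_cases hz : z = x + 1
      · have h4 := h2.1 x hz
        have h5 : [z].count (x + 1) ≤ 1 := (List.count_le_length).trans (by simp)
        omega
      · have h5 : [z].count (x + 1) = 0 := by
          rw [List.count_eq_zero]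
          simp
          exact fun h => hz h.symm
        omega
  induction y, hxy using Nat.le_induction with
  | base => exact le_rfl
  | succ y _ ih => exact (key y).trans ih

/-! ### contents -/

/-- the list of the contents of the letters of the second word, read after the first one -/
def cl : List ℕ → List ℕ → List ℤ
  | _, [] => []
  | pre, z :: l => ((z : ℤ) - (pre.count z : ℤ)) :: cl (pre ++ [z]) l

theorem cl_length (pre l : List ℕ) : (cl pre l).length = l.length := by
  induction l generalizing pre with
  | nil => rfl
  | cons z l ih => simp [cl, ih]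

theorem cl_append (pre l m : List ℕ) : cl pre (l ++ m) = cl pre l ++ cl (pre ++ l) m := by
  induction l generalizing pre with
  | nil => simp [cl]
  | cons z l ih => simp [cl, ih]

theorem cl_perm (pre pre' l : List ℕ) (h : pre.Perm pre') : cl pre l = cl pre' l := by
  induction l generalizing pre pre' with
  | nil => rfl
  | cons z l ih =>
    simp only [cl]
    rw [h.count_eq, ih _ _ (h.append_right [z])]

theorem cont_append (pre : List ℕ) (z : ℕ) (l : List ℕ) :
    cont (pre ++ z :: l) pre.length = (z : ℤ) - (pre.count z : ℤ) := by
  unfold cont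
  rw [getD0, List.take_left' rfl]

theorem map_cont_aux (pre l : List ℕ) :
    (List.range l.length).map (fun i => cont (pre ++ l) (pre.length + i)) = cl pre l := by
  induction l generalizing pre with
  | nil => rfl
  | cons z l ih =>
    rw [List.length_cons, List.range_succ_eq_map, List.map_cons, List.map_map, cl, ← ih]
    congr 1
    · rw [Nat.add_zero, cont_append]
    · apply List.map_congr_left
      intro i _
      simp only [Function.comp_apply, List.append_assoc, List.cons_append, List.nil_append,
        List.length_append, List.length_cons, List.length_nil]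
      congr 1
      omega

theorem map_cont (w : List ℕ) : (List.range w.length).map (cont w) = cl [] w := by
  rw [← map_cont_aux]
  simp

theorem resid_eq (w : List ℕ) : resid w = (cl [] w).map (fun c => (c % 3).toNat) := by
  rw [← map_cont, List.map_map]
  rfl

/-- the number with the digits given by a list of contents -/
def ofD (L : List ℤ) : ℕ := L.foldr (fun c acc => (c + 32).toNat + 64 * acc) 0

theorem enc_eq (w : List ℕ) : enc w = ofD (cl [] w) := by
  rw [← map_cont]
  rfl

theorem ofD_cons (a : ℤ) (L : List ℤ) : ofD (a :: L) = (a + 32).toNat + 64 * ofD L := rfl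

theorem ofD_append (L M : List ℤ) : ofD (L ++ M) = ofD L + 64 ^ L.length * ofD M := by
  induction L with
  | nil => simp [ofD]
  | cons a L ih =>
    rw [List.cons_append, ofD_cons, ofD_cons, ih, List.length_cons]
    ring

theorem ofD_lt (L : List ℤ) (h : ∀ c ∈ L, c < 32) : ofD L < 64 ^ L.length := by
  induction L with
  | nil => simp [ofD]
  | cons a L ih =>
    have h1 := ih (fun c hc => h c (by simp [hc]))
    have h2 : (a + 32).toNat < 64 := by
      have := h a (by simp)
      omega
    rw [ofD_cons, List.length_cons, pow_succ]
    omega

theorem dig_ofD (L M : List ℤ) (a : ℤ) (h : ∀ c ∈ L, c < 32) (ha : a < 32) :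
    dig (ofD (L ++ a :: M)) L.length = (a + 32).toNat := by
  unfold dig
  have h1 := ofD_lt L h
  have h2 : (a + 32).toNat < 64 := by omega
  have e : (2 : ℕ) ^ (6 * L.length) = 64 ^ L.length := by
    rw [pow_mul]
    norm_num
  rw [Nat.shiftRight_eq_div_pow, e, ofD_append, ofD_cons, Nat.add_mul_div_left _ _ (by positivity),
    Nat.div_eq_of_lt h1, zero_add, Nat.add_mul_mod_self_left, Nat.mod_eq_of_lt h2]

theorem swp_ofD (L M : List ℤ) (a b : ℤ) :
    swp (ofD (L ++ a :: b :: M)) L.length (a + 32).toNat (b + 32).toNat =
      ofD (L ++ b :: a :: M) := by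
  unfold swp
  simp only [ofD_append, ofD_cons]
  apply Nat.sub_eq_of_eq_add
  ring

/-! ### the words of the problem -/

/-- Yamanouchi words with the letters of the row word -/
def YW (w : List ℕ) : Prop := Yam w ∧ w.Perm (rowWord kap)

theorem perm_length {w : List ℕ} (h : w.Perm (rowWord kap)) : w.length = 30 := by
  rw [h.length_eq]
  decide +kernel

theorem perm_le {w : List ℕ} (h : w.Perm (rowWord kap)) : ∀ z ∈ w, z ≤ 5 := by
  intro z hz
  have h1 : ∀ z ∈ rowWord kap, z ≤ 5 := by decide +kernel
  exact h1 z (h.mem_iff.1 hz)

theorem cl_bound (pre l : List ℕ) (h : ∀ z ∈ l, z ≤ 5) :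
    ∀ c ∈ cl pre l, -((pre.length + l.length : ℕ) : ℤ) ≤ c ∧ c ≤ 5 := by
  induction l generalizing pre with
  | nil => simp [cl]
  | cons z l ih =>
    intro c hc
    simp only [cl, List.mem_cons] at hc
    rcases hc with hc | hc
    · have h1 : pre.count z ≤ pre.length := List.count_le_length
      have h2 := h z (by simp)
      subst hc
      simp only [List.length_cons]
      omega
    · have := ih (pre ++ [z]) (fun y hy => h y (by simp [hy])) c hc
      simp only [List.length_append, List.length_cons, List.length_nil] at this ⊢
      omega

theorem cl_bound' {w : List ℕ} (h : w.Perm (rowWord kap)) : ∀ c ∈ cl [] w, -30 ≤ c ∧ c ≤ 5 := by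
  intro c hc
  have := cl_bound [] w (perm_le h) c hc
  rw [perm_length h] at this
  simpa using this

/-- all facts on two adjacent letters of a Yamanouchi word -/
theorem two (w : List ℕ) (hw : YW w) (k : ℕ) (hk : k + 1 < 30) :
    ∃ (x y : ℕ) (a b : ℤ), w.getD k 0 = x ∧ w.getD (k + 1) 0 = y ∧ cont w k = a ∧
      cont w (k + 1) = b ∧ -30 ≤ a ∧ a ≤ 5 ∧ -30 ≤ b ∧ b ≤ 5 ∧
      dig (enc w) k = (a + 32).toNat ∧ dig (enc w) (k + 1) = (b + 32).toNat ∧
      (x = y → b = a - 1 ∧ swapAt k w = w) ∧
      (x < y → a < b) ∧ (y < x → b + 2 ≤ a) ∧
      ((resid w).getD k 0 = (a % 3).toNat ∧ (resid w).getD (k + 1) 0 = (b % 3).toNat ∧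
        (resid w).length = 30) ∧
      (x ≠ y → (swapAt k w).getD k 0 = y ∧ (swapAt k w).getD (k + 1) 0 = x ∧
        cont (swapAt k w) k = b ∧ cont (swapAt k w) (k + 1) = a ∧
        enc (swapAt k w) = swp (enc w) k (a + 32).toNat (b + 32).toNat ∧
        resid (swapAt k w) = swapAt k (resid w) ∧ (b ≠ a + 1 → YW (swapAt k w))) := by
  obtain ⟨hy, hp⟩ := hw
  have hlen := perm_length hp
  obtain ⟨pre, x, y, post, rfl, rfl⟩ := split2 w k (by omega)
  have hy' := hy
  rw [yam_iff, YF_append] at hy'
  obtain ⟨hy1, hy2, hy3, hy4⟩ := hy'
  simp only [List.nil_append] at hy2 hy3 hy4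
  have hb := cl_bound' hp
  rw [cl_append] at hb
  simp only [List.nil_append, cl] at hb
  have e1 : cont (pre ++ x :: y :: post) pre.length = (x : ℤ) - (pre.count x : ℤ) := cont_append _ _ _
  have e2 : cont (pre ++ x :: y :: post) (pre.length + 1) =
      (y : ℤ) - ((pre ++ [x]).count y : ℤ) := by
    have := cont_append (pre ++ [x]) y post
    simpa using this
  have e3 : cl [] (pre ++ x :: y :: post) = cl [] pre ++ ((x : ℤ) - (pre.count x : ℤ)) ::
      ((y : ℤ) - ((pre ++ [x]).count y : ℤ)) :: cl (pre ++ [x] ++ [y]) post := by
    rw [cl_append]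
    simp only [List.nil_append, cl]
  have hba := hb ((x : ℤ) - (pre.count x : ℤ)) (by simp)
  have hbb := hb ((y : ℤ) - ((pre ++ [x]).count y : ℤ)) (by simp)
  have hcl : (cl [] pre).length = pre.length := cl_length _ _
  refine ⟨x, y, (x : ℤ) - (pre.count x : ℤ), (y : ℤ) - ((pre ++ [x]).count y : ℤ), getD0 _ _ _,
    getD1 _ _ _ _, e1, e2, hba.1, hba.2, hbb.1, hbb.2, ?_, ?_, ?_, ?_, ?_, ?_, ?_⟩
  · rw [enc_eq, e3]
    have := dig_ofD (cl [] pre) (((y : ℤ) - ((pre ++ [x]).count y : ℤ)) ::
      cl (pre ++ [x] ++ [y]) post) ((x : ℤ) - (pre.count x : ℤ)) (fun c hc => by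
        have := hb c (by simp [hc])
        omega) (by omega)
    rw [hcl] at this
    exact this
  · rw [enc_eq, e3]
    have := dig_ofD (cl [] pre ++ [((x : ℤ) - (pre.count x : ℤ))])
      (cl (pre ++ [x] ++ [y]) post) ((y : ℤ) - ((pre ++ [x]).count y : ℤ)) (fun c hc => by
        have := hb c (by
          simp only [List.mem_append, List.mem_cons, List.not_mem_nil, or_false] at hc ⊢
          tauto)
        omega) (by omega)
    rw [List.length_append, hcl, List.append_assoc] at this
    exact this
  · rintro rfl
    refine ⟨?_, swapAt_append _ _ _ _⟩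
    rw [List.count_append]
    have : [x].count x = 1 := by simp
    rw [this]
    push_cast
    ring
  · intro h
    have h1 := YF_mono pre hy1 x y h.le
    have h2 : (pre ++ [x]).count y = pre.count y := by
      rw [List.count_append, List.count_singleton]
      have : ¬ (x == y) = true := by simpa using h.ne
      simp [this]
    rw [h2]
    omega
  · intro h
    obtain ⟨z, rfl⟩ : ∃ z, x = z + 1 := ⟨x - 1, by omega⟩
    have h0 := hy2 z rfl
    have h1 := YF_mono pre hy1 y z (by omega)
    have h2 : (pre ++ [z + 1]).count y = pre.count y := by
      rw [List.count_append, List.count_singleton]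
      have : ¬ (z + 1 == y) = true := by simpa using h.ne'
      simp [this]
    rw [h2]
    push_cast
    omega
  · rw [resid_eq, e3, List.map_append, List.map_cons, List.map_cons]
    have e4 : ((cl [] pre).map (fun c => (c % 3).toNat)).length = pre.length := by
      rw [List.length_map, hcl]
    refine ⟨?_, ?_, ?_⟩
    · conv_lhs => rw [← e4]
      exact getD0 _ _ _
    · conv_lhs => rw [← e4]
      exact getD1 _ _ _ _
    · rw [← hlen]
      simp [cl_length]
  · intro hxy
    rw [swapAt_append]
    have h2 : (pre ++ [x]).count y = pre.count y := by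
      rw [List.count_append, List.count_singleton]
      have : ¬ (x == y) = true := by simpa using hxy
      simp [this]
    have h3 : (pre ++ [y]).count x = pre.count x := by
      rw [List.count_append, List.count_singleton]
      have : ¬ (y == x) = true := by simpa using (Ne.symm hxy)
      simp [this]
    have e5 : cl [] (pre ++ y :: x :: post) = cl [] pre ++
      ((y : ℤ) - ((pre ++ [x]).count y : ℤ)) :: ((x : ℤ) - (pre.count x : ℤ)) ::
        cl (pre ++ [x] ++ [y]) post := by
      rw [cl_append]
      simp only [List.nil_append, cl, h2, h3]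
      rw [cl_perm (pre ++ [y] ++ [x]) (pre ++ [x] ++ [y])]
      rw [List.append_assoc, List.append_assoc]
      exact List.Perm.append_left _ (List.Perm.swap _ _ _)
    refine ⟨getD0 _ _ _, getD1 _ _ _ _, ?_, ?_, ?_, ?_, ?_⟩
    · rw [cont_append, h2]
    · have := cont_append (pre ++ [y]) x post
      simp only [List.append_assoc, List.cons_append, List.nil_append, List.length_append,
        List.length_cons, List.length_nil, zero_add] at this
      rw [this]
      have h3' : List.count x (pre ++ [y]) = List.count x pre := h3
      rw [h3']
    · rw [enc_eq, enc_eq, e3, e5, ← hcl, swp_ofD]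
    · rw [resid_eq, resid_eq, e3, e5, List.map_append, List.map_cons, List.map_cons,
        List.map_append, List.map_cons, List.map_cons]
      have e4 : ((cl [] pre).map (fun c => (c % 3).toNat)).length = pre.length := by
        rw [List.length_map, hcl]
      conv_rhs => rw [← e4]
      rw [swapAt_append]
    · intro hab
      refine ⟨?_, ?_⟩
      · rw [yam_iff, YF_append]
        refine ⟨hy1, ?_, ?_, ?_⟩
        · intro z hz
          simp only [List.nil_append]
          have h4 := hy3 z hz
          rw [List.count_append, List.count_append, List.count_singleton, List.count_singleton] at h4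
          by_cases hxz : x = z
          · -- y = x + 1
            subst hxz
            subst hz
            have h5 := YF_mono pre hy1 x (x + 1) (by omega)
            have h6 : pre.count (x + 1) ≠ pre.count x := by
              intro h7
              apply hab
              rw [h2, h7]
              push_cast
              ring
            omega
          · have h5 : (x == z) = false := by simpa using hxz
            have h6 : (x == z + 1) = false := by
              rw [← hz]
              simpa using hxy
            rw [h5, h6] at h4
            simpa using h4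
        · intro z hz
          simp only [List.nil_append]
          have h4 := hy2 z hz
          rw [List.count_append, List.count_append, List.count_singleton, List.count_singleton]
          have h6 : (y == z + 1) = false := by
            rw [← hz]
            simpa using (Ne.symm hxy)
          rw [h6]
          simp only [Bool.false_eq_true, if_false, add_zero]
          omega
        · refine YF_perm _ _ _ ?_ hy4
          simp only [List.nil_append]
          rw [List.append_assoc, List.append_assoc]
          exact List.Perm.append_left _ (List.Perm.swap _ _ _)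
      · refine List.Perm.trans ?_ hp
        exact List.Perm.append_left _ (List.Perm.swap _ _ _)

/-- Boolean form of the condition -/
def yb : List ℕ → List ℕ → Bool
  | _, [] => true
  | pre, z :: l => (Nat.beq z 0 || decide (pre.count z < pre.count (z - 1))) && yb (pre ++ [z]) l

theorem yb_YF (pre l : List ℕ) (h : yb pre l = true) : YF pre l := by
  induction l generalizing pre with
  | nil => trivial
  | cons z l ih =>
    rw [yb, Bool.and_eq_true, Bool.or_eq_true, Nat.beq_eq, decide_eq_true_eq] at h
    refine ⟨?_, ih _ h.2⟩
    rintro x rfl
    rcases h.1 with h1 | h1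
    · omega
    · simpa using h1

theorem yam_of_yb (w : List ℕ) (h : yb [] w = true) : Yam w := (yam_iff w).2 (yb_YF _ _ h)

theorem yw_tk : YW tk := ⟨yam_of_yb _ (by decide +kernel), List.Perm.refl _⟩

/-- the contents are determined by the code -/
theorem enc_inj (hA5 : StmtA5) {w w' : List ℕ} (hw : YW w) (hw' : YW w') (h : enc w = enc w') :
    w = w' := by
  have key : ∀ u : List ℕ, u.Perm (rowWord kap) → ∀ p < u.length,
      dig (enc u) p = (cont u p + 32).toNat ∧ -30 ≤ cont u p := by
    intro u hu p hp
    have hb := cl_bound' hu
    obtain ⟨pre, z, post, rfl, rfl⟩ : ∃ (pre : List ℕ) (z : ℕ) (post : List ℕ),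
        u = pre ++ z :: post ∧ pre.length = p := by
      refine ⟨u.take p, u[p], u.drop (p + 1), ?_, ?_⟩
      · conv_lhs => rw [← List.take_append_drop p u]
        congr 1
        rw [List.drop_eq_getElem_cons (by omega)]
      · rw [List.length_take]
        omega
    rw [cl_append] at hb
    simp only [List.nil_append, cl] at hb
    have e3 : cl [] (pre ++ z :: post) = cl [] pre ++ ((z : ℤ) - (pre.count z : ℤ)) ::
        cl (pre ++ [z]) post := by
      rw [cl_append]
      simp only [List.nil_append, cl]
    have hcl : (cl [] pre).length = pre.length := cl_length _ _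
    have hbz := hb ((z : ℤ) - (pre.count z : ℤ)) (by simp)
    rw [cont_append, enc_eq, e3]
    refine ⟨?_, hbz.1⟩
    conv_lhs => rw [← hcl]
    exact dig_ofD _ _ _ (fun c hc => by
        have := hb c (by simp [hc])
        omega) (by omega)
  apply hA5 w w' hw.1 hw'.1
  · rw [perm_length hw.2, perm_length hw'.2]
  · intro p hp
    have h1 := key w hw.2 p hp
    have h2 := key w' hw'.2 p (by rw [perm_length hw'.2, ← perm_length hw.2]; exact hp)
    rw [h] at h1
    omega

end Pool.Agent.JC3.AuxF
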