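import Pool.Agent.JC3.F0

/-!
Leading terms: preparations for the parts F1 and F2.
-/

set_option autoImplicit false

namespace Pool.Agent.JC3.AuxF

section
variable {O K k : Type} [CommRing O] [IsDomain O] [Field K] [Algebra O K]
    [IsFractionRing O K] [Field k] (c : Ctx O K k)

include c

/-- x = theta^m y with y in O and residue ξ -/
def HL (m : ℤ) (ξ : k) (x : K) : Prop := ∃ y : O, x = c.Th ^ m * algebraMap O K y ∧ c.π y = ξ

theorem Th_eq : c.Th = algebraMap O K (1 + c.q + c.q ^ 2) := by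
  simp [Ctx.Th, Ctx.Q]

theorem alg_ne {x : O} (h : x ≠ 0) : algebraMap O K x ≠ 0 := by
  have := c.θ0
  rw [Ne, IsFractionRing.to_map_eq_zero_iff]
  exact h

theorem Th_ne : c.Th ≠ 0 := by
  rw [Th_eq]
  exact alg_ne c c.θ0

theorem r3 : 1 + c.r + c.r ^ 2 = 0 := by
  have := (c.ker (1 + c.q + c.q ^ 2)).2 dvd_rfl
  simpa [Ctx.r] using this

theorem r_cube : c.r ^ 3 = 1 := by
  linear_combination (c.r - 1) * r3 c

theorem r_ne : c.r ≠ 0 := by
  intro h
  have := r_cube c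
  rw [h] at this
  norm_num at this

theorem Q_gen : Gen c.Q := by
  constructor
  · apply alg_ne c
    intro h
    have := r_ne c
    rw [Ctx.r, h, map_zero] at this
    exact this rfl
  · intro m hm h
    apply c.nru m hm
    apply IsFractionRing.injective O K
    rw [map_pow, map_one]
    exact h

theorem Q_ne : c.Q ≠ 0 := (Q_gen c).1

theorem Q_one : c.Q ≠ 1 := by
  have := (Q_gen c).2 1 one_pos
  rwa [pow_one] at this

theorem led_iff (v : CV) (x : K) : Led c v x ↔ (((v.2.2 : ℕ) : k) ≠ 0 →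
    HL c ((v.1 : ℤ) - 100) (((v.2.1 : ℤ) : k) / ((v.2.2 : ℕ) : k)) x) := Iff.rfl

theorem HL_mul {m m' : ℤ} {ξ ξ' : k} {x x' : K} (h : HL c m ξ x) (h' : HL c m' ξ' x') :
    HL c (m + m') (ξ * ξ') (x * x') := by
  obtain ⟨y, rfl, rfl⟩ := h
  obtain ⟨y', rfl, rfl⟩ := h'
  refine ⟨y * y', ?_, by rw [map_mul]⟩
  rw [zpow_add₀ (Th_ne c), map_mul]
  ring

theorem HL_add {m : ℤ} {ξ ξ' : k} {x x' : K} (h : HL c m ξ x) (h' : HL c m ξ' x') :
    HL c m (ξ + ξ') (x + x') := by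
  obtain ⟨y, rfl, rfl⟩ := h
  obtain ⟨y', rfl, rfl⟩ := h'
  refine ⟨y + y', ?_, by rw [map_add]⟩
  rw [map_add]
  ring

theorem HL_up {m : ℤ} {ξ : k} {x : K} (n : ℕ) (hn : 0 < n) (h : HL c (m + n) ξ x) :
    HL c m 0 x := by
  obtain ⟨y, rfl, rfl⟩ := h
  refine ⟨(1 + c.q + c.q ^ 2) ^ n * y, ?_, ?_⟩
  · rw [zpow_add₀ (Th_ne c), map_mul, map_pow, ← Th_eq, zpow_natCast]
    ring
  · have h0 : c.π (1 + c.q + c.q ^ 2) = 0 := (c.ker _).2 dvd_rfl
    rw [map_mul, map_pow, h0, zero_pow hn.ne', zero_mul]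

theorem HL_neg {m : ℤ} {ξ : k} {x : K} (h : HL c m ξ x) : HL c m (-ξ) (-x) := by
  obtain ⟨y, rfl, rfl⟩ := h
  refine ⟨-y, ?_, by rw [map_neg]⟩
  rw [map_neg]
  ring

theorem HL_inv {m : ℤ} {ξ : k} {x : K} (h : HL c m ξ x) (hξ : ξ ≠ 0) : HL c (-m) ξ⁻¹ x⁻¹ := by
  obtain ⟨y, rfl, rfl⟩ := h
  obtain ⟨u, rfl⟩ := c.unit y hξ
  have h1 : (u : O) * ((u⁻¹ : Oˣ) : O) = 1 := u.mul_inv
  refine ⟨((u⁻¹ : Oˣ) : O), ?_, ?_⟩
  · rw [mul_inv, zpow_neg]
    congr 1
    apply inv_eq_of_mul_eq_one_right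
    rw [← map_mul, h1, map_one]
  · apply eq_inv_of_mul_eq_one_left
    rw [← map_mul, mul_comm, h1, map_one]

theorem HL_zero (m : ℤ) : HL c m 0 (0 : K) := ⟨0, by simp, by simp⟩

theorem HL_of (y : O) : HL c 0 (c.π y) (algebraMap O K y) := ⟨y, by simp, rfl⟩

theorem HL_congr {m m' : ℤ} {ξ ξ' : k} {x x' : K} (h : HL c m ξ x) (hm : m = m') (hξ : ξ = ξ')
    (hx : x = x') : HL c m' ξ' x' := by
  subst hm; subst hξ; subst hx
  exact h

theorem HL_Q : HL c 0 c.r c.Q := HL_of c c.q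

theorem HL_Q_pow (n : ℕ) : HL c 0 (c.r ^ n) (c.Q ^ n) := by
  have := HL_of c (c.q ^ n)
  rw [map_pow, map_pow] at this
  exact this

/-- quantum integers -/
theorem qint_nat (n : ℕ) :
    qint c.Q (n : ℤ) = algebraMap O K (∑ i ∈ Finset.range n, c.q ^ i) := by
  rw [qint, map_sum, zpow_natCast]
  simp only [map_pow]
  exact (geom_sum_eq (Q_one c) n).symm

theorem gs3 (m : ℕ) : ∑ i ∈ Finset.range (3 * m), c.q ^ i =
    (1 + c.q + c.q ^ 2) * ∑ i ∈ Finset.range m, c.q ^ (3 * i) := by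
  induction m with
  | zero => simp
  | succ m ih =>
    rw [show 3 * (m + 1) = 3 * m + 1 + 1 + 1 by ring, Finset.sum_range_succ,
      Finset.sum_range_succ, Finset.sum_range_succ, ih, Finset.sum_range_succ]
    ring

theorem r_pow3 (m : ℕ) : c.r ^ (3 * m) = 1 := by
  rw [pow_mul, r_cube, one_pow]

theorem HL_q0 (m : ℕ) : HL c 1 (m : k) (qint c.Q ((3 * m : ℕ) : ℤ)) := by
  refine ⟨∑ i ∈ Finset.range m, c.q ^ (3 * i), ?_, ?_⟩
  · rw [qint_nat, gs3, map_mul, ← Th_eq, zpow_one]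
  · rw [map_sum]
    simp only [map_pow]
    have : ∀ i, c.π c.q ^ (3 * i) = 1 := fun i => r_pow3 c i
    simp [this]

theorem HL_q1 (m : ℕ) : HL c 0 1 (qint c.Q ((3 * m + 1 : ℕ) : ℤ)) := by
  rw [qint_nat]
  refine HL_congr c (HL_of c _) rfl ?_ rfl
  rw [Finset.sum_range_succ, gs3, map_add, map_mul, (c.ker _).2 dvd_rfl, zero_mul, zero_add,
    map_pow]
  exact r_pow3 c m

theorem HL_q2 (m : ℕ) : HL c 0 (-c.r ^ 2) (qint c.Q ((3 * m + 2 : ℕ) : ℤ)) := by
  rw [qint_nat]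
  refine HL_congr c (HL_of c _) rfl ?_ rfl
  rw [Finset.sum_range_succ, Finset.sum_range_succ, gs3, map_add, map_add, map_mul,
    (c.ker _).2 dvd_rfl, zero_mul, zero_add, map_pow, map_pow]
  have h1 : c.π c.q ^ (3 * m) = 1 := r_pow3 c m
  rw [pow_succ, h1]
  have := r3 c
  rw [Ctx.r] at this ⊢
  linear_combination this

theorem qint_neg (d : ℤ) : qint c.Q (-d) = -(c.Q ^ (-d)) * qint c.Q d := by
  unfold qint
  have h := Q_ne c
  rw [← mul_div_assoc]
  congr 1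
  rw [zpow_neg]
  field_simp
  ring

theorem qint_ne {d : ℤ} (hd : d ≠ 0) : qint c.Q d ≠ 0 := by
  have h := Q_ne c
  have key : ∀ n : ℕ, 0 < n → qint c.Q (n : ℤ) ≠ 0 := by
    intro n hn
    unfold qint
    rw [zpow_natCast]
    exact div_ne_zero (sub_ne_zero.2 ((Q_gen c).2 n hn)) (sub_ne_zero.2 (Q_one c))
  rcases lt_trichotomy d 0 with h1 | h1 | h1
  · obtain ⟨n, hn⟩ : ∃ n : ℕ, d = -(n : ℤ) := ⟨d.natAbs, by omega⟩
    rw [hn, qint_neg]
    exact mul_ne_zero (neg_ne_zero.2 (zpow_ne_zero _ h)) (key n (by omega))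
  · exact absurd h1 hd
  · obtain ⟨n, hn⟩ : ∃ n : ℕ, d = (n : ℤ) := ⟨d.natAbs, by omega⟩
    rw [hn]
    exact key n (by omega)

theorem beta_neg (d : ℤ) : beta c.Q (-d) = beta c.Q d := by
  unfold beta
  have h := Q_ne c
  rcases eq_or_ne d 0 with rfl | hd
  · simp
  have e1 : -d + 1 = -(d - 1) := by ring
  have e2 : -d - 1 = -(d + 1) := by ring
  have h2 := qint_ne c hd
  rw [e1, e2, qint_neg, qint_neg, qint_neg]
  have h3 : c.Q ^ (-(d - 1)) = c.Q ^ (-d) * c.Q := by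
    rw [← zpow_add_one₀ h]
    congr 1
    ring
  have h4 : c.Q ^ (-(d + 1)) * c.Q = c.Q ^ (-d) := by
    rw [← zpow_add_one₀ h]
    congr 1
    ring
  have h5 : c.Q ^ (-d) ≠ 0 := zpow_ne_zero _ h
  rw [h3]
  rw [div_eq_div_iff (pow_ne_zero 2 (mul_ne_zero (neg_ne_zero.2 h5) h2)) (pow_ne_zero 2 h2)]
  rw [← h4]
  ring

theorem alpha_neg {d : ℤ} (hd : d ≠ 0) : alpha c.Q (-d) = -(qint c.Q d)⁻¹ := by
  unfold alpha
  have h := Q_ne c
  have h2 := qint_ne c hd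
  have h5 : c.Q ^ (-d) ≠ 0 := zpow_ne_zero _ h
  rw [qint_neg]
  field_simp

theorem HL_alpha_pos (m : ℕ) (hm : (m : k) ≠ 0) :
    HL c (-1) ((m : k)⁻¹) (alpha c.Q ((3 * m : ℕ) : ℤ)) := by
  unfold alpha
  rw [zpow_natCast, div_eq_mul_inv]
  have h1 := HL_Q_pow c (3 * m)
  rw [r_pow3] at h1
  refine HL_congr c (HL_mul c h1 (HL_inv c (HL_q0 c m) hm)) (by ring) (by ring) rfl

theorem HL_alpha_neg (m : ℕ) (hm : (m : k) ≠ 0) :
    HL c (-1) (-(m : k)⁻¹) (alpha c.Q (-((3 * m : ℕ) : ℤ))) := by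
  have hm0 : m ≠ 0 := by
    rintro rfl
    simp at hm
  rw [alpha_neg c (by omega)]
  exact HL_neg c (HL_inv c (HL_q0 c m) hm)

theorem HL_beta0 (m : ℕ) (hm : (m : k) ≠ 0) :
    HL c (-2) (-((m : k) ^ 2)⁻¹) (beta c.Q ((3 * m : ℕ) : ℤ)) := by
  have hm0 : m ≠ 0 := by
    rintro rfl
    simp at hm
  obtain ⟨n, rfl⟩ : ∃ n, m = n + 1 := ⟨m - 1, by omega⟩
  unfold beta
  have e1 : ((3 * (n + 1) : ℕ) : ℤ) + 1 = ((3 * (n + 1) + 1 : ℕ) : ℤ) := by push_cast; ring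
  have e2 : ((3 * (n + 1) : ℕ) : ℤ) - 1 = ((3 * n + 2 : ℕ) : ℤ) := by push_cast; ring
  rw [e1, e2]
  have h1 := HL_inv c (HL_q0 c (n + 1)) hm
  have h2 := HL_mul c h1 h1
  refine HL_congr c (HL_mul c (HL_mul c (HL_mul c (HL_Q c) (HL_q1 c (n + 1))) (HL_q2 c n)) h2)
    (by norm_num) ?_ (by rw [div_eq_mul_inv, pow_two, mul_inv])
  have := r_cube c
  rw [pow_two ((n + 1 : ℕ) : k), mul_inv]
  linear_combination -(((n + 1 : ℕ) : k)⁻¹ * ((n + 1 : ℕ) : k)⁻¹) * this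

theorem HL_beta1 (m : ℕ) : HL c 1 (-(m : k)) (beta c.Q ((3 * m + 1 : ℕ) : ℤ)) := by
  unfold beta
  have e1 : ((3 * m + 1 : ℕ) : ℤ) + 1 = ((3 * m + 2 : ℕ) : ℤ) := by push_cast; ring
  have e2 : ((3 * m + 1 : ℕ) : ℤ) - 1 = ((3 * m : ℕ) : ℤ) := by push_cast; ring
  rw [e1, e2]
  have h1 := HL_inv c (HL_q1 c m) one_ne_zero
  have h2 := HL_mul c h1 h1
  refine HL_congr c (HL_mul c (HL_mul c (HL_mul c (HL_Q c) (HL_q2 c m)) (HL_q0 c m)) h2)
    (by norm_num) ?_ (by rw [div_eq_mul_inv, pow_two, mul_inv])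
  have := r_cube c
  rw [inv_one]
  linear_combination -(m : k) * this

theorem HL_beta2 (m : ℕ) : HL c 1 ((m : k) + 1) (beta c.Q ((3 * m + 2 : ℕ) : ℤ)) := by
  unfold beta
  have e1 : ((3 * m + 2 : ℕ) : ℤ) + 1 = ((3 * (m + 1) : ℕ) : ℤ) := by push_cast; ring
  have e2 : ((3 * m + 2 : ℕ) : ℤ) - 1 = ((3 * m + 1 : ℕ) : ℤ) := by push_cast; ring
  rw [e1, e2]
  have hr : -c.r ^ 2 ≠ 0 := neg_ne_zero.2 (pow_ne_zero 2 (r_ne c))
  have h1 := HL_inv c (HL_q2 c m) hr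
  have h2 := HL_mul c h1 h1
  refine HL_congr c (HL_mul c (HL_mul c (HL_mul c (HL_Q c) (HL_q0 c (m + 1))) (HL_q1 c m)) h2)
    (by norm_num) ?_ (by rw [div_eq_mul_inv, pow_two, mul_inv])
  have h3 := r_cube c
  have hr0 := r_ne c
  push_cast
  field_simp
  linear_combination -((m : k) + 1) * h3

/-! ### leading terms of tables -/

omit c in
theorem beq_false {a b : ℕ} (h : a ≠ b) : Nat.beq a b = false := by
  rw [← Bool.not_eq_true, Nat.beq_eq]
  exact h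

omit c in
theorem addV_def (e1 : ℕ) (a1 : ℤ) (b1 e2 : ℕ) (a2 : ℤ) (b2 : ℕ) :
    addV (e1, a1, b1) (e2, a2, b2) =
      bif Nat.beq e1 e2 then (e1, a1 * b2 + a2 * b1, b1 * b2)
      else bif Nat.ble e1 e2 then (e1, a1 * b2, b1 * b2) else (e2, a2 * b1, b1 * b2) := rfl

omit c in
theorem mulB_def (d e : ℕ) (n : ℤ) (m : ℕ) :
    mulB d (e, n, m) =
      bif Nat.beq (d % 3) 0 then (e - 2, -n, m * (d / 3) ^ 2)
      else bif Nat.beq (d % 3) 1 then (e + 1, n * -(Int.ofNat (d / 3)), m)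
      else (e + 1, n * (Int.ofNat ((d + 1) / 3)), m) := rfl

theorem led_add {v v' : CV} {x x' : K} (h : Led c v x) (h' : Led c v' x') :
    Led c (addV v v') (x + x') := by
  obtain ⟨e1, a1, b1⟩ := v
  obtain ⟨e2, a2, b2⟩ := v'
  rw [led_iff] at h h' ⊢
  simp only at h h'
  rw [addV_def]
  by_cases he : e1 = e2
  · subst he
    rw [Nat.beq_refl, cond_true]
    simp only
    intro hb
    rw [Nat.cast_mul] at hb
    have hb1 := left_ne_zero_of_mul hb
    have hb2 := right_ne_zero_of_mul hb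
    refine HL_congr c (HL_add c (h hb1) (h' hb2)) rfl ?_ rfl
    push_cast
    field_simp
  · have h0 : Nat.beq e1 e2 = false := beq_false he
    rw [h0, cond_false]
    rcases lt_or_gt_of_ne he with hlt | hlt
    · have h1 : Nat.ble e1 e2 = true := by rw [Nat.ble_eq]; exact hlt.le
      rw [h1, cond_true]
      simp only
      intro hb
      rw [Nat.cast_mul] at hb
      have hb1 := left_ne_zero_of_mul hb
      have hb2 := right_ne_zero_of_mul hb
      have h2 : HL c ((e1 : ℤ) - 100) 0 x' := by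
        refine HL_up c (e2 - e1) (by omega) (HL_congr c (h' hb2) ?_ rfl rfl)
        omega
      refine HL_congr c (HL_add c (h hb1) h2) rfl ?_ rfl
      push_cast
      field_simp
      ring
    · have h1 : Nat.ble e1 e2 = false := by
        rw [← Bool.not_eq_true, Nat.ble_eq]
        omega
      rw [h1, cond_false]
      simp only
      intro hb
      rw [Nat.cast_mul] at hb
      have hb1 := left_ne_zero_of_mul hb
      have hb2 := right_ne_zero_of_mul hb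
      have h2 : HL c ((e2 : ℤ) - 100) 0 x := by
        refine HL_up c (e1 - e2) (by omega) (HL_congr c (h hb1) ?_ rfl rfl)
        omega
      refine HL_congr c (HL_add c h2 (h' hb2)) rfl ?_ rfl
      push_cast
      field_simp
      ring

theorem led_mulB {v : CV} {x : K} (d : ℕ) (h : Led c v x) (hv : 2 ≤ v.1) :
    Led c (mulB d v) (beta c.Q (d : ℤ) * x) := by
  obtain ⟨e, a, b⟩ := v
  rw [led_iff] at h ⊢
  simp only at h hv
  rw [mulB_def]
  have hd : d % 3 = 0 ∨ d % 3 = 1 ∨ d % 3 = 2 := by omega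
  rcases hd with hd | hd | hd
  · rw [hd, show Nat.beq 0 0 = true from rfl, cond_true]
    simp only
    intro hb
    rw [Nat.cast_mul, Nat.cast_pow] at hb
    have hb1 := left_ne_zero_of_mul hb
    have hb2 : ((d / 3 : ℕ) : k) ≠ 0 := fun h0 => (right_ne_zero_of_mul hb) (by rw [h0]; simp)
    have h1 := HL_beta0 c (d / 3) hb2
    rw [show 3 * (d / 3) = d by omega] at h1
    refine HL_congr c (HL_mul c h1 (h hb1)) ?_ ?_ rfl
    · omega
    · push_cast
      field_simp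
  · rw [hd, show Nat.beq 1 0 = false from rfl, cond_false, show Nat.beq 1 1 = true from rfl,
      cond_true]
    simp only
    intro hb
    have h1 := HL_beta1 c (d / 3)
    rw [show 3 * (d / 3) + 1 = d by omega] at h1
    refine HL_congr c (HL_mul c h1 (h hb)) ?_ ?_ rfl
    · push_cast
      ring
    · rw [Int.ofNat_eq_natCast]
      generalize d / 3 = m
      push_cast
      ring
  · rw [hd, show Nat.beq 2 0 = false from rfl, cond_false, show Nat.beq 2 1 = false from rfl,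
      cond_false]
    simp only
    intro hb
    have h1 := HL_beta2 c (d / 3)
    rw [show 3 * (d / 3) + 2 = d by omega] at h1
    refine HL_congr c (HL_mul c h1 (h hb)) ?_ ?_ rfl
    · push_cast
      ring
    · rw [show (d + 1) / 3 = d / 3 + 1 by omega, Int.ofNat_eq_natCast]
      generalize d / 3 = m
      push_cast
      ring

theorem led_alpha_pos {v : CV} {x : K} (d : ℕ) (hd : d % 3 = 0) (h : Led c v x) (hv : 2 ≤ v.1) :
    Led c (v.1 - 1, v.2.1, v.2.2 * (d / 3)) (alpha c.Q (d : ℤ) * x) := by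
  obtain ⟨e, a, b⟩ := v
  rw [led_iff] at h ⊢
  simp only at h hv ⊢
  intro hb
  rw [Nat.cast_mul] at hb
  have hb1 := left_ne_zero_of_mul hb
  have hb2 := right_ne_zero_of_mul hb
  have h1 := HL_alpha_pos c (d / 3) hb2
  rw [show 3 * (d / 3) = d by omega] at h1
  refine HL_congr c (HL_mul c h1 (h hb1)) ?_ ?_ rfl
  · omega
  · push_cast
    field_simp

theorem led_alpha_neg {v : CV} {x : K} (d : ℕ) (hd : d % 3 = 0) (h : Led c v x) (hv : 2 ≤ v.1) :
    Led c (v.1 - 1, -v.2.1, v.2.2 * (d / 3)) (alpha c.Q (-(d : ℤ)) * x) := by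
  obtain ⟨e, a, b⟩ := v
  rw [led_iff] at h ⊢
  simp only at h hv ⊢
  intro hb
  rw [Nat.cast_mul] at hb
  have hb1 := left_ne_zero_of_mul hb
  have hb2 := right_ne_zero_of_mul hb
  have h1 := HL_alpha_neg c (d / 3) hb2
  rw [show 3 * (d / 3) = d by omega] at h1
  refine HL_congr c (HL_mul c h1 (h hb1)) ?_ ?_ rfl
  · omega
  · push_cast
    field_simp

end

end Pool.Agent.JC3.AuxF
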