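import Pool.Agent.JC3.F0L

/-!
Part F1: the tables of the paths describe lattice elements.
-/

set_option autoImplicit false

namespace Pool.Agent.JC3.AuxF1

open Pool.Agent.JC3.AuxF

section
variable {O K k : Type} [CommRing O] [IsDomain O] [Field K] [Algebra O K]
    [IsFractionRing O K] [Field k] (c : Ctx O K k)

/-- the table s describes the function f supported on words with residues r -/
structure Tab (r : List ℕ) (f : List ℕ → K) (s : CS) : Prop where
  nodup : (s.map Prod.fst).Nodup
  word : ∀ e ∈ s, ∃ w, YW w ∧ resid w = r ∧ enc w = e.1 ∧ Led c e.2 (f w)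
  supp : ∀ w, f w ≠ 0 → YW w ∧ ∃ e ∈ s, e.1 = enc w

omit [CommRing O] [IsDomain O] [Algebra O K] [IsFractionRing O K] [Field k] in
theorem ind_self (t : List ℕ) : ind K t t = 1 := by simp [ind]

omit [CommRing O] [IsDomain O] [Algebra O K] [IsFractionRing O K] [Field k] in
theorem ind_ne {t w : List ℕ} (h : w ≠ t) : ind K t w = 0 := by simp [ind, h]

omit [CommRing O] [IsDomain O] [Field K] [Algebra O K] [IsFractionRing O K] [Field k] in
theorem insC_not_mem (cd : ℕ) (v : CV) (s : CS) (h : cd ∉ s.map Prod.fst) :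
    insC cd v s = s ++ [(cd, v)] := by
  induction s with
  | nil => rfl
  | cons e s ih =>
    obtain ⟨c', v'⟩ := e
    simp only [List.map_cons, List.mem_cons, not_or] at h
    show (bif Nat.beq cd c' then (c', addV v v') :: s else (c', v') :: insC cd v s) = _
    rw [beq_false h.1, cond_false, ih h.2]
    rfl

omit [CommRing O] [IsDomain O] [Field K] [Algebra O K] [IsFractionRing O K] [Field k] in
theorem insC_mem (cd : ℕ) (v v' : CV) (s s' : CS) (h : cd ∉ s.map Prod.fst) :
    insC cd v (s ++ (cd, v') :: s') = s ++ (cd, addV v v') :: s' := by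
  induction s with
  | nil =>
    show (bif Nat.beq cd cd then (cd, addV v v') :: s' else (cd, v') :: insC cd v s') = _
    rw [Nat.beq_refl, cond_true]
    rfl
  | cons e s ih =>
    obtain ⟨c', v''⟩ := e
    simp only [List.map_cons, List.mem_cons, not_or] at h
    show (bif Nat.beq cd c' then (c', addV v v'') :: _ else (c', v'') :: insC cd v _) = _
    rw [beq_false h.1, cond_false]
    show (c', v'') :: insC cd v (s ++ (cd, v') :: s') = _
    rw [ih h.2]
    rfl

theorem tab_ins (hA5 : StmtA5) {r : List ℕ} {f : List ℕ → K} {s : CS} (h : Tab c r f s)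
    {w : List ℕ} (hw : YW w) (hr : resid w = r) {v : CV} {x : K} (hv : Led c v x) :
    Tab c r (f + x • ind K w) (insC (enc w) v s) := by
  by_cases hm : enc w ∈ s.map Prod.fst
  · obtain ⟨⟨cd, v'⟩, he, hcd⟩ := List.mem_map.1 hm
    simp only at hcd
    subst hcd
    obtain ⟨s1, s2, rfl⟩ := List.append_of_mem he
    have hnd := h.nodup
    rw [List.map_append, List.map_cons, List.nodup_append] at hnd
    obtain ⟨hnd1, hnd2, hnd3⟩ := hnd
    have hn1 : enc w ∉ s1.map Prod.fst := by
      intro h0
      exact hnd3 _ h0 _ (by simp) rfl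
    have hn2 : enc w ∉ s2.map Prod.fst := (List.nodup_cons.1 hnd2).1
    rw [insC_mem _ _ _ _ _ hn1]
    have hother : ∀ e ∈ s1 ++ s2, ∃ u, YW u ∧ resid u = r ∧ enc u = e.1 ∧
        Led c e.2 ((f + x • ind K w) u) := by
      intro e he'
      have he2 : e ∈ s1 ++ (enc w, v') :: s2 := by
        rw [List.mem_append] at he' ⊢
        rcases he' with h0 | h0
        · exact Or.inl h0
        · exact Or.inr (List.mem_cons_of_mem _ h0)
      obtain ⟨u, hu1, hu2, hu3, hu4⟩ := h.word e he2
      refine ⟨u, hu1, hu2, hu3, ?_⟩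
      have hne : u ≠ w := by
        rintro rfl
        rw [List.mem_append] at he'
        rcases he' with h0 | h0
        · exact hn1 (List.mem_map.2 ⟨e, h0, hu3.symm⟩)
        · exact hn2 (List.mem_map.2 ⟨e, h0, hu3.symm⟩)
      rw [Pi.add_apply, Pi.smul_apply, ind_ne hne, smul_zero, add_zero]
      exact hu4
    refine ⟨?_, ?_, ?_⟩
    · have := h.nodup
      simpa using this
    · intro e he'
      rw [List.mem_append, List.mem_cons] at he'
      rcases he' with h0 | h0 | h0
      · exact hother e (List.mem_append.2 (Or.inl h0))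
      · subst h0
        obtain ⟨u, hu1, hu2, hu3, hu4⟩ := h.word (enc w, v') he
        have hu : u = w := enc_inj hA5 hu1 hw hu3
        subst hu
        refine ⟨u, hu1, hu2, rfl, ?_⟩
        have e1 : (f + x • ind K u) u = x + f u := by
          rw [Pi.add_apply, Pi.smul_apply, ind_self, smul_eq_mul, mul_one, add_comm]
        rw [e1]
        exact led_add c hv hu4
      · exact hother e (List.mem_append.2 (Or.inr h0))
    · intro u hu
      by_cases huw : u = w
      · subst huw
        exact ⟨hw, (enc u, addV v v'), by simp, rfl⟩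
      · rw [Pi.add_apply, Pi.smul_apply, ind_ne huw, smul_zero, add_zero] at hu
        obtain ⟨h1, e, h2, h3⟩ := h.supp u hu
        refine ⟨h1, ?_⟩
        rw [List.mem_append, List.mem_cons] at h2
        rcases h2 with h0 | h0 | h0
        · exact ⟨e, by simp [h0], h3⟩
        · subst h0
          exact absurd (enc_inj hA5 hw h1 h3).symm huw
        · exact ⟨e, by simp [h0], h3⟩
  · rw [insC_not_mem _ _ _ hm]
    have hfw : f w = 0 := by
      by_contra h0
      obtain ⟨-, e, h1, h2⟩ := h.supp w h0
      exact hm (List.mem_map.2 ⟨e, h1, h2⟩)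
    refine ⟨?_, ?_, ?_⟩
    · rw [List.map_append, List.nodup_append]
      refine ⟨h.nodup, by simp, ?_⟩
      intro a ha b hb
      simp only [List.map_cons, List.map_nil, List.mem_cons, List.not_mem_nil, or_false] at hb
      subst hb
      rintro rfl
      exact hm ha
    · intro e he
      rw [List.mem_append] at he
      rcases he with he | he
      · obtain ⟨u, hu1, hu2, hu3, hu4⟩ := h.word e he
        refine ⟨u, hu1, hu2, hu3, ?_⟩
        have hne : u ≠ w := by
          rintro rfl
          exact hm (List.mem_map.2 ⟨e, he, hu3.symm⟩)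
        rw [Pi.add_apply, Pi.smul_apply, ind_ne hne, smul_zero, add_zero]
        exact hu4
      · simp only [List.mem_cons, List.not_mem_nil, or_false] at he
        subst he
        refine ⟨w, hw, hr, rfl, ?_⟩
        rw [Pi.add_apply, Pi.smul_apply, ind_self, smul_eq_mul, mul_one, hfw, zero_add]
        exact hv
    · intro u hu
      by_cases huw : u = w
      · subst huw
        exact ⟨hw, (enc u, v), by simp, rfl⟩
      · rw [Pi.add_apply, Pi.smul_apply, ind_ne huw, smul_zero, add_zero] at hu
        obtain ⟨h1, e, h2, h3⟩ := h.supp u hu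
        exact ⟨h1, e, by simp [h2], h3⟩

/-- the projection to a residue sequence -/
def Pr (r : List ℕ) (f : List ℕ → K) : List ℕ → K := fun w => if resid w = r then f w else 0

omit [CommRing O] [IsDomain O] [Algebra O K] [IsFractionRing O K] [Field k] in
theorem Pr_add (r : List ℕ) (f g : List ℕ → K) : Pr r (f + g) = Pr r f + Pr r g := by
  funext w
  simp only [Pr, Pi.add_apply]
  split_ifs <;> simp

omit [CommRing O] [IsDomain O] [Algebra O K] [IsFractionRing O K] [Field k] in
theorem Pr_smul (r : List ℕ) (x : K) (g : List ℕ → K) : Pr r (x • g) = x • Pr r g := by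
  funext w
  simp only [Pr, Pi.smul_apply]
  split_ifs <;> simp

omit [CommRing O] [IsDomain O] [Algebra O K] [IsFractionRing O K] [Field k] in
theorem Pr_ind (r : List ℕ) (t : List ℕ) (h : resid t = r) : Pr r (ind K t) = ind K t := by
  funext w
  simp only [Pr]
  split_ifs with h1
  · rfl
  · rw [ind_ne]
    rintro rfl
    exact h1 h

omit [CommRing O] [IsDomain O] [Algebra O K] [IsFractionRing O K] [Field k] in
theorem Pr_ind0 (r : List ℕ) (t : List ℕ) (h : resid t ≠ r) : Pr r (ind K t) = 0 := by
  funext w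
  simp only [Pr]
  split_ifs with h1
  · rw [ind_ne]
    · rfl
    · rintro rfl
      exact h h1
  · rfl

omit [CommRing O] [IsDomain O] [Algebra O K] [IsFractionRing O K] [Field k] in
theorem SL_apply (q : K) (n : ℕ) (f : List ℕ → K) (w : List ℕ) :
    SL q n f w = if w.getD n 0 = w.getD (n + 1) 0 then - f w
    else alpha q (cont w (n + 1) - cont w n) * f w +
      (if w.getD n 0 < w.getD (n + 1) 0 then 1 else beta q (cont w (n + 1) - cont w n)) *
        f (swapAt n w) := rfl

omit [CommRing O] [IsDomain O] [Algebra O K] [IsFractionRing O K] [Field k] in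
theorem SL_ind_eq (q : K) (n : ℕ) (t : List ℕ) (he : t.getD n 0 = t.getD (n + 1) 0)
    (hs : swapAt n t = t) : SL q n (ind K t) = (-1 : K) • ind K t := by
  funext w
  rw [SL_apply, Pi.smul_apply, smul_eq_mul]
  by_cases h1 : w = t
  · subst h1
    rw [if_pos he]
    ring
  · have h2 : swapAt n w ≠ t := by
      intro h
      apply h1
      rw [← swapAt_swapAt n w, h, hs]
    rw [ind_ne h1, ind_ne h2]
    split_ifs <;> simp

omit [CommRing O] [IsDomain O] [Algebra O K] [IsFractionRing O K] [Field k] in
theorem SL_ind_ne (q : K) (n : ℕ) (t : List ℕ) (x y : ℕ) (a b : ℤ) (hxy : x ≠ y)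
    (h1 : t.getD n 0 = x) (h2 : t.getD (n + 1) 0 = y) (h3 : cont t n = a)
    (h4 : cont t (n + 1) = b) (h5 : (swapAt n t).getD n 0 = y)
    (h6 : (swapAt n t).getD (n + 1) 0 = x) (h7 : cont (swapAt n t) n = b)
    (h8 : cont (swapAt n t) (n + 1) = a) :
    SL q n (ind K t) = alpha q (b - a) • ind K t +
      (if y < x then 1 else beta q (a - b)) • ind K (swapAt n t) := by
  have hne : swapAt n t ≠ t := by
    intro h
    rw [h, h1] at h5
    exact hxy h5
  funext w
  rw [SL_apply, Pi.add_apply, Pi.smul_apply, Pi.smul_apply, smul_eq_mul, smul_eq_mul]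
  by_cases hw1 : w = t
  · subst hw1
    rw [h1, h2, if_neg hxy, h3, h4, ind_self, ind_ne hne, ind_ne hne.symm]
    ring
  · by_cases hw2 : w = swapAt n t
    · subst hw2
      rw [h5, h6, if_neg hxy.symm, h7, h8, swapAt_swapAt, ind_self, ind_self, ind_ne hne]
      ring
    · have hw3 : swapAt n w ≠ t := by
        intro h
        apply hw2
        rw [← h, swapAt_swapAt]
      rw [ind_ne hw1, ind_ne hw2, ind_ne hw3]
      split_ifs <;> simp

/-- exchange of residues -/
theorem swap_res_eq (r : List ℕ) (n : ℕ) (hn : n + 1 < r.length)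
    (h : r.getD n 0 = r.getD (n + 1) 0) : swapAt n r = r := by
  obtain ⟨pre, x, y, post, rfl, rfl⟩ := split2 r n hn
  rw [getD0, getD1] at h
  subst h
  exact swapAt_append _ _ _ _

theorem swap_res_ne (r : List ℕ) (n : ℕ) (hn : n + 1 < r.length)
    (h : r.getD n 0 ≠ r.getD (n + 1) 0) : r ≠ swapAt n r := by
  obtain ⟨pre, x, y, post, rfl, rfl⟩ := split2 r n hn
  rw [getD0, getD1] at h
  rw [swapAt_append]
  intro h1
  have h2 := List.append_cancel_left h1
  exact h (List.cons.inj h2).1

theorem push_def (n cd : ℕ) (v : CV) (s : CS) : push n cd v s =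
    bif Nat.ble (dig cd n) (dig cd (n + 1)) then
      bif Nat.beq ((dig cd (n + 1) - dig cd n) % 3) 0 then
        insC cd (v.1 - 1, v.2.1, v.2.2 * ((dig cd (n + 1) - dig cd n) / 3))
          (insC (swp cd n (dig cd n) (dig cd (n + 1)))
            (mulB (dig cd (n + 1) - dig cd n) v) s)
      else bif Nat.beq (dig cd (n + 1) - dig cd n) 1 then s
        else insC (swp cd n (dig cd n) (dig cd (n + 1))) (mulB (dig cd (n + 1) - dig cd n) v) s
    else
      bif Nat.beq ((dig cd n - dig cd (n + 1)) % 3) 0 then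
        insC cd (v.1 - 1, -v.2.1, v.2.2 * ((dig cd n - dig cd (n + 1)) / 3))
          (insC (swp cd n (dig cd n) (dig cd (n + 1))) v s)
      else bif Nat.beq (dig cd n - dig cd (n + 1)) 1 then s
        else insC (swp cd n (dig cd n) (dig cd (n + 1))) v s := rfl

/-- one word -/
theorem tab_push (hA5 : StmtA5) {r : List ℕ} {g : List ℕ → K} {s : CS} {n : ℕ}
    (hn : n + 1 < 30) {t : List ℕ} (ht : YW t) (hr : resid t = r)
    (h : Tab c (swapAt n r) g s) {v : CV} {x : K} (hv : Led c v x) (hv2 : 2 ≤ v.1) :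
    Tab c (swapAt n r) (g + x • Pr (swapAt n r) (SL c.Q n (ind K t))) (push n (enc t) v s) := by
  obtain ⟨X, Y, a, b, h1, h2, h3, h4, ha0, ha1, hb0, hb1, hda, hdb, hE, hL, hG, ⟨hr1, hr2, hr3⟩, hN⟩ :=
    two t ht n hn
  rw [push_def, hda, hdb]
  rw [hr] at hr1 hr2 hr3
  rcases lt_trichotomy X Y with hXY | hXY | hXY
  · have hab := hL hXY
    obtain ⟨h5, h6, h7, h8, h9, h10, h11⟩ := hN hXY.ne
    rw [hr] at h10
    obtain ⟨d, hd⟩ : ∃ d : ℕ, b - a = (d : ℤ) := ⟨(b - a).toNat, by omega⟩
    have hd' : (b + 32).toNat - (a + 32).toNat = d := by omega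
    have hble : Nat.ble (a + 32).toNat (b + 32).toNat = true := by
      rw [Nat.ble_eq]
      omega
    rw [hble, cond_true, hd', ← h9]
    have hSL := SL_ind_ne c.Q n t X Y a b hXY.ne h1 h2 h3 h4 h5 h6 h7 h8
    rw [if_neg (by omega : ¬ Y < X), hd, show a - b = -(d : ℤ) by omega, beta_neg] at hSL
    rw [hSL, Pr_add, Pr_smul, Pr_smul, Pr_ind _ _ h10, smul_add, smul_smul, smul_smul]
    by_cases hd3 : d % 3 = 0
    · rw [hd3, Nat.beq_refl, cond_true]
      have hrr : r.getD n 0 = r.getD (n + 1) 0 := by
        rw [hr1, hr2]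
        omega
      have hsr : swapAt n r = r := swap_res_eq r n (by omega) hrr
      have hY := h11 (by omega)
      rw [hsr] at h ⊢
      rw [Pr_ind _ _ hr, add_comm (_ • ind K t), ← add_assoc, mul_comm x, mul_comm x]
      refine tab_ins c hA5 (tab_ins c hA5 h hY (h10.trans hsr) ?_) ht hr ?_
      · exact led_mulB c d hv hv2
      · exact led_alpha_pos c d hd3 hv hv2
    · have hrr : r.getD n 0 ≠ r.getD (n + 1) 0 := by
        rw [hr1, hr2]
        omega
      have hsr : r ≠ swapAt n r := swap_res_ne r n (by omega) hrr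
      rw [beq_false hd3, cond_false, Pr_ind0 _ _ (by rw [hr]; exact hsr), smul_zero, zero_add]
      by_cases hd1 : d = 1
      · rw [hd1, Nat.beq_refl, cond_true]
        have hb : beta c.Q ((1 : ℕ) : ℤ) = 0 := by
          simp [beta, qint]
        rw [hb, mul_zero, zero_smul, add_zero]
        exact h
      · rw [beq_false hd1, cond_false, mul_comm x]
        exact tab_ins c hA5 h (h11 (by omega)) h10 (led_mulB c d hv hv2)
  · obtain ⟨hb, hs⟩ := hE hXY
    have hd' : (a + 32).toNat - (b + 32).toNat = 1 := by omega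
    have hble : Nat.ble (a + 32).toNat (b + 32).toNat = false := by
      rw [← Bool.not_eq_true, Nat.ble_eq]
      omega
    have hrr : r.getD n 0 ≠ r.getD (n + 1) 0 := by
      rw [hr1, hr2]
      omega
    have hsr : r ≠ swapAt n r := swap_res_ne r n (by omega) hrr
    rw [hble, cond_false, hd', show Nat.beq (1 % 3) 0 = false from rfl, cond_false,
      show Nat.beq 1 1 = true from rfl, cond_true, SL_ind_eq c.Q n t (by rw [h1, h2, hXY]) hs,
      Pr_smul, Pr_ind0 _ _ (by rw [hr]; exact hsr), smul_zero, smul_zero, add_zero]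
    exact h
  · have hab := hG hXY
    obtain ⟨h5, h6, h7, h8, h9, h10, h11⟩ := hN hXY.ne'
    rw [hr] at h10
    obtain ⟨d, hd⟩ : ∃ d : ℕ, a - b = (d : ℤ) := ⟨(a - b).toNat, by omega⟩
    have hd' : (a + 32).toNat - (b + 32).toNat = d := by omega
    have hble : Nat.ble (a + 32).toNat (b + 32).toNat = false := by
      rw [← Bool.not_eq_true, Nat.ble_eq]
      omega
    rw [hble, cond_false, hd', ← h9]
    have hSL := SL_ind_ne c.Q n t X Y a b hXY.ne' h1 h2 h3 h4 h5 h6 h7 h8
    rw [if_pos hXY, show b - a = -(d : ℤ) by omega, one_smul] at hSL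
    rw [hSL, Pr_add, Pr_smul, Pr_ind _ _ h10, smul_add, smul_smul]
    have hY := h11 (by omega)
    by_cases hd3 : d % 3 = 0
    · rw [hd3, Nat.beq_refl, cond_true]
      have hrr : r.getD n 0 = r.getD (n + 1) 0 := by
        rw [hr1, hr2]
        omega
      have hsr : swapAt n r = r := swap_res_eq r n (by omega) hrr
      rw [hsr] at h ⊢
      rw [Pr_ind _ _ hr, add_comm (_ • ind K t), ← add_assoc, mul_comm x]
      refine tab_ins c hA5 (tab_ins c hA5 h hY (h10.trans hsr) hv) ht hr ?_
      exact led_alpha_neg c d hd3 hv hv2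
    · have hrr : r.getD n 0 ≠ r.getD (n + 1) 0 := by
        rw [hr1, hr2]
        omega
      have hsr : r ≠ swapAt n r := swap_res_ne r n (by omega) hrr
      rw [beq_false hd3, cond_false, Pr_ind0 _ _ (by rw [hr]; exact hsr), smul_zero, zero_add,
        beq_false (by omega : d ≠ 1), cond_false]
      exact tab_ins c hA5 h hY h10 hv

/-- one step -/
theorem tab_step (hA5 : StmtA5) {r : List ℕ} {n : ℕ} (hn : n + 1 < 30) (s : CS) :
    ∀ f : List ℕ → K, Tab c r f s → (∀ e ∈ s, 2 ≤ e.2.1) →
      Tab c (swapAt n r) (Pr (swapAt n r) (SL c.Q n f)) (stepC n s) := by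
  induction s with
  | nil =>
    intro f h _
    have hf : f = 0 := by
      funext w
      by_contra h0
      obtain ⟨-, e, he, -⟩ := h.supp w h0
      simp at he
    subst hf
    have h1 : Pr (swapAt n r) (SL c.Q n (0 : List ℕ → K)) = 0 := by
      rw [map_zero]
      funext w
      simp [Pr]
    rw [h1]
    refine ⟨by simp [stepC], by simp [stepC], ?_⟩
    intro w hw
    simp at hw
  | cons e s ih =>
    intro f h he
    obtain ⟨t, ht1, ht2, ht3, ht4⟩ := h.word e (by simp)
    have hnd := h.nodup
    rw [List.map_cons, List.nodup_cons] at hnd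
    have h1 : Tab c r (f - f t • ind K t) s := by
      refine ⟨hnd.2, ?_, ?_⟩
      · intro e' he'
        obtain ⟨u, hu1, hu2, hu3, hu4⟩ := h.word e' (by simp [he'])
        refine ⟨u, hu1, hu2, hu3, ?_⟩
        have hne : u ≠ t := by
          rintro rfl
          apply hnd.1
          rw [← ht3, hu3]
          exact List.mem_map.2 ⟨e', he', rfl⟩
        rw [Pi.sub_apply, Pi.smul_apply, ind_ne hne, smul_zero, sub_zero]
        exact hu4
      · intro w hw
        have hwt : w ≠ t := by
          rintro rfl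
          apply hw
          rw [Pi.sub_apply, Pi.smul_apply, ind_self, smul_eq_mul, mul_one, sub_self]
        rw [Pi.sub_apply, Pi.smul_apply, ind_ne hwt, smul_zero, sub_zero] at hw
        obtain ⟨h2, e', h3, h4⟩ := h.supp w hw
        refine ⟨h2, ?_⟩
        rcases List.mem_cons.1 h3 with h5 | h5
        · exfalso
          apply hwt
          apply enc_inj hA5 h2 ht1
          rw [← h4, h5, ht3]
        · exact ⟨e', h5, h4⟩
    have h2 := ih _ h1 (fun e' he' => he e' (by simp [he']))
    have h3 := tab_push c hA5 hn ht1 ht2 h2 ht4 (he e (by simp))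
    have h4 : Pr (swapAt n r) (SL c.Q n (f - f t • ind K t)) +
        f t • Pr (swapAt n r) (SL c.Q n (ind K t)) = Pr (swapAt n r) (SL c.Q n f) := by
      rw [← Pr_smul, ← map_smul, ← Pr_add, ← map_add, sub_add_cancel]
    rw [h4, ht3] at h3
    exact h3

end

/-- all exponents are at least two, all positions are less than 29 -/
def runOK : List ℕ → CS → Bool
  | [], _ => true
  | n :: ns, s => Nat.ble (n + 2) 30 && (s.all (fun e => Nat.ble 2 e.2.1) && runOK ns (stepC n s))

section
variable {O K k : Type} [CommRing O] [IsDomain O] [Field K] [Algebra O K]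
    [IsFractionRing O K] [Field k] (c : Ctx O K k)

theorem kap_sum : kap.sum = 30 := by decide

theorem kap_part : IsPart kap := by
  unfold IsPart
  decide

theorem SL_LatV {f : List ℕ → K} (hf : f ∈ LatV c kap) {n : ℕ} (hn : n + 1 < 30) :
    SL c.Q n f ∈ LatV c kap := by
  induction hf using Submodule.span_induction with
  | mem f hf =>
    obtain ⟨ks, hks, rfl⟩ := hf
    apply Submodule.subset_span
    refine ⟨n :: ks, ?_, rfl⟩
    intro m hm
    rcases List.mem_cons.1 hm with h | h
    · rw [h, kap_sum]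
      exact hn
    · exact hks m h
  | zero =>
    rw [map_zero]
    exact Submodule.zero_mem _
  | add f g _ _ hf hg =>
    rw [map_add]
    exact Submodule.add_mem _ hf hg
  | smul a f _ hf =>
    have : SL c.Q n (a • f) = a • SL c.Q n f := by
      have h1 : a • f = algebraMap O K a • f := by
        funext w
        simp [Algebra.smul_def]
      have h2 : a • SL c.Q n f = algebraMap O K a • SL c.Q n f := by
        funext w
        simp [Algebra.smul_def]
      rw [h1, h2, map_smul]
    rw [this]
    exact Submodule.smul_mem _ _ hf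

theorem run (hA5 : StmtA5) (hE5 : StmtE5) (ns : List ℕ) :
    ∀ (r : List ℕ) (f : List ℕ → K) (s : CS), f ∈ LatV c kap → Tab c r f s → runOK ns s = true →
      ∃ f' ∈ LatV c kap, Tab c (ns.foldl (fun r n => swapAt n r) r) f' (runC ns s) := by
  induction ns with
  | nil =>
    intro r f s hf h _
    exact ⟨f, hf, h⟩
  | cons n ns ih =>
    intro r f s hf h hok
    rw [runOK, Bool.and_eq_true, Bool.and_eq_true, Nat.ble_eq, List.all_eq_true] at hok
    obtain ⟨h1, h2, h3⟩ := hok
    have hn : n + 1 < 30 := by omega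
    have h4 := tab_step c hA5 hn s f h (fun e he => by
      have := h2 e he
      rwa [Nat.ble_eq] at this)
    exact ih _ _ _ (hE5 O K k c kap kap_part _ (SL_LatV c hf hn) _) h4 h3

theorem run0 (hA5 : StmtA5) (hE5 : StmtE5) (ns : List ℕ) (s0 : CS) (r0 : List ℕ)
    (hs0 : s0 = [(enc tk, (100, 1, 1))]) (hr0 : resid tk = r0)
    (hok : runOK ns s0 = true) (hr : ns.foldl (fun r n => swapAt n r) r0 = iR) :
    ∃ f ∈ LatV c kap, Tab c iR f (runC ns s0) := by
  have hy : Yam tk := yw_tk.1
  have hbase : Tab c r0 (ind K tk) s0 := by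
    subst hs0
    refine ⟨by simp, ?_, ?_⟩
    · intro e he
      simp only [List.mem_cons, List.not_mem_nil, or_false] at he
      subst he
      refine ⟨tk, ⟨hy, List.Perm.refl _⟩, hr0, rfl, ?_⟩
      rw [ind_self]
      intro _
      exact ⟨1, by simp, by simp⟩
    · intro w hw
      have hwt : w = tk := by
        by_contra h
        exact hw (ind_ne h)
      subst hwt
      exact ⟨⟨hy, List.Perm.refl _⟩, _, List.mem_cons_self, rfl⟩
  have hmem : ind K tk ∈ LatV c kap := by
    apply Submodule.subset_span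
    exact ⟨[], by simp, rfl⟩
  have := run c hA5 hE5 ns r0 (ind K tk) s0 hmem hbase hok
  rw [hr] at this
  exact this

theorem rep_of_tab (hA5 : StmtA5) {r : List ℕ} {f : List ℕ → K} {s : CS} (h : Tab c r f s) :
    RepF c r f s := by
  have key : ∀ w, YW w → ∀ e ∈ s, e.1 = enc w → resid w = r ∧ Led c e.2 (f w) := by
    intro w hw e he hew
    obtain ⟨u, hu1, hu2, hu3, hu4⟩ := h.word e he
    have hu : u = w := enc_inj hA5 hu1 hw (hu3.trans hew)
    subst hu
    exact ⟨hu2, hu4⟩
  refine ⟨fun w hw => (h.supp w hw).1, ?_, ?_, ?_⟩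
  · intro w hw
    obtain ⟨h1, e, h2, h3⟩ := h.supp w hw
    exact (key w h1 e h2 h3).1
  · intro w hw
    obtain ⟨h1, ⟨cd, v⟩, h2, h3⟩ := h.supp w hw
    simp only at h3
    subst h3
    exact ⟨v, h2⟩
  · intro w hw1 hw2 v hv
    exact (key w ⟨hw1, hw2⟩ _ hv rfl).2

end

/-- the check of all paths -/
theorem check (j : ℕ) (hj : j < 15) : (runOK (Pw j) [(enc tk, (100, 1, 1))] &&
    decide ((Pw j).foldl (fun r n => swapAt n r) (resid tk) = iR)) = true := by
  revert j
  decide +kernel

end Pool.Agent.JC3.AuxF1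

namespace Pool.Agent.JC3

/-- F1: the tables of the paths describe lattice elements -/
theorem F1_proof (hA5 : StmtA5) (hE5 : StmtE5) : StmtF1 := by
  intro O K k _ _ _ _ _ _ c j hj
  have h := AuxF1.check j hj
  rw [Bool.and_eq_true, decide_eq_true_eq] at h
  obtain ⟨f, hf, ht⟩ := AuxF1.run0 c hA5 hE5 (Pw j) _ _ rfl rfl h.1 h.2
  exact ⟨f, hf, AuxF1.rep_of_tab c hA5 ht⟩

end Pool.Agent.JC3
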