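import Pool.Agent.JC3.F0L

/-!
Part F2: leading terms of the norms.
-/

set_option autoImplicit false

namespace Pool.Agent.JC3.AuxF2

open Pool.Agent.JC3.AuxF

/-- all steps remove an inversion, exponents are at least two -/
def runGOK : List ℕ → ℕ → CV → Bool
  | [], _, _ => true
  | n :: ns, cd, v => Nat.ble (n + 2) 30 && (Nat.ble (dig cd (n + 1) + 2) (dig cd n) &&
      (Nat.ble 2 v.1 && runGOK ns (swp cd n (dig cd n) (dig cd (n + 1)))
        (mulB (dig cd n - dig cd (n + 1)) v)))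

theorem runG_cons (n : ℕ) (ns : List ℕ) (cd : ℕ) (v : CV) : runG (n :: ns) cd v =
    bif Nat.ble (dig cd n) (dig cd (n + 1) + 1) then (0, (0, 0, 0))
    else runG ns (swp cd n (dig cd n) (dig cd (n + 1))) (mulB (dig cd n - dig cd (n + 1)) v) := rfl

theorem kap_sum : kap.sum = 30 := by decide

theorem kap_part : IsPart kap := by
  unfold IsPart
  decide

section
variable {O K k : Type} [CommRing O] [IsDomain O] [Field K] [Algebra O K]
    [IsFractionRing O K] [Field k] (c : Ctx O K k)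

/-- the norm of a word -/
noncomputable def gam (Ψ : (List ℕ → K) →ₗ[K] (List ℕ → K)) (t : List ℕ) : K :=
  BB c.Q kap (Ψ (ind K t)) (Ψ (ind K t))

theorem runG_spec (hD3 : StmtD3) (Ψ : (List ℕ → K) →ₗ[K] (List ℕ → K))
    (hΨ : PsiSpec c.Q kap Ψ) (ns : List ℕ) : ∀ (t : List ℕ) (v : CV), YW t →
      Led c v (gam c Ψ t) → runGOK ns (enc t) v = true →
      (runG ns (enc t) v).1 = enc (ns.foldl (fun t n => swapAt n t) t) ∧
      Led c (runG ns (enc t) v).2 (gam c Ψ (ns.foldl (fun t n => swapAt n t) t)) := by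
  induction ns with
  | nil =>
    intro t v _ hv _
    exact ⟨rfl, hv⟩
  | cons n ns ih =>
    intro t v ht hv hok
    rw [runGOK, Bool.and_eq_true, Bool.and_eq_true, Bool.and_eq_true, Nat.ble_eq, Nat.ble_eq,
      Nat.ble_eq] at hok
    obtain ⟨hn, hd, hv2, hok⟩ := hok
    obtain ⟨X, Y, a, b, h1, h2, h3, h4, ha0, ha1, hb0, hb1, hda, hdb, hE, hL, hG,
      ⟨hr1, hr2, hr3⟩, hN⟩ := two t ht n (by omega)
    have hble : Nat.ble (dig (enc t) n) (dig (enc t) (n + 1) + 1) = false := by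
      rw [← Bool.not_eq_true, Nat.ble_eq]
      omega
    rw [runG_cons, hble, cond_false]
    rw [hda, hdb] at hd hok ⊢
    have hXY : Y < X := by
      rcases lt_trichotomy X Y with h | h | h
      · have := hL h
        omega
      · have := (hE h).1
        omega
      · exact h
    obtain ⟨h5, h6, h7, h8, h9, h10, h11⟩ := hN hXY.ne'
    have hab := hG hXY
    have hY := h11 (by omega)
    have hrec := (hD3 K c.Q kap kap_part (Q_gen c) Ψ hΨ).2 t n ht.1 hY.1 ht.2
      (by rw [kap_sum]; omega) (by rw [h1, h2]; exact hXY)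
    obtain ⟨d, hd'⟩ : ∃ d : ℕ, a - b = (d : ℤ) := ⟨(a - b).toNat, by omega⟩
    have hd'' : (a + 32).toNat - (b + 32).toNat = d := by omega
    rw [h3, h4, show b - a = -(d : ℤ) by omega, beta_neg] at hrec
    rw [hd''] at hok ⊢
    rw [← h9] at hok ⊢
    have hled : Led c (mulB d v) (gam c Ψ (swapAt n t)) := by
      have := led_mulB c d hv hv2
      rw [gam, hrec]
      exact this
    exact ih (swapAt n t) (mulB d v) hY hled hok

theorem gsum (n : ℕ) : ∑ i ∈ Finset.range n, c.Q ^ i = qint c.Q (n : ℤ) := by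
  rw [qint, zpow_natCast]
  exact geom_sum_eq (Q_one c) n

theorem HL1 : HL c 0 1 (∑ i ∈ Finset.range 1, c.Q ^ i) := by
  rw [gsum]; exact HL_q1 c 0
theorem HL2 : HL c 0 (-c.r ^ 2) (∑ i ∈ Finset.range 2, c.Q ^ i) := by
  rw [gsum]; exact HL_q2 c 0
theorem HL3 : HL c 1 1 (∑ i ∈ Finset.range 3, c.Q ^ i) := by
  rw [gsum]
  have := HL_q0 c 1
  rw [Nat.cast_one] at this
  exact this
theorem HL4 : HL c 0 1 (∑ i ∈ Finset.range 4, c.Q ^ i) := by
  rw [gsum]; exact HL_q1 c 1
theorem HL5 : HL c 0 (-c.r ^ 2) (∑ i ∈ Finset.range 5, c.Q ^ i) := by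
  rw [gsum]; exact HL_q2 c 1
theorem HL6 : HL c 1 2 (∑ i ∈ Finset.range 6, c.Q ^ i) := by
  rw [gsum]
  have := HL_q0 c 2
  rw [Nat.cast_ofNat] at this
  exact this

theorem HLf1 : HL c 0 1 (qfac c.Q 1) := by
  rw [qfac, Finset.prod_range_succ, Finset.prod_range_zero, one_mul]
  exact HL1 c

theorem HLf2 : HL c 0 (-c.r ^ 2) (qfac c.Q 2) := by
  rw [qfac, Finset.prod_range_succ, Finset.prod_range_succ, Finset.prod_range_zero, one_mul]
  exact HL_congr c (HL_mul c (HL1 c) (HL2 c)) (by norm_num) (by ring) rfl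

theorem HLf4 : HL c 1 (-c.r ^ 2) (qfac c.Q 4) := by
  rw [qfac, Finset.prod_range_succ, Finset.prod_range_succ, Finset.prod_range_succ,
    Finset.prod_range_succ, Finset.prod_range_zero, one_mul]
  exact HL_congr c (HL_mul c (HL_mul c (HL_mul c (HL1 c) (HL2 c)) (HL3 c)) (HL4 c))
    (by norm_num) (by ring) rfl

theorem HLf6 : HL c 2 (2 * c.r ^ 4) (qfac c.Q 6) := by
  rw [qfac, Finset.prod_range_succ, Finset.prod_range_succ, Finset.prod_range_succ,
    Finset.prod_range_succ, Finset.prod_range_succ, Finset.prod_range_succ,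
    Finset.prod_range_zero, one_mul]
  exact HL_congr c (HL_mul c (HL_mul c (HL_mul c (HL_mul c (HL_mul c (HL1 c) (HL2 c)) (HL3 c))
    (HL4 c)) (HL5 c)) (HL6 c)) (by norm_num) (by ring) rfl

theorem HL_ones (n : ℕ) : HL c 0 1 (((List.replicate n 1).map (qfac c.Q)).prod) := by
  induction n with
  | zero => exact ⟨1, by simp, by simp⟩
  | succ n ih =>
    rw [List.replicate_succ, List.map_cons, List.prod_cons]
    exact HL_congr c (HL_mul c (HLf1 c) ih) (by norm_num) (by ring) rfl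

theorem HL_kap : HL c 3 (2 * c.r ^ 12) ((kap.map (qfac c.Q)).prod) := by
  have hk : kap = 6 :: 4 :: 2 :: 2 :: 2 :: List.replicate 14 1 := by decide
  rw [hk]
  simp only [List.map_cons, List.prod_cons]
  exact HL_congr c (HL_mul c (HLf6 c) (HL_mul c (HLf4 c) (HL_mul c (HLf2 c) (HL_mul c (HLf2 c)
    (HL_mul c (HLf2 c) (HL_ones c 14)))))) (by norm_num) (by ring) rfl

theorem inv_tk : inv (rowWord kap) = 213 := by decide +kernel

theorem base (hB4 : StmtB4) (Ψ : (List ℕ → K) →ₗ[K] (List ℕ → K))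
    (hΨ : PsiSpec c.Q kap Ψ) : Led c (103, 2, 1) (gam c Ψ tk) := by
  have hQ := Q_gen c
  have hQ1 : 1 + c.Q ≠ 0 := by
    intro h
    apply hQ.2 2 (by norm_num)
    linear_combination (c.Q - 1) * h
  have h1 : gam c Ψ tk = c.Q ^ inv (rowWord kap) * (kap.map (qfac c.Q)).prod := by
    rw [gam, tk, hΨ.base]
    exact hB4 K c.Q kap kap_part hQ.1 hQ1
  rw [h1, inv_tk]
  intro _
  refine HL_congr c (HL_mul c (HL_Q_pow c 213) (HL_kap c)) (by norm_num) ?_ rfl
  have h2 : c.r ^ 213 * (2 * c.r ^ 12) = 2 * c.r ^ (3 * 75) := by ring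
  rw [h2, r_pow3]
  simp

end

/-- the check of all paths -/
theorem check (j : ℕ) (hj : j < 15) : (runGOK (Pw j) (enc tk) (103, 2, 1) &&
    decide ((Pw j).foldl (fun t n => swapAt n t) tk = Tw j)) = true := by
  revert j
  decide +kernel

end Pool.Agent.JC3.AuxF2

namespace Pool.Agent.JC3

/-- F2: leading terms of the norms of the 15 words -/
theorem F2_proof (hB4 : StmtB4) (hD3 : StmtD3) : StmtF2 := by
  intro O K k _ _ _ _ _ _ c Ψ hΨ j hj
  have h := AuxF2.check j hj
  rw [Bool.and_eq_true, decide_eq_true_eq] at h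
  have h1 := AuxF2.runG_spec c hD3 Ψ hΨ (Pw j) tk (103, 2, 1) AuxF.yw_tk
    (AuxF2.base c hB4 Ψ hΨ) h.1
  rw [h.2] at h1
  exact h1

end Pool.Agent.JC3
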