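import Pool.Agent.JC3.RedAux

/-! F3: the Gram matrix of the 15 lattice elements. -/

set_option autoImplicit false

namespace Pool.Agent.JC3

namespace AuxF3

/-! ### kernel computations -/

def term (i j m : ℕ) : Option CV :=
  match lookC (enc (Tw m)) (finC i) with
  | none => none
  | some v1 => match lookC (enc (Tw m)) (finC j) with
    | none => none
    | some v2 => some (mul3 (finG m).2 v1 v2)

def gsum (i j : ℕ) : List ℕ → CV
  | [] => (301, 0, 1)
  | m :: l => match term i j m with
    | none => gsum i j l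
    | some v => addV v (gsum i j l)

def checkG : Bool :=
  (List.range 15).all (fun i => (List.range 15).all (fun j =>
    okV ((GM.getD i []).getD j 0) (gsum i j (List.range 15))))

lemma checkG_true : checkG = true := by decide +kernel

def okDiag (j : ℕ) : Bool :=
  match lookC (enc (Tw j)) (finC j) with
  | none => false
  | some (e, a, b) => Nat.beq e 100 && (decide (a = Int.ofNat b) && !(Nat.beq (b % 11) 0))

def checkD : Bool :=
  (List.range 15).all (fun j => okDiag j &&
    (finC j).all (fun e => (List.range (j + 1)).any (fun i => Nat.beq e.1 (enc (Tw i)))))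

lemma checkD_true : checkD = true := by decide +kernel

def checkN : Bool :=
  (List.range 15).all (fun i => (List.range 15).all (fun j =>
    Nat.beq i j || !(Nat.beq (enc (Tw i)) (enc (Tw j)))))

lemma checkN_true : checkN = true := by decide +kernel

def yamB : List ℕ → List ℕ → Bool
  | _, [] => true
  | acc, 0 :: l => yamB (0 :: acc) l
  | acc, (x + 1) :: l => Nat.blt (acc.count (x + 1)) (acc.count x) && yamB ((x + 1) :: acc) l

lemma yamB_spec : ∀ (l acc : List ℕ), Yam acc.reverse → yamB acc l = true → Yam (acc.reverse ++ l)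
  | [], acc, h, _ => by simpa using h
  | 0 :: l, acc, h, h2 => by
    have h3 : Yam (0 :: acc).reverse := by
      rw [List.reverse_cons, yam_snoc]; exact ⟨h, Or.inl rfl⟩
    have := yamB_spec l (0 :: acc) h3 h2
    simpa using this
  | (x + 1) :: l, acc, h, h2 => by
    rw [yamB, Bool.and_eq_true, Nat.blt_eq] at h2
    have h3 : Yam ((x + 1) :: acc).reverse := by
      rw [List.reverse_cons, yam_snoc]
      refine ⟨h, Or.inr ?_⟩
      rw [List.count_reverse, List.count_reverse]; simpa using h2.1
    have := yamB_spec l ((x + 1) :: acc) h3 h2.2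
    simpa using this

def checkY : Bool := (List.range 15).all (fun j => yamB [] (Tw j) && decide ((Tw j).Perm (rowWord kap)))

lemma checkY_true : checkY = true := by decide +kernel

lemma Tw_yam {j : ℕ} (hj : j < 15) : Yam (Tw j) ∧ (Tw j).Perm (rowWord kap) := by
  have h := List.all_eq_true.1 checkY_true j (List.mem_range.2 hj)
  rw [Bool.and_eq_true] at h
  have h1 := yamB_spec (Tw j) [] yam_nil h.1
  exact ⟨by simpa using h1, by simpa using h.2⟩

lemma enc_inj {i j : ℕ} (hi : i < 15) (hj : j < 15) (h : enc (Tw i) = enc (Tw j)) : i = j := by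
  have h1 := List.all_eq_true.1 checkN_true i (List.mem_range.2 hi)
  have h2 := List.all_eq_true.1 h1 j (List.mem_range.2 hj)
  rw [Bool.or_eq_true] at h2
  rcases h2 with h2 | h2
  · exact Nat.eq_of_beq_eq_true h2
  · rw [h] at h2
    simp at h2

/-! ### leading terms with offset 300 -/

section
variable {O K k : Type} [CommRing O] [IsDomain O] [Field K] [Algebra O K]
    [IsFractionRing O K] [Field k]

lemma Th_eq (c : Ctx O K k) : c.Th = algebraMap O K (1 + c.q + c.q ^ 2) := by
  simp [Ctx.Th, Ctx.Q]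

lemma Th_ne (c : Ctx O K k) : c.Th ≠ 0 := by
  rw [Th_eq]
  intro h
  exact c.θ0 ((IsFractionRing.injective O K) (by rw [h, map_zero]))

lemma pi_theta (c : Ctx O K k) : c.π (1 + c.q + c.q ^ 2) = 0 := (c.ker _).2 dvd_rfl

/-- x = theta^(e-300) y with y in O, y = a/b mod theta -/
def GLed (c : Ctx O K k) (v : CV) (x : K) : Prop :=
  ((v.2.2 : ℕ) : k) ≠ 0 → ∃ y : O, x = c.Th ^ ((v.1 : ℤ) - 300) * algebraMap O K y ∧
    c.π y = ((v.2.1 : ℤ) : k) / ((v.2.2 : ℕ) : k)

lemma gled_mul3 {c : Ctx O K k} {g v1 v2 : CV} {x x1 x2 : K} (h : Led c g x) (h1 : Led c v1 x1)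
    (h2 : Led c v2 x2) : GLed c (mul3 g v1 v2) (x * x1 * x2) := by
  obtain ⟨e, a, b⟩ := g
  obtain ⟨e1, a1, b1⟩ := v1
  obtain ⟨e2, a2, b2⟩ := v2
  intro hb
  have hb' : ((b * b1 * b2 : ℕ) : k) ≠ 0 := hb
  push_cast at hb'
  have n0 : (b : k) ≠ 0 := fun h => hb' (by rw [h]; ring)
  have n1 : (b1 : k) ≠ 0 := fun h => hb' (by rw [h]; ring)
  have n2 : (b2 : k) ≠ 0 := fun h => hb' (by rw [h]; ring)
  obtain ⟨y, hy, hy'⟩ := h n0
  obtain ⟨y1, hy1, hy1'⟩ := h1 n1
  obtain ⟨y2, hy2, hy2'⟩ := h2 n2
  refine ⟨y * y1 * y2, ?_, ?_⟩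
  · rw [hy, hy1, hy2]
    simp only [mul3]
    have : (((e + e1 + e2 : ℕ) : ℤ) - 300) = ((e : ℤ) - 100) + ((e1 : ℤ) - 100) + ((e2 : ℤ) - 100) := by
      push_cast; ring
    rw [this, zpow_add₀ (Th_ne c), zpow_add₀ (Th_ne c), map_mul, map_mul]
    ring
  · rw [map_mul, map_mul, hy', hy1', hy2']
    simp only [mul3]
    push_cast
    field_simp

lemma gled_add {c : Ctx O K k} {v w : CV} {x y : K} (h : GLed c v x) (h' : GLed c w y) :
    GLed c (addV v w) (x + y) := by
  obtain ⟨e, a, b⟩ := v
  obtain ⟨e1, a1, b1⟩ := w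
  have hth : algebraMap O K (1 + c.q + c.q ^ 2) = c.Th := (Th_eq c).symm
  simp only [addV]
  rcases lt_trichotomy e e1 with hlt | heq | hgt
  · have c1 : Nat.beq e e1 = false := by
      rw [← Bool.not_eq_true, Nat.beq_eq]; omega
    have c2 : Nat.ble e e1 = true := by rw [Nat.ble_eq]; omega
    rw [c1, c2]
    simp only [cond_false, cond_true]
    intro hb
    have hb' : ((b * b1 : ℕ) : k) ≠ 0 := hb
    push_cast at hb'
    have n0 : (b : k) ≠ 0 := fun h => hb' (by rw [h]; ring)
    have n1 : (b1 : k) ≠ 0 := fun h => hb' (by rw [h]; ring)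
    obtain ⟨y0, hy, hy'⟩ := h n0
    obtain ⟨y1, hy1, hy1'⟩ := h' n1
    obtain ⟨d, hd⟩ : ∃ d : ℕ, e1 = e + d + 1 := ⟨e1 - e - 1, by omega⟩
    refine ⟨y0 + (1 + c.q + c.q ^ 2) ^ (d + 1) * y1, ?_, ?_⟩
    · rw [hy, hy1]
      simp only
      rw [map_add, map_mul, map_pow, hth, hd]
      have : (((e + d + 1 : ℕ) : ℤ) - 300) = ((e : ℤ) - 300) + ((d + 1 : ℕ) : ℤ) := by
        push_cast; ring
      rw [this, zpow_add₀ (Th_ne c), zpow_natCast]
      ring
    · rw [map_add, map_mul, map_pow, pi_theta, hy']
      simp only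
      push_cast
      rw [zero_pow (by omega), zero_mul, add_zero]
      field_simp
  · subst heq
    have c1 : Nat.beq e e = true := by rw [Nat.beq_eq]
    rw [c1]
    simp only [cond_true]
    intro hb
    have hb' : ((b * b1 : ℕ) : k) ≠ 0 := hb
    push_cast at hb'
    have n0 : (b : k) ≠ 0 := fun h => hb' (by rw [h]; ring)
    have n1 : (b1 : k) ≠ 0 := fun h => hb' (by rw [h]; ring)
    obtain ⟨y0, hy, hy'⟩ := h n0
    obtain ⟨y1, hy1, hy1'⟩ := h' n1
    refine ⟨y0 + y1, ?_, ?_⟩
    · rw [hy, hy1, map_add]; simp only; ring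
    · rw [map_add, hy', hy1']; simp only; push_cast; field_simp
  · have c1 : Nat.beq e e1 = false := by
      rw [← Bool.not_eq_true, Nat.beq_eq]; omega
    have c2 : Nat.ble e e1 = false := by rw [← Bool.not_eq_true, Nat.ble_eq]; omega
    rw [c1, c2]
    simp only [cond_false]
    intro hb
    have hb' : ((b * b1 : ℕ) : k) ≠ 0 := hb
    push_cast at hb'
    have n0 : (b : k) ≠ 0 := fun h => hb' (by rw [h]; ring)
    have n1 : (b1 : k) ≠ 0 := fun h => hb' (by rw [h]; ring)
    obtain ⟨y0, hy, hy'⟩ := h n0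
    obtain ⟨y1, hy1, hy1'⟩ := h' n1
    obtain ⟨d, hd⟩ : ∃ d : ℕ, e = e1 + d + 1 := ⟨e - e1 - 1, by omega⟩
    refine ⟨y1 + (1 + c.q + c.q ^ 2) ^ (d + 1) * y0, ?_, ?_⟩
    · rw [hy, hy1]
      simp only
      rw [map_add, map_mul, map_pow, hth, hd]
      have : (((e1 + d + 1 : ℕ) : ℤ) - 300) = ((e1 : ℤ) - 300) + ((d + 1 : ℕ) : ℤ) := by
        push_cast; ring
      rw [this, zpow_add₀ (Th_ne c), zpow_natCast]
      ring
    · rw [map_add, map_mul, map_pow, pi_theta, hy1']
      simp only
      push_cast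
      rw [zero_pow (by omega), zero_mul, add_zero]
      field_simp

lemma gled_zero (c : Ctx O K k) : GLed c (301, 0, 1) 0 := by
  intro _
  exact ⟨0, by simp, by simp⟩

lemma okV_spec {c : Ctx O K k} {G : ℤ} {v : CV} {x : K} (h : okV G v = true) (hx : GLed c v x) :
    ∃ g : O, x = algebraMap O K g ∧ c.π g = (G : k) := by
  obtain ⟨e, a, b⟩ := v
  simp only [okV, Bool.and_eq_true] at h
  obtain ⟨h1, h2⟩ := h
  have hb : b % 11 ≠ 0 := by
    intro h0
    rw [h0] at h1
    simp at h1
  have hbk : (b : k) ≠ 0 := c.good b hb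
  obtain ⟨y, hy, hy'⟩ := hx hbk
  simp only at hy hy'
  rcases Nat.lt_or_ge 300 e with hlt | hge
  · have c1 : Nat.beq e 300 = false := by
      rw [← Bool.not_eq_true, Nat.beq_eq]; omega
    rw [c1] at h2
    simp only [cond_false, Bool.and_eq_true, decide_eq_true_eq] at h2
    obtain ⟨d, hd⟩ : ∃ d : ℕ, e = 300 + (d + 1) := ⟨e - 301, by omega⟩
    refine ⟨(1 + c.q + c.q ^ 2) ^ (d + 1) * y, ?_, ?_⟩
    · rw [hy, map_mul, map_pow, ← Th_eq, hd]
      have : (((300 + (d + 1) : ℕ) : ℤ) - 300) = ((d + 1 : ℕ) : ℤ) := by push_cast; ring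
      rw [this, zpow_natCast]
    · rw [map_mul, map_pow, pi_theta, zero_pow (by omega), zero_mul, h2.2]
      simp
  · by_cases he : e = 300
    · subst he
      have c1 : Nat.beq 300 300 = true := rfl
      rw [c1] at h2
      simp only [cond_true, decide_eq_true_eq] at h2
      refine ⟨y, ?_, ?_⟩
      · rw [hy]; simp
      · rw [hy', h2]; push_cast; field_simp
    · have c1 : Nat.beq e 300 = false := by
        rw [← Bool.not_eq_true, Nat.beq_eq]; exact he
      have c2 : Nat.ble 301 e = false := by rw [← Bool.not_eq_true, Nat.ble_eq]; omega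
      rw [c1, c2] at h2
      simp at h2

lemma lookC_mem {cd : ℕ} {v : CV} : ∀ {s : CS}, lookC cd s = some v → (cd, v) ∈ s
  | [], h => by simp [lookC] at h
  | (c', v') :: s, h => by
    unfold lookC at h
    by_cases e : Nat.beq cd c' = true
    · rw [e] at h
      simp only [cond_true, Option.some.injEq] at h
      rw [Nat.beq_eq] at e
      subst e; subst h; exact List.mem_cons_self ..
    · rw [Bool.not_eq_true] at e
      rw [e] at h
      simp only [cond_false] at h
      exact List.mem_cons_of_mem _ (lookC_mem h)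

lemma lookC_none {cd : ℕ} : ∀ {s : CS}, lookC cd s = none → ∀ v, (cd, v) ∉ s
  | [], _, v => by simp
  | (c', v') :: s, h, v => by
    unfold lookC at h
    by_cases e : Nat.beq cd c' = true
    · rw [e] at h
      simp at h
    · rw [Bool.not_eq_true] at e
      rw [e] at h
      simp only [cond_false] at h
      intro hm
      rcases List.mem_cons.1 hm with h1 | h1
      · have : cd = c' := (Prod.mk.inj h1).1
        rw [this] at e
        have : Nat.beq c' c' = true := by rw [Nat.beq_eq]
        rw [this] at e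
        exact absurd e (by simp)
      · exact lookC_none h v h1

variable (c : Ctx O K k) (γ : ℕ → K) (F : ℕ → List ℕ → K)

lemma gsum_spec (hγ : ∀ m < 15, Led c (finG m).2 (γ m))
    (hF : ∀ j < 15, RepF c iR (F j) (finC j)) {i j : ℕ} (hi : i < 15) (hj : j < 15) :
    ∀ l : List ℕ, (∀ m ∈ l, m < 15) →
    GLed c (gsum i j l) ((l.map (fun m => γ m * F i (Tw m) * F j (Tw m))).sum)
  | [], _ => by simpa [gsum] using gled_zero c
  | m :: l, hl => by
    have ih := gsum_spec hγ hF hi hj l (fun m' hm' => hl m' (List.mem_cons_of_mem _ hm'))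
    have hm : m < 15 := hl m (List.mem_cons_self ..)
    rw [List.map_cons, List.sum_cons]
    unfold gsum
    cases ht : term i j m with
    | none =>
      have hz : F i (Tw m) * F j (Tw m) = 0 := by
        by_contra hne
        have h1 : F i (Tw m) ≠ 0 := fun h => hne (by rw [h, zero_mul])
        have h2 : F j (Tw m) ≠ 0 := fun h => hne (by rw [h, mul_zero])
        obtain ⟨v1, hv1⟩ := (hF i hi).2.2.1 (Tw m) h1
        obtain ⟨v2, hv2⟩ := (hF j hj).2.2.1 (Tw m) h2
        unfold term at ht
        cases h3 : lookC (enc (Tw m)) (finC i) with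
        | none => exact lookC_none h3 v1 hv1
        | some w1 =>
          rw [h3] at ht
          simp only at ht
          cases h4 : lookC (enc (Tw m)) (finC j) with
          | none => exact lookC_none h4 v2 hv2
          | some w2 =>
            rw [h4] at ht
            simp at ht
      have : γ m * F i (Tw m) * F j (Tw m) = 0 := by rw [mul_assoc, hz, mul_zero]
      rw [this, zero_add]
      exact ih
    | some v =>
      simp only
      apply gled_add _ ih
      unfold term at ht
      cases h3 : lookC (enc (Tw m)) (finC i) with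
      | none => rw [h3] at ht; simp at ht
      | some w1 =>
        rw [h3] at ht
        simp only at ht
        cases h4 : lookC (enc (Tw m)) (finC j) with
        | none => rw [h4] at ht; simp at ht
        | some w2 =>
          rw [h4] at ht
          simp only [Option.some.injEq] at ht
          rw [← ht]
          exact gled_mul3 (hγ m hm)
            ((hF i hi).2.2.2 _ (Tw_yam hm).1 (Tw_yam hm).2 _ (lookC_mem h3))
            ((hF j hj).2.2.2 _ (Tw_yam hm).1 (Tw_yam hm).2 _ (lookC_mem h4))

end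

lemma mem_TW {w : List ℕ} (h : w ∈ TW) : ∃ i < 15, w = Tw i := by
  have hl : TW.length = 15 := by decide
  obtain ⟨i, hi, rfl⟩ := List.getElem_of_mem h
  refine ⟨i, by omega, ?_⟩
  unfold Tw
  rw [List.getD_eq_getElem _ _ hi]

end AuxF3

open AuxF3

theorem F3_proof (hF1 : StmtF1) (hF2 : StmtF2) (hA6 : StmtA6) (hD3 : StmtD3) : StmtF3 := by
  intro O K k _ _ _ _ _ _ c Ψ hΨ
  have hF1' := hF1 O K k c
  choose! F hF using hF1'
  have hrep : ∀ j < 15, RepF c iR (F j) (finC j) := fun j hj => (hF j hj).2
  have hpart : IsPart kap := by unfold IsPart kap; decide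
  have hQ : Gen c.Q := by
    refine ⟨?_, fun m hm => ?_⟩
    · intro h
      have h1 : c.q = 0 := (IsFractionRing.injective O K) (by rw [map_zero]; exact h)
      have h2 := pi_theta c
      rw [h1] at h2
      simp at h2
    · intro h
      apply c.nru m hm
      apply (IsFractionRing.injective O K)
      rw [map_pow, map_one]; exact h
  -- supports
  have hsupp : ∀ j < 15, ∀ w, F j w ≠ 0 → ∃ i < 15, i ≤ j ∧ w = Tw i := by
    intro j hj w hw
    obtain ⟨h1, h2, h3, _⟩ := hrep j hj
    obtain ⟨hy, hp⟩ := h1 w hw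
    obtain ⟨i, hi, rfl⟩ := mem_TW (hA6 w hy hp (h2 w hw))
    refine ⟨i, hi, ?_, rfl⟩
    obtain ⟨v, hv⟩ := h3 _ hw
    have h4 := List.all_eq_true.1 checkD_true j (List.mem_range.2 hj)
    rw [Bool.and_eq_true] at h4
    have h5 := List.all_eq_true.1 h4.2 _ hv
    rw [List.any_eq_true] at h5
    obtain ⟨i', hi', h6⟩ := h5
    have h7 : i' < j + 1 := List.mem_range.1 hi'
    have h8 : enc (Tw i) = enc (Tw i') := Nat.eq_of_beq_eq_true h6
    have h9 := enc_inj hi (by omega) h8
    omega
  refine ⟨F, fun j hj => (hF j hj).1, ?_, ?_, ?_⟩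
  · intro j hj w hw
    obtain ⟨i, _, h2, h3⟩ := hsupp j hj w hw
    exact ⟨i, h2, h3⟩
  · intro j hj
    have h4 := List.all_eq_true.1 checkD_true j (List.mem_range.2 hj)
    rw [Bool.and_eq_true] at h4
    have h5 := h4.1
    unfold okDiag at h5
    cases h6 : lookC (enc (Tw j)) (finC j) with
    | none => rw [h6] at h5; simp at h5
    | some v =>
      obtain ⟨e, a, b⟩ := v
      rw [h6] at h5
      simp only [Bool.and_eq_true, decide_eq_true_eq] at h5
      obtain ⟨h7, h8, h9⟩ := h5
      have he : e = 100 := Nat.eq_of_beq_eq_true h7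
      have hb : b % 11 ≠ 0 := by
        intro h0; rw [h0] at h9; simp at h9
      have hbk : (b : k) ≠ 0 := c.good b hb
      obtain ⟨y, hy, hy'⟩ := (hrep j hj).2.2.2 _ (Tw_yam hj).1 (Tw_yam hj).2 _ (lookC_mem h6) hbk
      refine ⟨y, ?_, ?_⟩
      · apply c.unit
        rw [hy']
        simp only [h8]
        have : ((Int.ofNat b : ℤ) : k) = (b : k) := by simp
        rw [this, div_self hbk]
        exact one_ne_zero
      · rw [hy, he]; simp
  · intro i hi j hj
    -- expansion
    have hexp : ∀ j < 15, F j = ∑ m ∈ Finset.range 15, F j (Tw m) • ind K (Tw m) := by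
      intro j hj
      funext w
      rw [Finset.sum_apply]
      by_cases hw : F j w = 0
      · rw [hw]; symm
        apply Finset.sum_eq_zero
        intro m _
        by_cases e : w = Tw m
        · subst e; simp [hw]
        · simp [ind, e]
      · obtain ⟨m, hm, _, rfl⟩ := hsupp j hj w hw
        rw [Finset.sum_eq_single m]
        · simp [ind]
        · intro m' hm' hne
          have : Tw m ≠ Tw m' := fun e =>
            hne (enc_inj hm (Finset.mem_range.1 hm') (by rw [e])).symm
          simp [ind, this]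
        · intro h; exact absurd (Finset.mem_range.2 hm) h
    obtain ⟨horth, _⟩ := hD3 K c.Q kap hpart hQ Ψ hΨ
    have hBB : BB c.Q kap (Ψ (F i)) (Ψ (F j)) =
        ((List.range 15).map (fun m => BB c.Q kap (Ψ (ind K (Tw m))) (Ψ (ind K (Tw m))) *
          F i (Tw m) * F j (Tw m))).sum := by
      have hlist : ∀ f : ℕ → K, ((List.range 15).map f).sum = ∑ m ∈ Finset.range 15, f m := by
        intro f; rfl
      rw [hlist]
      have h1 : Ψ (F i) = ∑ m ∈ Finset.range 15, F i (Tw m) • Ψ (ind K (Tw m)) := by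
        conv_lhs => rw [hexp i hi]
        rw [map_sum]
        exact Finset.sum_congr rfl (fun m _ => map_smul _ _ _)
      have h2 : Ψ (F j) = ∑ m ∈ Finset.range 15, F j (Tw m) • Ψ (ind K (Tw m)) := by
        conv_lhs => rw [hexp j hj]
        rw [map_sum]
        exact Finset.sum_congr rfl (fun m _ => map_smul _ _ _)
      rw [h1, h2, map_sum]
      apply Finset.sum_congr rfl
      intro m hm
      rw [map_sum, LinearMap.sum_apply, Finset.sum_eq_single m]
      · rw [map_smul, map_smul, LinearMap.smul_apply, smul_eq_mul, smul_eq_mul]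
        ring
      · intro m' hm' hne
        have hne' : Tw m' ≠ Tw m := fun e =>
          hne (enc_inj (Finset.mem_range.1 hm') (Finset.mem_range.1 hm) (by rw [e]))
        rw [map_smul, map_smul, LinearMap.smul_apply,
          horth _ _ (Tw_yam (Finset.mem_range.1 hm')).1 (Tw_yam (Finset.mem_range.1 hm)).1
            (Tw_yam (Finset.mem_range.1 hm')).2 (Tw_yam (Finset.mem_range.1 hm)).2 hne',
          smul_zero, smul_zero]
      · intro h; exact absurd hm h
    have hgl := gsum_spec c (fun m => BB c.Q kap (Ψ (ind K (Tw m))) (Ψ (ind K (Tw m)))) F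
      (fun m hm => (hF2 O K k c Ψ hΨ m hm).2) hrep hi hj (List.range 15)
      (fun m hm => List.mem_range.1 hm)
    rw [← hBB] at hgl
    have h3 := List.all_eq_true.1 checkG_true i (List.mem_range.2 hi)
    have h4 := List.all_eq_true.1 h3 j (List.mem_range.2 hj)
    exact okV_spec h4 hgl

end Pool.Agent.JC3
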