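import Mathlib

/-! Order theoretic part of the final argument. -/

set_option autoImplicit false

namespace Pool.Agent.JC3

open Order

lemma exists_nat_krullDim {P : Type} [PartialOrder P] [Nonempty P] (D : ℕ)
    (hD : ∀ p : LTSeries P, p.length ≤ D) : ∃ N : ℕ, krullDim P = (N : ℕ∞) := by
  have h1 : krullDim P < ((D + 1 : ℕ) : WithBot ℕ∞) := by
    have := (krullDim_lt_coe_iff (α := P) (n := D + 1)).2 (fun l => Nat.lt_succ_of_le (hD l))
    exact this
  have h2 : krullDim P ≠ ⊥ := krullDim_ne_bot_iff.2 inferInstance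
  obtain ⟨a, ha⟩ := WithBot.ne_bot_iff_exists.1 h2
  rw [← ha] at h1 ⊢
  have h3 : a ≠ ⊤ := by
    rintro rfl
    have : ((⊤ : ℕ∞) : WithBot ℕ∞) < (((D + 1 : ℕ) : ℕ∞) : WithBot ℕ∞) := h1
    rw [WithBot.coe_lt_coe] at this
    exact absurd this (not_lt.2 le_top)
  obtain ⟨N, hN⟩ := ENat.ne_top_iff_exists.1 h3
  exact ⟨N, by rw [← hN]⟩

/-- the comparison of lengths -/
lemma krullDim_lt {P Q : Type} [PartialOrder P] [PartialOrder Q] (φ : P → Q) (hφ : StrictMono φ)
    (top rC : P) (hmax : ∀ U : P, U ≤ top) (hsub : ∀ U : P, U = top ∨ U ≤ rC)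
    (rF topF : Q) (h1 : φ rC < rF) (h2 : rF < topF) (D : ℕ)
    (hD : ∀ p : LTSeries P, p.length ≤ D) : krullDim P < krullDim Q := by
  have : Nonempty P := ⟨top⟩
  have key : ∀ p : LTSeries P, ((p.length + 1 : ℕ) : ℕ∞) ≤ height topF := by
    intro p
    have hb : height (φ rC) + 1 + 1 ≤ height topF :=
      le_trans (by gcongr; exact height_add_one_le h1) (height_add_one_le h2)
    rcases Nat.eq_zero_or_pos p.length with h0 | hpos
    · rw [h0]
      have : height rF + 1 ≤ height topF := height_add_one_le h2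
      refine le_trans ?_ this
      simp
    · have hlt : p ⟨p.length - 1, by omega⟩ < p ⟨p.length, by omega⟩ :=
        p.strictMono (by simp only [Fin.mk_lt_mk]; omega)
      have hx : p ⟨p.length - 1, by omega⟩ ≤ rC := by
        rcases hsub (p ⟨p.length - 1, by omega⟩) with h | h
        · exfalso
          rw [h] at hlt
          exact absurd (hmax _) (not_le_of_gt hlt)
        · exact h
      have h4 : ((p.length - 1 : ℕ) : ℕ∞) ≤ height (p ⟨p.length - 1, by omega⟩) :=
        index_le_height p ⟨p.length - 1, by omega⟩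
      have h5 : height (p ⟨p.length - 1, by omega⟩) ≤ height rC := height_mono hx
      have h6 : height rC ≤ height (φ rC) := height_le_height_apply_of_strictMono φ hφ rC
      have h7 : ((p.length - 1 : ℕ) : ℕ∞) + 1 + 1 ≤ height topF :=
        le_trans (by gcongr; exact h4.trans (h5.trans h6)) hb
      have h8 : ((p.length + 1 : ℕ) : ℕ∞) = ((p.length - 1 : ℕ) : ℕ∞) + 1 + 1 := by
        have : p.length + 1 = (p.length - 1) + 1 + 1 := by omega
        rw [this]; push_cast; rfl
      rw [h8]; exact h7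
  obtain ⟨N, hN⟩ := exists_nat_krullDim D hD
  rw [← not_le]
  intro he
  have h9 : (N : WithBot ℕ∞) ≤ krullDim P := by rw [hN]; rfl
  obtain ⟨l, hl⟩ := le_krullDim_iff.1 h9
  have h10 := key l
  have h11 : (height topF : WithBot ℕ∞) ≤ krullDim P := (height_le_krullDim topF).trans he
  rw [hN, WithBot.coe_le_coe] at h11
  have h12 := h10.trans h11
  rw [hl] at h12
  have : N + 1 ≤ N := by exact_mod_cast h12
  omega

end Pool.Agent.JC3
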