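import Pool.Agent.JC3.RedAux
import Pool.Agent.JC3.Order

/-! Final argument: comparison of the lengths over a residue field of characteristic 11 and over ℂ. -/

set_option autoImplicit false

namespace Pool.Agent.JC3

open IsLocalRing

/-- the primitive cube root of unity in ℂ -/
noncomputable def zeta3 : ℂ := Complex.exp (2 * Real.pi * Complex.I / 3)

lemma zeta3_pow : zeta3 ^ 3 = 1 := by
  unfold zeta3
  rw [← Complex.exp_nat_mul]
  have : ((3 : ℕ) : ℂ) * (2 * Real.pi * Complex.I / 3) = 2 * Real.pi * Complex.I := by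
    push_cast; ring
  rw [this, Complex.exp_two_pi_mul_I]

lemma zeta3_ne : zeta3 ≠ 1 := by
  unfold zeta3
  intro h
  rw [Complex.exp_eq_one_iff] at h
  obtain ⟨n, hn⟩ := h
  have h2 : (2 * Real.pi * Complex.I : ℂ) ≠ 0 := Complex.two_pi_I_ne_zero
  have h3 : (2 * Real.pi * Complex.I : ℂ) * (1 - 3 * n) = 0 := by linear_combination 3 * hn
  rcases mul_eq_zero.1 h3 with h4 | h4
  · exact h2 h4
  · have h5 : (3 * n : ℂ) = 1 := by linear_combination - h4
    have h6 : (3 * n : ℤ) = 1 := by exact_mod_cast h5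
    omega

lemma zeta3_rel : 1 + zeta3 + zeta3 ^ 2 = 0 := by
  have h1 := zeta3_pow
  have h2 : (zeta3 - 1) * (1 + zeta3 + zeta3 ^ 2) = 0 := by linear_combination h1
  rcases mul_eq_zero.1 h2 with h | h
  · exact absurd (sub_eq_zero.1 h) zeta3_ne
  · exact h

lemma zeta3_mem (A : ValuationSubring ℂ) : zeta3 ∈ A := by
  rcases A.mem_or_inv_mem zeta3 with h | h
  · exact h
  · have h0 : zeta3 ≠ 0 := by
      intro h; have := zeta3_pow; rw [h] at this; simp at this
    have : zeta3 = (zeta3⁻¹) ^ 2 := by
      field_simp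
      exact zeta3_pow
    rw [this]
    exact pow_mem h 2

/-- the parameter in the valuation ring -/
noncomputable def zA (A : ValuationSubring ℂ) : A := ⟨zeta3, zeta3_mem A⟩

lemma zA_rel (A : ValuationSubring ℂ) : 1 + zA A + zA A ^ 2 = 0 := by
  apply Subtype.ext
  simpa [zA] using zeta3_rel

/-- the parameter in the residue field -/
noncomputable def zF (A : ValuationSubring ℂ) : ResidueField A := residue A (zA A)

lemma zF_rel (A : ValuationSubring ℂ) : 1 + zF A + zF A ^ 2 = 0 := by
  have := congrArg (residue A) (zA_rel A)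
  simpa [zF] using this

lemma res11 (A : ValuationSubring ℂ) (h : (11 : A) ∈ maximalIdeal A) : (11 : ResidueField A) = 0 := by
  have h1 := (residue_eq_zero_iff (R := A) 11).2 h
  rw [map_ofNat] at h1
  exact h1

lemma good_of_char11 {k : Type} [Field k] (h : (11 : k) = 0) (d : ℕ) (hd : d % 11 ≠ 0) :
    (d : k) ≠ 0 := by
  have hc : CharP k 11 := by
    have : ringChar k ∣ 11 := by
      have := (ringChar.spec k 11).1 (by exact_mod_cast h)
      exact this
    rcases (Nat.Prime.eq_one_or_self_of_dvd (by norm_num) _ this) with h1 | h1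
    · exfalso
      have h2 := (ringChar.spec k 1).2 (by rw [h1])
      simp at h2
    · exact h1 ▸ ringChar.charP k
  rw [Ne, CharP.cast_eq_zero_iff k 11 d]
  omega

/-- The comparison of lengths, as order dimensions of the sets of stable subspaces. -/
theorem final_dim (hB1 : StmtB1) (hB3 : StmtB3) (hE4 : StmtE4) (hH1 : StmtH1) (hH2 : StmtH2)
    (hH3 : StmtH3) (hH4 : StmtH4) (hI2 : StmtI2) (A : ValuationSubring ℂ)
    (h11 : (11 : A) ∈ maximalIdeal A) :
    Order.krullDim (SubSt zeta3 kap) < Order.krullDim (SubSt (zF A) kap) := by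
  have hpart : IsPart kap := by unfold IsPart kap; decide
  have hF11 : (11 : ResidueField A) = 0 := res11 A h11
  -- contexts
  obtain ⟨O, K, _, _, _, _, _, cF, hcF⟩ := hH4 (ResidueField A) (zF A) (zF_rel A)
    (good_of_char11 hF11)
  obtain ⟨O', K', _, _, _, _, _, cC, hcC⟩ := hH4 ℂ zeta3 zeta3_rel
    (fun d hd => by
      have : d ≠ 0 := by rintro rfl; exact hd rfl
      exact_mod_cast this)
  -- facts over F
  have e1 := hE4 _ _ _ cF kap hpart
  have e2 := hE4 _ _ _ cC kap hpart
  have f1 := hH1 _ _ _ cF hF11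
  have f3 := hH3 _ _ _ cF
  have f2 := hH2 _ _ _ cC (by norm_num)
  rw [hcF] at e1 f1 f3
  rw [hcC] at e2 f2
  have hzA : ((zA A : A) : ℂ) = zeta3 := rfl
  have hres : residue A (zA A) = zF A := rfl
  -- supports
  have supp : ∀ U : Submodule ℂ (List ℕ → ℂ), U ≤ MM ℂ kap →
      Module.finrank (ResidueField A) (redL A U) = Module.finrank ℂ U := fun U hU =>
    hI2 A U (permSet kap) (fun f hf w hw => MM_zero (hU hf) hw)
  -- red Sp = Sp
  have hSp : redL A (SpL zeta3 kap) = SpL (zF A) kap := by
    have hle : SpL (zF A) kap ≤ redL A (SpL zeta3 kap) :=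
      SpL_le _ _ (redL_stable (zA A) (SpL_stable zeta3 kap)) (zf_mem_redL (zf_mem_SpL _ _))
    have hfd : FiniteDimensional (ResidueField A) (redL A (SpL zeta3 kap)) :=
      finiteDimensional_of_le_MM (redL_le_MM (SpL_le_MM zeta3 kap))
    exact (Submodule.eq_of_le_of_finrank_eq hle (by
      rw [supp _ (SpL_le_MM zeta3 kap), e1, e2])).symm
  have hradle : radL zeta3 kap ≤ SpL zeta3 kap := fun f hf => hf.1
  have hradleF : radL (zF A) kap ≤ SpL (zF A) kap := fun f hf => hf.1
  -- red rad ≤ rad
  have hrad : redL A (radL zeta3 kap) ≤ radL (zF A) kap := by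
    rintro g ⟨f, hf, hfg⟩
    refine ⟨?_, ?_⟩
    · rw [← hSp]; exact ⟨f, hf.1, hfg⟩
    · intro h hh
      rw [← hSp] at hh
      obtain ⟨f', hf', hfg'⟩ := hh
      have h1 := hf.2 _ hf'
      have h2 := BB_map A.subtype (zA A) kap f f'
      have h3 : A.subtype (BB (zA A) kap f f') = 0 := by
        rw [h2]; exact h1
      have h4 : BB (zA A) kap f f' = 0 := Subtype.ext h3
      have h5 := BB_map (residue A) (zA A) kap f f'
      rw [h4, map_zero] at h5
      have e1 : (fun u => residue A (f u)) = g := funext hfg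
      have e2 : (fun u => residue A (f' u)) = h := funext hfg'
      rw [e1, e2] at h5
      exact h5.symm
  -- red rad ≠ rad
  have hne : redL A (radL zeta3 kap) ≠ radL (zF A) kap := by
    intro he
    have g1 : (radL (zF A) kap).map (NL (zF A) iR) ≤
        redL A ((radL zeta3 kap).map (NL zeta3 iR)) := by
      have g0 := NL_redL (A := A) (q := zA A) (r := iR) (U := radL zeta3 kap)
      rw [hzA, hres] at g0
      rw [← he]; exact g0
    have hmm : (radL zeta3 kap).map (NL zeta3 iR) ≤ MM ℂ kap := by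
      rintro _ ⟨f, hf, rfl⟩
      exact NL_memMM _ _ _ (SpL_le_MM _ _ hf.1)
    have hfd : FiniteDimensional (ResidueField A) (redL A ((radL zeta3 kap).map (NL zeta3 iR))) :=
      finiteDimensional_of_le_MM (redL_le_MM hmm)
    have g2 := Submodule.finrank_mono g1
    have g3 := supp _ hmm
    have g5 : Module.finrank ℂ ((radL zeta3 kap).map (NL zeta3 iR)) ≤ 10 := by
      generalize hM : (radL zeta3 kap).map (NL zeta3 iR) = M at f2 ⊢
      exact f2
    have f1' : 11 ≤ Module.finrank (ResidueField A) ((radL (zF A) kap).map (NL (zF A) iR)) := by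
      generalize hM : (radL (zF A) kap).map (NL (zF A) iR) = M at f1 ⊢
      exact f1
    have g2' : Module.finrank (ResidueField A) ((radL (zF A) kap).map (NL (zF A) iR)) ≤
        Module.finrank (ResidueField A) (redL A ((radL zeta3 kap).map (NL zeta3 iR))) := by
      generalize hM : (radL (zF A) kap).map (NL (zF A) iR) = M at g2 ⊢
      exact g2
    have g6 := f1'.trans g2'
    have g4 : 11 ≤ 10 := g6.trans (g3.le.trans g5)
    exact absurd g4 (by norm_num)
  -- the order theoretic comparison
  let φ : SubSt zeta3 kap → SubSt (zF A) kap := fun U =>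
    ⟨redL A U.1, redL_stable (zA A) U.2.1, by rw [← hSp]; exact redL_mono A U.2.2⟩
  have hφ : StrictMono φ := by
    intro U U' h
    have hle : U.1 ≤ U'.1 := le_of_lt h
    have hlt : U.1 < U'.1 := h
    have hU' : U'.1 ≤ MM ℂ kap := U'.2.2.trans (SpL_le_MM _ _)
    have hU : U.1 ≤ MM ℂ kap := hle.trans hU'
    have fd1 : FiniteDimensional ℂ U'.1 := finiteDimensional_of_le_MM hU'
    have h1 : Module.finrank ℂ U.1 < Module.finrank ℂ U'.1 := Submodule.finrank_lt_finrank_of_lt hlt
    have h2 : redL A U.1 ≤ redL A U'.1 := redL_mono A hle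
    have h3 : redL A U.1 < redL A U'.1 := by
      refine lt_of_le_of_ne h2 (fun he => ?_)
      have := supp _ hU
      rw [he, supp _ hU'] at this
      omega
    exact h3
  let top : SubSt zeta3 kap := ⟨SpL zeta3 kap, SpL_stable _ _, le_rfl⟩
  let rC : SubSt zeta3 kap := ⟨radL zeta3 kap, stable_radL hB1, hradle⟩
  let rF : SubSt (zF A) kap := ⟨radL (zF A) kap, stable_radL hB1, hradleF⟩
  let topF : SubSt (zF A) kap := ⟨SpL (zF A) kap, SpL_stable _ _, le_rfl⟩
  have h0 : zeta3 ≠ 0 := by intro h; have := zeta3_pow; rw [h] at this; simp at this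
  have h1 : 1 + zeta3 ≠ 0 := by
    intro h
    have := zeta3_rel
    rw [h, zero_add] at this
    exact h0 (by simpa using this)
  refine krullDim_lt φ hφ top rC (fun U => U.2.2) (fun U => ?_) rF topF ?_ ?_
    (Module.finrank ℂ (SpL zeta3 kap)) (fun p => ?_)
  · rcases hB3 ℂ zeta3 kap hpart h0 h1 U.1 U.2.1 U.2.2 with h | h
    · left; exact Subtype.ext h
    · right; exact h
  · exact lt_of_le_of_ne (a := redL A (radL zeta3 kap)) hrad hne
  · exact lt_of_le_of_ne (a := radL (zF A) kap) hradleF f3
  · -- lengths are bounded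
    have hfdS : FiniteDimensional ℂ (SpL zeta3 kap) := finiteDimensional_of_le_MM (SpL_le_MM _ _)
    have hstep : ∀ i : ℕ, ∀ h : i < p.length + 1, i ≤ Module.finrank ℂ (p ⟨i, h⟩).1 := by
      intro i
      induction i with
      | zero => intro h; exact Nat.zero_le _
      | succ i ih =>
        intro h
        have h2 := ih (by omega)
        have h3 : p ⟨i, by omega⟩ < p ⟨i + 1, h⟩ := p.strictMono (by simp only [Fin.mk_lt_mk]; omega)
        have h4 : (p ⟨i, by omega⟩).1 < (p ⟨i + 1, h⟩).1 := h3
        have fd1 : FiniteDimensional ℂ (p ⟨i + 1, h⟩).1 :=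
          finiteDimensional_of_le_MM ((p ⟨i + 1, h⟩).2.2.trans (SpL_le_MM _ _))
        have h5 := Submodule.finrank_lt_finrank_of_lt h4
        omega
    have h6 := hstep p.length (by omega)
    have h7 : Module.finrank ℂ (p ⟨p.length, by omega⟩).1 ≤ Module.finrank ℂ (SpL zeta3 kap) :=
      Submodule.finrank_mono (p ⟨p.length, by omega⟩).2.2
    omega

end Pool.Agent.JC3
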