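import Pool.Agent.JC3.Stmts

/-! H1, H2, H3: the weight space of the radical. -/

set_option autoImplicit false

namespace Pool.Agent.JC3
namespace AuxH

/-! ### words -/

theorem isPart_kap : IsPart kap := by unfold IsPart; decide +kernel
theorem kap_sum : kap.sum = 30 := by decide
theorem tw_perm : ∀ i < 15, (Tw i).Perm (rowWord kap) := by decide +kernel
theorem tw_res : ∀ i < 15, resid (Tw i) = iR := by decide +kernel
theorem tw_inv : ∀ i < 15, ∀ j < 15, i < j → inv (Tw j) ≤ inv (Tw i) := by decide +kernel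
theorem tw_inj : ∀ i < 15, ∀ j < 15, Tw i = Tw j → i = j := by decide +kernel
theorem rowWord_len : (rowWord kap).length = 30 := by decide

/-- Boolean test for Yamanouchi words -/
def yb : List ℕ → List ℕ → Bool
  | _, [] => true
  | pre, 0 :: rest => yb (pre ++ [0]) rest
  | pre, (y + 1) :: rest => decide (pre.count (y + 1) < pre.count y) && yb (pre ++ [y + 1]) rest

theorem yb_spec : ∀ (w pre : List ℕ), yb pre w = true → ∀ (a : List ℕ) (x : ℕ) (post : List ℕ),
    w = a ++ (x + 1) :: post → (pre ++ a).count (x + 1) < (pre ++ a).count x := by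
  intro w
  induction w with
  | nil => intro pre _ a x post h; simp at h
  | cons z w ih =>
    intro pre h a x post hw
    cases a with
    | nil =>
      simp only [List.nil_append, List.cons.injEq] at hw
      obtain ⟨rfl, rfl⟩ := hw
      rw [yb, Bool.and_eq_true, decide_eq_true_eq] at h
      rw [List.append_nil]
      exact h.1
    | cons b a =>
      simp only [List.cons_append, List.cons.injEq] at hw
      obtain ⟨rfl, hw⟩ := hw
      have h2 : yb (pre ++ [z]) w = true := by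
        cases z with
        | zero => rw [yb] at h; exact h
        | succ y => rw [yb, Bool.and_eq_true] at h; exact h.2
      have h3 := ih (pre ++ [z]) h2 a x post hw
      rw [List.append_assoc, List.singleton_append] at h3
      exact h3

theorem tw_yb : ∀ i < 15, yb [] (Tw i) = true := by decide +kernel

theorem tw_yam : ∀ i < 15, Yam (Tw i) := by
  intro i hi pre x post h
  exact yb_spec (Tw i) [] (tw_yb i hi) pre x post h

theorem tw_mem : ∀ w, w ∈ TW → ∃ i < 15, w = Tw i := by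
  intro w hw
  obtain ⟨i, hi, h⟩ := List.getElem_of_mem hw
  have hl : TW.length = 15 := by decide
  refine ⟨i, by omega, ?_⟩
  rw [Tw, List.getD_eq_getElem _ _ hi, h]

/-- the letter in position p of a Yamanouchi word is at most p -/
theorem yam_le (w : List ℕ) (hw : Yam w) : ∀ p, ∀ hp : p < w.length, w[p] ≤ p := by
  intro p
  induction p using Nat.strong_induction_on with
  | _ p ih =>
    intro hp
    rcases Nat.eq_zero_or_pos (w[p]) with h0 | h0
    · omega
    · obtain ⟨x, hx⟩ : ∃ x, w[p] = x + 1 := ⟨w[p] - 1, by omega⟩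
      have h1 : w = w.take p ++ (x + 1) :: w.drop (p + 1) := by
        rw [← hx, List.getElem_cons_drop, List.take_append_drop]
      have h2 := hw _ _ _ h1
      have h3 : 0 < (w.take p).count x := by omega
      rw [List.count_pos_iff] at h3
      obtain ⟨i, hi, h4⟩ := List.getElem_of_mem h3
      rw [List.length_take] at hi
      have hip : i < p := by omega
      have h5 := ih i hip (by omega)
      rw [List.getElem_take] at h4
      rw [h4] at h5
      omega

theorem cont_bounds (w : List ℕ) (hw : Yam w) (p : ℕ) (hp : p < w.length) :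
    -(p : ℤ) ≤ cont w p ∧ cont w p ≤ p := by
  unfold cont
  have h1 := yam_le w hw p hp
  have h2 : (w.take p).count (w.getD p 0) ≤ p := by
    refine List.count_le_length.trans ?_
    rw [List.length_take]
    omega
  rw [List.getD_eq_getElem _ _ hp] at h2 ⊢
  omega

/-! ### the context -/

section ctx

variable {O K k : Type} [CommRing O] [IsDomain O] [Field K] [Algebra O K]
    [IsFractionRing O K] [Field k] (c : Ctx O K k)

theorem r_eq : 1 + c.r + c.r ^ 2 = 0 := by
  have h := (c.ker (1 + c.q + c.q ^ 2)).2 dvd_rfl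
  rw [map_add, map_add, map_one, map_pow] at h
  exact h

include c in
theorem three_ne : (3 : k) ≠ 0 := by
  have h := c.good 3 (by norm_num)
  exact_mod_cast h

theorem r_cube : c.r ^ 3 = 1 := by
  have h := r_eq c
  have h2 : c.r ^ 3 - 1 = (c.r - 1) * (1 + c.r + c.r ^ 2) := by ring
  rw [h, mul_zero] at h2
  exact sub_eq_zero.1 h2

theorem r_ne_zero : c.r ≠ 0 := by
  intro h
  have h2 := r_cube c
  rw [h] at h2
  norm_num at h2

theorem r_ne_one : c.r ≠ 1 := by
  intro h
  have h2 := r_eq c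
  rw [h] at h2
  apply three_ne c
  rw [← h2]
  norm_num

theorem r_mod (a : ℕ) : c.r ^ a = c.r ^ (a % 3) := by
  conv_lhs => rw [← Nat.div_add_mod a 3, pow_add, pow_mul, r_cube, one_pow, one_mul]

theorem r_pow_ne (a b : ℕ) (h : a % 3 ≠ b % 3) : c.r ^ a ≠ c.r ^ b := by
  rw [r_mod c a, r_mod c b]
  have ha := Nat.mod_lt a (by norm_num : 0 < 3)
  have hb := Nat.mod_lt b (by norm_num : 0 < 3)
  have h1 := r_ne_one c
  have h0 := r_ne_zero c
  have h3 := r_cube c
  have e2 : c.r ^ 2 ≠ 1 := by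
    intro h2
    apply h1
    calc c.r = c.r ^ 2 * c.r := by rw [h2, one_mul]
      _ = c.r ^ 3 := by ring
      _ = 1 := h3
  have e3 : c.r ^ 2 ≠ c.r := by
    intro h2
    apply h1
    have : c.r * (c.r - 1) = 0 := by rw [mul_sub, mul_one, ← pow_two, h2, sub_self]
    rcases mul_eq_zero.1 this with h4 | h4
    · exact absurd h4 h0
    · exact sub_eq_zero.1 h4
  interval_cases hx : a % 3 <;> interval_cases hy : b % 3 <;>
    first
    | exact absurd rfl h
    | (simp only [pow_zero, pow_one]; first | exact h1 | exact h1.symm | exact e2 | exact e2.symm | exact e3 | exact e3.symm)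

theorem unit_sub (a b : ℕ) (h : a % 3 ≠ b % 3) : IsUnit (c.q ^ a - c.q ^ b) := by
  apply c.unit
  rw [map_sub, map_pow, map_pow]
  exact sub_ne_zero.2 (r_pow_ne c a b h)

omit [IsDomain O] in
theorem alg_inj : Function.Injective (algebraMap O K) := IsFractionRing.injective O K

theorem q_ne_zero : c.q ≠ 0 := by
  intro h
  have h2 := (c.ker 1).2 (by rw [h]; norm_num)
  rw [map_one] at h2
  exact one_ne_zero h2

theorem gen : Gen c.Q := by
  refine ⟨?_, fun m hm h => ?_⟩
  · intro h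
    apply q_ne_zero c
    apply alg_inj (O := O) (K := K)
    rw [map_zero]
    exact h
  · apply c.nru m hm
    apply alg_inj (O := O) (K := K)
    rw [map_pow, map_one]
    exact h

variable {c}
variable {Ψ : (List ℕ → K) →ₗ[K] (List ℕ → K)}

theorem Red_unique {f : List ℕ → K} {g g' : List ℕ → k} (h : Red c Ψ f g) (h' : Red c Ψ f g') :
    g = g' := by
  obtain ⟨F, h1, h2⟩ := h
  obtain ⟨F', h1', h2'⟩ := h'
  have : F = F' := by
    funext w
    apply alg_inj (O := O) (K := K)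
    rw [← h1, ← h1']
  subst this
  funext w
  rw [← h2, ← h2']

theorem Red_add {f f' : List ℕ → K} {g g' : List ℕ → k} (h : Red c Ψ f g) (h' : Red c Ψ f' g') :
    Red c Ψ (f + f') (g + g') := by
  obtain ⟨F, h1, h2⟩ := h
  obtain ⟨F', h1', h2'⟩ := h'
  refine ⟨fun w => F w + F' w, fun w => ?_, fun w => ?_⟩
  · rw [map_add, Pi.add_apply, h1, h1', map_add]
  · rw [map_add, h2, h2', Pi.add_apply]

theorem Red_smul (a : O) {f : List ℕ → K} {g : List ℕ → k} (h : Red c Ψ f g) :
    Red c Ψ (a • f) (c.π a • g) := by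
  obtain ⟨F, h1, h2⟩ := h
  refine ⟨fun w => a * F w, fun w => ?_, fun w => ?_⟩
  · have : a • f = algebraMap O K a • f := (algebraMap_smul K a f).symm
    rw [this, map_smul, Pi.smul_apply, smul_eq_mul, h1, map_mul]
  · rw [map_mul, h2, Pi.smul_apply, smul_eq_mul]

theorem Red_zero : Red c Ψ 0 0 :=
  ⟨fun _ => 0, fun w => by rw [map_zero, Pi.zero_apply, map_zero], fun w => by
    rw [map_zero, Pi.zero_apply]⟩

theorem Red_sum {ι : Type} (s : Finset ι) (a : ι → O) (f : ι → List ℕ → K) (g : ι → List ℕ → k)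
    (h : ∀ i ∈ s, Red c Ψ (f i) (g i)) :
    Red c Ψ (∑ i ∈ s, a i • f i) (∑ i ∈ s, c.π (a i) • g i) := by
  classical
  induction s using Finset.induction_on with
  | empty => exact Red_zero
  | insert i s hi ih =>
    rw [Finset.sum_insert hi, Finset.sum_insert hi]
    exact Red_add (Red_smul _ (h i (Finset.mem_insert_self i s)))
      (ih fun j hj => h j (Finset.mem_insert_of_mem hj))

theorem Red_SL {κ : List ℕ} (hΨ : PsiSpec c.Q κ Ψ) {f : List ℕ → K} {g : List ℕ → k} (hf : f ∈ VV K κ)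
    (p : ℕ) (hp : p + 1 < κ.sum) (h : Red c Ψ f g) : Red c Ψ (SL c.Q p f) (TL c.r p g) := by
  obtain ⟨F, h1, h2⟩ := h
  refine ⟨TL c.q p F, fun w => ?_, fun w => ?_⟩
  · rw [hΨ.comm f hf p hp]
    change (if w.getD p 0 = w.getD (p + 1) 0 then - Ψ f w
      else if w.getD p 0 < w.getD (p + 1) 0 then c.Q * Ψ f (swapAt p w)
      else Ψ f (swapAt p w) + (c.Q - 1) * Ψ f w) = algebraMap O K
      (if w.getD p 0 = w.getD (p + 1) 0 then - F w
      else if w.getD p 0 < w.getD (p + 1) 0 then c.q * F (swapAt p w)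
      else F (swapAt p w) + (c.q - 1) * F w)
    rw [h1, h1]
    split_ifs
    · rw [map_neg]
    · rw [map_mul]; rfl
    · rw [map_add, map_mul, map_sub, map_one]; rfl
  · change c.π (if w.getD p 0 = w.getD (p + 1) 0 then - F w
      else if w.getD p 0 < w.getD (p + 1) 0 then c.q * F (swapAt p w)
      else F (swapAt p w) + (c.q - 1) * F w) =
      (if w.getD p 0 = w.getD (p + 1) 0 then - g w
      else if w.getD p 0 < w.getD (p + 1) 0 then c.r * g (swapAt p w)
      else g (swapAt p w) + (c.r - 1) * g w)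
    rw [← h2 w, ← h2 (swapAt p w)]
    split_ifs
    · rw [map_neg]
    · rw [map_mul]; rfl
    · rw [map_add, map_mul, map_sub, map_one]; rfl

theorem YS_mem (hC1 : StmtC1) {κ : List ℕ} {q : K} (hq : Gen q) : ∀ p, p < κ.sum →
    ∀ f ∈ VV K κ, YS q p f ∈ VV K κ := by
  intro p
  induction p with
  | zero => intro _ f hf; exact hf
  | succ p ih =>
    intro hp f hf
    exact hC1 K q κ hq p hp _ (ih (by omega) _ (hC1 K q κ hq p hp f hf))

theorem Red_YS (hC1 : StmtC1) {κ : List ℕ} (hΨ : PsiSpec c.Q κ Ψ) : ∀ p, p < κ.sum →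
    ∀ (f : List ℕ → K) (g : List ℕ → k), f ∈ VV K κ → Red c Ψ f g →
      Red c Ψ (YS c.Q p f) (YL c.r p g) := by
  intro p
  induction p with
  | zero => intro _ f g _ h; exact h
  | succ p ih =>
    intro hp f g hf h
    have h1 := Red_SL hΨ hf p hp h
    have m1 := hC1 K c.Q κ (gen c) p hp f hf
    have h2 := ih (by omega) _ _ m1 h1
    have m2 := YS_mem hC1 (gen c) p (by omega) _ m1
    exact Red_SL hΨ m2 p hp h2

/-- values of the seminormal Murphy operators -/
theorem YS_apply (hC5 : StmtC5) {κ : List ℕ} {q : K} (hq : Gen q) (p : ℕ) (hp : p < κ.sum)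
    (f : List ℕ → K) (hf : f ∈ VV K κ) (w : List ℕ) :
    YS q p f w = q ^ ((p : ℤ) + cont w p) * f w := by
  classical
  have h1 : f = ∑ t ∈ (permSet κ).filter (fun t => Yam t), f t • ind K t := by
    funext w
    rw [Finset.sum_apply]
    by_cases hw : f w = 0
    · rw [hw, Finset.sum_eq_zero]
      intro t _
      rw [Pi.smul_apply, ind, smul_eq_mul]
      by_cases h : w = t
      · rw [← h, hw, zero_mul]
      · rw [if_neg h, mul_zero]
    · rw [Finset.sum_eq_single w]
      · rw [Pi.smul_apply, ind, if_pos rfl, smul_eq_mul, mul_one]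
      · intro t _ ht
        rw [Pi.smul_apply, ind, if_neg (Ne.symm ht), smul_zero]
      · intro h
        exfalso
        apply h
        rw [Finset.mem_filter, mem_permSet]
        exact ⟨(hf w hw).2, (hf w hw).1⟩
  have h2 : YS q p f = ∑ t ∈ (permSet κ).filter (fun t => Yam t),
      f t • (q ^ ((p : ℤ) + cont t p) • ind K t) := by
    conv_lhs => rw [h1]
    rw [map_sum]
    refine Finset.sum_congr rfl fun t ht => ?_
    rw [Finset.mem_filter, mem_permSet] at ht
    rw [map_smul, hC5 K q κ hq t ht.2 ht.1 p hp]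
  rw [h2, Finset.sum_apply]
  by_cases hw : f w = 0
  · rw [hw, mul_zero, Finset.sum_eq_zero]
    intro t _
    rw [Pi.smul_apply, Pi.smul_apply, ind, smul_eq_mul]
    by_cases h : w = t
    · rw [← h, hw, zero_mul]
    · rw [if_neg h, smul_zero, mul_zero]
  · rw [Finset.sum_eq_single w]
    · rw [Pi.smul_apply, Pi.smul_apply, ind, if_pos rfl, smul_eq_mul, smul_eq_mul, mul_one,
        mul_comm]
    · intro t _ ht
      rw [Pi.smul_apply, Pi.smul_apply, ind, if_neg (Ne.symm ht), smul_zero, smul_zero]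
    · intro h
      exfalso
      apply h
      rw [Finset.mem_filter, mem_permSet]
      exact ⟨(hf w hw).2, (hf w hw).1⟩

/-- product of the factors Y_p - q^j, seminormal side -/
noncomputable def PS (q : K) (l : List (ℕ × ℕ)) : Module.End K (List ℕ → K) :=
  (l.map (fun pj => YS q pj.1 - algebraMap K _ (q ^ pj.2))).prod

/-- product of the factors Y_p - q^j, tensor space side -/
noncomputable def PL {A : Type} [CommRing A] (q : A) (l : List (ℕ × ℕ)) :
    Module.End A (List ℕ → A) :=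
  (l.map (fun pj => YL q pj.1 - algebraMap A _ (q ^ pj.2))).prod

/-- eigenvalue of the word w -/
noncomputable def nu (q : K) (w : List ℕ) (l : List (ℕ × ℕ)) : K :=
  (l.map (fun pj => q ^ ((pj.1 : ℤ) + cont w pj.1) - q ^ pj.2)).prod

theorem PS_cons (q : K) (pj : ℕ × ℕ) (l : List (ℕ × ℕ)) (f : List ℕ → K) :
    PS q (pj :: l) f = YS q pj.1 (PS q l f) - q ^ pj.2 • PS q l f := by
  unfold PS
  rw [List.map_cons, List.prod_cons, Module.End.mul_apply, LinearMap.sub_apply,
    Module.algebraMap_end_apply]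

theorem PL_cons {A : Type} [CommRing A] (q : A) (pj : ℕ × ℕ) (l : List (ℕ × ℕ)) (f : List ℕ → A) :
    PL q (pj :: l) f = YL q pj.1 (PL q l f) - q ^ pj.2 • PL q l f := by
  unfold PL
  rw [List.map_cons, List.prod_cons, Module.End.mul_apply, LinearMap.sub_apply,
    Module.algebraMap_end_apply]

theorem PS_all (hC1 : StmtC1) (hC5 : StmtC5) {κ : List ℕ} (hΨ : PsiSpec c.Q κ Ψ)
    (f : List ℕ → K) (g : List ℕ → k) (hf : f ∈ VV K κ) (h : Red c Ψ f g) :
    ∀ l : List (ℕ × ℕ), (∀ pj ∈ l, pj.1 < κ.sum) →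
    PS c.Q l f ∈ VV K κ ∧ Red c Ψ (PS c.Q l f) (PL c.r l g) ∧
      ∀ w, PS c.Q l f w = nu c.Q w l * f w := by
  intro l
  induction l with
  | nil =>
    intro _
    refine ⟨hf, h, fun w => ?_⟩
    unfold nu
    rw [List.map_nil, List.prod_nil, one_mul]
    rfl
  | cons pj l ih =>
    intro hl
    obtain ⟨h1, h2, h3⟩ := ih fun x hx => hl x (List.mem_cons_of_mem _ hx)
    have hp := hl pj List.mem_cons_self
    have y1 := YS_mem hC1 (gen c) pj.1 hp _ h1
    have y2 := Red_YS hC1 hΨ pj.1 hp _ _ h1 h2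
    have y3 := YS_apply hC5 (gen c) pj.1 hp _ h1
    refine ⟨?_, ?_, fun w => ?_⟩
    · rw [PS_cons]
      exact Submodule.sub_mem _ y1 (Submodule.smul_mem _ _ h1)
    · rw [PS_cons, PL_cons]
      have h4 := Red_add y2 (Red_smul (-c.q ^ pj.2) h2)
      have e1 : YS c.Q pj.1 (PS c.Q l f) - c.Q ^ pj.2 • PS c.Q l f =
          YS c.Q pj.1 (PS c.Q l f) + (-c.q ^ pj.2) • PS c.Q l f := by
        rw [sub_eq_add_neg, neg_smul]
        congr 2
        rw [← algebraMap_smul K (c.q ^ pj.2) (PS c.Q l f), map_pow]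
        rfl
      have e2 : YL c.r pj.1 (PL c.r l g) - c.r ^ pj.2 • PL c.r l g =
          YL c.r pj.1 (PL c.r l g) + c.π (-c.q ^ pj.2) • PL c.r l g := by
        rw [map_neg, map_pow, neg_smul, sub_eq_add_neg]
        rfl
      rw [e1, e2]
      exact h4
    · rw [PS_cons, Pi.sub_apply, y3, Pi.smul_apply, smul_eq_mul, h3]
      unfold nu
      rw [List.map_cons, List.prod_cons]
      ring

theorem mem_facs (r : List ℕ) (p j : ℕ) : (p, j) ∈ facs r ↔
    p < r.length ∧ j < 2 * p + 1 ∧ (j + 2 * p) % 3 ≠ r.getD p 0 := by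
  unfold facs
  simp only [List.mem_flatMap, List.mem_range, List.mem_map, List.mem_filter, Prod.mk.injEq,
    decide_eq_true_eq]
  constructor
  · rintro ⟨a, h1, b, ⟨h2, h3⟩, rfl, rfl⟩
    exact ⟨h1, h2, h3⟩
  · rintro ⟨h1, h2, h3⟩
    exact ⟨p, h1, j, ⟨h2, h3⟩, rfl, rfl⟩

theorem iR_len : iR.length = 30 := by decide

theorem facs_lt : ∀ pj ∈ facs iR, pj.1 < kap.sum := by
  rintro ⟨p, j⟩ h
  rw [mem_facs] at h
  rw [kap_sum, ← iR_len]
  exact h.1

theorem resid_getD (w : List ℕ) (p : ℕ) (hp : p < w.length) : (resid w).getD p 0 = resAt w p := by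
  unfold resid
  rw [List.getD_eq_getElem _ _ (by rw [List.length_map, List.length_range]; exact hp),
    List.getElem_map, List.getElem_range]

theorem nu_zero (hA6 : StmtA6) (q : K) (w : List ℕ) (hw : Yam w) (hp : w.Perm (rowWord kap))
    (hn : w ∉ TW) : nu q w (facs iR) = 0 := by
  have hl : w.length = 30 := by rw [hp.length_eq, rowWord_len]
  have h1 : resid w ≠ iR := fun h => hn (hA6 w hw hp h)
  have h2 : ∃ p < 30, resAt w p ≠ iR.getD p 0 := by
    by_contra hcon
    push Not at hcon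
    apply h1
    refine List.ext_getElem ?_ fun p hp1 hp2 => ?_
    · unfold resid
      rw [List.length_map, List.length_range, hl, iR_len]
    · have hp3 : p < w.length := by
        unfold resid at hp1
        rw [List.length_map, List.length_range] at hp1
        exact hp1
      have h3 := hcon p (by omega)
      rw [← resid_getD w p hp3, List.getD_eq_getElem _ _ hp1, List.getD_eq_getElem _ _ hp2] at h3
      exact h3
  obtain ⟨p, hp30, h3⟩ := h2
  obtain ⟨b1, b2⟩ := cont_bounds w hw p (by omega)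
  obtain ⟨j, hj⟩ : ∃ j : ℕ, (j : ℤ) = p + cont w p := ⟨((p : ℤ) + cont w p).toNat, by omega⟩
  have h4 : (p, j) ∈ facs iR := by
    rw [mem_facs]
    refine ⟨by rw [iR_len]; exact hp30, by omega, ?_⟩
    have h5 : (j + 2 * p) % 3 = resAt w p := by
      unfold resAt
      omega
    rw [h5]
    exact h3
  unfold nu
  rw [List.prod_eq_zero_iff, List.mem_map]
  refine ⟨(p, j), h4, ?_⟩
  change q ^ ((p : ℤ) + cont w p) - q ^ j = 0
  rw [← hj, zpow_natCast, sub_self]

theorem nu_unit (i : ℕ) (hi : i < 15) :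
    ∃ u : O, IsUnit u ∧ nu c.Q (Tw i) (facs iR) = algebraMap O K u := by
  have hl : (Tw i).length = 30 := by rw [(tw_perm i hi).length_eq, rowWord_len]
  have key : ∀ l : List (ℕ × ℕ), (∀ pj ∈ l, pj ∈ facs iR) →
      ∃ u : O, IsUnit u ∧ nu c.Q (Tw i) l = algebraMap O K u := by
    intro l
    induction l with
    | nil => intro _; exact ⟨1, isUnit_one, by unfold nu; rw [List.map_nil, List.prod_nil, map_one]⟩
    | cons pj l ih =>
      intro h
      obtain ⟨u, hu, h1⟩ := ih fun x hx => h x (List.mem_cons_of_mem _ hx)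
      have h2 := h pj List.mem_cons_self
      obtain ⟨p, j⟩ := pj
      rw [mem_facs, iR_len] at h2
      obtain ⟨h3, h4, h5⟩ := h2
      obtain ⟨b1, b2⟩ := cont_bounds (Tw i) (tw_yam i hi) p (by omega)
      obtain ⟨a, ha⟩ : ∃ a : ℕ, (a : ℤ) = p + cont (Tw i) p :=
        ⟨((p : ℤ) + cont (Tw i) p).toNat, by omega⟩
      have h6 : iR.getD p 0 = resAt (Tw i) p := by
        rw [← tw_res i hi, resid_getD _ _ (by omega)]
      rw [h6] at h5
      unfold resAt at h5
      refine ⟨(c.q ^ a - c.q ^ j) * u, (unit_sub c a j (by omega)).mul hu, ?_⟩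
      have e1 : nu c.Q (Tw i) ((p, j) :: l) =
          (c.Q ^ ((p : ℤ) + cont (Tw i) p) - c.Q ^ j) * nu c.Q (Tw i) l := by
        unfold nu
        rw [List.map_cons, List.prod_cons]
      rw [e1, h1, ← ha, zpow_natCast, map_mul, map_sub, map_pow, map_pow]
      rfl
  exact key (facs iR) fun _ h => h

theorem nu_reverse (q : K) (w : List ℕ) (l : List (ℕ × ℕ)) : nu q w l.reverse = nu q w l := by
  unfold nu
  rw [List.map_reverse, List.prod_reverse]

theorem YL_adj (hB1 : StmtB1) {A : Type} [CommRing A] (q : A) (κ : List ℕ) : ∀ p, p < κ.sum →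
    ∀ f g : List ℕ → A, BB q κ (YL q p f) g = BB q κ f (YL q p g) := by
  intro p
  induction p with
  | zero => intro _ f g; rfl
  | succ p ih =>
    intro hp f g
    change BB q κ (TL q p (YL q p (TL q p f))) g = BB q κ f (TL q p (YL q p (TL q p g)))
    rw [hB1 A q κ p hp, ih (by omega), hB1 A q κ p hp]

theorem PL_append {A : Type} [CommRing A] (q : A) (l l' : List (ℕ × ℕ)) (f : List ℕ → A) :
    PL q (l ++ l') f = PL q l (PL q l' f) := by
  unfold PL
  rw [List.map_append, List.prod_append, Module.End.mul_apply]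

theorem PL_adj (hB1 : StmtB1) {A : Type} [CommRing A] (q : A) (κ : List ℕ) :
    ∀ l : List (ℕ × ℕ), (∀ pj ∈ l, pj.1 < κ.sum) → ∀ f g : List ℕ → A,
      BB q κ (PL q l f) g = BB q κ f (PL q l.reverse g) := by
  intro l
  induction l with
  | nil => intro _ f g; rfl
  | cons pj l ih =>
    intro hl f g
    have hp := hl pj List.mem_cons_self
    have h1 := ih fun x hx => hl x (List.mem_cons_of_mem _ hx)
    have e1 : PL q [pj] g = YL q pj.1 g - q ^ pj.2 • g := by
      rw [PL_cons]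
      rfl
    rw [PL_cons, List.reverse_cons, PL_append, e1, map_sub, LinearMap.sub_apply,
      YL_adj hB1 q κ pj.1 hp, map_smul, LinearMap.smul_apply, ← h1, map_sub, map_smul, h1, h1]

theorem NL_eq {A : Type} [CommRing A] (q : A) (r : List ℕ) : NL q r = PL q (facs r) := rfl

/-- the 15 dimensional weight space and the operator on it -/
theorem core_gen (hB1 : StmtB1) (hC1 : StmtC1) (hC5 : StmtC5) (hD2 : StmtD2)
    (hE2 : StmtE2) (hE3 : StmtE3) (hE6 : StmtE6) (hF3 : StmtF3) (c : Ctx O K k)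
    (l : List (ℕ × ℕ)) (facs_lt' : ∀ pj ∈ l, pj.1 < kap.sum)
    (hz : ∀ w, Yam w → w.Perm (rowWord kap) → w ∉ TW → nu c.Q w l = 0)
    (hu0 : ∀ i < 15, ∃ u : O, IsUnit u ∧ nu c.Q (Tw i) l = algebraMap O K u) :
    ∃ G : Fin 15 → List ℕ → k,
      (∀ j, G j ∈ SpL c.r kap) ∧
      LinearIndependent k G ∧
      (∀ g ∈ SpL c.r kap, PL c.r l g ∈ Submodule.span k (Set.range G)) ∧
      (∀ g ∈ Submodule.span k (Set.range G), ∃ g' ∈ Submodule.span k (Set.range G),
        PL c.r l g' = g) ∧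
      (∀ f ∈ SpL c.r kap, ∀ g ∈ SpL c.r kap,
        BB c.r kap (PL c.r l f) g = BB c.r kap f (PL c.r l g)) ∧
      ∀ i j : Fin 15, BB c.r kap (G i) (G j) = (((GM.getD i []).getD j 0 : ℤ) : k) := by
  obtain ⟨Ψ, hΨ⟩ := hD2 K c.Q kap isPart_kap (gen c)
  obtain ⟨F, f1, f2, f3, f4⟩ := hF3 O K k c Ψ hΨ
  obtain ⟨r1, r2, r3⟩ := hE3 O K k c kap isPart_kap Ψ hΨ
  have hL := hE2 O K k c kap isPart_kap Ψ hΨ
  have hG : ∀ j : Fin 15, ∃ g ∈ SpL c.r kap, Red c Ψ (F j) g := fun j => r1 (F j) (f1 j j.2)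
  choose G hG1 hG2 using hG
  have hc1 : ∀ i < 15, Yam (Tw i) ∧ (Tw i).Perm (rowWord kap) := fun i hi =>
    ⟨tw_yam i hi, tw_perm i hi⟩
  have hc2 : ∀ i j, i < j → j < 15 → inv (Tw j) ≤ inv (Tw i) := fun i j hij hj =>
    tw_inv i (by omega) j hj hij
  -- the operator on the lattice
  have hP : ∀ f ∈ LatV c kap, ∀ g, Red c Ψ f g → PS c.Q l f ∈ LatV c kap ∧
      Red c Ψ (PS c.Q l f) (PL c.r l g) ∧
      (∀ w, PS c.Q l f w = nu c.Q w l * f w) ∧
      (∀ w, PS c.Q l f w ≠ 0 → ∃ i < 15, w = Tw i) := by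
    intro f hf g hg
    obtain ⟨m1, m2, m3⟩ := PS_all hC1 hC5 hΨ f g ((hL f).1 hf).1 hg l facs_lt'
    refine ⟨(hL _).2 ⟨m1, fun w => ?_⟩, m2, m3, fun w hw => ?_⟩
    · obtain ⟨F', h1, _⟩ := m2
      exact ⟨F' w, h1 w⟩
    · obtain ⟨y1, y2⟩ := m1 w hw
      by_contra hcon
      apply hw
      rw [m3, hz w y1 y2 (fun h => hcon (tw_mem w h)), zero_mul]
  -- independence over O
  have hind : ∀ γ : ℕ → O, ∑ j ∈ Finset.range 15, γ j • F j = 0 → ∀ i < 15, γ i = 0 := by
    intro γ hγ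
    have key : ∀ n, ∀ i < 15, 15 ≤ i + n → γ i = 0 := by
      intro n
      induction n with
      | zero => intro i hi h; omega
      | succ n ih =>
        intro i hi h
        by_cases h2 : 15 ≤ i + n
        · exact ih i hi h2
        · have h3 := congrFun hγ (Tw i)
          rw [Finset.sum_apply, Finset.sum_eq_single i] at h3
          · obtain ⟨u, hu, hu2⟩ := f3 i hi
            rw [Pi.smul_apply, hu2, Algebra.smul_def, ← map_mul, Pi.zero_apply,
              ← map_zero (algebraMap O K)] at h3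
            have h4 := alg_inj h3
            rcases mul_eq_zero.1 h4 with h5 | h5
            · exact h5
            · rw [h5] at hu
              exact absurd hu not_isUnit_zero
          · intro j hj hji
            rw [Finset.mem_range] at hj
            rcases lt_or_gt_of_ne hji with h4 | h4
            · have : F j (Tw i) = 0 := by
                by_contra h5
                obtain ⟨i', hi', h6⟩ := f2 j hj _ h5
                have := tw_inj i hi i' (by omega) h6
                omega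
              rw [Pi.smul_apply, this, smul_zero]
            · rw [ih j hj (by omega), zero_smul, Pi.zero_apply]
          · intro h4
            exact absurd (Finset.mem_range.2 hi) h4
    exact fun i hi => key 15 i hi (by omega)
  refine ⟨G, hG1, ?_, ?_, ?_, ?_, ?_⟩
  · -- linear independence
    rw [Fintype.linearIndependent_iff]
    intro a ha
    have hlift : ∀ i : Fin 15, ∃ x : O, c.π x = a i := fun i => c.surj (a i)
    choose α hα using hlift
    have hred : Red c Ψ (∑ i : Fin 15, α i • F i) 0 := by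
      have h1 := Red_sum Finset.univ α (fun i : Fin 15 => F i) G fun i _ => hG2 i
      simp only [hα] at h1
      rw [ha] at h1
      exact h1
    have hmem : (∑ i : Fin 15, α i • F i) ∈ LatV c kap :=
      Submodule.sum_mem _ fun i _ => Submodule.smul_mem _ _ (f1 i i.2)
    obtain ⟨f', hf', h2⟩ := r3 _ hmem hred
    have hTh : c.Th ≠ 0 := by
      intro h
      apply c.θ0
      apply alg_inj (O := O) (K := K)
      rw [map_zero, map_add, map_add, map_one, map_pow]
      exact h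
    have hsup : ∀ w, f' w ≠ 0 → ∃ i < 15, w = Tw i := by
      intro w hw
      have h3 := congrFun h2 w
      rw [Pi.smul_apply, Finset.sum_apply, smul_eq_mul] at h3
      have h4 : c.Th * f' w ≠ 0 := mul_ne_zero hTh hw
      rw [← h3] at h4
      obtain ⟨i, _, hi⟩ := Finset.exists_ne_zero_of_sum_ne_zero h4
      have h5 : F i w ≠ 0 := by
        intro h6
        apply hi
        rw [Pi.smul_apply, h6, smul_zero]
      obtain ⟨i', hi', h6⟩ := f2 i i.2 w h5
      exact ⟨i', by omega, h6⟩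
    obtain ⟨b, hb⟩ := hE6 O K k c kap isPart_kap 15 Tw F hc1 hc2 tw_inj f1 f2 f3 f' hf' hsup
    have h3 : ∑ j ∈ Finset.range 15, ((if h : j < 15 then α ⟨j, h⟩ else 0) -
        (1 + c.q + c.q ^ 2) * b j) • F j = 0 := by
      simp only [sub_smul, Finset.sum_sub_distrib]
      rw [sub_eq_zero]
      have e1 : ∑ j ∈ Finset.range 15, (if h : j < 15 then α ⟨j, h⟩ else 0) • F j =
          ∑ i : Fin 15, α i • F i := by
        rw [Finset.sum_range]
        refine Finset.sum_congr rfl fun i _ => ?_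
        rw [dif_pos i.2]
      have e2 : ∑ j ∈ Finset.range 15, ((1 + c.q + c.q ^ 2) * b j) • F j = c.Th • f' := by
        rw [hb, Finset.smul_sum]
        refine Finset.sum_congr rfl fun j _ => ?_
        rw [mul_smul, ← algebraMap_smul K (1 + c.q + c.q ^ 2) (b j • F j), map_add, map_add,
          map_one, map_pow]
        rfl
      rw [e1, e2]
      exact h2
    intro i
    have h4 := hind _ h3 i i.2
    rw [dif_pos i.2, sub_eq_zero] at h4
    rw [← hα i]
    rw [c.ker]
    exact ⟨b i, h4⟩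
  · -- image of the Specht module
    intro g hg
    obtain ⟨f, hf, hr⟩ := r2 g hg
    obtain ⟨m1, m2, m3, m4⟩ := hP f hf g hr
    obtain ⟨a, ha⟩ := hE6 O K k c kap isPart_kap 15 Tw F hc1 hc2 tw_inj f1 f2 f3 _ m1 m4
    rw [Finset.sum_range] at ha
    have h1 := Red_sum Finset.univ (fun i : Fin 15 => a i) (fun i : Fin 15 => F i) G
      fun i _ => hG2 i
    rw [← ha] at h1
    rw [Red_unique m2 h1]
    exact Submodule.sum_mem _ fun i _ => Submodule.smul_mem _ _
      (Submodule.subset_span (Set.mem_range_self i))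
  · -- surjectivity
    have key : Submodule.span k (Set.range G) ≤
        (Submodule.span k (Set.range G)).map (PL c.r l) := by
      rw [Submodule.span_le]
      rintro _ ⟨j, rfl⟩
      have hn : ∀ i : Fin 15, _ := fun i => hP (F i) (f1 i i.2) (G i) (hG2 i)
      have g1 : ∀ j < 15, PS c.Q l (F j) ∈ LatV c kap := fun j hj => (hn ⟨j, hj⟩).1
      have g2 : ∀ j < 15, ∀ w, PS c.Q l (F j) w ≠ 0 → ∃ i ≤ j, w = Tw i := by
        intro j hj w hw
        apply f2 j hj w
        intro h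
        apply hw
        rw [(hn ⟨j, hj⟩).2.2.1, h, mul_zero]
      have g3 : ∀ j < 15, ∃ u : O, IsUnit u ∧ PS c.Q l (F j) (Tw j) =
          algebraMap O K u := by
        intro j hj
        obtain ⟨u, hu, hu2⟩ := f3 j hj
        obtain ⟨v, hv, hv2⟩ := hu0 j hj
        refine ⟨v * u, hv.mul hu, ?_⟩
        rw [(hn ⟨j, hj⟩).2.2.1, hu2, hv2, map_mul]
      obtain ⟨b, hb⟩ := hE6 O K k c kap isPart_kap 15 Tw (fun j => PS c.Q l (F j)) hc1 hc2
        tw_inj g1 g2 g3 (F j) (f1 j j.2) (fun w hw => by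
          obtain ⟨i, hi, h⟩ := f2 j j.2 w hw
          exact ⟨i, by omega, h⟩)
      rw [Finset.sum_range] at hb
      have h1 := Red_sum Finset.univ (fun i : Fin 15 => b i)
        (fun i : Fin 15 => PS c.Q l (F i)) (fun i => PL c.r l (G i))
        fun i _ => (hn i).2.1
      rw [← hb] at h1
      have h2 := Red_unique (hG2 j) h1
      rw [SetLike.mem_coe, Submodule.mem_map]
      refine ⟨∑ i : Fin 15, c.π (b i) • G i, Submodule.sum_mem _ fun i _ =>
        Submodule.smul_mem _ _ (Submodule.subset_span (Set.mem_range_self i)), ?_⟩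
      rw [map_sum, h2]
      refine Finset.sum_congr rfl fun i _ => ?_
      rw [map_smul]
    intro g hg
    obtain ⟨g', h1, h2⟩ := Submodule.mem_map.1 (key hg)
    exact ⟨g', h1, h2⟩
  · -- adjointness
    intro f _ g hg
    have e1 : BB c.r kap (PL c.r l f) g = BB c.r kap f (PL c.r l.reverse g) :=
      PL_adj hB1 c.r kap l facs_lt' f g
    rw [e1]
    congr 1
    obtain ⟨f0, hf0, hr⟩ := r2 g hg
    have hV := ((hL f0).1 hf0).1
    obtain ⟨_, m2, m3⟩ := PS_all hC1 hC5 hΨ f0 g hV hr l facs_lt'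
    obtain ⟨_, n2, n3⟩ := PS_all hC1 hC5 hΨ f0 g hV hr l.reverse
      (fun pj h => facs_lt' pj (List.mem_reverse.1 h))
    have e2 : PS c.Q l.reverse f0 = PS c.Q l f0 := by
      funext w
      rw [m3, n3, nu_reverse]
    rw [e2] at n2
    exact Red_unique n2 m2
  · -- Gram matrix
    intro i j
    obtain ⟨x, h1, h2⟩ := f4 i i.2 j j.2
    obtain ⟨Fi, a1, a2⟩ := hG2 i
    obtain ⟨Fj, b1, b2⟩ := hG2 j
    rw [← h2]
    have h3 : x = ∑ w ∈ permSet kap, c.q ^ inv w * Fi w * Fj w := by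
      apply alg_inj (O := O) (K := K)
      rw [← h1, BB_apply, map_sum]
      refine Finset.sum_congr rfl fun w _ => ?_
      rw [a1, b1, map_mul, map_mul, map_pow]
      rfl
    rw [h3, BB_apply, map_sum]
    refine Finset.sum_congr rfl fun w _ => ?_
    rw [← a2, ← b2, map_mul, map_mul, map_pow]
    rfl

/-- the 15 dimensional weight space and the operator on it -/
theorem core (hA6 : StmtA6) (hB1 : StmtB1) (hC1 : StmtC1) (hC5 : StmtC5) (hD2 : StmtD2)
    (hE2 : StmtE2) (hE3 : StmtE3) (hE6 : StmtE6) (hF3 : StmtF3) (c : Ctx O K k) :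
    ∃ G : Fin 15 → List ℕ → k,
      (∀ j, G j ∈ SpL c.r kap) ∧
      LinearIndependent k G ∧
      (∀ g ∈ SpL c.r kap, NL c.r iR g ∈ Submodule.span k (Set.range G)) ∧
      (∀ g ∈ Submodule.span k (Set.range G), ∃ g' ∈ Submodule.span k (Set.range G),
        NL c.r iR g' = g) ∧
      (∀ f ∈ SpL c.r kap, ∀ g ∈ SpL c.r kap,
        BB c.r kap (NL c.r iR f) g = BB c.r kap f (NL c.r iR g)) ∧
      ∀ i j : Fin 15, BB c.r kap (G i) (G j) = (((GM.getD i []).getD j 0 : ℤ) : k) := by
  rw [NL_eq]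
  exact core_gen hB1 hC1 hC5 hD2 hE2 hE3 hE6 hF3 c (facs iR) facs_lt
    (fun w a b d => nu_zero hA6 c.Q w a b d) (fun i hi => nu_unit i hi)

end ctx

/-! ### linear algebra -/

section lin
variable {k V : Type} [Field k] [AddCommGroup V] [Module k V]

theorem mem_map_iff (S R : Submodule k V) (B : V →ₗ[k] V →ₗ[k] k) (N : Module.End k V)
    (G : Fin 15 → V) (h1 : ∀ j, G j ∈ S)
    (h3 : ∀ g ∈ S, N g ∈ Submodule.span k (Set.range G))
    (h4 : ∀ g ∈ Submodule.span k (Set.range G), ∃ g' ∈ Submodule.span k (Set.range G), N g' = g)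
    (h5 : ∀ f ∈ S, ∀ g ∈ S, B (N f) g = B f (N g))
    (hR : ∀ f, f ∈ R ↔ f ∈ S ∧ ∀ g ∈ S, B f g = 0) (v : V) :
    v ∈ R.map N ↔ v ∈ Submodule.span k (Set.range G) ∧ ∀ j, B v (G j) = 0 := by
  have hWS : Submodule.span k (Set.range G) ≤ S := by
    rw [Submodule.span_le]; rintro _ ⟨j, rfl⟩; exact h1 j
  have hW : ∀ v, (∀ j, B v (G j) = 0) → ∀ w ∈ Submodule.span k (Set.range G), B v w = 0 := by
    intro v hv w hw
    have : Submodule.span k (Set.range G) ≤ LinearMap.ker (B v) := by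
      rw [Submodule.span_le]; rintro _ ⟨j, rfl⟩; exact hv j
    exact this hw
  constructor
  · intro hv
    obtain ⟨f, hf, rfl⟩ := Submodule.mem_map.1 hv
    obtain ⟨h6, h7⟩ := (hR f).1 hf
    refine ⟨h3 f h6, fun j => ?_⟩
    rw [h5 f h6 _ (h1 j)]
    exact h7 _ (hWS (h3 _ (h1 j)))
  · rintro ⟨h6, h7⟩
    have step : ∀ v ∈ Submodule.span k (Set.range G),
        (∀ w ∈ Submodule.span k (Set.range G), B v w = 0) →
        ∃ v' ∈ Submodule.span k (Set.range G), N v' = v ∧
          ∀ w ∈ Submodule.span k (Set.range G), B v' w = 0 := by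
      intro v hv hv2
      obtain ⟨v', h8, h9⟩ := h4 v hv
      refine ⟨v', h8, h9, fun w hw => ?_⟩
      obtain ⟨w', h10, h11⟩ := h4 w hw
      rw [← h11, ← h5 v' (hWS h8) w' (hWS h10), h9]
      exact hv2 w' h10
    obtain ⟨v', a1, a2, a3⟩ := step v h6 (hW v h7)
    obtain ⟨v'', b1, b2, b3⟩ := step v' a1 a3
    refine Submodule.mem_map.2 ⟨v', (hR v').2 ⟨hWS a1, fun g hg => ?_⟩, a2⟩
    rw [← b2, h5 v'' (hWS b1) g hg]
    exact b3 _ (h3 g hg)

/-- entries of the Gram matrix -/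
def gm (i j : Fin 15) : ℤ := (GM.getD i []).getD j 0

/-- the coefficients of 11 elements of the kernel mod 11 -/
def EM : List (List ℤ) := [
  [1, 0, 0, 0, 0, 0, 0, 0, 0, 0, 0, 0, 0, 0, 0],
  [0, 1, 0, 0, 0, 0, 0, 0, 0, 0, 0, 0, 0, 0, 0],
  [0, 0, 0, 1, 0, 0, 0, 0, 0, 0, 0, 0, 0, 0, 0],
  [0, 0, 0, 0, 1, 0, 0, 0, 0, 0, 0, 0, 0, 0, 0],
  [0, 0, 0, 0, 0, 0, 1, 0, 0, 0, 0, 0, 0, 0, 0],
  [0, 0, 0, 0, 0, 0, 0, 1, 0, 0, 0, 0, 0, 0, 0],
  [0, 0, 0, 0, 0, 0, 0, 0, 0, 1, 0, 0, 0, 0, 0],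
  [0, 0, 0, 0, 0, 0, 0, 0, 0, 0, 1, 0, 0, 0, 0],
  [0, 0, 0, 0, 0, 0, 0, 0, 0, 0, 0, 0, 1, 0, 0],
  [0, 0, 0, 0, 0, 0, 0, 0, 0, 0, 0, 0, 0, 1, 0],
  [0, 0, 1, 0, 0, -2, 0, 0, 3, 0, 0, -4, 0, 0, -5]]

def em (a : Fin 11) (i : Fin 15) : ℤ := (EM.getD a []).getD i 0

/-- pivots -/
def pv (a : Fin 11) : Fin 15 := ([0, 1, 3, 4, 6, 7, 9, 10, 12, 13, 2] : List (Fin 15)).getD a 0

theorem em_ker : ∀ (a : Fin 11) (j : Fin 15), (11 : ℤ) ∣ ∑ i : Fin 15, em a i * gm i j := by
  decide +kernel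

theorem em_pv : ∀ a b : Fin 11, em a (pv b) = if a = b then 1 else 0 := by decide +kernel

/-- 11 times the inverse of the nonzero block -/
def CM : List (List ℤ) := [
  [0, 0, 0, 0, 0, 0, 0, 0, 0, 0, 0, 0, 0, 0, 0],
  [0, 0, 0, 0, 0, 0, 0, 0, 0, 0, 0, 0, 0, 0, 0],
  [0, 0, -9, 0, 0, 7, 0, 0, -5, 0, 0, 3, 0, 0, 1],
  [0, 0, 0, 0, 0, 0, 0, 0, 0, 0, 0, 0, 0, 0, 0],
  [0, 0, 0, 0, 0, 0, 0, 0, 0, 0, 0, 0, 0, 0, 0],
  [0, 0, 7, 0, 0, -14, 0, 0, 10, 0, 0, -6, 0, 0, -2],
  [0, 0, 0, 0, 0, 0, 0, 0, 0, 0, 0, 0, 0, 0, 0],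
  [0, 0, 0, 0, 0, 0, 0, 0, 0, 0, 0, 0, 0, 0, 0],
  [0, 0, -5, 0, 0, 10, 0, 0, -15, 0, 0, 9, 0, 0, 3],
  [0, 0, 0, 0, 0, 0, 0, 0, 0, 0, 0, 0, 0, 0, 0],
  [0, 0, 0, 0, 0, 0, 0, 0, 0, 0, 0, 0, 0, 0, 0],
  [0, 0, 3, 0, 0, -6, 0, 0, 9, 0, 0, -12, 0, 0, -4],
  [0, 0, 0, 0, 0, 0, 0, 0, 0, 0, 0, 0, 0, 0, 0],
  [0, 0, 0, 0, 0, 0, 0, 0, 0, 0, 0, 0, 0, 0, 0],
  [0, 0, 1, 0, 0, -2, 0, 0, 3, 0, 0, -4, 0, 0, -5]]

def cm (i j : Fin 15) : ℤ := (CM.getD i []).getD j 0

theorem cm_spec : ∀ s i : Fin 15, (s : ℕ) % 3 = 2 →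
    ∑ j : Fin 15, cm s j * gm i j = if i = s then 11 else 0 := by decide +kernel

/-- the indices not congruent to 2 mod 3 -/
def ix (a : Fin 10) : Fin 15 := ([0, 1, 3, 4, 6, 7, 9, 10, 12, 13] : List (Fin 15)).getD a 0

theorem ix_spec : ∀ i : Fin 15, (i : ℕ) % 3 ≠ 2 → ∃ a, ix a = i := by decide +kernel

theorem lin_lower (B : V →ₗ[k] V →ₗ[k] k) (G : Fin 15 → V) (hG : LinearIndependent k G)
    (hB : ∀ i j : Fin 15, B (G i) (G j) = ((gm i j : ℤ) : k)) (M : Submodule k V)
    (hM : ∀ v, v ∈ M ↔ v ∈ Submodule.span k (Set.range G) ∧ ∀ j, B v (G j) = 0)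
    (h11 : (11 : k) = 0) : 11 ≤ Module.finrank k M := by
  have hle : M ≤ Submodule.span k (Set.range G) := fun v hv => ((hM v).1 hv).1
  have : FiniteDimensional k (Submodule.span k (Set.range G)) :=
    FiniteDimensional.span_of_finite k (Set.finite_range G)
  have : FiniteDimensional k M := Submodule.finiteDimensional_of_le hle
  have hv : ∀ a : Fin 11, (∑ i : Fin 15, ((em a i : ℤ) : k) • G i) ∈ M := by
    intro a
    rw [hM]
    refine ⟨Submodule.sum_mem _ fun i _ => Submodule.smul_mem _ _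
      (Submodule.subset_span (Set.mem_range_self i)), fun j => ?_⟩
    have e1 : B (∑ i : Fin 15, ((em a i : ℤ) : k) • G i) (G j) =
        ((∑ i : Fin 15, em a i * gm i j : ℤ) : k) := by
      rw [map_sum, LinearMap.sum_apply, Int.cast_sum]
      refine Finset.sum_congr rfl fun i _ => ?_
      rw [map_smul, LinearMap.smul_apply, hB, smul_eq_mul, Int.cast_mul]
    rw [e1]
    obtain ⟨z, hz⟩ := em_ker a j
    rw [hz, Int.cast_mul]
    have : ((11 : ℤ) : k) = 0 := by exact_mod_cast h11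
    rw [this, zero_mul]
  have hli : LinearIndependent k (fun a : Fin 11 =>
      (⟨∑ i : Fin 15, ((em a i : ℤ) : k) • G i, hv a⟩ : M)) := by
    rw [Fintype.linearIndependent_iff]
    intro x hx b
    have h2 : ∑ a : Fin 11, x a • ∑ i : Fin 15, ((em a i : ℤ) : k) • G i = 0 := by
      have := congrArg (fun y : M => (y : V)) hx
      simpa using this
    have h3 : ∑ i : Fin 15, (∑ a : Fin 11, x a * ((em a i : ℤ) : k)) • G i = 0 := by
      rw [← h2]
      simp only [Finset.smul_sum, Finset.sum_smul, smul_smul]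
      rw [Finset.sum_comm]
    have h4 := Fintype.linearIndependent_iff.1 hG _ h3 (pv b)
    rw [Finset.sum_eq_single b] at h4
    · rw [em_pv, if_pos rfl, Int.cast_one, mul_one] at h4
      exact h4
    · intro a _ ha
      rw [em_pv, if_neg ha, Int.cast_zero, mul_zero]
    · intro h; exact absurd (Finset.mem_univ b) h
  have := hli.fintype_card_le_finrank
  simpa using this

theorem lin_upper (B : V →ₗ[k] V →ₗ[k] k) (G : Fin 15 → V)
    (hB : ∀ i j : Fin 15, B (G i) (G j) = ((gm i j : ℤ) : k)) (M : Submodule k V)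
    (hM : ∀ v, v ∈ M ↔ v ∈ Submodule.span k (Set.range G) ∧ ∀ j, B v (G j) = 0)
    (h11 : (11 : k) ≠ 0) : Module.finrank k M ≤ 10 := by
  have hle : M ≤ Submodule.span k (Set.range (fun a : Fin 10 => G (ix a))) := by
    intro v hv
    obtain ⟨h1, h2⟩ := (hM v).1 hv
    obtain ⟨x, hx⟩ := (Submodule.mem_span_range_iff_exists_fun k).1 h1
    have h3 : ∀ s : Fin 15, (s : ℕ) % 3 = 2 → x s = 0 := by
      intro s hs
      have h4 : ∀ j : Fin 15, ∑ i : Fin 15, x i * ((gm i j : ℤ) : k) = 0 := by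
        intro j
        rw [← h2 j, ← hx, map_sum, LinearMap.sum_apply]
        refine Finset.sum_congr rfl fun i _ => ?_
        rw [map_smul, LinearMap.smul_apply, hB, smul_eq_mul]
      have h5 : ∑ j : Fin 15, ((cm s j : ℤ) : k) * ∑ i : Fin 15, x i * ((gm i j : ℤ) : k) = 0 :=
        Finset.sum_eq_zero fun j _ => by rw [h4 j, mul_zero]
      have h6 : ∑ i : Fin 15, x i * (((∑ j : Fin 15, cm s j * gm i j : ℤ)) : k) = 0 := by
        rw [← h5]
        simp only [Finset.mul_sum, Int.cast_sum, Int.cast_mul]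
        rw [Finset.sum_comm]
        refine Finset.sum_congr rfl fun i _ => Finset.sum_congr rfl fun j _ => ?_
        ring
      rw [Finset.sum_eq_single s] at h6
      · rw [cm_spec s s hs, if_pos rfl] at h6
        have : ((11 : ℤ) : k) ≠ 0 := by exact_mod_cast h11
        exact (mul_eq_zero.1 h6).resolve_right this
      · intro i _ hi
        rw [cm_spec s i hs, if_neg hi, Int.cast_zero, mul_zero]
      · intro h; exact absurd (Finset.mem_univ s) h
    rw [← hx]
    refine Submodule.sum_mem _ fun i _ => ?_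
    by_cases hi : (i : ℕ) % 3 = 2
    · rw [h3 i hi, zero_smul]; exact Submodule.zero_mem _
    · obtain ⟨a, ha⟩ := ix_spec i hi
      rw [← ha]
      exact Submodule.smul_mem _ _ (Submodule.subset_span ⟨a, rfl⟩)
  have : FiniteDimensional k (Submodule.span k (Set.range (fun a : Fin 10 => G (ix a)))) :=
    FiniteDimensional.span_of_finite k (Set.finite_range _)
  refine (Submodule.finrank_mono hle).trans ?_
  have := finrank_range_le_card (R := k) (fun a : Fin 10 => G (ix a))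
  rw [Fintype.card_fin] at this
  exact this

end lin

theorem mem_radL {k : Type} [CommRing k] (q : k) (κ : List ℕ) (f : List ℕ → k) :
    f ∈ radL q κ ↔ f ∈ SpL q κ ∧ ∀ g ∈ SpL q κ, BB q κ f g = 0 := Iff.rfl

end AuxH

/-- H1 -/
theorem H1_proof (hA6 : StmtA6) (hB1 : StmtB1) (hC1 : StmtC1) (hC5 : StmtC5) (hD2 : StmtD2)
    (hE2 : StmtE2) (hE3 : StmtE3) (hE6 : StmtE6) (hF3 : StmtF3) : StmtH1 := by
  intro O K k _ _ _ _ _ _ c h11
  obtain ⟨G, g1, g2, g3, g4, g5, g6⟩ := AuxH.core hA6 hB1 hC1 hC5 hD2 hE2 hE3 hE6 hF3 c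
  generalize hN : NL c.r iR = N at g3 g4 g5 ⊢
  exact AuxH.lin_lower (BB c.r kap) G g2 g6 _ (AuxH.mem_map_iff (SpL c.r kap) (radL c.r kap)
    (BB c.r kap) N G g1 g3 g4 g5 (AuxH.mem_radL c.r kap)) h11

/-- H2 -/
theorem H2_proof (hA6 : StmtA6) (hB1 : StmtB1) (hC1 : StmtC1) (hC5 : StmtC5) (hD2 : StmtD2)
    (hE2 : StmtE2) (hE3 : StmtE3) (hE6 : StmtE6) (hF3 : StmtF3) : StmtH2 := by
  intro O K k _ _ _ _ _ _ c h11
  obtain ⟨G, g1, g2, g3, g4, g5, g6⟩ := AuxH.core hA6 hB1 hC1 hC5 hD2 hE2 hE3 hE6 hF3 c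
  generalize hN : NL c.r iR = N at g3 g4 g5 ⊢
  exact AuxH.lin_upper (BB c.r kap) G g6 _ (AuxH.mem_map_iff (SpL c.r kap) (radL c.r kap)
    (BB c.r kap) N G g1 g3 g4 g5 (AuxH.mem_radL c.r kap)) h11

/-- H3 -/
theorem H3_proof (hA6 : StmtA6) (hB1 : StmtB1) (hC1 : StmtC1) (hC5 : StmtC5) (hD2 : StmtD2)
    (hE2 : StmtE2) (hE3 : StmtE3) (hE6 : StmtE6) (hF3 : StmtF3) : StmtH3 := by
  intro O K k _ _ _ _ _ _ c h
  obtain ⟨G, g1, g2, g3, g4, g5, g6⟩ := AuxH.core hA6 hB1 hC1 hC5 hD2 hE2 hE3 hE6 hF3 c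
  have h1 : G 2 ∈ radL c.r kap := by rw [h]; exact g1 2
  have h2 := ((AuxH.mem_radL c.r kap (G 2)).1 h1).2 (G 2) (g1 2)
  have h3 : BB c.r kap (G 2) (G 2) = ((AuxH.gm 2 2 : ℤ) : k) := g6 2 2
  have h4 : AuxH.gm 2 2 = -2 := by decide +kernel
  rw [h3, h4] at h2
  have h5 : ((2 : ℕ) : k) ≠ 0 := c.good 2 (by norm_num)
  apply h5
  have h6 : (((-2 : ℤ)) : k) = -((2 : ℕ) : k) := by push_cast; ring
  rw [h6, neg_eq_zero] at h2
  exact h2

end Pool.Agent.JC3
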