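import Pool.Agent.JC3.Stmts

/-!
H4: the local domain k[[X]] with parameter q + X.
-/

set_option autoImplicit false

namespace Pool.Agent.JC3

namespace AuxH4

open PowerSeries

variable {k : Type} [Field k]

theorem pow_ne_one (q : k) (m : ℕ) (hm : 0 < m) : (C q + X : PowerSeries k) ^ m ≠ 1 := by
  intro h
  have h1 : (((Polynomial.X + Polynomial.C q) ^ m : Polynomial k) : PowerSeries k) = ((1 : Polynomial k) : PowerSeries k) := by
    rw [Polynomial.coe_pow, Polynomial.coe_add, Polynomial.coe_X, Polynomial.coe_C, Polynomial.coe_one, add_comm]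
    exact h
  have h2 := Polynomial.coe_injective k h1
  have h3 : ((Polynomial.X + Polynomial.C q) ^ m : Polynomial k).natDegree = m := by
    rw [Polynomial.natDegree_pow, Polynomial.natDegree_X_add_C, mul_one]
  rw [h2, Polynomial.natDegree_one] at h3
  omega

theorem theta_eq (q : k) (hq : 1 + q + q ^ 2 = 0) :
    (1 + (C q + X) + (C q + X) ^ 2 : PowerSeries k) = X * (C (1 + 2 * q) + X) := by
  have h : (1 + C q + C q ^ 2 : PowerSeries k) = 0 := by
    rw [← map_pow, ← map_one (C (R := k)), ← map_add, ← map_add, hq, map_zero]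
  rw [map_add, map_mul, map_one, map_ofNat]
  linear_combination h

end AuxH4

open AuxH4 PowerSeries in
theorem H4_proof : StmtH4 := by
  intro k _ q hq hgood
  have h3 : (3 : k) ≠ 0 := by
    have := hgood 3 (by norm_num)
    exact_mod_cast this
  have h2 : (1 + 2 * q : k) ≠ 0 := by
    intro h
    apply h3
    have h4 : (1 + 2 * q) ^ 2 = 0 := by rw [h]; ring
    linear_combination 4 * hq - h4
  have hu : IsUnit (C (1 + 2 * q) + X : PowerSeries k) := by
    rw [PowerSeries.isUnit_iff_constantCoeff, map_add, constantCoeff_C, constantCoeff_X, add_zero]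
    exact isUnit_iff_ne_zero.2 h2
  refine ⟨PowerSeries k, FractionRing (PowerSeries k), inferInstance, inferInstance, inferInstance, inferInstance,
    inferInstance, { q := C q + X, π := constantCoeff, surj := ?_, ker := ?_, θ0 := ?_, nru := ?_, unit := ?_, good := hgood }, ?_⟩
  · intro a
    exact ⟨C a, constantCoeff_C a⟩
  · intro x
    rw [theta_eq q hq, ← PowerSeries.X_dvd_iff]
    exact (IsUnit.mul_right_dvd hu).symm
  · rw [theta_eq q hq]
    exact mul_ne_zero X_ne_zero hu.ne_zero
  · exact pow_ne_one q
  · intro x hx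
    rw [PowerSeries.isUnit_iff_constantCoeff]
    exact isUnit_iff_ne_zero.2 hx
  · show constantCoeff (C q + X : PowerSeries k) = q
    rw [map_add, constantCoeff_C, constantCoeff_X, add_zero]

end Pool.Agent.JC3
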