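import Pool.Agent.JC3.Stmts

set_option autoImplicit false

namespace Pool.Agent.JC3

open IsLocalRing Polynomial in
theorem I1_proof : StmtI1 := by
  let A0 : Subring ℂ := (Int.castRingHom ℂ).range
  have h11 : (11 : ℂ) ∈ A0 := ⟨11, by simp⟩
  let I : Ideal A0 := Ideal.span {⟨11, h11⟩}
  have hI : I ≠ ⊤ := by
    intro h
    rw [Ideal.eq_top_iff_one, Ideal.mem_span_singleton] at h
    obtain ⟨⟨a, ha⟩, hc⟩ := h
    obtain ⟨m, rfl⟩ := ha
    have h1 := congrArg Subtype.val hc
    have h2 : (1 : ℂ) = 11 * (m : ℂ) := h1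
    have h3 : (1 : ℤ) = 11 * m := by exact_mod_cast h2
    omega
  obtain ⟨B, hB, hB2⟩ := Ideal.image_subset_nonunits_valuationSubring I hI
  refine ⟨B, ?_, ?_⟩
  · have h1 : (11 : ℂ) ∈ B.nonunits := hB2 ⟨⟨11, h11⟩, Ideal.subset_span rfl, rfl⟩
    have h2 : ((11 : B) : ℂ) ∈ B.nonunits := h1
    rw [IsLocalRing.mem_maximalIdeal]
    exact (ValuationSubring.coe_mem_nonunits_iff).1 h2
  · apply IsAlgClosed.of_exists_root
    intro p hm hirr
    have hl : p ∈ Polynomial.lifts (residue B) := by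
      rw [Polynomial.mem_lifts]
      exact Polynomial.map_surjective _ IsLocalRing.residue_surjective p
    obtain ⟨P, hP1, hP2, hP3⟩ := Polynomial.lifts_and_degree_eq_and_monic hl hm
    have hdeg : (P.map (algebraMap B ℂ)).degree ≠ 0 := by
      rw [hP3.degree_map, hP2]
      exact hirr.degree_pos.ne'
    obtain ⟨z, hz⟩ := IsAlgClosed.exists_root _ hdeg
    have hint : IsIntegral B z := by
      refine ⟨P, hP3, ?_⟩
      rw [← Polynomial.eval_map]
      exact hz
    obtain ⟨y, hy⟩ := IsIntegrallyClosed.isIntegral_iff.1 hint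
    refine ⟨residue B y, ?_⟩
    have h1 : P.eval y = 0 := by
      apply FaithfulSMul.algebraMap_injective B ℂ
      rw [map_zero, ← Polynomial.eval₂_at_apply, hy, ← Polynomial.eval_map]
      exact hz
    rw [← hP1, Polynomial.eval_map, Polynomial.eval₂_at_apply, h1, map_zero]

end Pool.Agent.JC3
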