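import Pool.Agent.JC3.Stmts

set_option autoImplicit false

namespace Pool.Agent.JC3

namespace AuxI2

/-- dimension of a space of functions with dual evaluation points -/
lemma finrank_of_dual {R X : Type} [Field R] (U : Submodule R (X → R)) (d : ℕ) (w : Fin d → X)
    (F : Fin d → X → R) (h1 : ∀ i, F i ∈ U) (h2 : ∀ i j, F i (w j) = if i = j then 1 else 0)
    (h3 : ∀ g ∈ U, ∀ x, g x = ∑ i, g (w i) * F i x) : Module.finrank R U = d := by
  have e : U ≃ₗ[R] (Fin d → R) :=
    { toFun := fun g i => g.1 (w i)
      map_add' := fun g g' => rfl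
      map_smul' := fun c g => rfl
      invFun := fun c => ⟨∑ i, c i • F i, U.sum_mem fun i _ => U.smul_mem _ (h1 i)⟩
      left_inv := by
        intro g
        apply Subtype.ext
        funext x
        show (∑ i, g.1 (w i) • F i) x = g.1 x
        rw [Finset.sum_apply, h3 g.1 g.2 x]
        rfl
      right_inv := by
        intro c
        funext j
        show (∑ i, c i • F i) (w j) = c j
        rw [Finset.sum_apply]
        simp only [Pi.smul_apply, smul_eq_mul, h2]
        simp }
  rw [e.finrank_eq, Module.finrank_fin_fun]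

/-- a basis with dual evaluation points and integral values -/
lemma exists_dual (A : ValuationSubring ℂ) {X : Type} [DecidableEq X] (m : ℕ) :
    ∀ (U : Submodule ℂ (X → ℂ)) (S : Finset X), S.card = m → (∀ f ∈ U, ∀ x, x ∉ S → f x = 0) →
    ∃ (d : ℕ) (w : Fin d → X) (F : Fin d → X → A), (∀ i, (fun x => ((F i x : A) : ℂ)) ∈ U) ∧
      (∀ i j, F i (w j) = if i = j then 1 else 0) ∧
      ∀ g ∈ U, ∀ x, g x = ∑ i, g (w i) * ((F i x : A) : ℂ) := by
  induction m with
  | zero =>
    intro U S hS hU
    refine ⟨0, Fin.elim0, Fin.elim0, fun i => i.elim0, fun i => i.elim0, fun g hg x => ?_⟩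
    rw [hU g hg x (by rw [Finset.card_eq_zero.1 hS]; simp)]
    simp
  | succ m ih =>
    intro U S hS hU
    by_cases hU0 : U = ⊥
    · refine ⟨0, Fin.elim0, Fin.elim0, fun i => i.elim0, fun i => i.elim0, fun g hg x => ?_⟩
      rw [hU0, Submodule.mem_bot] at hg
      rw [hg]
      simp
    · obtain ⟨f0, hf0, hne⟩ := Submodule.exists_mem_ne_zero_of_ne_bot hU0
      have hSne : S.Nonempty := by
        rw [← Finset.card_pos]; omega
      obtain ⟨w0, hw0, hmax⟩ := Finset.exists_max_image S (fun x => A.valuation (f0 x)) hSne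
      have hv0 : f0 w0 ≠ 0 := by
        intro h0
        apply hne
        funext x
        by_cases hx : x ∈ S
        · have h1 := hmax x hx
          rw [h0, map_zero] at h1
          exact (map_eq_zero A.valuation).1 (le_antisymm h1 zero_le)
        · exact hU f0 hf0 x hx
      have hA : ∀ x, (f0 w0)⁻¹ * f0 x ∈ A := by
        intro x
        by_cases hx : x ∈ S
        · rw [← A.valuation_le_one_iff, map_mul, map_inv₀]
          have h1 := hmax x hx
          have h2 : A.valuation (f0 w0) ≠ 0 := (map_ne_zero A.valuation).2 hv0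
          rw [mul_comm, ← div_eq_mul_inv]
          exact (div_le_one₀ (zero_lt_iff.2 h2)).2 h1
        · rw [hU f0 hf0 x hx, mul_zero]
          exact A.zero_mem
      let f : X → A := fun x => ⟨(f0 w0)⁻¹ * f0 x, hA x⟩
      have hfU : (fun x => ((f x : A) : ℂ)) ∈ U := U.smul_mem ((f0 w0)⁻¹) hf0
      have hf1 : f w0 = 1 := Subtype.ext (inv_mul_cancel₀ hv0)
      let U' : Submodule ℂ (X → ℂ) :=
        { carrier := {g | g ∈ U ∧ g w0 = 0}
          add_mem' := by
            rintro g g' ⟨h1, h2⟩ ⟨h3, h4⟩
            exact ⟨U.add_mem h1 h3, by rw [Pi.add_apply, h2, h4, add_zero]⟩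
          zero_mem' := ⟨U.zero_mem, rfl⟩
          smul_mem' := by
            rintro c g ⟨h1, h2⟩
            exact ⟨U.smul_mem c h1, by rw [Pi.smul_apply, h2, smul_zero]⟩ }
      obtain ⟨d, w, F, h1, h2, h3⟩ := ih U' (S.erase w0) (by rw [Finset.card_erase_of_mem hw0]; omega)
        (by
          rintro g ⟨hg, hg0⟩ x hx
          by_cases hxw : x = w0
          · rw [hxw, hg0]
          · exact hU g hg x fun hxS => hx (Finset.mem_erase.2 ⟨hxw, hxS⟩))
      have hF0 : ∀ i, F i w0 = 0 := fun i => Subtype.ext (h1 i).2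
      let f' : X → A := fun x => f x - ∑ i, f (w i) * F i x
      have hf'c : ∀ x, ((f' x : A) : ℂ) = (f x : ℂ) - ∑ i, (f (w i) : ℂ) * (F i x : ℂ) := by
        intro x
        show (((f x - ∑ i, f (w i) * F i x : A)) : ℂ) = _
        push_cast
        rfl
      refine ⟨d + 1, Fin.cons w0 w, Fin.cons f' F, ?_, ?_, ?_⟩
      · intro i
        refine Fin.cases ?_ (fun i => ?_) i
        · simp only [Fin.cons_zero]
          have : (fun x => ((f' x : A) : ℂ)) = (fun x => ((f x : A) : ℂ)) -
              ∑ i, (f (w i) : ℂ) • (fun x => ((F i x : A) : ℂ)) := by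
            funext x
            rw [hf'c x, Pi.sub_apply, Finset.sum_apply]
            rfl
          rw [this]
          exact U.sub_mem hfU (U.sum_mem fun i _ => U.smul_mem _ (h1 i).1)
        · simp only [Fin.cons_succ]
          exact (h1 i).1
      · intro i j
        refine Fin.cases ?_ (fun i => ?_) i <;> refine Fin.cases ?_ (fun j => ?_) j
        · simp only [Fin.cons_zero, if_true]
          show f w0 - ∑ i, f (w i) * F i w0 = 1
          simp [hF0, hf1]
        · simp only [Fin.cons_zero, Fin.cons_succ]
          rw [if_neg (Fin.succ_ne_zero j).symm]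
          show f (w j) - ∑ i, f (w i) * F i (w j) = 0
          simp [h2]
        · simp only [Fin.cons_zero, Fin.cons_succ]
          rw [if_neg (Fin.succ_ne_zero i), hF0]
        · simp only [Fin.cons_succ]
          rw [h2]
          simp [Fin.succ_inj]
      · intro g hg x
        rw [Fin.sum_univ_succ]
        simp only [Fin.cons_zero, Fin.cons_succ]
        have hg' : (g - g w0 • fun x => ((f x : A) : ℂ)) ∈ U' := by
          refine ⟨U.sub_mem hg (U.smul_mem _ hfU), ?_⟩
          rw [Pi.sub_apply, Pi.smul_apply, hf1]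
          simp
        have h4 := h3 _ hg' x
        simp only [Pi.sub_apply, Pi.smul_apply, smul_eq_mul] at h4
        rw [hf'c x]
        have h5 : ∑ i, (g (w i) - g w0 * (f (w i) : ℂ)) * (F i x : ℂ) =
            ∑ i, g (w i) * (F i x : ℂ) - g w0 * ∑ i, (f (w i) : ℂ) * (F i x : ℂ) := by
          rw [Finset.mul_sum, ← Finset.sum_sub_distrib]
          exact Finset.sum_congr rfl fun i _ => by ring
        rw [h5] at h4
        linear_combination h4

end AuxI2

open AuxI2 IsLocalRing in
theorem I2_proof : StmtI2 := by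
  intro A U S hU
  classical
  obtain ⟨d, w, F, h1, h2, h3⟩ := exists_dual A S.card U S rfl hU
  have e1 : Module.finrank ℂ U = d := by
    refine finrank_of_dual U d w (fun i x => ((F i x : A) : ℂ)) h1 (fun i j => ?_) h3
    rw [h2]
    split_ifs <;> rfl
  rw [e1]
  refine finrank_of_dual (redL A U) d w (fun i x => residue A (F i x)) ?_ ?_ ?_
  · intro i
    exact ⟨F i, h1 i, fun x => rfl⟩
  · intro i j
    rw [h2]
    split_ifs
    · exact map_one _
    · exact map_zero _
  · rintro g ⟨f, hf, hg⟩ x
    have h4 : f x = ∑ i, f (w i) * F i x := by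
      apply Subtype.ext
      rw [h3 _ hf x]
      push_cast
      rfl
    rw [← hg x, h4, map_sum]
    refine Finset.sum_congr rfl fun i _ => ?_
    rw [map_mul, hg]

end Pool.Agent.JC3
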