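import Pool.Agent.JC3.P
import Pool.Agent.JC3.Final
import Pool.Agent.JC3.A123
import Pool.Agent.JC3.A45
import Pool.Agent.JC3.A6
import Pool.Agent.JC3.B2
import Pool.Agent.JC3.B34
import Pool.Agent.JC3.C124
import Pool.Agent.JC3.C3
import Pool.Agent.JC3.C5
import Pool.Agent.JC3.D1
import Pool.Agent.JC3.D2
import Pool.Agent.JC3.D3
import Pool.Agent.JC3.E12
import Pool.Agent.JC3.E34
import Pool.Agent.JC3.E5
import Pool.Agent.JC3.E6
import Pool.Agent.JC3.F1
import Pool.Agent.JC3.F2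
import Pool.Agent.JC3.F3
import Pool.Agent.JC3.H123
import Pool.Agent.JC3.H4
import Pool.Agent.JC3.I1
import Pool.Agent.JC3.I2

/-! Assembly of all parts. -/

set_option autoImplicit false

namespace Pool.Agent.JC3

theorem main_length :
    ∃ (F : Type) (_ : Field F) (q : F), IsAlgClosed F ∧ CharP F 11 ∧ 1 + q + q ^ 2 = 0 ∧
      Module.length (Hecke (Complex.exp (2 * Real.pi * Complex.I / 3)) 30)
          (Specht (Complex.exp (2 * Real.pi * Complex.I / 3)) 30
            [6, 4, 2, 2, 2, 1, 1, 1, 1, 1, 1, 1, 1, 1, 1, 1, 1, 1, 1]) <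
        Module.length (Hecke q 30)
          (Specht q 30 [6, 4, 2, 2, 2, 1, 1, 1, 1, 1, 1, 1, 1, 1, 1, 1, 1, 1, 1]) := by
  have hC1 := C1_proof
  have hC3 := C3_proof hC1
  have hD2 := D2_proof hC1 C2_proof hC3 C4_proof A2_proof
  have hE1 := E1_proof A4_proof
  have hE2 := E2_proof hC1 hE1
  have hE3 := E3_proof hC1 hE2
  have hE4 := E4_proof hC1 hE1 hD2
  have hE5 := E5_proof hC1 C5_proof
  have hE6 := E6_proof hE2 hD2
  have hB3 := B3_proof B2_proof A3_proof
  have hB4 := B4_proof B2_proof A3_proof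
  have hD3 := D3_proof hC1
  have hF1 := F1_proof A5_proof hE5
  have hF2 := F2_proof hB4 hD3
  have hF3 := F3_proof hF1 hF2 A6_proof hD3
  have hH1 := H1_proof A6_proof B1_proof hC1 C5_proof hD2 hE2 hE3 hE6 hF3
  have hH2 := H2_proof A6_proof B1_proof hC1 C5_proof hD2 hE2 hE3 hE6 hF3
  have hH3 := H3_proof A6_proof B1_proof hC1 C5_proof hD2 hE2 hE3 hE6 hF3
  obtain ⟨A, h11, hcl⟩ := I1_proof
  have key := final_dim B1_proof hB3 hE4 hH1 hH2 hH3 H4_proof I2_proof A h11
  rw [← length_eq, ← length_eq, WithBot.coe_lt_coe] at key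
  refine ⟨IsLocalRing.ResidueField A, inferInstance, zF A, hcl, ?_, zF_rel A, key⟩
  have h0 : (11 : IsLocalRing.ResidueField A) = 0 := res11 A h11
  have h1 : ringChar (IsLocalRing.ResidueField A) ∣ 11 :=
    (ringChar.spec (IsLocalRing.ResidueField A) 11).1 (by exact_mod_cast h0)
  rcases (Nat.Prime.eq_one_or_self_of_dvd (by norm_num) _ h1) with h2 | h2
  · exfalso
    have h3 := (ringChar.spec (IsLocalRing.ResidueField A) 1).2 (by rw [h2])
    simp at h3
  · exact h2 ▸ ringChar.charP (IsLocalRing.ResidueField A)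

end Pool.Agent.JC3
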