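import Pool.Agent.JC3.Rep

/-!
The length of the Specht module is the order dimension of the set of stable subspaces of SpL.
-/

set_option autoImplicit false

namespace Pool.Agent.JC3

namespace AuxP

variable {A : Type} [CommRing A] {n : ℕ}

lemma smul_def' (q : A) (h : Hecke q n) (f : Tens A n) : h • f = rep q n h f := rfl

/-- the generator T_i -/
noncomputable def gen (q : A) (i : Fin (n - 1)) : Hecke q n :=
  RingQuot.mkAlgHom A (HeckeRel q n) (FreeAlgebra.ι A i)

lemma rep_gen (q : A) (i : Fin (n - 1)) : rep q n (gen q i) = opF q i := by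
  unfold rep gen repFree quotMap freeMap
  rw [RingQuot.liftAlgHom_mkAlgHom_apply, FreeAlgebra.lift_ι_apply]

lemma gen_smul (q : A) (i : Fin (n - 1)) (f : Tens A n) : gen q i • f = opF q i f := by
  rw [smul_def', rep_gen]

lemma algebraMap_smul' (q : A) (c : A) (f : Tens A n) :
    (algebraMap A (Hecke q n) c) • f = c • f := by
  rw [smul_def', AlgHom.commutes, Module.algebraMap_end_apply]

/-- a linear subspace stable under all opF is stable under the Hecke algebra -/
lemma smul_mem_of_stable (q : A) (W : Submodule A (Tens A n))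
    (hW : ∀ i : Fin (n - 1), ∀ f ∈ W, opF q i f ∈ W) (h : Hecke q n) : ∀ f ∈ W, h • f ∈ W := by
  obtain ⟨a, rfl⟩ := RingQuot.mkAlgHom_surjective A (HeckeRel q n) h
  induction a using FreeAlgebra.induction with
  | grade0 c =>
    intro f hf
    rw [AlgHom.commutes, algebraMap_smul']
    exact W.smul_mem c hf
  | grade1 i =>
    intro f hf
    have := gen_smul q i f
    unfold gen at this
    rw [this]
    exact hW i f hf
  | mul a b ha hb =>
    intro f hf
    rw [map_mul, mul_smul]
    exact ha _ (hb _ hf)
  | add a b ha hb =>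
    intro f hf
    rw [map_add, add_smul]
    exact W.add_mem (ha _ hf) (hb _ hf)

lemma toL_zT (κ : List ℕ) : toL (zT A κ.sum κ : Tens A κ.sum) = zf A κ := by
  funext w
  by_cases hw : w.length = κ.sum
  · have e : w = List.ofFn (fun i : Fin κ.sum => w.getD i 0) := by
      apply List.ext_getElem
      · rw [List.length_ofFn, hw]
      · intro i h1 h2
        rw [List.getElem_ofFn, List.getD_eq_getElem _ _ h1]
    rw [toL_apply, if_pos hw]
    unfold zT zf
    rw [← e]
  · rw [toL_zero_of_length _ hw]
    unfold zf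
    rw [if_neg]
    intro h
    exact hw (length_of_perm h.perm)

/-- pull back of a subspace -/
noncomputable def back (q : A) (U : Submodule A (List ℕ → A)) (hU : Stable q n U) :
    Submodule (Hecke q n) (Tens A n) where
  carrier := {f | toL f ∈ U}
  add_mem' := by
    intro f g hf hg
    show toL (f + g) ∈ U
    rw [map_add]; exact U.add_mem hf hg
  zero_mem' := by
    show toL (0 : Tens A n) ∈ U
    rw [map_zero]; exact U.zero_mem
  smul_mem' := by
    intro h f hf
    have key := smul_mem_of_stable q (U.comap toL) (fun i g hg => by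
      rw [Submodule.mem_comap, toL_opF]
      exact hU i (by have := i.2; omega) _ hg) h f hf
    exact key

lemma mem_back (q : A) (U : Submodule A (List ℕ → A)) (hU : Stable q n U) (f : Tens A n) :
    f ∈ back q U hU ↔ toL f ∈ U := Iff.rfl

/-- image of a Hecke submodule -/
noncomputable def forth (q : A) (N : Submodule (Hecke q n) (Tens A n)) :
    Submodule A (List ℕ → A) where
  carrier := {g | ∃ f ∈ N, toL f = g}
  add_mem' := by
    rintro _ _ ⟨f, hf, rfl⟩ ⟨g, hg, rfl⟩
    exact ⟨f + g, N.add_mem hf hg, map_add _ _ _⟩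
  zero_mem' := ⟨0, N.zero_mem, map_zero _⟩
  smul_mem' := by
    rintro c _ ⟨f, hf, rfl⟩
    refine ⟨c • f, ?_, map_smul _ _ _⟩
    rw [← algebraMap_smul' q c f]
    exact N.smul_mem _ hf

lemma forth_stable (q : A) (N : Submodule (Hecke q n) (Tens A n)) : Stable q n (forth q N) := by
  rintro k hk _ ⟨f, hf, rfl⟩
  have hk' : k < n - 1 := by omega
  refine ⟨gen q ⟨k, hk'⟩ • f, N.smul_mem _ hf, ?_⟩
  rw [gen_smul, toL_opF]

lemma forth_Specht (q : A) (κ : List ℕ) : forth q (Specht q κ.sum κ) = SpL q κ := by
  apply le_antisymm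
  · rintro _ ⟨f, hf, rfl⟩
    have h1 : Specht q κ.sum κ ≤ back q (SpL q κ) (SpL_stable q κ) := by
      apply Submodule.span_le.2
      intro g hg
      rw [Set.mem_singleton_iff] at hg
      subst hg
      show toL _ ∈ SpL q κ
      rw [toL_zT]
      exact zf_mem_SpL q κ
    exact h1 hf
  · apply SpL_le q κ (forth_stable q _)
    exact ⟨zT A κ.sum κ, Submodule.subset_span rfl, toL_zT κ⟩

lemma forth_mono (q : A) {N N' : Submodule (Hecke q n) (Tens A n)} :
    forth q N ≤ forth q N' ↔ N ≤ N' := by
  constructor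
  · intro h f hf
    obtain ⟨g, hg, e⟩ := h ⟨f, hf, rfl⟩
    rw [← toL_injective e]; exact hg
  · rintro h _ ⟨f, hf, rfl⟩
    exact ⟨f, h hf, rfl⟩

end AuxP

open AuxP in
/-- Hecke submodules of the Specht module correspond to stable subspaces of SpL -/
noncomputable def orderIso {k : Type} [Field k] (q : k) (κ : List ℕ) :
    Set.Iic (Specht q κ.sum κ) ≃o SubSt q κ where
  toFun N := ⟨forth q N.1, forth_stable q N.1, by
    rw [← forth_Specht]; exact (forth_mono q).2 N.2⟩
  invFun U := ⟨back q U.1 U.2.1, by
    intro f hf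
    have h1 : toL f ∈ SpL q κ := U.2.2 hf
    rw [← forth_Specht] at h1
    obtain ⟨g, hg, e⟩ := h1
    rw [← toL_injective e]; exact hg⟩
  left_inv := by
    rintro ⟨N, hN⟩
    apply Subtype.ext
    apply le_antisymm
    · intro f hf
      obtain ⟨g, hg, e⟩ := hf
      rw [← toL_injective e]; exact hg
    · intro f hf
      exact ⟨f, hf, rfl⟩
  right_inv := by
    rintro ⟨U, hU1, hU2⟩
    apply Subtype.ext
    apply le_antisymm
    · rintro _ ⟨f, hf, rfl⟩
      exact hf
    · intro g hg
      have h1 : g ∈ SpL q κ := hU2 hg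
      rw [← forth_Specht] at h1
      obtain ⟨f, hf, rfl⟩ := h1
      exact ⟨f, hg, rfl⟩
  map_rel_iff' := by
    rintro ⟨N, hN⟩ ⟨N', hN'⟩
    exact forth_mono q

/-- the length of the Specht module is the order dimension of SubSt -/
theorem length_eq {k : Type} [Field k] (q : k) (κ : List ℕ) :
    ((Module.length (Hecke q κ.sum) (Specht q κ.sum κ) : ℕ∞) : WithBot ℕ∞) =
      Order.krullDim (SubSt q κ) := by
  rw [Module.coe_length]
  exact (Order.krullDim_eq_of_orderIso (Submodule.mapIic (Specht q κ.sum κ))).trans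
    (Order.krullDim_eq_of_orderIso (orderIso q κ))

end Pool.Agent.JC3
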