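import Pool.Agent.JC3.Basic

/-!
The operators opF satisfy the relations of the Hecke algebra.
-/

set_option autoImplicit false
set_option linter.unusedSimpArgs false

namespace Pool.Agent.JC3

/-! ### pointwise relations for TL -/

namespace AuxP

section rel
variable {A : Type} [CommRing A]

lemma TL0 (q : A) (pre : List ℕ) (x y : ℕ) (post : List ℕ) (f : List ℕ → A) :
    TL q pre.length f (pre ++ x :: y :: post) =
      if x = y then - f (pre ++ x :: y :: post) else if x < y then q * f (pre ++ y :: x :: post)
      else f (pre ++ y :: x :: post) + (q - 1) * f (pre ++ x :: y :: post) := by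
  rw [TL_apply, getD_split0, getD_split1, swapAt_append]

lemma TL1 (q : A) (pre : List ℕ) (a x y : ℕ) (post : List ℕ) (f : List ℕ → A) :
    TL q (pre.length + 1) f (pre ++ a :: x :: y :: post) =
      if x = y then - f (pre ++ a :: x :: y :: post)
      else if x < y then q * f (pre ++ a :: y :: x :: post)
      else f (pre ++ a :: y :: x :: post) + (q - 1) * f (pre ++ a :: x :: y :: post) := by
  have h := TL0 q (pre ++ [a]) x y post f
  simpa using h

lemma TL_quad (q : A) (k : ℕ) (f : List ℕ → A) (w : List ℕ) (hw : k + 1 < w.length) :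
    TL q k (TL q k f) w = (q - 1) * TL q k f w + q * f w := by
  obtain ⟨pre, x, y, post, rfl, rfl⟩ := exists_split w k (by omega)
  simp only [TL0]
  rcases lt_trichotomy x y with h | h | h
  · rw [if_neg (by omega), if_pos h, if_neg (by omega), if_neg (by omega)]
    rw [if_neg (by omega), if_pos h]
    ring
  · subst h
    simp only [if_true]
    ring
  · rw [if_neg (by omega), if_neg (by omega), if_neg (by omega), if_pos h]
    rw [if_neg (by omega), if_neg (by omega)]
    ring

lemma TL_braid (q : A) (k : ℕ) (f : List ℕ → A) (w : List ℕ) (hw : k + 2 < w.length) :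
    TL q k (TL q (k + 1) (TL q k f)) w = TL q (k + 1) (TL q k (TL q (k + 1) f)) w := by
  obtain ⟨pre, x, l, rfl, rfl⟩ := exists_split1 w k (by omega)
  match l, hw with
  | [], hw => simp at hw
  | [y], hw => simp at hw
  | y :: z :: post, hw =>
    rcases lt_trichotomy x y with h1 | h1 | h1
    · rcases lt_trichotomy y z with h2 | h2 | h2
      · simp only [TL0, TL1, h1, h2, h1.trans h2, h1.ne, h2.ne, (h1.trans h2).ne, h1.ne', h2.ne',
          (h1.trans h2).ne', h1.not_gt, h2.not_gt, (h1.trans h2).not_gt, if_true, if_false]
      · subst h2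
        simp only [TL0, TL1, h1, h1.ne, h1.ne', h1.not_gt, if_true, if_false]
        ring
      · rcases lt_trichotomy x z with h3 | h3 | h3
        · simp only [TL0, TL1, h1, h2, h3, h1.ne, h2.ne, h3.ne, h1.ne', h2.ne',
            h3.ne', h1.not_gt, h2.not_gt, h3.not_gt, if_true, if_false]
          ring
        · subst h3
          simp only [TL0, TL1, h1, h1.ne, h1.ne', h1.not_gt, if_true, if_false]
          ring
        · simp only [TL0, TL1, h1, h2, h3, h1.ne, h2.ne, h3.ne, h1.ne', h2.ne',
            h3.ne', h1.not_gt, h2.not_gt, h3.not_gt, if_true, if_false]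
          ring
    · subst h1
      rcases lt_trichotomy x z with h2 | h2 | h2
      · simp only [TL0, TL1, h2, h2.ne, h2.ne', h2.not_gt, if_true, if_false]
        ring
      · subst h2
        simp only [TL0, TL1, if_true]
      · simp only [TL0, TL1, h2, h2.ne, h2.ne', h2.not_gt, if_true, if_false]
        ring
    · rcases lt_trichotomy y z with h2 | h2 | h2
      · rcases lt_trichotomy x z with h3 | h3 | h3
        · simp only [TL0, TL1, h1, h2, h3, h1.ne, h2.ne, h3.ne, h1.ne', h2.ne',
            h3.ne', h1.not_gt, h2.not_gt, h3.not_gt, if_true, if_false]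
          ring
        · subst h3
          simp only [TL0, TL1, h1, h1.ne, h1.ne', h1.not_gt, if_true, if_false]
          ring
        · simp only [TL0, TL1, h1, h2, h3, h1.ne, h2.ne, h3.ne, h1.ne', h2.ne',
            h3.ne', h1.not_gt, h2.not_gt, h3.not_gt, if_true, if_false]
          ring
      · subst h2
        simp only [TL0, TL1, h1, h1.ne, h1.ne', h1.not_gt, if_true, if_false]
        ring
      · simp only [TL0, TL1, h1, h2, h2.trans h1, h1.ne, h2.ne, (h2.trans h1).ne, h1.ne', h2.ne',
          (h2.trans h1).ne', h1.not_gt, h2.not_gt, (h2.trans h1).not_gt, if_true, if_false]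
        ring

lemma TL_comm (q : A) (k l : ℕ) (hkl : k + 1 < l) (f : List ℕ → A) (w : List ℕ)
    (hw : l + 1 < w.length) : TL q k (TL q l f) w = TL q l (TL q k f) w := by
  have e1 := getD_swapAt_of_ne w k l (by omega) (by omega) (by omega)
  have e2 := getD_swapAt_of_ne w k (l + 1) (by omega) (by omega) (by omega)
  have e3 := getD_swapAt_of_ne w l k (by omega) (by omega) (by omega)
  have e4 := getD_swapAt_of_ne w l (k + 1) (by omega) (by omega) (by omega)
  simp only [TL_apply, e1, e2, e3, e4, swapAt_comm w k l hkl]
  split_ifs <;> ring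

end rel

/-! ### the linear injection -/

variable {A : Type} [CommRing A] {n : ℕ}

/-- a function on words of length n, as a function on lists -/
noncomputable def toL : Tens A n →ₗ[A] (List ℕ → A) where
  toFun f := fun w => if w.length = n then f (fun i : Fin n => w.getD i 0) else 0
  map_add' := by
    intro f g; funext w
    show (if w.length = n then (f _ + g _ : A) else 0) = _
    simp only [Pi.add_apply]
    split_ifs <;> simp
  map_smul' := by
    intro c f; funext w
    show (if w.length = n then (c * f _ : A) else 0) = _
    simp only [Pi.smul_apply, smul_eq_mul, RingHom.id_apply]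
    split_ifs <;> simp

lemma toL_apply (f : Tens A n) (w : List ℕ) :
    toL f w = if w.length = n then f (fun i : Fin n => w.getD i 0) else 0 := rfl

lemma toL_ofFn (f : Tens A n) (v : Fin n → ℕ) : toL f (List.ofFn v) = f v := by
  rw [toL_apply, if_pos (List.length_ofFn)]
  congr 1
  funext i
  rw [List.getD_eq_getElem _ _ (by rw [List.length_ofFn]; exact i.2)]
  simp

lemma toL_injective : Function.Injective (toL : Tens A n →ₗ[A] (List ℕ → A)) := by
  intro f g h
  funext v
  have := congrFun h (List.ofFn v)
  rwa [toL_ofFn, toL_ofFn] at this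

lemma toL_zero_of_length (f : Tens A n) {w : List ℕ} (h : w.length ≠ n) : toL f w = 0 := by
  rw [toL_apply, if_neg h]

lemma toL_opF (q : A) (i : Fin (n - 1)) (f : Tens A n) : toL (opF q i f) = TL q i (toL f) := by
  funext w
  by_cases hw : w.length = n
  · have hi' : (i : ℕ) + 1 < w.length := by have := i.2; omega
    have e : (swapAt i w).length = n := by rw [swapAt_length]; exact hw
    rw [TL_apply]
    simp only [toL_apply, if_pos hw, if_pos e]
    have hex : exch i (fun p : Fin n => w.getD p 0) = fun p : Fin n => (swapAt i w).getD p 0 := by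
      funext p
      show w.getD (Equiv.swap (lo i) (hi i) p : Fin n) 0 = _
      by_cases h1 : p = lo i
      · subst h1
        rw [Equiv.swap_apply_left]
        exact (getD_swapAt0 w i hi').symm
      · by_cases h2 : p = hi i
        · subst h2
          rw [Equiv.swap_apply_right]
          exact (getD_swapAt1 w i hi').symm
        · rw [Equiv.swap_apply_of_ne_of_ne h1 h2]
          exact (getD_swapAt_of_ne w i p hi' (fun h => h1 (Fin.ext h)) (fun h => h2 (Fin.ext h))).symm
    show (if w.getD i 0 = w.getD (i + 1) 0 then - f _
      else if w.getD i 0 < w.getD (i + 1) 0 then q * f (exch i _)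
      else f (exch i _) + (q - 1) * f _) = _
    rw [hex]
  · rw [toL_zero_of_length _ hw, TL_apply, toL_zero_of_length _ hw,
      toL_zero_of_length _ (by rw [swapAt_length]; exact hw)]
    simp

lemma TL_toL_short (q : A) (f : Tens A n) {w : List ℕ} (h : w.length ≠ n) (k : ℕ) :
    TL q k (toL f) w = 0 := by
  rw [TL_apply, toL_zero_of_length _ h, toL_zero_of_length _ (by rw [swapAt_length]; exact h)]
  simp

lemma opF_quad (q : A) (i : Fin (n - 1)) (f : Tens A n) :
    opF q i (opF q i f) = (q - 1) • opF q i f + q • f := by
  apply toL_injective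
  rw [map_add, map_smul, map_smul, toL_opF, toL_opF]
  funext w
  by_cases hw : w.length = n
  · exact TL_quad q i (toL f) w (by have := i.2; omega)
  · have h1 := TL_toL_short q f hw i
    have h2 := TL_toL_short q (opF q i f) hw i
    rw [toL_opF] at h2
    rw [h2, Pi.add_apply, Pi.smul_apply, Pi.smul_apply, h1, toL_zero_of_length _ hw]
    simp

lemma opF_braid (q : A) (i j : Fin (n - 1)) (h : (j : ℕ) = i + 1) (f : Tens A n) :
    opF q i (opF q j (opF q i f)) = opF q j (opF q i (opF q j f)) := by
  apply toL_injective
  simp only [toL_opF]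
  funext w
  by_cases hw : w.length = n
  · rw [h]
    exact TL_braid q i (toL f) w (by have := j.2; omega)
  · have h2 := TL_toL_short q (opF q j (opF q i f)) hw i
    have h3 := TL_toL_short q (opF q i (opF q j f)) hw j
    simp only [toL_opF] at h2 h3
    rw [h2, h3]

lemma opF_comm (q : A) (i j : Fin (n - 1)) (h : (i : ℕ) + 1 < j) (f : Tens A n) :
    opF q i (opF q j f) = opF q j (opF q i f) := by
  apply toL_injective
  simp only [toL_opF]
  funext w
  by_cases hw : w.length = n
  · exact TL_comm q i j h (toL f) w (by have := j.2; omega)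
  · have h2 := TL_toL_short q (opF q j f) hw i
    have h3 := TL_toL_short q (opF q i f) hw j
    simp only [toL_opF] at h2 h3
    rw [h2, h3]

end AuxP

end Pool.Agent.JC3
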