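import Mathlib

/-!
Statement level definitions: the Hecke algebra H_n(A,q) by generators and relations, its signed
permutation module on words of length n, and the Specht modules of H_n(A,q).
-/

set_option autoImplicit false

namespace Pool.Agent.JC3

/-- Defining relations of the Iwahori Hecke algebra with generators T_0, ..., T_{n-2}. -/
inductive HeckeRel {A : Type} [CommRing A] (q : A) (n : ℕ) :
    FreeAlgebra A (Fin (n - 1)) → FreeAlgebra A (Fin (n - 1)) → Prop
  | quad (i : Fin (n - 1)) :
      HeckeRel q n ((FreeAlgebra.ι A i - algebraMap A _ q) * (FreeAlgebra.ι A i + 1)) 0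
  | braid (i j : Fin (n - 1)) (h : (j : ℕ) = i + 1) :
      HeckeRel q n (FreeAlgebra.ι A i * FreeAlgebra.ι A j * FreeAlgebra.ι A i)
        (FreeAlgebra.ι A j * FreeAlgebra.ι A i * FreeAlgebra.ι A j)
  | comm (i j : Fin (n - 1)) (h : (i : ℕ) + 1 < j) :
      HeckeRel q n (FreeAlgebra.ι A i * FreeAlgebra.ι A j) (FreeAlgebra.ι A j * FreeAlgebra.ι A i)

/-- The Iwahori Hecke algebra of type A_{n-1} with parameter q. -/
abbrev Hecke {A : Type} [CommRing A] (q : A) (n : ℕ) : Type := RingQuot (HeckeRel q n)

/-- Functions on the words of length n in the letters 0,1,2,... -/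
def Tens (A : Type) (n : ℕ) : Type := (Fin n → ℕ) → A

noncomputable instance (A : Type) [CommRing A] (n : ℕ) : AddCommGroup (Tens A n) :=
  inferInstanceAs (AddCommGroup ((Fin n → ℕ) → A))

noncomputable instance (A : Type) [CommRing A] (n : ℕ) : Module A (Tens A n) :=
  inferInstanceAs (Module A ((Fin n → ℕ) → A))

/-- The position i, as a position of a word of length n. -/
def lo {n : ℕ} (i : Fin (n - 1)) : Fin n := ⟨i, by omega⟩

/-- The position i+1, as a position of a word of length n. -/
def hi {n : ℕ} (i : Fin (n - 1)) : Fin n := ⟨i + 1, by omega⟩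

/-- The word w with its letters in positions i and i+1 exchanged. -/
def exch {n : ℕ} (i : Fin (n - 1)) (w : Fin n → ℕ) : Fin n → ℕ :=
  fun p => w (Equiv.swap (lo i) (hi i) p)

/-- The operator T_i on functions on words (signed permutation module). -/
def opFun {A : Type} [CommRing A] (q : A) {n : ℕ} (i : Fin (n - 1)) (f : Tens A n) : Tens A n :=
  fun w =>
    if w (lo i) = w (hi i) then - f w
    else if w (lo i) < w (hi i) then q * f (exch i w)
    else f (exch i w) + (q - 1) * f w

lemma opFun_add {A : Type} [CommRing A] (q : A) {n : ℕ} (i : Fin (n - 1)) (f g : Tens A n) :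
    opFun q i (f + g) = opFun q i f + opFun q i g := by
  funext w
  show (if w (lo i) = w (hi i) then - (f w + g w)
    else if w (lo i) < w (hi i) then q * (f (exch i w) + g (exch i w))
    else (f (exch i w) + g (exch i w)) + (q - 1) * (f w + g w)) =
    (if w (lo i) = w (hi i) then - f w
    else if w (lo i) < w (hi i) then q * f (exch i w)
    else f (exch i w) + (q - 1) * f w) + (if w (lo i) = w (hi i) then - g w
    else if w (lo i) < w (hi i) then q * g (exch i w)
    else g (exch i w) + (q - 1) * g w)
  split_ifs <;> ring

lemma opFun_smul {A : Type} [CommRing A] (q : A) {n : ℕ} (i : Fin (n - 1)) (c : A) (f : Tens A n) :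
    opFun q i (c • f) = c • opFun q i f := by
  funext w
  show (if w (lo i) = w (hi i) then - (c * f w)
    else if w (lo i) < w (hi i) then q * (c * f (exch i w))
    else (c * f (exch i w)) + (q - 1) * (c * f w)) =
    c * (if w (lo i) = w (hi i) then - f w
    else if w (lo i) < w (hi i) then q * f (exch i w)
    else f (exch i w) + (q - 1) * f w)
  split_ifs <;> ring

/-- T_i as a linear operator. -/
def opF {A : Type} [CommRing A] (q : A) {n : ℕ} (i : Fin (n - 1)) :
    Module.End A (Tens A n) where
  toFun := opFun q i
  map_add' := opFun_add q i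
  map_smul' := opFun_smul q i

/-- w is a concatenation of words b_1 b_2 ... where b_i is a permutation of 0,1,...,κ_i - 1. -/
def IsBlockWord : List ℕ → List ℕ → Prop
  | [], w => w = []
  | b :: κ, w => (w.take b).Perm (List.range b) ∧ IsBlockWord κ (w.drop b)

end Pool.Agent.JC3
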