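import Pool.Agent.JC3.Basic

/-! Compatibility of the operators with ring homomorphisms, and reduction of subspaces. -/

set_option autoImplicit false

namespace Pool.Agent.JC3

section
variable {A B : Type} [CommRing A] [CommRing B] (φ : A →+* B)

lemma TL_map (q : A) (k : ℕ) (f : List ℕ → A) (w : List ℕ) :
    φ (TL q k f w) = TL (φ q) k (fun u => φ (f u)) w := by
  rw [TL_apply, TL_apply]
  split_ifs <;> simp

lemma TL_map' (q : A) (k : ℕ) (f : List ℕ → A) :
    (fun w => φ (TL q k f w)) = TL (φ q) k (fun u => φ (f u)) := funext (TL_map φ q k f)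

lemma YL_map (q : A) (p : ℕ) : ∀ (f : List ℕ → A),
    (fun w => φ (YL q p f w)) = YL (φ q) p (fun u => φ (f u)) := by
  induction p with
  | zero => intro f; rfl
  | succ p ih =>
    intro f
    show (fun w => φ (TL q p (YL q p (TL q p f)) w)) = TL (φ q) p (YL (φ q) p (TL (φ q) p _))
    rw [TL_map', ih, TL_map']

lemma prod_map (q : A) (l : List (ℕ × ℕ)) : ∀ f : List ℕ → A,
    (fun w => φ ((l.map (fun pj => YL q pj.1 - algebraMap A _ (q ^ pj.2))).prod f w)) =
      (l.map (fun pj => YL (φ q) pj.1 - algebraMap B _ (φ q ^ pj.2))).prod (fun u => φ (f u)) := by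
  induction l with
  | nil => intro f; rfl
  | cons a l ih =>
    intro f
    simp only [List.map_cons, List.prod_cons, Module.End.mul_apply, LinearMap.sub_apply,
      Module.algebraMap_end_apply]
    rw [← ih]
    funext w
    simp only [Pi.sub_apply, Pi.smul_apply, smul_eq_mul, map_sub, map_mul, map_pow]
    rw [← YL_map]

lemma NL_map (q : A) (r : List ℕ) (f : List ℕ → A) :
    (fun w => φ (NL q r f w)) = NL (φ q) r (fun u => φ (f u)) := prod_map φ q _ f

lemma zf_map (κ : List ℕ) (w : List ℕ) : φ (zf A κ w) = zf B κ w := by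
  unfold zf; split_ifs <;> simp

lemma BB_map (q : A) (κ : List ℕ) (f g : List ℕ → A) :
    φ (BB q κ f g) = BB (φ q) κ (fun u => φ (f u)) (fun u => φ (g u)) := by
  rw [BB_apply, BB_apply, map_sum]
  exact Finset.sum_congr rfl (fun w _ => by simp)

end

section
variable {A : Type} [CommRing A]

lemma zf_memMM (κ : List ℕ) : zf A κ ∈ MM A κ := by
  intro w hw
  unfold zf at hw
  by_cases h : IsBlockWord κ w
  · exact h.perm
  · simp [h] at hw

lemma SpL_le_MM (q : A) (κ : List ℕ) : SpL q κ ≤ MM A κ :=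
  SpL_le q κ (fun _ _ _ hf => TL_memMM q κ _ hf) (zf_memMM κ)

lemma YL_memMM (q : A) (κ : List ℕ) (p : ℕ) : ∀ {f : List ℕ → A}, f ∈ MM A κ → YL q p f ∈ MM A κ := by
  induction p with
  | zero => intro f hf; exact hf
  | succ p ih => intro f hf; exact TL_memMM q κ p (ih (TL_memMM q κ p hf))

lemma NL_memMM (q : A) (κ : List ℕ) (r : List ℕ) {f : List ℕ → A} (hf : f ∈ MM A κ) :
    NL q r f ∈ MM A κ := by
  unfold NL
  induction facs r with
  | nil => exact hf
  | cons a l ih =>
    simp only [List.map_cons, List.prod_cons, Module.End.mul_apply, LinearMap.sub_apply]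
    refine sub_mem (YL_memMM q κ _ ih) ?_
    rw [Module.algebraMap_end_apply]
    exact Submodule.smul_mem _ _ ih

lemma MM_zero {κ : List ℕ} {f : List ℕ → A} (hf : f ∈ MM A κ) {w : List ℕ} (h : w ∉ permSet κ) :
    f w = 0 := by
  by_contra h'
  exact h (mem_permSet.2 (hf w h'))

lemma eq_sum_ind {κ : List ℕ} {f : List ℕ → A} (hf : f ∈ MM A κ) :
    f = ∑ t ∈ permSet κ, f t • ind A t := by
  funext w
  rw [Finset.sum_apply]
  by_cases hw : w ∈ permSet κ
  · rw [Finset.sum_eq_single w]
    · simp [ind]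
    · intro t _ ht
      simp [ind, Ne.symm ht]
    · intro h; exact absurd hw h
  · rw [MM_zero hf hw]
    symm
    apply Finset.sum_eq_zero
    intro t ht
    have : w ≠ t := by rintro rfl; exact hw ht
    simp [ind, this]

lemma stable_radL {q : A} {κ : List ℕ} (hB1 : StmtB1) : Stable q κ.sum (radL q κ) := by
  intro k hk f hf
  refine ⟨SpL_stable q κ k hk f hf.1, fun g hg => ?_⟩
  rw [hB1 A q κ k hk]
  exact hf.2 _ (SpL_stable q κ k hk g hg)

end

section
variable {K : Type} [Field K]

instance finiteDimensional_MM (κ : List ℕ) : FiniteDimensional K (MM K κ) := by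
  have h : MM K κ ≤ Submodule.span K (ind K '' (permSet κ : Set (List ℕ))) := by
    intro f hf
    rw [eq_sum_ind hf]
    exact Submodule.sum_mem _ (fun t ht => Submodule.smul_mem _ _
      (Submodule.subset_span ⟨t, ht, rfl⟩))
  have := FiniteDimensional.span_of_finite K ((permSet κ).finite_toSet.image (ind K))
  exact Submodule.finiteDimensional_of_le h

lemma finiteDimensional_of_le_MM {κ : List ℕ} {U : Submodule K (List ℕ → K)} (h : U ≤ MM K κ) :
    FiniteDimensional K U := Submodule.finiteDimensional_of_le h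

end

/-! ### reduction -/

section red
variable (A : ValuationSubring ℂ)

lemma redL_mono {U U' : Submodule ℂ (List ℕ → ℂ)} (h : U ≤ U') : redL A U ≤ redL A U' := by
  rintro g ⟨f, hf, h'⟩
  exact ⟨f, h hf, h'⟩

variable {A}

lemma redL_le_MM {κ : List ℕ} {U : Submodule ℂ (List ℕ → ℂ)} (h : U ≤ MM ℂ κ) :
    redL A U ≤ MM _ κ := by
  rintro g ⟨f, hf, h'⟩ w hw
  apply h hf w
  intro h0
  apply hw
  have h0' : ((f w : A) : ℂ) = 0 := h0
  have : f w = 0 := by exact_mod_cast h0'
  rw [← h' w, this, map_zero]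

lemma redL_stable {n : ℕ} {U : Submodule ℂ (List ℕ → ℂ)} (q : A) (h : Stable ((q : A) : ℂ) n U) :
    Stable (IsLocalRing.residue A q) n (redL A U) := by
  rintro k hk g ⟨f, hf, h'⟩
  refine ⟨TL q k f, ?_, fun w => ?_⟩
  · have := TL_map' A.subtype q k f
    have h2 := h k hk _ hf
    have h3 : (fun w => ((TL q k f w : A) : ℂ)) = TL ((q : A) : ℂ) k (fun w => ((f w : A) : ℂ)) := this
    rw [h3]; exact h2
  · have h4 : (fun u => IsLocalRing.residue A (f u)) = g := funext h'
    rw [TL_map, h4]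

lemma zf_mem_redL {κ : List ℕ} {U : Submodule ℂ (List ℕ → ℂ)} (h : zf ℂ κ ∈ U) :
    zf _ κ ∈ redL A U := by
  refine ⟨zf A κ, ?_, fun w => zf_map (IsLocalRing.residue A) κ w⟩
  have : (fun w => ((zf A κ w : A) : ℂ)) = zf ℂ κ := funext (fun w => zf_map A.subtype κ w)
  rw [this]; exact h

lemma NL_redL {q : A} {r : List ℕ} {U : Submodule ℂ (List ℕ → ℂ)} :
    (redL A U).map (NL (IsLocalRing.residue A q) r) ≤ redL A (U.map (NL ((q : A) : ℂ) r)) := by
  rintro _ ⟨g, ⟨f, hf, h'⟩, rfl⟩
  refine ⟨NL q r f, ?_, fun w => ?_⟩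
  · have h3 : (fun w => ((NL q r f w : A) : ℂ)) = NL ((q : A) : ℂ) r (fun w => ((f w : A) : ℂ)) :=
      NL_map A.subtype q r f
    rw [h3]
    exact Submodule.mem_map_of_mem hf
  · have h4 : (fun u => IsLocalRing.residue A (f u)) = g := funext h'
    have h5 := NL_map (IsLocalRing.residue A) q r f
    rw [h4] at h5
    exact congrFun h5 w

end red

end Pool.Agent.JC3
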