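import Pool.Agent.JC3.P0

/-!
Statement level definitions, continued: the action of the Hecke algebra on functions on words and
the Specht modules.
-/

set_option autoImplicit false

namespace Pool.Agent.JC3

/-- the algebra map from the free algebra which sends the i-th generator to g i -/
noncomputable def freeMap {A B : Type} [CommRing A] [Ring B] [Algebra A B] {m : ℕ} (g : Fin m → B) :
    FreeAlgebra A (Fin m) →ₐ[A] B :=
  FreeAlgebra.lift A g

/-- the algebra map from the quotient of the algebra R by the relations r induced by an algebra map
which respects r -/
noncomputable def quotMap {A R B : Type} [CommRing A] [Ring R] [Algebra A R] [Ring B] [Algebra A B]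
    {r : R → R → Prop} (f : R →ₐ[A] B) (h : ∀ ⦃a b⦄, r a b → f a = f b) : RingQuot r →ₐ[A] B :=
  RingQuot.liftAlgHom A ⟨f, h⟩

/-- the algebra map from the free algebra which sends the i-th generator to opF q i -/
noncomputable def repFree {A : Type} [CommRing A] (q : A) (n : ℕ) :
    FreeAlgebra A (Fin (n - 1)) →ₐ[A] Module.End A (Tens A n) :=
  freeMap (fun i => opF q i)

namespace AuxP

variable {A : Type} [CommRing A]

lemma lift_rel (q : A) (n : ℕ) : ∀ ⦃a b : FreeAlgebra A (Fin (n - 1))⦄, HeckeRel q n a b →
    repFree q n a = repFree q n b := by
  intro a b h
  unfold repFree freeMap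
  induction h with
  | quad i =>
    simp only [map_mul, map_sub, map_add, map_one, map_zero, FreeAlgebra.lift_ι_apply,
      AlgHom.commutes]
    apply LinearMap.ext
    intro f
    simp only [Module.End.mul_apply, LinearMap.sub_apply, LinearMap.add_apply,
      Module.End.one_apply, LinearMap.zero_apply, Module.algebraMap_end_apply, map_add]
    rw [opF_quad, sub_smul, one_smul]
    abel
  | braid i j h =>
    simp only [map_mul, FreeAlgebra.lift_ι_apply]
    apply LinearMap.ext
    intro f
    exact opF_braid q i j h f
  | comm i j h =>
    simp only [map_mul, FreeAlgebra.lift_ι_apply]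
    apply LinearMap.ext
    intro f
    exact opF_comm q i j h f

end AuxP

/-! ### the Hecke module and the Specht module -/

/-- the representation of the Hecke algebra on functions on words of length n -/
noncomputable def rep {A : Type} [CommRing A] (q : A) (n : ℕ) :
    Hecke q n →ₐ[A] Module.End A (Tens A n) :=
  quotMap (repFree q n) (AuxP.lift_rel q n)

/-- Tens A n as a module over the Hecke algebra: h acts as rep h, the generator T_i as opF q i -/
noncomputable instance {A : Type} [CommRing A] (q : A) (n : ℕ) : Module (Hecke q n) (Tens A n) :=
  Module.compHom (Tens A n) (rep q n).toRingHom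

open Classical in
/-- the indicator function of the block words of shape κ -/
noncomputable def zT (A : Type) [CommRing A] (n : ℕ) (κ : List ℕ) : Tens A n :=
  fun w => if IsBlockWord κ (List.ofFn w) then 1 else 0

/-- the Specht module of shape κ (a partition of n): the submodule generated by zT -/
noncomputable def Specht {A : Type} [CommRing A] (q : A) (n : ℕ) (κ : List ℕ) :
    Submodule (Hecke q n) (Tens A n) :=
  Submodule.span (Hecke q n) {zT A n κ}

end Pool.Agent.JC3
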