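import Pool.Agent.JC3.Data

/-!
Statements of all parts, as propositions.  A seat proves `theorem X : StmtX` in its own file.
-/

set_option autoImplicit false

namespace Pool.Agent.JC3

/-! ### Part A: words and block words (pure combinatorics) -/

/-- positions k such that k and k+1 lie in the same row block -/
def RowIdx : List ℕ → ℕ → Prop
  | [], _ => False
  | b :: κ, k => k + 1 < b ∨ (b ≤ k ∧ RowIdx κ (k - b))

/-- every row block of w is free of repetitions -/
def BlocksNodup : List ℕ → List ℕ → Prop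
  | [], _ => True
  | b :: κ, w => (w.take b).Nodup ∧ BlocksNodup κ (w.drop b)

/-- A1: a word with the letters of rowWord κ all of whose blocks are free of repetitions is a
block word (count the letters < j) -/
def StmtA1 : Prop := ∀ (κ w : List ℕ), w.Perm (rowWord κ) → BlocksNodup κ w → IsBlockWord κ w

/-- A2: row symmetric functions are multiples of z -/
def StmtA2 : Prop := ∀ (A : Type) [CommRing A] [IsDomain A] (q : A) (κ : List ℕ), q ≠ 0 → 1 + q ≠ 0 →
  ∀ f ∈ MM A κ, (∀ k, RowIdx κ k → TL q k f = q • f) → f = f (rowWord κ) • zf A κ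

/-- A3: z itself is row symmetric, lies in MM, and takes the value 1 at rowWord κ -/
def StmtA3 : Prop := ∀ (A : Type) [CommRing A] (q : A) (κ : List ℕ),
  zf A κ ∈ MM A κ ∧ zf A κ (rowWord κ) = 1 ∧ ∀ k, RowIdx κ k → TL q k (zf A κ) = q • zf A κ

/-- A4: a Yamanouchi word other than rowWord κ can be moved up by an exchange -/
def StmtA4 : Prop := ∀ (κ t : List ℕ), IsPart κ → Yam t → t.Perm (rowWord κ) → t ≠ rowWord κ →
  ∃ k, k + 1 < κ.sum ∧ t.getD k 0 < t.getD (k + 1) 0 ∧ Yam (swapAt k t)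

/-- A5: content sequences determine Yamanouchi words -/
def StmtA5 : Prop := ∀ (t r : List ℕ), Yam t → Yam r → t.length = r.length →
  (∀ p < t.length, cont t p = cont r p) → t = r

/-- A6: the 15 words are all the Yamanouchi words with residue sequence iR -/
def StmtA6 : Prop := ∀ w : List ℕ, Yam w → w.Perm (rowWord kap) → resid w = iR → w ∈ TW

/-! ### Part B: the form, the symmetrizer, the submodule theorem -/

/-- q-factorial -/
noncomputable def qfac {A : Type} [CommRing A] (q : A) (b : ℕ) : A :=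
  ∏ j ∈ Finset.range b, ∑ i ∈ Finset.range (j + 1), q ^ i

/-- B1: T_k is self adjoint -/
def StmtB1 : Prop := ∀ (A : Type) [CommRing A] (q : A) (κ : List ℕ) (k : ℕ), k + 1 < κ.sum →
  ∀ f g : List ℕ → A, BB q κ (TL q k f) g = BB q κ f (TL q k g)

/-- B2: symmetrizer: there is a linear operator Y, a polynomial in the T_k, with
q^N (Y f) = B(f,z) z for all f in MM and Y z = (product of the q-factorials) z -/
def StmtB2 : Prop := ∀ (A : Type) [CommRing A] [IsDomain A] (q : A) (κ : List ℕ), IsPart κ →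
  q ≠ 0 → 1 + q ≠ 0 →
  ∃ Y : (List ℕ → A) →ₗ[A] (List ℕ → A),
    (∀ U : Submodule A (List ℕ → A), Stable q κ.sum U → ∀ f ∈ U, Y f ∈ U) ∧
    (∀ f ∈ MM A κ, q ^ inv (rowWord κ) • Y f = BB q κ f (zf A κ) • zf A κ) ∧
    Y (zf A κ) = (κ.map (qfac q)).prod • zf A κ

/-- B3: submodule theorem -/
def StmtB3 : Prop := ∀ (k : Type) [Field k] (q : k) (κ : List ℕ), IsPart κ → q ≠ 0 → 1 + q ≠ 0 →
  ∀ U : Submodule k (List ℕ → k), Stable q κ.sum U → U ≤ SpL q κ →
    U = SpL q κ ∨ U ≤ radL q κ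

/-- B4: B(z,z) -/
def StmtB4 : Prop := ∀ (A : Type) [CommRing A] [IsDomain A] (q : A) (κ : List ℕ), IsPart κ →
  q ≠ 0 → 1 + q ≠ 0 →
  BB q κ (zf A κ) (zf A κ) = q ^ inv (rowWord κ) * (κ.map (qfac q)).prod

/-! ### Part C: the seminormal module -/

/-- q is nonzero and not a root of unity -/
def Gen {K : Type} [Field K] (q : K) : Prop := q ≠ 0 ∧ ∀ m : ℕ, 0 < m → q ^ m ≠ 1

def StmtC1 : Prop := ∀ (K : Type) [Field K] (q : K) (κ : List ℕ), Gen q → ∀ k, k + 1 < κ.sum →
  ∀ f ∈ VV K κ, SL q k f ∈ VV K κ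

def StmtC2 : Prop := ∀ (K : Type) [Field K] (q : K) (κ : List ℕ), Gen q → ∀ k, k + 1 < κ.sum →
  ∀ f ∈ VV K κ, SL q k (SL q k f) = (q - 1) • SL q k f + q • f

def StmtC3 : Prop := ∀ (K : Type) [Field K] (q : K) (κ : List ℕ), Gen q → ∀ k, k + 2 < κ.sum →
  ∀ f ∈ VV K κ, SL q k (SL q (k + 1) (SL q k f)) = SL q (k + 1) (SL q k (SL q (k + 1) f))

def StmtC4 : Prop := ∀ (K : Type) [Field K] (q : K) (κ : List ℕ), Gen q → ∀ k l, k + 1 < l →
  l + 1 < κ.sum → ∀ f ∈ VV K κ, SL q k (SL q l f) = SL q l (SL q k f)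

/-- C5: Murphy operators are diagonal -/
def StmtC5 : Prop := ∀ (K : Type) [Field K] (q : K) (κ : List ℕ), Gen q →
  ∀ t, Yam t → t.Perm (rowWord κ) → ∀ p, p < κ.sum →
    YS q p (ind K t) = q ^ ((p : ℤ) + cont t p) • ind K t

/-! ### Part D: the comparison map -/

/-- D1: universal property of the signed permutation module (functionals th_c) -/
def StmtD1 : Prop := ∀ (K : Type) [Field K] (E : Type) [AddCommGroup E] [Module K E] (n : ℕ)
  (S : ℕ → Module.End K E),
  (∀ k, k + 2 < n → S k * S (k + 1) * S k = S (k + 1) * S k * S (k + 1)) →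
  (∀ k l, k + 1 < l → l + 1 < n → S k * S l = S l * S k) →
  ∀ (c0 : List ℕ), c0.Pairwise (· ≤ ·) → c0.length = n →
  ∀ φ : E →ₗ[K] K,
  (∀ k, k + 1 < n → c0.getD k 0 = c0.getD (k + 1) 0 → φ ∘ₗ S k = - φ) →
  ∃ th : List ℕ → (E →ₗ[K] K), th c0 = φ ∧ ∀ c : List ℕ, c.Perm c0 → ∀ k, k + 1 < n →
    (c.getD (k + 1) 0 < c.getD k 0 → th c = th (swapAt k c) ∘ₗ S k) ∧
    (c.getD k 0 = c.getD (k + 1) 0 → th c ∘ₗ S k = - th c)

/-- D2: the comparison map exists -/
def StmtD2 : Prop := ∀ (K : Type) [Field K] (q : K) (κ : List ℕ), IsPart κ → Gen q →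
  ∃ Ψ : (List ℕ → K) →ₗ[K] (List ℕ → K), PsiSpec q κ Ψ

/-- D3: orthogonality and the recursion for the norms -/
def StmtD3 : Prop := ∀ (K : Type) [Field K] (q : K) (κ : List ℕ), IsPart κ → Gen q →
  ∀ Ψ : (List ℕ → K) →ₗ[K] (List ℕ → K), PsiSpec q κ Ψ →
  (∀ t r, Yam t → Yam r → t.Perm (rowWord κ) → r.Perm (rowWord κ) → t ≠ r →
    BB q κ (Ψ (ind K t)) (Ψ (ind K r)) = 0) ∧
  (∀ t k, Yam t → Yam (swapAt k t) → t.Perm (rowWord κ) → k + 1 < κ.sum →
    t.getD (k + 1) 0 < t.getD k 0 →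
    BB q κ (Ψ (ind K (swapAt k t))) (Ψ (ind K (swapAt k t))) =
      beta q (cont t (k + 1) - cont t k) * BB q κ (Ψ (ind K t)) (Ψ (ind K t)))

/-! ### Part E: the lattice -/

/-- A local domain O with parameter q, fraction field K and residue map to k with kernel generated
by 1+q+q^2, in which all integers prime to 11 are invertible. -/
structure Ctx (O K k : Type) [CommRing O] [IsDomain O] [Field K] [Algebra O K]
    [IsFractionRing O K] [Field k] where
  q : O
  π : O →+* k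
  surj : Function.Surjective π
  ker : ∀ x, π x = 0 ↔ (1 + q + q ^ 2) ∣ x
  θ0 : 1 + q + q ^ 2 ≠ 0
  nru : ∀ m : ℕ, 0 < m → q ^ m ≠ 1
  unit : ∀ x, π x ≠ 0 → IsUnit x
  good : ∀ d : ℕ, d % 11 ≠ 0 → (d : k) ≠ 0

section
variable {O K k : Type} [CommRing O] [IsDomain O] [Field K] [Algebra O K]
    [IsFractionRing O K] [Field k]

/-- the parameter in K -/
def Ctx.Q (c : Ctx O K k) : K := algebraMap O K c.q

/-- the parameter in k -/
def Ctx.r (c : Ctx O K k) : k := c.π c.q

/-- theta in K -/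
def Ctx.Th (c : Ctx O K k) : K := 1 + c.Q + c.Q ^ 2

/-- the lattice generated by the canonical tableau -/
def LatV (c : Ctx O K k) (κ : List ℕ) : Submodule O (List ℕ → K) :=
  Submodule.span O {f | ∃ ks : List ℕ, (∀ k ∈ ks, k + 1 < κ.sum) ∧
    f = applyS c.Q ks (ind K (rowWord κ))}

/-- g is the reduction of Ψ f -/
def Red (c : Ctx O K k) (Ψ : (List ℕ → K) →ₗ[K] (List ℕ → K)) (f : List ℕ → K)
    (g : List ℕ → k) : Prop :=
  ∃ F : List ℕ → O, (∀ w, Ψ f w = algebraMap O K (F w)) ∧ ∀ w, c.π (F w) = g w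

/-- x = theta^(e-100) y with y in O, y = a/b mod theta; no information if b = 0 in k -/
def Led (c : Ctx O K k) (v : CV) (x : K) : Prop :=
  ((v.2.2 : ℕ) : k) ≠ 0 → ∃ y : O, x = c.Th ^ ((v.1 : ℤ) - 100) * algebraMap O K y ∧
    c.π y = ((v.2.1 : ℤ) : k) / ((v.2.2 : ℕ) : k)

/-- the table s describes the function f on Yamanouchi words with residue sequence r -/
def RepF (c : Ctx O K k) (r : List ℕ) (f : List ℕ → K) (s : CS) : Prop :=
  f ∈ VV K kap ∧ (∀ w, f w ≠ 0 → resid w = r) ∧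
  (∀ w, f w ≠ 0 → ∃ v, (enc w, v) ∈ s) ∧
  (∀ w, Yam w → w.Perm (rowWord kap) → ∀ v, (enc w, v) ∈ s → Led c v (f w))

end

/-- E1: triangular elements of the lattice -/
def StmtE1 : Prop := ∀ (O K k : Type) [CommRing O] [IsDomain O] [Field K] [Algebra O K]
    [IsFractionRing O K] [Field k] (c : Ctx O K k) (κ : List ℕ), IsPart κ →
  ∀ t, Yam t → t.Perm (rowWord κ) → ∃ f ∈ LatV c κ, f t = 1 ∧ ∀ r, f r ≠ 0 → r = t ∨ inv t < inv r

/-- E2: characterisation of the lattice -/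
def StmtE2 : Prop := ∀ (O K k : Type) [CommRing O] [IsDomain O] [Field K] [Algebra O K]
    [IsFractionRing O K] [Field k] (c : Ctx O K k) (κ : List ℕ), IsPart κ →
  ∀ Ψ : (List ℕ → K) →ₗ[K] (List ℕ → K), PsiSpec c.Q κ Ψ →
  ∀ f, f ∈ LatV c κ ↔ f ∈ VV K κ ∧ ∀ w, ∃ a : O, Ψ f w = algebraMap O K a

/-- E3: reduction of the lattice is the Specht module over k, with kernel theta times the lattice -/
def StmtE3 : Prop := ∀ (O K k : Type) [CommRing O] [IsDomain O] [Field K] [Algebra O K]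
    [IsFractionRing O K] [Field k] (c : Ctx O K k) (κ : List ℕ), IsPart κ →
  ∀ Ψ : (List ℕ → K) →ₗ[K] (List ℕ → K), PsiSpec c.Q κ Ψ →
  (∀ f ∈ LatV c κ, ∃ g ∈ SpL c.r κ, Red c Ψ f g) ∧
  (∀ g ∈ SpL c.r κ, ∃ f ∈ LatV c κ, Red c Ψ f g) ∧
  (∀ f ∈ LatV c κ, Red c Ψ f 0 → ∃ f' ∈ LatV c κ, f = c.Th • f')

/-- E4: dimension of the Specht module over k: the number of Yamanouchi words -/
def StmtE4 : Prop := ∀ (O K k : Type) [CommRing O] [IsDomain O] [Field K] [Algebra O K]
    [IsFractionRing O K] [Field k] (c : Ctx O K k) (κ : List ℕ), IsPart κ →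
  Module.finrank k (SpL c.r κ) = Nat.card {t : List ℕ // Yam t ∧ t.Perm (rowWord κ)}

/-- E5: the projections to residue sequences preserve the lattice -/
def StmtE5 : Prop := ∀ (O K k : Type) [CommRing O] [IsDomain O] [Field K] [Algebra O K]
    [IsFractionRing O K] [Field k] (c : Ctx O K k) (κ : List ℕ), IsPart κ →
  ∀ f ∈ LatV c κ, ∀ r : List ℕ, (fun w => if resid w = r then f w else 0) ∈ LatV c κ

/-- E6: a lattice element supported on a finite set J of Yamanouchi words is an O-combination of a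
unitriangular family of lattice elements supported on J -/
def StmtE6 : Prop := ∀ (O K k : Type) [CommRing O] [IsDomain O] [Field K] [Algebra O K]
    [IsFractionRing O K] [Field k] (c : Ctx O K k) (κ : List ℕ), IsPart κ →
  ∀ (m : ℕ) (T : ℕ → List ℕ) (F : ℕ → List ℕ → K),
  (∀ i < m, Yam (T i) ∧ (T i).Perm (rowWord κ)) →
  (∀ i j, i < j → j < m → inv (T j) ≤ inv (T i)) →
  (∀ i < m, ∀ j < m, T i = T j → i = j) →
  (∀ j < m, F j ∈ LatV c κ) →
  (∀ j < m, ∀ w, F j w ≠ 0 → ∃ i ≤ j, w = T i) →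
  (∀ j < m, ∃ u : O, IsUnit u ∧ F j (T j) = algebraMap O K u) →
  ∀ f ∈ LatV c κ, (∀ w, f w ≠ 0 → ∃ i < m, w = T i) →
  ∃ a : ℕ → O, f = ∑ j ∈ Finset.range m, a j • F j

/-! ### Part F: the leading term calculus -/

/-- F1: the tables of the 15 paths describe lattice elements -/
def StmtF1 : Prop := ∀ (O K k : Type) [CommRing O] [IsDomain O] [Field K] [Algebra O K]
    [IsFractionRing O K] [Field k] (c : Ctx O K k), ∀ j < 15,
  ∃ f ∈ LatV c kap, RepF c iR f (finC j)

/-- F2: leading terms of the norms of the 15 words -/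
def StmtF2 : Prop := ∀ (O K k : Type) [CommRing O] [IsDomain O] [Field K] [Algebra O K]
    [IsFractionRing O K] [Field k] (c : Ctx O K k)
    (Ψ : (List ℕ → K) →ₗ[K] (List ℕ → K)), PsiSpec c.Q kap Ψ → ∀ j < 15,
  (finG j).1 = enc (Tw j) ∧
    Led c (finG j).2 (BB c.Q kap (Ψ (ind K (Tw j))) (Ψ (ind K (Tw j))))

/-- F3: the final result of the computation -/
def StmtF3 : Prop := ∀ (O K k : Type) [CommRing O] [IsDomain O] [Field K] [Algebra O K]
    [IsFractionRing O K] [Field k] (c : Ctx O K k)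
    (Ψ : (List ℕ → K) →ₗ[K] (List ℕ → K)), PsiSpec c.Q kap Ψ →
  ∃ F : ℕ → List ℕ → K,
    (∀ j < 15, F j ∈ LatV c kap) ∧
    (∀ j < 15, ∀ w, F j w ≠ 0 → ∃ i ≤ j, w = Tw i) ∧
    (∀ j < 15, ∃ u : O, IsUnit u ∧ F j (Tw j) = algebraMap O K u) ∧
    (∀ i < 15, ∀ j < 15, ∃ g : O, BB c.Q kap (Ψ (F i)) (Ψ (F j)) = algebraMap O K g ∧
      c.π g = (((GM.getD i []).getD j 0 : ℤ) : k))

/-! ### Part H: the weight space of the radical -/

/-- H1 -/
def StmtH1 : Prop := ∀ (O K k : Type) [CommRing O] [IsDomain O] [Field K] [Algebra O K]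
    [IsFractionRing O K] [Field k] (c : Ctx O K k), (11 : k) = 0 →
  11 ≤ Module.finrank k ((radL c.r kap).map (NL c.r iR))

/-- H2 -/
def StmtH2 : Prop := ∀ (O K k : Type) [CommRing O] [IsDomain O] [Field K] [Algebra O K]
    [IsFractionRing O K] [Field k] (c : Ctx O K k), (11 : k) ≠ 0 →
  Module.finrank k ((radL c.r kap).map (NL c.r iR)) ≤ 10

/-- H3 -/
def StmtH3 : Prop := ∀ (O K k : Type) [CommRing O] [IsDomain O] [Field K] [Algebra O K]
    [IsFractionRing O K] [Field k] (c : Ctx O K k), radL c.r kap ≠ SpL c.r kap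

/-- H4: contexts exist -/
def StmtH4 : Prop := ∀ (k : Type) [Field k] (q : k), 1 + q + q ^ 2 = 0 →
  (∀ d : ℕ, d % 11 ≠ 0 → (d : k) ≠ 0) →
  ∃ (O K : Type) (_ : CommRing O) (_ : IsDomain O) (_ : Field K) (_ : Algebra O K)
    (_ : IsFractionRing O K) (c : Ctx O K k), c.r = q

/-! ### Part I: reduction of subspaces -/

/-- I1: a valuation ring of ℂ above 11 with algebraically closed residue field -/
def StmtI1 : Prop := ∃ A : ValuationSubring ℂ,
  (11 : A) ∈ IsLocalRing.maximalIdeal A ∧ IsAlgClosed (IsLocalRing.ResidueField A)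

open IsLocalRing in
/-- reduction of a space of functions: the residues of its A-valued members -/
def redL (A : ValuationSubring ℂ) (U : Submodule ℂ (List ℕ → ℂ)) :
    Submodule (ResidueField A) (List ℕ → ResidueField A) where
  carrier := {g | ∃ f : List ℕ → A, (fun w => ((f w : A) : ℂ)) ∈ U ∧ ∀ w, residue A (f w) = g w}
  add_mem' := by
    rintro g g' ⟨f, hf, h⟩ ⟨f', hf', h'⟩
    refine ⟨fun w => f w + f' w, ?_, fun w => by rw [map_add, h, h']; rfl⟩
    have := U.add_mem hf hf'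
    exact this
  zero_mem' := ⟨fun _ => 0, U.zero_mem, fun w => map_zero _⟩
  smul_mem' := by
    rintro c g ⟨f, hf, h⟩
    obtain ⟨a, rfl⟩ := IsLocalRing.residue_surjective (R := A) c
    refine ⟨fun w => a * f w, ?_, fun w => by rw [map_mul, h]; rfl⟩
    have := U.smul_mem (a : ℂ) hf
    exact this

/-- I2: reduction preserves dimensions (S = a finite set of words supporting U) -/
def StmtI2 : Prop := ∀ (A : ValuationSubring ℂ) (U : Submodule ℂ (List ℕ → ℂ)) (S : Finset (List ℕ)),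
  (∀ f ∈ U, ∀ w, w ∉ S → f w = 0) →
  Module.finrank (IsLocalRing.ResidueField A) (redL A U) = Module.finrank ℂ U

/-! ### Part P: lengths -/

/-- the ordered set of all stable subspaces of the Specht module -/
def SubSt {k : Type} [Field k] (q : k) (κ : List ℕ) : Type :=
  {U : Submodule k (List ℕ → k) // Stable q κ.sum U ∧ U ≤ SpL q κ}

instance {k : Type} [Field k] (q : k) (κ : List ℕ) : PartialOrder (SubSt q κ) :=
  inferInstanceAs (PartialOrder {U : Submodule k (List ℕ → k) // Stable q κ.sum U ∧ U ≤ SpL q κ})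

end Pool.Agent.JC3
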